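import Pool.Agent.H87.GEN.Pnt
import Pool.Agent.H75.STAT.ProfW

/-!
# The static input from the game at one point

`Gme L n σ a`: a strategy against the profile of wide cells below the radius `a`, with the slopes
`σ` of the diagonals: the sizes `A R` first, then the tolerance `τ` (after the nest `S`, `m`, the
slopes `s`, `V`, the gap `θ`), the widths `γ`, `μ` and the pairs `F` (after `g₀`), the forward range
`o` (after `o₀`), and at last the error `ε` and the size `r₁`. Everything may depend on the point.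

* `Row.not_wfu`: a row which is not full, with a strategy, is not free from the window;
* `staP_of_gme`, `staU_of_gme`: the static input from strategies at almost all rows.
-/

set_option autoImplicit false

namespace Pool.STR

open MeasureTheory Set Filter Topology Pool.LEV
open scoped ENNReal

/-- **A strategy against the wide cells below `a`.** -/
def Gme (L : ℕ → ℝ → ℝ → ℝ) (n : ℕ) (σ : ℕ → ℝ) (a : ℝ) : Prop :=
  ∃ A R : ℕ, ∀ (S : Finset ℕ) (m : ℕ → ℕ) (s : ℕ) (V : ℚ × ℚ → ℕ) (θ : ℝ),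
    S ⊆ Finset.range n → 1 ≤ m 0 → (∀ j, m j < m (j + 1)) → 0 < θ →
    ∃ τ : ℝ, 0 < τ ∧ ∀ g₀ : ℝ, 0 < g₀ → g₀ ≤ 1 / 2 ^ m R →
      ∃ (γ μ : ℝ) (F : Finset (ℚ × ℚ)), 0 ≤ γ ∧ γ ≤ g₀ ∧ 0 ≤ μ ∧ μ ≤ g₀ ∧
        (∀ x ∈ F, 0 ≤ x.1 ∧ x.1 ≤ x.2 ∧ x.2 ≤ 1 / 2) ∧
        ∀ o₀ : ℝ, 0 < o₀ → ∃ o : ℝ, 0 ≤ o ∧ o ≤ o₀ ∧ ∃ ε : ℝ, 0 < ε ∧ ∃ r₁ : ℝ, 0 < r₁ ∧
          ∀ r b : ℝ, 0 < r → r < r₁ → a ≤ b → |b - a| ≤ r →
            ¬ STAT.CellW L n S σ s A R (fun j => 1 / 2 ^ m j) θ τ γ μ F V o b r ε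

/-- **A row which is not full and has a strategy is not free from the window.** -/
theorem Row.not_wfu {L : ℕ → ℝ → ℝ → ℝ} (hL : ∀ i, Law (L i)) {n : ℕ} {Z : Set ℝ} {ρ : ℝ → ℝ}
    {h Q a sN : ℝ} {s : ℕ → ℝ} (H : Row (L n) L Z ρ h Q a sN s) (G : Gme L n s a) :
    ¬ WfU (L n) Q := by
  intro hw
  have hs : s n = sN := (H.derV n).unique H.der
  have htri : ∀ ε : ℝ, 0 < ε → ∃ r₁ : ℝ, 0 < r₁ ∧ ∀ r : ℝ, 0 < r → r < r₁ → ∀ a' w' : ℝ,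
      a - r ≤ w' → w' ≤ a' → a' ≤ a + r → L n a' a' - ε * r ≤ L n a' w' := by
    intro ε hε
    obtain ⟨r₁, hr₁, h1⟩ := STR.tri (hL n) H.Q0 H.Q1 H.pos H.lt H.val (zero_le_one.trans H.ge)
      H.der hw (half_pos hε)
    refine ⟨r₁, hr₁, fun r hr hr' a' w' k1 k2 k3 => ?_⟩
    have e1 := (abs_le.1 (h1 r hr hr' a' w' k1 k2 k3)).1
    have e2 := (abs_le.1 (h1 r hr hr' a' a' (k1.trans k2) le_rfl k3)).2
    linarith
  obtain ⟨A, R, G⟩ := G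
  obtain ⟨S, m, s', V, θ, p1, p2, p3, p4, P⟩ :=
    STAT.profileW H.pos H.lt (fun i _ => hL i) (fun i _ => H.derV i) htri A R
  obtain ⟨τ, hτ, G⟩ := G S m s' V θ p1 p2 p3 p4
  obtain ⟨g₀, hg, hg', P⟩ := P τ hτ
  obtain ⟨γ, μ, F, k1, k2, k3, k4, k5, G⟩ := G g₀ hg hg'
  obtain ⟨o₀, ho, P⟩ := P γ μ k1 k2 k3 k4 F k5
  obtain ⟨o, l1, l2, ε, hε, r₁, hr₁, G⟩ := G o₀ ho
  obtain ⟨r, b, c1, c2, c3, c4, C⟩ := P o l1 l2 ε hε r₁ hr₁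
  exact G r b c1 c2 c3 c4 C

/-- **(S) at the rows**, from strategies. -/
theorem staP_of_gme {L : ℕ → ℝ → ℝ → ℝ} (hL : ∀ i, Law (L i)) {n : ℕ} {Z : Set ℝ} {ρ : ℝ → ℝ}
    (G : ∀ᵐ Q : ℝ, ∀ (h a sN : ℝ) (s : ℕ → ℝ), Row (L n) L Z ρ h Q a sN s → Gme L n s a) :
    StaP (L n) L Z ρ := by
  filter_upwards [G] with Q hQ h a sN s H
  exact H.not_wfu hL (hQ h a sN s H)

/-- `StaU` from `StaP`. -/
theorem staU_of_staP {ι : Type*} [Countable ι] {P : ℝ → ℝ → ℝ} (hP : Law P)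
    {L : ι → ℝ → ℝ → ℝ} (hL : ∀ i, Law (L i)) {Z : Set ℝ} (hZ : volume Z = 0) {ρ : ℝ → ℝ}
    (hS : StaP P L Z ρ) : StaU P ρ := by
  intro h hh
  filter_upwards [ae_row hP hL hZ (ρ := ρ), hS] with Q k1 k2 h0 h1 hw hd hc hwf hdr
  by_contra hcon
  push Not at hcon
  exact k2 _ _ _ _ (k1 h0 h1 hw hd hc hdr h hh hcon) hwf

/-- **`StaU` from strategies at all rows which are not full.** -/
theorem staU_of_gme {L : ℕ → ℝ → ℝ → ℝ} (hL : ∀ i, Law (L i)) {n : ℕ} {Z : Set ℝ}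
    (hZ : volume Z = 0) {ρ : ℝ → ℝ}
    (G : ∀ᵐ Q : ℝ, ∀ (h a sN : ℝ) (s : ℕ → ℝ), Row (L n) L Z ρ h Q a sN s → Gme L n s a) :
    StaU (L n) ρ :=
  staU_of_staP (hL n) hL hZ (staP_of_gme hL G)

end Pool.STR
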