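import Pool.Agent.H87.GEN.StaI
import Pool.Agent.H87.GEN.StaF
import Pool.Agent.H6.STAT.RateC

/-!
# The static theorem in a class, one cell

`Ctx`: a class with its thresholds along one order of the coordinates, and the rate of the last
one. `cell_false`: there is no static cell below the row `Q` in which the labels exist, if the rate
at `Q` is less than one.
-/

set_option autoImplicit false

namespace Pool.STA

open Finset MvPolynomial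
open Pool.Agent.H49.Ent Pool.Agent.H32.Dense Pool.STK Pool.KS3 Pool.KA Pool.KSAT Pool.K2S Pool.PB
open Pool.GEN Pool.S6C Pool.STAT
open Pool.FLF (Fam.sub)
open Pool.LBT (ThrOf)

variable {m n : ℕ}

/-- **A class with its numbers** along one order of the coordinates. -/
structure Ctx (S : PCl m) (e : ℕ → Fin m) (n : ℕ) (L : ℕ → ℝ → ℝ → ℝ) (θ : ℝ)
    (P' : List (Fin m) × Fin m → ℝ → ℝ → ℝ) (ρ : ℝ → ℝ) : Prop where
  ne : S.Ne
  tm : ∃ C₀ : ℝ, 0 ≤ C₀ ∧ TmC S C₀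
  inj : ∀ j j', 1 ≤ j → j ≤ n + 1 → 1 ≤ j' → j' ≤ n + 1 → e j = e j' → j = j'
  ord : Cnr.Ord e (n + 1)
  θ_pos : 0 < θ
  cht : ThrOf (Pool.CHT.chsys m θ) S P'
  tgs : ThrOf (Pool.ONE.tgs (e (n + 1))) S (fun _ => L (n + 1))
  low : ∀ i, 1 ≤ i → i ≤ n → L i = Pool.CHT.bet P' (fun l => e (l + 1)) (i - 1)
  zero : ∀ a w, L 0 a w = a
  big : ∀ i, n + 1 < i → ∀ a w, L i a w = a
  rate : Pool.ALL.RateOf S (e (n + 1)) ρ

section

variable {S : PCl m} {e : ℕ → Fin m} {L : ℕ → ℝ → ℝ → ℝ} {θ : ℝ}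
  {P' : List (Fin m) × Fin m → ℝ → ℝ → ℝ} {ρ : ℝ → ℝ}

/-- The numbers are laws. -/
theorem Ctx.law (H : Ctx S e n L θ P' ρ) (i : ℕ) : Pool.LEV.Law (L i) := by
  have hid : Pool.LEV.Law (fun a _ : ℝ => a) :=
    ⟨fun _ _ _ _ _ h _ => h, fun _ _ _ _ _ _ _ => le_rfl, fun _ _ _ _ _ _ _ => min_le_right _ _⟩
  rcases Nat.eq_zero_or_pos i with h0 | h0
  · have : L i = fun a _ => a := by
      funext a w
      rw [h0, H.zero]
    rw [this]
    exact hid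
  · rcases Nat.lt_or_ge (n + 1) i with h1 | h1
    · have : L i = fun a _ => a := by
        funext a w
        exact H.big i h1 a w
      rw [this]
      exact hid
    · rcases Nat.lt_or_ge n i with h2 | h2
      · have : i = n + 1 := by omega
        rw [this]
        exact H.tgs.law ()
      · rw [H.low i h0 h2]
        exact H.cht.law _

/-- The numbers are at least the radius. -/
theorem Ctx.ge (H : Ctx S e n L θ P' ρ) (i : ℕ) {a w : ℝ} (hw : 0 ≤ w) (hwa : w ≤ a)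
    (ha : a ≤ 1) : a ≤ L i a w := by
  rcases Nat.eq_zero_or_pos i with h0 | h0
  · rw [h0, H.zero]
  · rcases Nat.lt_or_ge (n + 1) i with h1 | h1
    · rw [H.big i h1]
    · rcases Nat.lt_or_ge n i with h2 | h2
      · have : i = n + 1 := by omega
        rw [this]
        exact H.tgs.low () a w hw hwa ha
      · rw [H.low i h0 h2]
        exact H.cht.low _ a w hw hwa ha

/-- **No new label** of the coordinate `i`, on every event of the class. -/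
theorem Ctx.no (H : Ctx S e n L θ P' ρ) {c : StaC} (K v i : ℕ) (a : ℚ) {h ε₁ : ℝ} (hi : 1 ≤ i)
    (hin : i ≤ n + 1) (ha0 : 0 ≤ a) (ha : a ≤ 1) (hε : ε₁ < θ * a) (hh : 0 < h)
    (hL : L i a a + h ≤ 1) : ∃ c₀ : ℕ, Bas S (fun J F A =>
      ∀ (C : CDat F) (w₀ z v' e₀ : ℕ) (g : ℕ → ℕ → ℕ) (σ : ℕ → ℝ) (κ : ℝ),
      C.Cnd e (n + 1) K w₀ z c.M g 1 A → NL.LipC F C w₀ z v n e₀ g A →
      (∃ e₁ : ℕ, NL.LipC F C w₀ z v (n + 1) e₁ g A) →
      (C.nd e (n + 1) w₀ z c.M g).Ok0 (n + 1) K J w₀ z c.M σ κ 1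
        (Pool.Agent.H49.Ent.cond F.p A True) → v ≤ v' → v' ≤ c.M →
      (∀ i, 1 ≤ i → i ≤ n + 1 → g v i ≤ J) → w₀ + v * z ≤ ⌊(a : ℝ) * J⌋₊ →
      e₀ + 1 * z + ⌈2 * (c.C₆ * z)⌉₊ + c₀ ≤ ⌊ε₁ * J⌋₊ →
      ⌊(L i a a + h) * J⌋₊ + c₀ ≤ g v i + 1 * z →
      ¬ (C.nd e (n + 1) w₀ z c.M g).NewLab0 J w₀ z i v v' 1 c.K' c.C₆ c.η'
        (Pool.Agent.H49.Ent.cond F.p A True)) := by
  rcases Nat.lt_or_ge n i with h2 | h2
  · have hi' : i = n + 1 := by omega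
    subst hi'
    obtain ⟨c₀, hc⟩ := NL.no_last H.tgs (n + 1) K c.K' 1 c.C₆ c.η' h 1 a (Nat.succ_pos n) ha0 ha hh
      hL c.η'_pos one_pos c.C₆_nonneg
    refine ⟨c₀, Bas.mono 0 hc ?_⟩
    intro J _ F A hA C w₀ z v' e₀ g σ κ k1 _ ⟨e₁, k2⟩ k3 k4 k5 k6 k7 _ k9
    exact hA C e w₀ z c.M v v' e₁ g σ κ 1 A A (fun _ h => h) k1 k2 (fun _ h => h)
      (by rw [one_mul]) H.inj rfl k3 k4 k5 k6 k7 k9
  · have hbet := H.low i hi h2
    rw [hbet] at hL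
    obtain ⟨c₀, hc⟩ := NL.no_base H.cht e (n + 1) K c.K' 1 i c.C₆ c.η' h 1 ε₁ a hi hin ha0 ha hε hh
      hL c.η'_pos one_pos c.C₆_nonneg
    refine ⟨c₀, Bas.mono 0 hc ?_⟩
    intro J _ F A hA C w₀ z v' e₀ g σ κ k1 k2 _ k3 k4 k5 k6 k7 k8 k9
    rw [hbet] at k9
    exact hA C w₀ z c.M v v' e₀ g σ κ 1 A A (fun _ h => h) k1
      (fun ω hω j hj1 hj2 => k2 ω hω j hj1 (hj2.trans h2)) (fun _ h => h)
      (by rw [one_mul]) H.inj k3 k4 k5 k6 k7 k8 k9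

/-- Large events of large events. -/
theorem exp_lr {K₁ τ ζ : ℝ} {J z : ℕ} (hK : 0 < K₁) (hτ : 0 < τ) (hζ : 0 < ζ)
    (hz : (z : ℝ) ≤ ζ * J) (hJ : |Real.log K₁| ≤ τ / 2 * J) :
    K₁ * Real.exp (-(τ * J)) ≤ Real.exp (-(τ / (2 * ζ) * z)) := by
  have h1 : K₁ = Real.exp (Real.log K₁) := (Real.exp_log hK).symm
  rw [h1, ← Real.exp_add]
  refine Real.exp_le_exp.2 ?_
  have h2 := le_abs_self (Real.log K₁)
  have h3 : τ / (2 * ζ) * z ≤ τ / (2 * ζ) * (ζ * J) := mul_le_mul_of_nonneg_left hz (by positivity)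
  have h4 : τ / (2 * ζ) * (ζ * J) = τ / 2 * J := by
    field_simp
  rw [h4] at h3
  have h5 : τ * (J : ℝ) = τ / 2 * J + τ / 2 * J := by ring
  linarith

/-- **No static cell with labels** below a row which is not full. -/
theorem cell_false (H : Ctx S e n L θ P' ρ) {σ : ℕ → ℝ} {W : Set ℝ} (hE : ExIn S e n L W)
    {h : ℝ} (hh : 0 < h) (hh1 : h ≤ 1) {c : StaC} {K : ℕ} (hG : StaG (n + 1) K 1 1 4 h c σ)
    (hσ0 : σ 0 = 1) (hσ : ∀ i, 1 ≤ σ i) {B : ℝ} (hB : ∀ i ≤ n + 1, σ i ≤ B) {s : ℕ}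
    {k₀ ε b r γ ζ : ℝ} (hr : 0 < r) (hγ : 0 < γ) (hγ1 : γ ≤ k₀) (hζ : ζ = stp γ r c.M)
    (hc : SCell L n σ s k₀ γ b r ε) (hb : 0 < b) (hε : 0 ≤ ε) (hW : ∀ k ≤ c.M, b + k * ζ ∈ W)
    {δ : ℝ} (hδ : 0 < δ) (hδb : δ ≤ b) (n1 : ε * r ≤ ζ / 8)
    (n2 : (n + 1) * (ε * r) ≤ min c.κ 1 * ζ / 16) (n3 : δ ≤ ζ / 8)
    (n4 : (n + 1) * δ ≤ min c.κ 1 * ζ / 16) {η : ℝ} (hη : 0 < η)
    (top : ∀ i ≤ n + 1, L i b b + B * ((c.M + c.U + 2) * ζ) + ζ + η ≤ 1) {ε₀ ε₁ : ℝ}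
    (hε₀ : 0 < ε₀) (g1 : ε₀ + (1 + 2 * c.C₆) * ζ + η ≤ ε₁) (g2 : ε₁ < θ * b) {Q ρ' : ℝ}
    (q1 : |L (n + 1) b b - Q| + B * (c.M * ζ) + δ + (c.U + 1) * ζ + η ≤ ρ')
    (rt : ∃ τ : ℝ, 0 < τ ∧ Bas S (fun J F A => ∀ B : F.Ω → Prop, Sub B A →
      Real.exp (-(τ * J)) * Pe F.p A ≤ Pe F.p B → ∀ P R : ℕ, (Q - ρ') * J ≤ P → P ≤ R →
      (R : ℝ) ≤ (Q + ρ') * J → CH (Pool.Agent.H49.Ent.cond F.p B True)
          (fun ω => F.X R ω (e (n + 1)))
          (fun ω => (F.X P ω (e (n + 1)), (Function.update (F.X J ω) (e (n + 1)) 0, F.W ω))) ≤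
          (1 - h) * (((R : ℝ) - P) * Real.log 2) + ζ / 4 * J))
    {K₁ Lc : ℝ} (hK₁ : 0 < K₁) (hLc : 0 ≤ Lc)
    (lab : Bas S (fun J F A => ∃ (C : CDat F) (B : F.Ω → Prop), Sub B A ∧
        Pe F.p A ≤ K₁ * Pe F.p B ∧
        C.Cnd e (n + 1) K ⌊b * J⌋₊ ⌊ζ * J⌋₊ c.M (BK.g L σ b ζ δ J) 1 B ∧
        (∀ k ≤ c.M, C.Near e (n + 1) ⌊b * J⌋₊ ⌊ζ * J⌋₊ (BK.g L σ b ζ δ J) k
          ((c.U + 1) * ⌊ζ * J⌋₊) Lc B) ∧
        ∀ v ≤ c.M, NL.LipC F C ⌊b * J⌋₊ ⌊ζ * J⌋₊ v n ⌊ε₀ * J⌋₊ (BK.g L σ b ζ δ J) B ∧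
          ∃ e₁ : ℕ, NL.LipC F C ⌊b * J⌋₊ ⌊ζ * J⌋₊ v (n + 1) e₁ (BK.g L σ b ζ δ J) B)) :
    False := by
  classical
  obtain ⟨C₀, hC₀, hT⟩ := H.tm
  obtain ⟨κm, hκm⟩ : ∃ κm, κm = min c.κ 1 := ⟨_, rfl⟩
  rw [← hκm] at n2 n4
  have hκ0 : 0 < κm := by rw [hκm]; exact lt_min c.κ_pos one_pos
  have hκ1 : κm ≤ 1 := by rw [hκm]; exact min_le_right _ _
  have hM0 : (0 : ℝ) ≤ c.M := Nat.cast_nonneg _
  have hU0 : (0 : ℝ) ≤ c.U := Nat.cast_nonneg _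
  have hn0 : (0 : ℝ) ≤ n := Nat.cast_nonneg _
  have hζ0 : 0 < ζ := by
    rw [hζ]
    unfold stp
    positivity
  have hζM : ((c.M : ℝ) + 2) * ζ = γ * r := by
    rw [hζ]
    unfold stp
    field_simp
  have hB1 : 1 ≤ B := (hσ 0).trans (hB 0 (Nat.zero_le _))
  have hk0r : γ * r ≤ k₀ * r := mul_le_mul_of_nonneg_right hγ1 hr.le
  have hγr : 0 < γ * r := mul_pos hγ hr
  have hεr : 0 ≤ ε * r := mul_nonneg hε hr.le
  -- the levels
  have hlev : ∀ k : ℕ, k ≤ c.M → (k : ℝ) * ζ + ζ ≤ γ * r := by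
    intro k hk
    have h1 : (k : ℝ) ≤ c.M := by exact_mod_cast hk
    have h2 := mul_le_mul_of_nonneg_right h1 hζ0.le
    linarith
  have hLb : ∀ i, b ≤ L i b b := fun i => H.ge i hb.le le_rfl (by
    have := hc.hi
    linarith)
  have topb : ∀ i ≤ n + 1, L i b b + B * (((c.M : ℝ) + c.U + 2) * ζ) + ζ + η ≤ 1 := top
  have hBζ : 0 ≤ B * (((c.M : ℝ) + c.U + 2) * ζ) := by positivity
  -- the rational windows
  have hav : ∀ v : ℕ, ∃ a : ℚ, b + v * ζ < a ∧ (a : ℝ) < b + v * ζ + ζ / (8 * B) := fun v =>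
    exists_rat_btwn (by
      have : 0 < ζ / (8 * B) := by positivity
      linarith)
  choose av hav1 hav2 using hav
  have hζB : ζ / (8 * B) ≤ ζ := by
    rw [div_le_iff₀ (by positivity)]
    nlinarith
  have hBζB : B * (ζ / (8 * B)) = ζ / 8 := by
    field_simp
  have havL : ∀ v ≤ c.M, ∀ i ≤ n + 1, L i (av v) (av v) ≤
      L i b b + σ i * (v * ζ) + ζ / 8 + ε * r := by
    intro v hv i hi
    have h1 := hlev v hv
    have h2 := hav1 v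
    have h3 := hav2 v
    have h0 : (0 : ℝ) ≤ v * ζ := by positivity
    have h4 := hc.stat i hi (av v) (av v) (by linarith) le_rfl (by linarith)
    have h5 := (abs_le.1 h4).2
    have h6 : σ i * (av v - b) ≤ σ i * (v * ζ) + ζ / 8 := by
      have a1 : (av v : ℝ) - b ≤ v * ζ + ζ / (8 * B) := by linarith
      have a2 := mul_le_mul_of_nonneg_left a1 (zero_le_one.trans (hσ i))
      have a3 := mul_le_mul_of_nonneg_right (hB i hi) (by positivity : 0 ≤ ζ / (8 * B))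
      have a4 : σ i * (v * ζ + ζ / (8 * B)) = σ i * (v * ζ) + σ i * (ζ / (8 * B)) := by ring
      linarith
    linarith
  have hσB : ∀ v ≤ c.M, ∀ i ≤ n + 1, σ i * (v * ζ) ≤ B * (((c.M : ℝ) + c.U + 2) * ζ) := by
    intro v hv i hi
    have h1 : (v : ℝ) ≤ c.M := by exact_mod_cast hv
    refine mul_le_mul (hB i hi) (mul_le_mul_of_nonneg_right (by linarith) hζ0.le) (by positivity)
      (by linarith)
  -- no new labels
  have hno : ∀ v i : ℕ, ∃ c₀ : ℕ, v ≤ c.M → 1 ≤ i → i ≤ n + 1 → Bas S (fun J F A =>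
      ∀ (C : CDat F) (w₀ z v' e₀ : ℕ) (g : ℕ → ℕ → ℕ) (σ : ℕ → ℝ) (κ : ℝ),
      C.Cnd e (n + 1) K w₀ z c.M g 1 A → NL.LipC F C w₀ z v n e₀ g A →
      (∃ e₁ : ℕ, NL.LipC F C w₀ z v (n + 1) e₁ g A) →
      (C.nd e (n + 1) w₀ z c.M g).Ok0 (n + 1) K J w₀ z c.M σ κ 1
        (Pool.Agent.H49.Ent.cond F.p A True) → v ≤ v' → v' ≤ c.M →
      (∀ i, 1 ≤ i → i ≤ n + 1 → g v i ≤ J) → w₀ + v * z ≤ ⌊(av v : ℝ) * J⌋₊ →
      e₀ + 1 * z + ⌈2 * (c.C₆ * z)⌉₊ + c₀ ≤ ⌊ε₁ * J⌋₊ →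
      ⌊(L i (av v) (av v) + ζ / 8) * J⌋₊ + c₀ ≤ g v i + 1 * z →
      ¬ (C.nd e (n + 1) w₀ z c.M g).NewLab0 J w₀ z i v v' 1 c.K' c.C₆ c.η'
        (Pool.Agent.H49.Ent.cond F.p A True)) := by
    intro v i
    by_cases hvi : v ≤ c.M ∧ 1 ≤ i ∧ i ≤ n + 1
    · obtain ⟨hv, hi, hin⟩ := hvi
      have h1 := hlev v hv
      have h0 : (0 : ℝ) ≤ v * ζ := by positivity
      have h2 := hav1 v
      have h3 := hav2 v
      have h4 := hc.hi
      obtain ⟨c₀, hc₀⟩ := H.no (c := c) K v i (av v) (h := ζ / 8) (ε₁ := ε₁) hi hin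
        (by
          have : (0 : ℝ) ≤ av v := by linarith
          exact_mod_cast this)
        (by
          have : (av v : ℝ) ≤ 1 := by linarith
          exact_mod_cast this)
        (g2.trans_le (mul_le_mul_of_nonneg_left (by linarith) H.θ_pos.le)) (by linarith)
        (by
          have a1 := havL v hv i hin
          have a2 := hσB v hv i hin
          have a3 := topb i hin
          linarith)
      exact ⟨c₀, fun _ _ _ => hc₀⟩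
    · exact ⟨0, fun h1 h2 h3 => absurd ⟨h1, h2, h3⟩ hvi⟩
  choose c₀ hno using hno
  obtain ⟨c₁, hc₁⟩ : ∃ c₁ : ℕ, ∀ v ≤ c.M, ∀ i ≤ n + 1, c₀ v i ≤ c₁ := by
    refine ⟨∑ v ∈ range (c.M + 1), ∑ i ∈ range (n + 2), c₀ v i, fun v hv i hi => ?_⟩
    exact (Finset.single_le_sum (f := fun i => c₀ v i) (fun _ _ => Nat.zero_le _)
      (mem_range.2 (by omega))).trans (Finset.single_le_sum
      (f := fun v => ∑ i ∈ range (n + 2), c₀ v i) (fun _ _ => Nat.zero_le _)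
      (mem_range.2 (by omega)))
  obtain ⟨τ₃, hτ₃, hno'⟩ := Bas.her (Bas.all (c.M + 1) (Φ := fun v J F A => ∀ i < n + 2, 1 ≤ i →
      ∀ (C : CDat F) (w₀ z v' e₀ : ℕ) (g : ℕ → ℕ → ℕ) (σ : ℕ → ℝ) (κ : ℝ),
      C.Cnd e (n + 1) K w₀ z c.M g 1 A → NL.LipC F C w₀ z v n e₀ g A →
      (∃ e₁ : ℕ, NL.LipC F C w₀ z v (n + 1) e₁ g A) →
      (C.nd e (n + 1) w₀ z c.M g).Ok0 (n + 1) K J w₀ z c.M σ κ 1
        (Pool.Agent.H49.Ent.cond F.p A True) → v ≤ v' → v' ≤ c.M →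
      (∀ i, 1 ≤ i → i ≤ n + 1 → g v i ≤ J) → w₀ + v * z ≤ ⌊(av v : ℝ) * J⌋₊ →
      e₀ + 1 * z + ⌈2 * (c.C₆ * z)⌉₊ + c₀ v i ≤ ⌊ε₁ * J⌋₊ →
      ⌊(L i (av v) (av v) + ζ / 8) * J⌋₊ + c₀ v i ≤ g v i + 1 * z →
      ¬ (C.nd e (n + 1) w₀ z c.M g).NewLab0 J w₀ z i v v' 1 c.K' c.C₆ c.η'
        (Pool.Agent.H49.Ent.cond F.p A True)) fun v hv => Bas.all (n + 2) fun i hi => by
      rcases Nat.eq_zero_or_pos i with h0 | h0
      · exact ⟨1, one_pos, 0, fun _ _ _ _ _ h1 => absurd h1 (by omega)⟩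
      · exact Bas.mono 0 (hno v i (by omega) h0 (by omega)) fun _ _ _ _ h1 _ => h1)
  -- exactness
  obtain ⟨ρ₁, hρ₁⟩ : ∃ ρ₁, ρ₁ = κm * ζ / 8 := ⟨_, rfl⟩
  have hρ₁0 : 0 < ρ₁ := by rw [hρ₁]; positivity
  have hbk : ∀ k : ℕ, k ≤ c.M → 0 < b + k * ζ ∧ b + k * ζ < 1 := by
    intro k hk
    have h1 := hlev k hk
    have h0 : (0 : ℝ) ≤ k * ζ := by positivity
    have h4 := hc.hi
    exact ⟨by linarith, by linarith⟩
  obtain ⟨τ₁, hτ₁, J₁, hex⟩ := bas_ex (S := S) (M := c.M) (wk := fun k => b + k * ζ)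
    (E := fun k J => ((∑ j : Fin n, (1 - L (j + 1) (b + k * ζ) (b + k * ζ))) - ρ₁) *
      Real.log 2 * J) (eps := fun j : Fin n => e (j + 1))
    fun k hk => hE _ (hW k hk) (hbk k hk).1 (hbk k hk).2 ρ₁ hρ₁0
  obtain ⟨τ₂, hτ₂, hrt⟩ := rt
  -- the defect of the events
  obtain ⟨τ, hτ⟩ : ∃ τ, τ = min (min τ₁ τ₂) (min τ₃ (κm * ζ / (32 * (C₀ + 1)))) := ⟨_, rfl⟩
  have hτ0 : 0 < τ := by
    rw [hτ]
    exact lt_min (lt_min hτ₁ hτ₂) (lt_min hτ₃ (by positivity))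
  have t1 : τ ≤ τ₁ := by rw [hτ]; exact (min_le_left _ _).trans (min_le_left _ _)
  have t2 : τ ≤ τ₂ := by rw [hτ]; exact (min_le_left _ _).trans (min_le_right _ _)
  have t3 : τ ≤ τ₃ := by rw [hτ]; exact (min_le_right _ _).trans (min_le_left _ _)
  have t4 : τ ≤ κm * ζ / (32 * (C₀ + 1)) := by
    rw [hτ]; exact (min_le_right _ _).trans (min_le_right _ _)
  obtain ⟨z₀, hsta⟩ := FAM.fam_sta hG (by norm_num) hh.le hh1 (κ₂ := τ / (2 * ζ)) (by positivity)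
  obtain ⟨τ₄, hτ₄, J₄, hall⟩ := lab.and (hrt.and hno')
  obtain ⟨τ', hτ'⟩ : ∃ τ', τ' = min (min τ₄ τ₁) (κm * ζ / (32 * (C₀ + 1))) := ⟨_, rfl⟩
  have hτ'0 : 0 < τ' := by
    rw [hτ']
    exact lt_min (lt_min hτ₄ hτ₁) (by positivity)
  have t5 : τ' ≤ τ₄ := by rw [hτ']; exact (min_le_left _ _).trans (min_le_left _ _)
  have t6 : τ' ≤ τ₁ := by rw [hτ']; exact (min_le_left _ _).trans (min_le_right _ _)
  have t7 : τ' ≤ κm * ζ / (32 * (C₀ + 1)) := by rw [hτ']; exact min_le_right _ _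
  have tC : C₀ * (τ' + τ) ≤ κm * ζ / 16 := by
    have a1 : τ' + τ ≤ κm * ζ / (16 * (C₀ + 1)) := by
      have : κm * ζ / (16 * (C₀ + 1)) = κm * ζ / (32 * (C₀ + 1)) + κm * ζ / (32 * (C₀ + 1)) := by
        field_simp
        norm_num
      linarith
    rw [le_div_iff₀ (by positivity)] at a1
    have a2 : 0 ≤ τ' + τ := by linarith
    nlinarith
  -- the resolution
  obtain ⟨η₁, hη₁⟩ : ∃ η₁, η₁ = min (κm * ζ / 16) (min η (τ / 2)) := ⟨_, rfl⟩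
  have hη₁0 : 0 < η₁ := by
    rw [hη₁]
    exact lt_min (by positivity) (lt_min hη (by positivity))
  have e1 : η₁ ≤ κm * ζ / 16 := by rw [hη₁]; exact min_le_left _ _
  have e2 : η₁ ≤ η := by rw [hη₁]; exact (min_le_right _ _).trans (min_le_left _ _)
  have e3 : η₁ ≤ τ / 2 := by rw [hη₁]; exact (min_le_right _ _).trans (min_le_right _ _)
  have hl5 : 0 ≤ Real.log (5 + 2 * Lc) := Real.log_nonneg (by linarith)
  have hl7 : 0 ≤ Real.log (7 + 2 * Lc) := Real.log_nonneg (by linarith)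
  obtain ⟨D, hD⟩ : ∃ D : ℝ, D = n + (n + 1) * Real.log (5 + 2 * Lc) + 2 * Real.log (7 + 2 * Lc) +
      c₁ + z₀ + B * (c.M + 1) + c.U + |Real.log K₁| + c.M + 20 := ⟨_, rfl⟩
  obtain ⟨J₀, hJ₀⟩ := lin D hη₁0
  obtain ⟨J, hJ, F, A, hA⟩ := H.ne τ' hτ'0 (max J₀ (max J₁ J₄))
  have hJD := hJ₀ J ((le_max_left _ _).trans hJ)
  have hJ1 : J₁ ≤ J := (le_max_left _ _).trans ((le_max_right _ _).trans hJ)
  have hJ4 : J₄ ≤ J := (le_max_right _ _).trans ((le_max_right _ _).trans hJ)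
  have hJr : (0 : ℝ) ≤ J := Nat.cast_nonneg J
  -- the inequalities for the resolution
  have d0 : 0 ≤ (n : ℝ) + (n + 1) * Real.log (5 + 2 * Lc) := by positivity
  have dB : 0 ≤ B * (c.M + 1) := by positivity
  have dc : (0 : ℝ) ≤ c₁ := Nat.cast_nonneg _
  have dz : (0 : ℝ) ≤ z₀ := Nat.cast_nonneg _
  have dK : 0 ≤ |Real.log K₁| := abs_nonneg _
  have dn : 0 ≤ (n + 1) * Real.log (5 + 2 * Lc) := by positivity
  have hκζJ : D ≤ κm * ζ / 16 * J := hJD.trans (mul_le_mul_of_nonneg_right e1 hJr)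
  have hηJ : D ≤ η * J := hJD.trans (mul_le_mul_of_nonneg_right e2 hJr)
  have hτJ : D ≤ τ / 2 * J := hJD.trans (mul_le_mul_of_nonneg_right e3 hJr)
  have hζJ : κm * ζ / 16 * J ≤ ζ / 16 * J := by
    refine mul_le_mul_of_nonneg_right ?_ hJr
    have := mul_le_mul_of_nonneg_right hκ1 hζ0.le
    linarith
  have hζJ' : D ≤ ζ / 16 * J := hκζJ.trans hζJ
  have hζJ0 : 0 ≤ ζ * J := by positivity
  -- the window and the step
  obtain ⟨w₀, hw₀⟩ : ∃ w₀, w₀ = ⌊b * (J : ℝ)⌋₊ := ⟨_, rfl⟩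
  obtain ⟨z, hz⟩ : ∃ z, z = ⌊ζ * (J : ℝ)⌋₊ := ⟨_, rfl⟩
  have w1 : (w₀ : ℝ) ≤ b * J := by rw [hw₀]; exact Nat.floor_le (by positivity)
  have z1 : (z : ℝ) ≤ ζ * J := by rw [hz]; exact Nat.floor_le hζJ0
  have z2 : ζ * J - 1 < z := by
    rw [hz]
    have := Nat.lt_floor_add_one (ζ * (J : ℝ))
    linarith
  have z3 : |(z : ℝ) - ζ * J| ≤ 1 := abs_le.2 ⟨by linarith, by linarith⟩
  obtain ⟨g, hg⟩ : ∃ g, g = BK.g L σ b ζ δ J := ⟨_, rfl⟩
  have hσn : ∀ i, 0 ≤ σ i := fun i => zero_le_one.trans (hσ i)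
  have hLδ : ∀ i, δ ≤ L i b b := fun i => hδb.trans (hLb i)
  obtain ⟨⟨C, B₀, hB₀A, hPB₀, hCnd, hNear, hLip⟩, hrt', hno''⟩ := hall J hJ4 F A (S.mono t5 hA)
  rw [← hw₀, ← hz, ← hg] at hCnd hNear hLip
  have hA0 : 0 < Pe F.p A := (hT τ' J F A hτ'0 hA).1
  have hB₀0 : 0 < Pe F.p B₀ := by
    by_contra hcon
    push Not at hcon
    have := mul_le_mul_of_nonneg_left hcon hK₁.le
    linarith
  -- the numbers of the system
  have hnum : CDat.Num (n + 1) J w₀ z c.M g σ 1 := by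
    rw [hg]
    refine BK.num (B := 0) hσ0 hσ hζ0.le (fun i _ _ => hLδ i) (by linarith) z3 ?_
      fun i h1 h2 => ?_
    · have h1 := topb 0 (Nat.zero_le _)
      have h2 := hLb 0
      have h3 : ((c.M : ℝ) + 1) * ζ ≤ B * (((c.M : ℝ) + c.U + 2) * ζ) := by
        have a1 : ((c.M : ℝ) + 1) * ζ ≤ ((c.M : ℝ) + c.U + 2) * ζ :=
          mul_le_mul_of_nonneg_right (by linarith) hζ0.le
        have a2 : 0 ≤ ((c.M : ℝ) + c.U + 2) * ζ := by positivity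
        nlinarith
      have h4 : (b + (c.M + 1) * ζ + η) * J ≤ 1 * J :=
        mul_le_mul_of_nonneg_right (by linarith) hJr
      have e4 : (b + (c.M + 1) * ζ + η) * J = (b + (c.M + 1) * ζ) * J + η * J := by ring
      linarith
    · have h3 : σ i * c.M ≤ B * c.M := mul_le_mul_of_nonneg_right (hB i h2) hM0
      have e5 : B * ((c.M : ℝ) + 1) = B * c.M + B := by ring
      linarith
  have hsize : ∀ k ≤ c.M, ∀ i, 1 ≤ i → i ≤ n + 1 → g k i + c.U * z ≤ J := by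
    intro k hk i h1 h2
    rw [hg]
    refine BK.hJ (hLδ i) (hσ i) hζ0.le (by linarith) ?_
    have h3 := topb i h2
    have hk' : (k : ℝ) ≤ c.M := by exact_mod_cast hk
    have h4 : σ i * (((k : ℝ) + c.U) * ζ) ≤ B * (((c.M : ℝ) + c.U + 2) * ζ) :=
      mul_le_mul (hB i h2) (mul_le_mul_of_nonneg_right (by linarith) hζ0.le) (by positivity)
        (by linarith)
    have h5 : (L i b b + σ i * (((k : ℝ) + c.U) * ζ) - δ + η) * J ≤ 1 * J :=
      mul_le_mul_of_nonneg_right (by linarith) hJr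
    have e4 : (L i b b + σ i * (((k : ℝ) + c.U) * ζ) - δ + η) * J =
      (L i b b + σ i * (((k : ℝ) + c.U) * ζ) - δ) * J + η * J := by ring
    linarith
  obtain ⟨y, hy⟩ : ∃ y, y = (c.U + 1) * z := ⟨_, rfl⟩
  rw [← hy] at hNear
  have hInp : FAM.Inp F C.addZ e n K w₀ z c.M c.U y g σ 1 Lc B₀ := by
    refine FAM.Inp.of_addZ hCnd hnum H.ord hNear zero_le_one hLc c.U_pos ?_
      fun k hk i h1 h2 => hsize k hk i h1 (by omega)
    rw [hy]
    push_cast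
    linarith
  -- large events
  have hlarge : ∀ B' : F.Ω → Prop, Real.exp (-(τ / (2 * ζ) * z)) * Pe F.p B₀ ≤ Pe F.p B' →
      Real.exp (-(τ * J)) * Pe F.p A ≤ Pe F.p B' := fun B' hB' =>
    FAM.large_of (exp_lr hK₁ hτ0 hζ0 z1 (by linarith)) hB₀0.le hPB₀ hB'
  have hmor : ∀ {t : ℝ} {B' : F.Ω → Prop}, τ ≤ t →
      Real.exp (-(τ * J)) * Pe F.p A ≤ Pe F.p B' →
      Real.exp (-(t * J)) * Pe F.p A ≤ Pe F.p B' := by
    intro t B' ht hB'
    refine le_trans (mul_le_mul_of_nonneg_right (Real.exp_le_exp.2 ?_) hA0.le) hB'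
    have := mul_le_mul_of_nonneg_right ht hJr
    linarith
  obtain ⟨e₀, he₀⟩ : ∃ e₀, e₀ = C₀ * (τ' + τ) * J := ⟨_, rfl⟩
  obtain ⟨ε', hε'⟩ : ∃ ε', ε' = (n * ((ε * r + B * 0 + δ) * J + 1) + ρ₁ * J) * Real.log 2 :=
    ⟨_, rfl⟩
  have hl2 : 0 ≤ Real.log 2 := Real.log_nonneg (by norm_num)
  have hl21 : Real.log 2 ≤ 1 := by
    have := Real.log_two_lt_d9
    linarith
  have he₀0 : 0 ≤ e₀ := by rw [he₀]; positivity
  have hε'0 : 0 ≤ ε' := by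
    rw [hε']
    have : 0 ≤ ε * r + B * 0 + δ := by linarith
    positivity
  have hEnt : ∀ B' : F.Ω → Prop, (∀ ω, B' ω → B₀ ω) →
      Real.exp (-(τ / (2 * ζ) * z)) * Pe F.p B₀ ≤ Pe F.p B' →
      FAM.EntB F e n w₀ z c.M g e₀ ε' B' := by
    intro B' hB'B hB'P
    have hP := hlarge B' hB'P
    have hB'A : Sub B' A := fun ω hω => hB₀A ω (hB'B ω hω)
    have hB'0 : 0 < Pe F.p B' := lt_of_lt_of_le (mul_pos (Real.exp_pos _) hA0) hP
    refine ⟨hB'0, ?_, fun k hk => ?_⟩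
    · rw [he₀]
      exact hT.sub hτ'0 hτ0.le hA hB'A hP hB'0
    · have hk0 := hbk k hk
      have h1 := hex J hJ1 F A (S.mono t6 hA) B' hB'A (hmor t1 hP) k hk (w₀ + k * z) ?_ ?_
      · rw [hε']
        refine h1.num fun j => ?_
        have h2 : (j : ℕ) + 1 ≤ n + 1 := by
          have := j.2
          omega
        have h3 := hlev k hk
        have h0 : (0 : ℝ) ≤ k * ζ := by positivity
        rw [hg]
        exact BK.ex_le (hσn _) (hc.stat _ h2 (b + k * ζ) (b + k * ζ) (by linarith) le_rfl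
          (by linarith)) (by linarith) (hB _ h2) le_rfl
      · refine Nat.le_floor ?_
        push_cast
        have a1 := mul_le_mul_of_nonneg_left z1 (Nat.cast_nonneg (α := ℝ) k)
        have e6 : (b + k * ζ) * (J : ℝ) = b * J + k * (ζ * J) := by ring
        rw [e6]
        linarith
      · refine Nat.floor_le_of_le ?_
        have := mul_le_mul_of_nonneg_right hk0.2.le hJr
        linarith
  have hκz : κm * (ζ * J - 1) ≤ κm * z := mul_le_mul_of_nonneg_left z2.le hκ0.le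
  have hε'J : ε' ≤ κm * ζ / 4 * J + n := by
    have a1 : 0 ≤ n * ((ε * r + B * 0 + δ) * J + 1) + ρ₁ * J := by
      have : 0 ≤ ε * r + B * 0 + δ := by linarith
      positivity
    have a2 : ε' ≤ n * ((ε * r + B * 0 + δ) * J + 1) + ρ₁ * J := by
      rw [hε']
      exact mul_le_of_le_one_right a1 hl21
    have a3 : n * ((ε * r + B * 0 + δ) * J + 1) = (n * (ε * r) + n * δ) * J + n := by ring
    have a4 : (n : ℝ) * (ε * r) + n * δ ≤ κm * ζ / 8 := by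
      have b1 : (n : ℝ) * (ε * r) ≤ (n + 1) * (ε * r) :=
        mul_le_mul_of_nonneg_right (by linarith) hεr
      have b2 : (n : ℝ) * δ ≤ (n + 1) * δ := mul_le_mul_of_nonneg_right (by linarith) hδ.le
      linarith
    have a5 := mul_le_mul_of_nonneg_right a4 hJr
    have a6 : ρ₁ * J = κm * ζ / 8 * J := by rw [hρ₁]
    have a7 : κm * ζ / 4 * J = κm * ζ / 8 * J + κm * ζ / 8 * J := by ring
    linarith
  have he₀J : e₀ ≤ κm * ζ / 16 * J := by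
    rw [he₀]
    exact mul_le_mul_of_nonneg_right tC hJr
  have hκJ : e₀ + ε' + (n + 1 : ℕ) * Real.log (5 + 2 * Lc) ≤ min c.κ 1 * z := by
    rw [← hκm]
    push_cast
    have a1 : κm * (ζ * J - 1) = κm * ζ / 16 * J * 16 - κm := by ring
    have a2 : κm * ζ / 4 * J = κm * ζ / 16 * J * 4 := by ring
    linarith
  have herJ : ζ / 4 * J + 2 * Real.log (7 + 2 * Lc) ≤ z := by
    have a1 : ζ * J = ζ / 16 * J * 16 := by ring
    have a2 : ζ / 4 * J = ζ / 16 * J * 4 := by ring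
    linarith
  -- the static theorem
  obtain ⟨B₁, hB₁B, hB₁P, v, v', i, hvv, hvM, hi1, hin, hNL⟩ := hsta m J F C.addZ e w₀ z y g Lc
    e₀ ε' (ζ / 4 * J) B₀ B₀ (by
      have a1 : (z₀ : ℝ) ≤ z := by
        have a2 : ζ * J = ζ / 16 * J * 16 := by ring
        linarith
      exact_mod_cast a1) hInp (fun _ h => h) hB₀0 he₀0 hε'0 (by positivity) hκJ herJ hEnt
    (fun _ B' hB'B hB'P k hk R h1 h2 => by
      have hP := hlarge B' hB'P
      have hB'A : Sub B' A := fun ω hω => hB₀A ω (hB'B ω hω)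
      have hk' : (k : ℝ) ≤ c.M := by exact_mod_cast hk
      have h3 := BK.near (L := L) (σ := σ) (b := b) (ζ := ζ) (δ := δ) (J := J) (k := k)
        (i := n + 1) (Q := Q) (r₁ := |L (n + 1) b b - Q|) (r₂ := B * (c.M * ζ)) (ρ := ρ')
        (y := y) (hLδ _) (hσn _) hζ0.le hδ.le le_rfl
        (mul_le_mul (hB _ le_rfl) (mul_le_mul_of_nonneg_right hk' hζ0.le) (by positivity)
          (by linarith)) (by
          have a1 : (y : ℝ) ≤ (c.U + 1) * (ζ * J) := by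
            rw [hy]
            push_cast
            exact mul_le_mul_of_nonneg_left z1 (by positivity)
          have a2 := mul_le_mul_of_nonneg_right q1 hJr
          have a3 : (|L (n + 1) b b - Q| + B * (c.M * ζ) + δ + (c.U + 1) * ζ + η) * J =
            (|L (n + 1) b b - Q| + B * (c.M * ζ) + δ) * J + (c.U + 1) * (ζ * J) + η * J := by
            ring
          linarith)
      rw [← hg] at h3
      refine hrt' B' hB'A (hmor t2 hP) (g k (n + 1)) R h3.1 h1 ?_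
      have h4 : (R : ℝ) ≤ g k (n + 1) + y := by exact_mod_cast h2
      linarith [h3.2])
  -- there is no new label
  have hP := hlarge B₁ hB₁P
  have hB₁A : Sub B₁ A := fun ω hω => hB₀A ω (hB₁B ω hω)
  have hvM' : v ≤ c.M := hvv.trans hvM
  have hOk := hInp.ok0 hB₁B (hEnt B₁ hB₁B hB₁P) hε'0 (κ := c.κ) (by
    refine hκJ.trans (mul_le_mul_of_nonneg_right (min_le_left _ _) (Nat.cast_nonneg _)))
  have hv0 : (0 : ℝ) ≤ v := Nat.cast_nonneg v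
  refine hno'' B₁ hB₁A (hmor t3 hP) v (by omega) i (by omega) hi1 C.addZ w₀ z v' ⌊ε₀ * J⌋₊ g σ c.κ
    (hCnd.addZ.sub hB₁B) (fun ω hω => (hLip v hvM').1 ω (hB₁B ω hω))
    (by
      obtain ⟨e₁, h1⟩ := (hLip v hvM').2
      exact ⟨e₁, fun ω hω => h1 ω (hB₁B ω hω)⟩) hOk hvv hvM
    (fun j h1 h2 => (Nat.le_add_right _ _).trans (hsize v hvM' j h1 h2)) ?_ ?_ ?_ hNL
  · refine Nat.le_floor ?_
    push_cast
    have a1 := mul_le_mul_of_nonneg_left z1 hv0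
    have a2 := mul_le_mul_of_nonneg_right (hav1 v).le hJr
    have e6 : (b + v * ζ) * (J : ℝ) = b * J + v * (ζ * J) := by ring
    rw [e6] at a2
    linarith
  · refine Nat.le_floor ?_
    push_cast
    have a1 : (⌊ε₀ * (J : ℝ)⌋₊ : ℝ) ≤ ε₀ * J := Nat.floor_le (by positivity)
    have hC₆z : 0 ≤ 2 * (c.C₆ * z) :=
      mul_nonneg (by norm_num) (mul_nonneg c.C₆_nonneg (Nat.cast_nonneg z))
    have a2 := (Nat.ceil_lt_add_one hC₆z).le
    have a3 : 2 * (c.C₆ * z) ≤ 2 * (c.C₆ * (ζ * J)) :=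
      mul_le_mul_of_nonneg_left (mul_le_mul_of_nonneg_left z1 c.C₆_nonneg) (by norm_num)
    have a4 : (c₀ v i : ℝ) ≤ c₁ := by exact_mod_cast hc₁ v hvM' i hin
    have a5 := mul_le_mul_of_nonneg_right g1 hJr
    have a6 : (ε₀ + (1 + 2 * c.C₆) * ζ + η) * J =
      ε₀ * J + ζ * J + 2 * (c.C₆ * (ζ * J)) + η * J := by ring
    linarith
  · have a1 := havL v hvM' i hin
    have a2 : ((⌊(L i (av v) (av v) + ζ / 8) * (J : ℝ)⌋₊ : ℕ) : ℝ) ≤
        (L i (av v) (av v) + ζ / 8) * J := by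
      refine Nat.floor_le (mul_nonneg ?_ hJr)
      have b1 := H.ge i (a := av v) (w := av v) (by
        have := hav1 v
        have : (0 : ℝ) ≤ v * ζ := by positivity
        linarith) le_rfl (by
        have b2 := hav2 v
        have b3 := hlev v hvM'
        have b4 := hc.hi
        linarith)
      have b2 := hav1 v
      have : (0 : ℝ) ≤ v * ζ := by positivity
      linarith
    have a3 := BK.g_lb (L := L) (σ := σ) (b := b) (ζ := ζ) (δ := δ) (J := J) (k := v) (i := i)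
    rw [← hg] at a3
    have a4 : (c₀ v i : ℝ) ≤ c₁ := by exact_mod_cast hc₁ v hvM' i hin
    have a5 := mul_le_mul_of_nonneg_right
      (by linarith : L i (av v) (av v) + ζ / 8 ≤ L i b b + σ i * (v * ζ) - δ + ζ / 2) hJr
    have a6 : (L i b b + σ i * (v * ζ) - δ + ζ / 2) * (J : ℝ) =
      (L i b b + σ i * (v * ζ) - δ) * J + ζ / 16 * J * 8 := by ring
    have a7 : ζ * J = ζ / 16 * J * 16 := by ring
    have a8 : ((⌊(L i (av v) (av v) + ζ / 8) * (J : ℝ)⌋₊ + c₀ v i : ℕ) : ℝ) ≤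
        ((g v i + 1 * z : ℕ) : ℝ) := by
      push_cast
      linarith
    exact_mod_cast a8

end

end Pool.STA
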