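import Pool.Agent.H74.STAT.NNo
import Pool.Agent.H90.STAT.FamA
import Pool.Agent.H82.STAT.Bk
import Pool.Agent.H75.STAT.ShG

/-!
# The static theorem in a class: the two inputs

One class `S`, one order `e 1, …, e n, e (n + 1)` of the coordinates (the last one is the target),
the numbers `L i` of the chain `e 1, …, e i`; `σ i` is the slope of the diagonal of `L i` at the
point `a`. `W`: the good windows, `Att`: the good pairs (radius, window).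

* `ExIn`: exactness of the coordinates `e 1, …, e n` at the good windows;
* `LabIn`: the labels of the levels `b + k ζ`, `k ≤ M`, `ζ = γ r / (M + 2)`, of one degree `K`,
  which is fixed before `M`, `γ` and `r`, in a cell of size `r` in which all numbers are static.
-/

set_option autoImplicit false

namespace Pool.STA

open Finset MvPolynomial
open Pool.Agent.H49.Ent Pool.Agent.H32.Dense Pool.STK Pool.KS3 Pool.KA Pool.KSAT Pool.K2S Pool.PB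
open Pool.GEN Pool.S6C Pool.STAT

variable {m : ℕ}

/-- **Exactness** of the coordinates `e 1, …, e n` at the windows in `W`. -/
def ExIn (S : PCl m) (e : ℕ → Fin m) (n : ℕ) (L : ℕ → ℝ → ℝ → ℝ) (W : Set ℝ) : Prop :=
  ∀ w ∈ W, 0 < w → w < 1 → ∀ ρ : ℝ, 0 < ρ → Bas S (fun J F A =>
    ExW F A (fun j : Fin n => e (j + 1)) ⌊w * J⌋₊
      (((∑ j : Fin n, (1 - L (j + 1) w w)) - ρ) * Real.log 2 * J))

/-- The step of the levels in a cell of size `r`. -/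
noncomputable def stp (γ r : ℝ) (M : ℕ) : ℝ := γ * r / (M + 2)

/-- **The static cell** below `b + γ r`, of size `r`, up to `ε r`; the slopes of the diagonals are
at most `s` at all scales. -/
structure SCell (L : ℕ → ℝ → ℝ → ℝ) (n : ℕ) (σ : ℕ → ℝ) (s : ℕ) (k₀ γ b r ε : ℝ) : Prop where
  lo : k₀ * r ≤ b / 2
  hi : b + γ * r ≤ 1
  one : 2 ≤ s * b
  stat : ∀ i ≤ n + 1, ∀ a' w', b - k₀ * r ≤ w' → w' ≤ a' → a' ≤ b + γ * r →
    |L i a' w' - L i b b - σ i * (a' - b)| ≤ ε * r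
  sl : ∀ i ≤ n + 1, ∀ v, 0 ≤ v → v ≤ b → L i b b - L i (b - v) (b - v) ≤ s * v + ε * r

/-- **The generic centre**: finitely many windows are good, and all pairs with rational offsets. -/
def Gnr (W : Set ℝ) (Att : Set (ℝ × ℝ)) (K : Finset ℝ) (b r : ℝ) : Prop :=
  (∀ k ∈ K, b - k * r ∈ W) ∧
    ∀ p₁ q₁ p₂ q₂ : ℚ, 0 < b - p₂ - q₂ * r → b - p₂ - q₂ * r ≤ b - p₁ - q₁ * r →
      b - p₁ - q₁ * r < 1 → (b - p₁ - q₁ * r, b - p₂ - q₂ * r) ∈ Att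

/-- **The labels of the levels.** The degree `K` depends on the class, on the point `a` and on the
slope `s` only. `U`: the depth of the variation; `ε₀`: the exponent of the gradients of the
coordinates `e 1, …, e n`; `κ r`: the loss of precision. -/
def LabIn (S : PCl m) (e : ℕ → Fin m) (n : ℕ) (L : ℕ → ℝ → ℝ → ℝ) (σ : ℕ → ℝ) (a : ℝ)
    (W : Set ℝ) (Att : Set (ℝ × ℝ)) : Prop :=
  ∀ (s : ℕ) (k₀ : ℝ), 0 < k₀ → k₀ ≤ 1 / 2 → ∃ K : ℕ, ∀ (M U : ℕ) (γ : ℚ) (ε₀ : ℝ),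
    (0 : ℝ) < γ → (γ : ℝ) ≤ k₀ → 0 < ε₀ →
    ∃ κ₀ : ℝ, 0 < κ₀ ∧ ∀ κ : ℝ, 0 < κ → κ ≤ κ₀ →
    ∃ ε : ℝ, 0 < ε ∧ ∃ r₁ : ℝ, 0 < r₁ ∧ ∃ K₀ : Finset ℝ,
    ∀ r b : ℝ, 0 < r → r < r₁ → |b - a| ≤ 2 * r → SCell L n σ s k₀ γ b r ε → Gnr W Att K₀ b r →
    ∃ K₁ Lc : ℝ, 0 < K₁ ∧ 0 ≤ Lc ∧ Bas S (fun J F A =>
      ∃ (C : CDat F) (B : F.Ω → Prop), Sub B A ∧ Pe F.p A ≤ K₁ * Pe F.p B ∧
        C.Cnd e (n + 1) K ⌊b * J⌋₊ ⌊stp γ r M * J⌋₊ M (BK.g L σ b (stp γ r M) (κ * r) J) 1 B ∧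
        (∀ k ≤ M, C.Near e (n + 1) ⌊b * J⌋₊ ⌊stp γ r M * J⌋₊
          (BK.g L σ b (stp γ r M) (κ * r) J) k ((U + 1) * ⌊stp γ r M * J⌋₊) Lc B) ∧
        ∀ v ≤ M, NL.LipC F C ⌊b * J⌋₊ ⌊stp γ r M * J⌋₊ v n ⌊ε₀ * J⌋₊
            (BK.g L σ b (stp γ r M) (κ * r) J) B ∧
          ∃ e₁ : ℕ, NL.LipC F C ⌊b * J⌋₊ ⌊stp γ r M * J⌋₊ v (n + 1) e₁
            (BK.g L σ b (stp γ r M) (κ * r) J) B)

end Pool.STA
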