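import Pool.Agent.H45.EXA.Exv
import Pool.Agent.H27.TOP.All
import Pool.Agent.H63.TOP.T1n
import Pool.Agent.H90.STAT.ExIn
import Pool.Agent.H87.GEN.StaE
import Pool.Agent.H2.GEN.ChBt
import Pool.Agent.H2.GEN.AttI

/-!
# The package of a class: orders, windows, numbers

`Pk hn S P r P' Λ`: a class `S` as in the exactness theorem, with the threshold `P` and the rate `r`
of the last coordinate, the thresholds `P' j` of the chains with gradients at most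
`2 ^ (tht j * w * J)`, `tht j = 1 / (j + 2)`, for all `j` at once, and the numbers `Λ` of the closed
labels. It exists in a subclass (`pk_ex`).

The orders are the pairs `(σ, j)`: `σ` is a permutation of the coordinates before the last one,
which begins with the active coordinate. `cc σ`: the coordinates in the order, the last one at the
end. `Gs (σ, j)`: the good windows of the order; they are measurable and cover almost all windows
below rows which are not full (`gs_cover`).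

`Pk.fac`: the facts at a good window.
-/

set_option autoImplicit false

namespace Pool.PKG

open MeasureTheory Set Filter Topology
open Pool.Agent.H49.Ent Pool.Agent.H32.Dense Pool.STK Pool.KA Pool.KSAT Pool.K2S Pool.PB
open Pool.GEN Pool.S6C Pool.STAT Pool.CHT Pool.GRW Pool.ONE Pool.STA
open Pool.LBT (LSys ThrOf)
open Pool.LBN (cof)
open Pool.ALL (RateOf)
open Pool.TOP (T1c T2c TopS)

variable {n : ℕ}

/-! ### The orders -/

/-- The bound of the gradients. -/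
noncomputable def tht (j : ℕ) : ℝ := 1 / ((j : ℝ) + 2)

theorem tht_pos (j : ℕ) : 0 < tht j := by
  unfold tht
  positivity

theorem tht_ex {c : ℝ} (hc : 0 < c) : ∃ j, tht j < c := by
  obtain ⟨j, hj⟩ := exists_nat_one_div_lt hc
  refine ⟨j, lt_of_le_of_lt ?_ hj⟩
  unfold tht
  exact one_div_le_one_div_of_le (by positivity) (by linarith)

/-- The coordinates before the last one. -/
def bse (i : Fin (n - 1)) : Fin n := ⟨i, by omega⟩

theorem bse_inj : Function.Injective (bse (n := n)) := fun a b h =>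
  Fin.ext (by simpa [bse] using congrArg Fin.val h)

theorem bse_ne (hn : 2 ≤ n) (i : Fin (n - 1)) : bse i ≠ lst hn := by
  intro h
  have h1 := congrArg Fin.val h
  simp only [bse, lst] at h1
  omega

/-- The list of an order. -/
def lis (σ : Equiv.Perm (Fin (n - 1))) : List (Fin n) := List.ofFn fun i => bse (σ i)

/-- The coordinates of an order; the last one at the end. -/
def cc (hn : 2 ≤ n) (σ : Equiv.Perm (Fin (n - 1))) : ℕ → Fin n := cof (lis σ) (lst hn)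

theorem lis_len (σ : Equiv.Perm (Fin (n - 1))) : (lis σ).length = n - 1 := by simp [lis]

theorem lis_nodup (σ : Equiv.Perm (Fin (n - 1))) : (lis σ).Nodup :=
  List.nodup_ofFn.2 (bse_inj.comp σ.injective)

theorem lst_lis (hn : 2 ≤ n) (σ : Equiv.Perm (Fin (n - 1))) : lst hn ∉ lis σ := by
  intro h
  rw [lis, List.mem_ofFn] at h
  obtain ⟨i, hi⟩ := h
  exact bse_ne hn _ hi

theorem mem_lis (hn : 2 ≤ n) (σ : Equiv.Perm (Fin (n - 1))) {i : Fin n} (hi : i ≠ lst hn) :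
    i ∈ lis σ := by
  have h1 : (i : ℕ) < n - 1 := by
    have h2 := i.2
    have h3 : (i : ℕ) ≠ n - 1 := fun h => hi (Fin.ext h)
    omega
  rw [lis, List.mem_ofFn]
  exact ⟨σ.symm ⟨i, h1⟩, by simp [bse]⟩

theorem cc_lt (hn : 2 ≤ n) (σ : Equiv.Perm (Fin (n - 1))) {j : ℕ} (hj : j < n - 1) :
    cc hn σ j = bse (σ ⟨j, hj⟩) := by
  unfold cc
  rw [Pool.LBN.cof_lt (by rw [lis_len]; exact hj)]
  simp [lis]

theorem cc_ge (hn : 2 ≤ n) (σ : Equiv.Perm (Fin (n - 1))) {j : ℕ} (hj : n - 1 ≤ j) :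
    cc hn σ j = lst hn := Pool.LBN.cof_ge (by rw [lis_len]; exact hj)

theorem cc_ne (hn : 2 ≤ n) (σ : Equiv.Perm (Fin (n - 1))) {j : ℕ} (hj : j < n - 1) :
    cc hn σ j ≠ lst hn := by
  rw [cc_lt hn σ hj]
  exact bse_ne hn _

theorem cc_inj' (hn : 2 ≤ n) (σ : Equiv.Perm (Fin (n - 1))) {i j : ℕ} (hi : i < n) (hj : j < n)
    (h : cc hn σ i = cc hn σ j) : i = j := by
  rcases Nat.lt_or_ge i (n - 1) with h1 | h1
  · rcases Nat.lt_or_ge j (n - 1) with h2 | h2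
    · rw [cc_lt hn σ h1, cc_lt hn σ h2] at h
      have h3 := σ.injective (bse_inj h)
      exact congrArg Fin.val h3
    · rw [cc_ge hn σ h2] at h
      exact absurd h (cc_ne hn σ h1)
  · rcases Nat.lt_or_ge j (n - 1) with h2 | h2
    · rw [cc_ge hn σ h1] at h
      exact absurd h.symm (cc_ne hn σ h2)
    · omega

theorem cc_inj (hn : 2 ≤ n) (σ : Equiv.Perm (Fin (n - 1))) : Set.InjOn (cc hn σ) (Set.Iio n) :=
  fun _ hi _ hj h => cc_inj' hn σ hi hj h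

theorem cc_all (hn : 2 ≤ n) (σ : Equiv.Perm (Fin (n - 1))) {i : Fin n} (hi : i ≠ lst hn) :
    ∃ j, j < n - 1 ∧ cc hn σ j = i := by
  have h1 : (i : ℕ) < n - 1 := by
    have h2 := i.2
    have h3 : (i : ℕ) ≠ n - 1 := fun h => hi (Fin.ext h)
    omega
  refine ⟨(σ.symm ⟨i, h1⟩ : Fin (n - 1)), (σ.symm ⟨i, h1⟩).2, ?_⟩
  rw [cc_lt hn σ (σ.symm ⟨i, h1⟩).2]
  simp [bse]

/-- **The orders**: the active coordinate is the first one. -/
def Od (n : ℕ) : Type := {σ : Equiv.Perm (Fin (n - 1)) // ∀ i : Fin (n - 1), (i : ℕ) = 0 → (σ i : ℕ) = 0} × ℕ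

instance : Countable (Od n) := inferInstanceAs (Countable (_ × ℕ))

/-! ### The class -/

/-- **A class with its numbers.** -/
structure Pk (hn : 2 ≤ n) (S : PCl n) (P : ℝ → ℝ → ℝ) (r : ℝ → ℝ)
    (P' : ℕ → List (Fin n) × Fin n → ℝ → ℝ → ℝ)
    (Λ : Finset (Fin n) → Fin n → ℝ → ℝ → ℝ) : Prop where
  cl : ∃ (al : ℝ) (g₀ : ℝ → ℝ) (s : Fin n → ℝ) (d : ℕ → ℝ) (e : ℝ) (K₀ : ℕ) (N : ℚ → ℚ → ℝ),
    0 < al ∧ (∀ ε : ℝ, 0 < ε → 0 < g₀ ε) ∧ ClX s d al g₀ e K₀ N S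
  tgs : ThrOf (tgs (lst hn)) S (fun _ => P)
  rate : RateOf S (lst hn) r
  cht : ∀ j, ThrOf (chsys n (tht j)) S (P' j)
  reg : ∀ j i, Pool.LBT.Reg (P' j i)
  lam : LamW S Λ

/-- **The package exists in a subclass.** -/
theorem pk_ex (hn : 2 ≤ n) {al : ℝ} {g₀ : ℝ → ℝ} {s : Fin n → ℝ} {d : ℕ → ℝ} {e : ℝ} {K₀ : ℕ}
    {N : ℚ → ℚ → ℝ} {S₀ : PCl n} (hal : 0 < al) (hg₀ : ∀ ε : ℝ, 0 < ε → 0 < g₀ ε)
    (hC : ClX s d al g₀ e K₀ N S₀) {P : ℝ → ℝ → ℝ} {r : ℝ → ℝ}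
    (hT : ThrOf (Pool.ONE.tgs (lst hn)) S₀ (fun _ => P)) (hr : RateOf S₀ (lst hn) r) :
    ∃ (S : PCl n) (P' : ℕ → List (Fin n) × Fin n → ℝ → ℝ → ℝ)
      (Λ : Finset (Fin n) → Fin n → ℝ → ℝ → ℝ),
      (∀ (τ : ℝ) (J : ℕ) (F : Fam n J) (A : F.Ω → Prop), S.St τ J F A → S₀.St τ J F A) ∧
      ClX s d al g₀ e K₀ N S ∧ Pk hn S P r P' Λ := by
  obtain ⟨S₁, Q, h1, h2, h3⟩ := Pool.LBT.thr (LSys.sig fun j : ℕ => chsys n (tht j)) S₀
    hC.ne (Pool.LBT.slo_sig fun j => slo_chsys (tht j) S₀)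
    (Pool.LBT.tri_sig fun j => tri_chsys (tht j) S₀)
  obtain ⟨Q', h4, h5, -⟩ := h3.reg
  obtain ⟨S₂, Λ, h6, h7, h8⟩ := lamw S₁ h1
  have h9 : ∀ (τ : ℝ) (J : ℕ) (F : Fam n J) (A : F.Ω → Prop), S₂.St τ J F A → S₀.St τ J F A :=
    fun τ J F A h => h2 τ J F A (h7 τ J F A h)
  exact ⟨S₂, fun j i => Q' ⟨j, i⟩, Λ, h9, hC.sub h6 h9,
    ⟨⟨al, g₀, s, d, e, K₀, N, hal, hg₀, hC.sub h6 h9⟩, hT.sub h9, hr.sub h9,
      fun j => (h4.of_sig j).sub h7, fun j i => h5 ⟨j, i⟩, h8⟩⟩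

section

variable {hn : 2 ≤ n} {S : PCl n} {P : ℝ → ℝ → ℝ} {r : ℝ → ℝ}
  {P' : ℕ → List (Fin n) × Fin n → ℝ → ℝ → ℝ} {Λ : Finset (Fin n) → Fin n → ℝ → ℝ → ℝ}

theorem Pk.ne (H : Pk hn S P r P' Λ) : S.Ne := by
  obtain ⟨al, g₀, s, d, e, K₀, N, -, -, h⟩ := H.cl
  exact h.ne

theorem Pk.tmc (H : Pk hn S P r P' Λ) : TmC S 6 := by
  obtain ⟨al, g₀, s, d, e, K₀, N, -, -, h⟩ := H.cl
  exact Pool.GEN.N83.clx_tmc h

theorem Pk.tmh (H : Pk hn S P r P' Λ) : TmH S :=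
  tmH_of_tmC (by norm_num) H.tmc

theorem Pk.pos (H : Pk hn S P r P' Λ) : Bas S (fun _ F A => 0 < Pe F.p A) := by
  obtain ⟨al, g₀, s, d, e, K₀, N, -, -, h⟩ := H.cl
  exact ⟨1, one_pos, 0, fun J _ F A hA => h.pos 1 J F A hA⟩

/-! ### The windows -/

/-- The diagonal of the threshold of the last coordinate, on the whole line. -/
def dgP (P : ℝ → ℝ → ℝ) (v : ℝ) : ℝ := P (max 0 (min v 1)) (max 0 (min v 1))

theorem dgP_eq (P : ℝ → ℝ → ℝ) {v : ℝ} (h0 : 0 ≤ v) (h1 : v ≤ 1) : dgP P v = P v v := by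
  unfold dgP
  rw [min_eq_left h1, max_eq_right h0]

theorem dgP_mono (hP : Pool.LEV.Law P) : Monotone (dgP P) := by
  intro a b h
  unfold dgP
  have h1 : max 0 (min a 1) ≤ max 0 (min b 1) := max_le_max le_rfl (min_le_min h le_rfl)
  exact hP.mono (le_max_left _ _) le_rfl h1 h1 le_rfl (max_le zero_le_one (min_le_right _ _))

/-- **The windows below rows** with the defect `c`. -/
def Vr (P : ℝ → ℝ → ℝ) (r : ℝ → ℝ) (c : ℝ) : Set ℝ :=
  {g | ∃ a' : ℝ, g < a' ∧ a' ≤ 1 ∧ c < 1 - P a' a' - (r 1 - r (P a' a'))}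

theorem vr_meas (P : ℝ → ℝ → ℝ) (r : ℝ → ℝ) (c : ℝ) : MeasurableSet (Vr P r c) := by
  have h1 : Vr P r c = ⋃ a' : {a' : ℝ // a' ≤ 1 ∧ c < 1 - P a' a' - (r 1 - r (P a' a'))},
      Set.Iio (a' : ℝ) := by
    ext g
    rw [Set.mem_iUnion]
    constructor
    · rintro ⟨a', h1, h2, h3⟩
      exact ⟨⟨a', h2, h3⟩, h1⟩
    · rintro ⟨⟨a', h2, h3⟩, h1⟩
      exact ⟨a', h1, h2, h3⟩
  rw [h1]
  exact (isOpen_iUnion fun _ => isOpen_Iio).measurableSet

/-- **The good windows of an order.** -/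
def Gs (P : ℝ → ℝ → ℝ) (r : ℝ → ℝ) (P' : ℕ → List (Fin n) × Fin n → ℝ → ℝ → ℝ)
    (Λ : Finset (Fin n) → Fin n → ℝ → ℝ → ℝ) (o : Od n) : Set ℝ :=
  Wp Λ (P' o.2) (fun i => bse (o.1.1 i)) ∩ (Vr P r (tht o.2) ∩ {g | ContinuousAt (dgP P) g})

theorem Pk.gs_meas (H : Pk hn S P r P' Λ) (o : Od n) : MeasurableSet (Gs P r P' Λ o) := by
  refine (wp_meas H.lam (H.cht o.2) _).inter ((vr_meas _ _ _).inter ?_)
  have h1 : {g | ContinuousAt (dgP P) g} = {g | ¬ ContinuousAt (dgP P) g}ᶜ := by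
    ext w
    simp only [Set.mem_compl_iff, Set.mem_ofPred_eq, not_not]
  rw [h1]
  exact (dgP_mono (H.tgs.law ())).countable_not_continuousAt.measurableSet.compl

/-- **The orders cover** almost all windows below rows which are not full. -/
theorem Pk.gs_cover (H : Pk hn S P r P' Λ) : ∀ᵐ g : ℝ, 0 < g → g < 1 →
    (∃ a' : ℝ, g < a' ∧ a' ≤ 1 ∧ r 1 - r (P a' a') < 1 - P a' a') →
      ∃ o : Od n, g ∈ Gs P r P' Λ o := by
  obtain ⟨al, g₀, s, d, e, K₀, N, hal, hg₀, hC⟩ := H.cl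
  have hκ : (0 : ℕ) < n - 1 := by omega
  have hact : ∀ w : ℝ, 0 ≤ w → w < 1 → Λ ∅ (bse (⟨0, hκ⟩ : Fin (n - 1))) w w = w :=
    fun w h0 h1 => H.lam.act hC.ne hal (hC.actm.q hg₀) (hC.actb _ rfl) H.pos h0 h1
  choose D hD hcov using fun j : ℕ => wp_cover (φ := bse (n := n)) (κ := ⟨0, hκ⟩) H.lam (H.cht j)
    hact
  have h1 : ∀ᵐ g : ℝ, g ∉ (⋃ j, D j) ∪ {g | ¬ ContinuousAt (dgP P) g} := by
    refine Set.Countable.ae_notMem ?_ _
    exact (Set.countable_iUnion hD).union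
      (dgP_mono (H.tgs.law ())).countable_not_continuousAt
  filter_upwards [h1] with g hg h0 h1' ⟨a', k1, k2, k3⟩
  rw [Set.mem_union, not_or] at hg
  obtain ⟨j, hj⟩ := tht_ex (c := 1 - P a' a' - (r 1 - r (P a' a'))) (by linarith)
  obtain ⟨σ, h2, h3⟩ := hcov j g h0 h1' fun h => hg.1 (Set.mem_iUnion.2 ⟨j, h⟩)
  refine ⟨(⟨σ, fun i hi => by rw [h3 i hi]⟩, j), h2, ⟨a', k1, k2, hj⟩, ?_⟩
  by_contra hcon
  exact hg.2 hcon

/-! ### The facts at a good window -/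

/-- The numbers of an order. -/
noncomputable def LL (hn : 2 ≤ n) (P : ℝ → ℝ → ℝ) (P' : ℕ → List (Fin n) × Fin n → ℝ → ℝ → ℝ)
    (o : Od n) (i : ℕ) (a w : ℝ) : ℝ :=
  if i = 0 then a else if i ≤ n - 1 then bet (P' o.2) (cc hn o.1.1) (i - 1) a w
  else if i = n then P a w else a

/-- The coordinates of an order, as a list which begins at `1`. -/
def ee (hn : 2 ≤ n) (o : Od n) (i : ℕ) : Fin n := cc hn o.1.1 (i - 1)

theorem ee_succ (hn : 2 ≤ n) (o : Od n) : (fun l => ee hn o (l + 1)) = cc hn o.1.1 := rfl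

theorem LL_low {o : Od n} {i : ℕ} (h1 : 1 ≤ i) (h2 : i ≤ n - 1) :
    LL hn P P' o i = bet (P' o.2) (cc hn o.1.1) (i - 1) := by
  funext a w
  unfold LL
  rw [if_neg (by omega), if_pos h2]

theorem LL_lst {o : Od n} : LL hn P P' o (n - 1 + 1) = P := by
  funext a w
  unfold LL
  have : n - 1 + 1 = n := by omega
  rw [this, if_neg (by omega), if_neg (by omega), if_pos rfl]

/-- **The context** of the static theorem. -/
theorem Pk.ctx (H : Pk hn S P r P' Λ) (o : Od n) :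
    Ctx S (ee hn o) (n - 1) (LL hn P P' o) (tht o.2) (P' o.2) r where
  ne := H.ne
  tm := ⟨6, by norm_num, H.tmc⟩
  inj j j' h1 h2 h3 h4 h := by
    have := cc_inj' hn o.1.1 (i := j - 1) (j := j' - 1) (by omega) (by omega) h
    omega
  ord := ⟨fun i h1 h2 h => by
      have := cc_inj' hn o.1.1 (i := i - 1) (j := n - 1 + 1 - 1) (by omega) (by omega) h
      omega, fun j hj => by
      have e1 : ee hn o (n - 1 + 1) = lst hn := cc_ge hn _ (by omega)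
      rw [e1] at hj
      obtain ⟨i, h1, h2⟩ := cc_all hn o.1.1 hj
      exact ⟨i + 1, by omega, by omega, h2⟩⟩
  θ_pos := tht_pos _
  cht := H.cht o.2
  tgs := by
    have e1 : ee hn o (n - 1 + 1) = lst hn := cc_ge hn _ (by omega)
    rw [e1, LL_lst]
    exact H.tgs
  low i h1 h2 := LL_low h1 h2
  zero a w := by
    unfold LL
    rw [if_pos rfl]
  big i hi a w := by
    unfold LL
    rw [if_neg (by omega), if_neg (by omega), if_neg (by omega)]
  rate := by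
    have e1 : ee hn o (n - 1 + 1) = lst hn := cc_ge hn _ (by omega)
    rw [e1]
    exact H.rate

/-- **The facts at a good window** `g` of the order `o`: `c` is the defect of a row above. -/
structure Fac (hn : 2 ≤ n) (S : PCl n) (P : ℝ → ℝ → ℝ) (r : ℝ → ℝ)
    (P' : ℕ → List (Fin n) × Fin n → ℝ → ℝ → ℝ) (o : Od n) (g α Q c : ℝ) : Prop where
  g0 : 0 < g
  g1 : g < 1
  gα : g < α
  α1 : α ≤ 1
  PQ : ∀ a w, 0 < w → w ≤ a → a < α → P a w ≤ Q
  Q0 : 0 < Q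
  Q1 : Q ≤ 1 - c
  thc : tht o.2 < c
  t1 : T1c S (lst hn) α (1 - c)
  t2 : T2c S (lst hn) α Q (1 - c)
  le : ∀ l < n - 1, ∀ a w : ℝ, 0 < w → w ≤ a → a < α → bet (P' o.2) (cc hn o.1.1) l a w ≤ 1 - c
  con : ∀ l, ContinuousAt (fun v => P' o.2 l v v) g
  conP : ContinuousAt (fun v => P v v) g
  gre : ∀ i < n - 1, ∀ l ≤ i, bet (P' o.2) (cc hn o.1.1) l g g ≤
    P' o.2 ((List.range l).map (cc hn o.1.1), cc hn o.1.1 i) g g

theorem cont_of {f : ℝ → ℝ → ℝ} {g : ℝ} (h0 : 0 < g) (h1 : g < 1)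
    (h : ContinuousAt (fun v => f (max 0 (min v 1)) (max 0 (min v 1))) g) :
    ContinuousAt (fun v => f v v) g := by
  refine h.congr ?_
  filter_upwards [Ioo_mem_nhds h0 h1] with v hv
  show f (max 0 (min v 1)) (max 0 (min v 1)) = f v v
  rw [min_eq_left hv.2.le, max_eq_right hv.1.le]

/-- **The facts at every good window.** -/
theorem Pk.fac (H : Pk hn S P r P' Λ) (hTop : TopS n) (hF : FZX (n - 1)) {o : Od n} {g : ℝ}
    (hg : g ∈ Gs P r P' Λ o) : ∃ α Q c : ℝ, Fac hn S P r P' o g α Q c := by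
  obtain ⟨al, g₀, s, d, e, K₀, N, hal, hg₀, hC⟩ := H.cl
  obtain ⟨hW, ⟨a', k1, k2, k3⟩, hcP⟩ := hg
  have hg0 := hW.1.1
  have hg1 := hW.1.2.1
  obtain ⟨Q, hQ⟩ : ∃ Q, Q = P a' a' := ⟨_, rfl⟩
  obtain ⟨c, hc⟩ : ∃ c, c = 1 - P a' a' - (r 1 - r (P a' a')) := ⟨_, rfl⟩
  rw [← hc] at k3
  have hth := tht_pos o.2
  have hc0 : 0 < c := hth.trans k3
  have hQ1 : Q ≤ 1 - c := Pool.TOP.q_le H.rate hc0 (by rw [hc, hQ])
  have hlaw := H.tgs.law ()
  have ha'0 : 0 < a' := hg0.trans k1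
  have hQ0 : 0 < Q := by
    rw [hQ]
    exact ha'0.trans_le (H.tgs.low () a' a' ha'0.le le_rfl k2)
  obtain ⟨α, hα⟩ : ∃ α, α = (g + a') / 2 := ⟨_, rfl⟩
  have hgα : g < α := by rw [hα]; linarith
  have hαa : α < a' := by rw [hα]; linarith
  obtain ⟨ht1, ht2⟩ := hTop hn al g₀ s d hal hg₀ e K₀ N S hC P r H.tgs H.rate α a' Q c
    (hg0.trans hgα).le hαa k2 hQ.ge hc0 (by rw [hc, hQ])
  have hle : ∀ l < n - 1, ∀ a w : ℝ, 0 < w → w ≤ a → a < α →
      bet (P' o.2) (cc hn o.1.1) l a w ≤ 1 - c := fun l hl a w hw hwa haα =>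
    Pool.TOP.t1n ht1 H.ne (H.cht o.2) hth H.tmh (by linarith) (by linarith) (by linarith) l
      ((cc_inj hn o.1.1).mono fun x hx => by
        rw [Set.mem_Iio] at hx ⊢
        omega) (fun j hj => cc_ne hn _ (by omega)) a w hw hwa haα
  have hcε : ∀ i : Fin (n - 1), cc hn o.1.1 i = bse (o.1.1 i) := fun i => cc_lt hn _ i.2
  have hex : VExa S Λ (fun i => bse (o.1.1 i)) g := by
    intro ρ hρ
    refine vst_exa hF hC.ne (C₀ := 6) (by norm_num) H.tmc H.lam hal hg₀ hC.actm H.pos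
      (bse_inj.comp o.1.1.injective) (fun k hk => hC.actb _ ?_) hg0 hg1 hW.1.2.2.1 hW.1.2.2.2 hρ
    exact o.1.2 k hk
  refine ⟨α, Q, c, hg0, hg1, hgα, by linarith, fun a w hw hwa haα => ?_, hQ0, hQ1, k3, ht1, ht2,
    hle, fun l => cont_of hg0 hg1 (hW.2 l), cont_of hg0 hg1 hcP, fun i hi l hl => ?_⟩
  · rw [hQ]
    exact hlaw.mono hw.le hwa (by linarith) (by linarith) le_rfl k2
  · have h1 := pgr hth hC.ne (C₀ := 6) (by norm_num) H.tmc H.lam (H.cht o.2)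
      (bse_inj.comp o.1.1.injective) hcε hW hex hl hi
    have h2 : bet (P' o.2) (cc hn o.1.1) l g g ≤ 1 - tht o.2 * g := by
      have h3 := hle l (by omega) g g hg0 le_rfl hgα
      have h4 : tht o.2 * g ≤ tht o.2 := mul_le_of_le_one_right hth.le hg1.le
      linarith
    rwa [min_eq_left h2] at h1

/-- **Exactness** at the good windows. -/
theorem Pk.exIn (H : Pk hn S P r P' Λ) (hF : FZX (n - 1)) (o : Od n) :
    ExIn S (ee hn o) (n - 1) (LL hn P P' o) (Gs P r P' Λ o) := by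
  obtain ⟨al, g₀, s, d, e, K₀, N, hal, hg₀, hC⟩ := H.cl
  have h1 := exIn_of hF (tht_pos o.2) hC.ne (C₀ := 6) (by norm_num) H.tmc H.pos H.lam (H.cht o.2)
    hal hg₀ hC.actm (e := ee hn o)
    (fun j j' k1 k2 k3 k4 k => by
      have := cc_inj' hn o.1.1 (i := j - 1) (j := j' - 1) (by omega) (by omega) k
      omega)
    (fun _ => hC.actb _ (by
      have e1 : ee hn o 1 = bse (o.1.1 ⟨0, by omega⟩) := cc_lt hn _ (by omega)
      rw [e1]
      exact o.1.2 _ rfl))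
    (L := LL hn P P' o) (fun j hj w => by rw [LL_low (by omega) (by omega)]; rfl)
  intro w hw h0 h1' ρ hρ
  refine h1 w ?_ h0 h1' ρ hρ
  have e1 : ord (ee hn o) (n - 1) = fun i => bse (o.1.1 i) := funext fun i => cc_lt hn _ i.2
  rw [e1]
  exact hw.1

end

end Pool.PKG
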