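import Pool.Agent.H87.GEN.Pnt

/-!
# Rows with a macroscopic deficiency

`Dq ρ Q`: the deficiency of the rate above the row `Q`. It is positive at every row which is not
full, so that it is enough to treat the rows with deficiency at least `c`, for every `c`, with
levels and null sets which depend on `c`.
-/

set_option autoImplicit false

namespace Pool.STR

open MeasureTheory Set Filter Topology Pool.LEV

/-- The deficiency above the row `Q`. -/
def Dq (ρ : ℝ → ℝ) (Q : ℝ) : ℝ := (1 - Q) - (ρ 1 - ρ Q)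

/-- The deficiency is positive at the rows which are not full. -/
theorem dq_pos {ρ : ℝ → ℝ} (hρ : LipschitzWith 1 ρ) {Q : ℝ} (hQ : Q < 1)
    (hd : DifferentiableAt ℝ ρ Q) (h : deriv ρ Q < 1) : 0 < Dq ρ Q := by
  have h1 : ∀ᶠ t in 𝓝[>] Q, slope ρ Q t < 1 :=
    (((hasDerivAt_iff_tendsto_slope.1 hd.hasDerivAt).mono_left
      (nhdsWithin_mono _ fun x hx => ne_of_gt hx)).eventually (gt_mem_nhds h))
  have h2 : ∀ᶠ t in 𝓝[>] Q, t < 1 := by
    filter_upwards [Ioo_mem_nhdsGT hQ] with t ht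
    exact ht.2
  obtain ⟨t, ht1, ht2, ht3⟩ := (h1.and (h2.and self_mem_nhdsWithin)).exists
  have ht3' : 0 < t - Q := sub_pos.2 ht3
  rw [slope_def_field, div_lt_one ht3'] at ht1
  have h3 : ρ 1 - ρ t ≤ 1 - t := by
    have h4 := hρ.dist_le_mul 1 t
    rw [NNReal.coe_one, one_mul, Real.dist_eq, Real.dist_eq, abs_of_pos (by linarith : 0 < 1 - t)]
      at h4
    exact (le_abs_self _).trans h4
  unfold Dq
  linarith

/-- **Rows with deficiency at least `c`**, for every `c`. -/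
theorem staU_of_cut {P : ℝ → ℝ → ℝ} (hP : Law P) {ρ : ℝ → ℝ} (hρ : LipschitzWith 1 ρ)
    (H : ∀ c : ℝ, 0 < c → ∃ (ι : Type) (_ : Countable ι) (L : ι → ℝ → ℝ → ℝ) (Z : Set ℝ),
      (∀ i, Law (L i)) ∧ volume Z = 0 ∧ ∀ᵐ Q : ℝ, ∀ (h a sN : ℝ) (s : ι → ℝ),
        Row P L Z ρ h Q a sN s → c ≤ Dq ρ Q → ¬ WfU P Q) : StaU P ρ := by
  intro h hh
  have hn : ∀ k : ℕ, (0 : ℝ) < 1 / ((k : ℝ) + 1) := fun k => by positivity
  choose ι hι L Z hL hZ H using fun k : ℕ => H _ (hn k)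
  have hrow := fun k => @ae_row (ι k) (hι k) P hP (L k) (hL k) (Z k) (hZ k) ρ
  filter_upwards [ae_all_iff.2 hrow, ae_all_iff.2 H] with Q k1 k2 h0 h1 hw hd hc hwf hdr
  by_contra hcon
  push Not at hcon
  obtain ⟨k, hk⟩ := exists_nat_one_div_lt (dq_pos hρ h1 hdr (by linarith))
  exact k2 k _ _ _ _ (k1 k h0 h1 hw hd hc hdr h hh hcon) hk.le hwf

/-- A row for some of the levels. -/
theorem Row.re {ι κ : Type*} {P : ℝ → ℝ → ℝ} {L : ι → ℝ → ℝ → ℝ} {Z : Set ℝ} {ρ : ℝ → ℝ}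
    {h Q a sN : ℝ} {s : ι → ℝ} (H : Row P L Z ρ h Q a sN s) (E : κ → ι) :
    Row P (fun k => L (E k)) Z ρ h Q a sN (fun k => s (E k)) :=
  ⟨H.Q0, H.Q1, H.lv, H.dg, H.pos, H.lt, H.nz, H.val, H.der, H.ge, fun k => H.derV (E k),
    fun k => H.geV (E k), H.dr, H.h0, H.rt⟩

end Pool.STR
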