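import Pool.Agent.H87.GEN.StaP

/-!
# The static theorem at flat rows

`gmeH_flat`: if all the diagonals below the target have the slope `1` at the point, then all these
coordinates are static. `gmeG_flat`: the strategy at such a point.
-/

set_option autoImplicit false

namespace Pool.STA

open Finset MvPolynomial
open Pool.Agent.H49.Ent Pool.Agent.H32.Dense Pool.STK Pool.KS3 Pool.KA Pool.KSAT Pool.K2S Pool.PB
open Pool.GEN Pool.S6C Pool.STAT
open Pool.LBT (ThrOf)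

/-- **A coordinate with slope one is static.** -/
theorem gmeH_flat {L : ℕ → ℝ → ℝ → ℝ} (hL : ∀ i, Pool.LEV.Law (L i)) {n : ℕ} {σ : ℕ → ℝ} {a : ℝ}
    {W : Set ℝ} {Att : Set (ℝ × ℝ)} (ha0 : 0 < a)
    (hder : ∀ i ≤ n, HasDerivAt (fun x => L i x x) (σ i) a) (hσ : ∀ i ≤ n, 0 ≤ σ i)
    (hlt : ∀ i ≤ n, L i a a < 1) {A R : ℕ} (hA : 1 ≤ A) (hR : 1 ≤ R) {S : Finset ℕ} {i₀ : ℕ}
    (hi : i₀ < n) (hiS : i₀ ∉ S) (h1 : σ i₀ = 1) : STR.GmeH L n σ a W Att A R S := by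
  intro m' s V θ hm1 hms hθ
  have hpow0 : ∀ m : ℕ, (0 : ℝ) < 1 / 2 ^ m := fun m => by positivity
  have hanti : ∀ m m' : ℕ, m ≤ m' → (1 : ℝ) / 2 ^ m' ≤ 1 / 2 ^ m := fun m m' h =>
    one_div_le_one_div_of_le (by positivity) (pow_le_pow_right₀ (by norm_num) h)
  have hmmono : StrictMono m' := strictMono_nat_of_lt_succ hms
  obtain ⟨B, hB, hB0⟩ : ∃ B : ℝ, (∀ i ≤ n, σ i ≤ B) ∧ 0 ≤ B := by
    refine ⟨∑ i ∈ range (n + 1), σ i, fun i hi => Finset.single_le_sum (f := σ)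
      (fun i hi => hσ i (Nat.lt_succ_iff.1 (mem_range.1 hi))) (mem_range.2 (by omega)),
      Finset.sum_nonneg fun i hi => hσ i (Nat.lt_succ_iff.1 (mem_range.1 hi))⟩
  obtain ⟨d, hd, hdg⟩ := diag_near hder hσ hB
  have hl := hlt i₀ hi.le
  refine ⟨1, one_pos, fun g₀ hg hgR => ⟨0, 0, ∅, le_rfl, hg.le, le_rfl, hg.le,
    fun x hx => absurd hx (Finset.notMem_empty x), fun o₀ ho₀ => ⟨0, le_rfl, ho₀.le, θ / 4,
    by linarith, min (d / 4) (min (a / 4) ((1 - L i₀ a a) / (8 * (B + 2)))), ?_, ∅,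
    fun r b hr hrr hba C _ _ => ?_⟩⟩⟩
  · exact lt_min (by linarith) (lt_min (by linarith) (div_pos (by linarith) (by positivity)))
  have r1 : r < d / 4 := hrr.trans_le (min_le_left _ _)
  have r2 : r < a / 4 := hrr.trans_le ((min_le_right _ _).trans (min_le_left _ _))
  have r3 : r * (8 * (B + 2)) < 1 - L i₀ a a := by
    rw [← lt_div_iff₀ (by positivity)]
    exact hrr.trans_le ((min_le_right _ _).trans (min_le_right _ _))
  obtain ⟨hb1, hb2⟩ := abs_le.1 hba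
  have hk1 : (1 : ℝ) / 2 ^ m' 1 ≤ 1 / 2 ^ m' 0 := hanti _ _ (hmmono.monotone (by omega))
  have hk0 : (1 : ℝ) / 2 ^ m' 0 ≤ 1 / 2 := by
    have := hanti 1 (m' 0) hm1
    rwa [pow_one] at this
  have hAr : (1 : ℝ) ≤ A := by exact_mod_cast hA
  obtain ⟨k0, hk0e⟩ : ∃ k0 : ℝ, k0 = 1 / 2 ^ m' 0 := ⟨_, rfl⟩
  obtain ⟨k1, hk1e⟩ : ∃ k1 : ℝ, k1 = 1 / 2 ^ m' 1 := ⟨_, rfl⟩
  have hk00 : 0 < k0 := by rw [hk0e]; exact hpow0 _
  have hk10 : 0 < k1 := by rw [hk1e]; exact hpow0 _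
  have hd1 := C.dyn i₀ hi hiS 0 (by omega)
  have hdi := C.diag i₀ hi hiS (b - k0 * r)
  have hlo := C.lo
  have hhi := C.hi
  simp only [add_zero, sub_zero, zero_mul, zero_add] at hd1 hdi hlo hhi
  rw [← hk0e, ← hk1e] at hd1
  rw [← hk0e] at hdi hlo hk0 hk1
  rw [← hk1e] at hk1
  have hAk : k0 * r ≤ A * k0 * r := by
    have : k0 * r * 1 ≤ k0 * r * A := mul_le_mul_of_nonneg_left hAr (by positivity)
    linarith
  have hk0r : k0 * r ≤ r := by
    have := mul_le_mul_of_nonneg_right hk0 hr.le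
    linarith
  have hk1r : k1 * r ≤ k0 * r := mul_le_mul_of_nonneg_right hk1 hr.le
  have hk0r0 : 0 < k0 * r := mul_pos hk00 hr
  have hk1r0 : 0 < k1 * r := mul_pos hk10 hr
  have hb0 : 0 < b := by linarith
  have hdi' := hdi (by linarith) (by linarith)
  rw [h1, one_mul] at hdi'
  have hdi2 := (abs_le.1 hdi').1
  -- the slope law
  have hsl := (hL i₀).slope (b - k0 * r) (b - k0 * r) (k0 * r) (by linarith) le_rfl hk0r0.le
    (by linarith)
  rw [sub_add_cancel] at hsl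
  have hnear := hdg i₀ hi.le (b - k0 * r) (by
    rw [abs_le]
    constructor <;> linarith)
  have hnear2 := (abs_le.1 hnear).2
  have hab : |b - k0 * r - a| ≤ 3 * r := by
    rw [abs_le]
    constructor <;> linarith
  have hup : L i₀ (b - k0 * r) (b - k0 * r) + k0 * r < 1 := by
    have e1 : (B + 1) * |b - k0 * r - a| ≤ (B + 1) * (3 * r) :=
      mul_le_mul_of_nonneg_left hab (by linarith)
    have e2 : (B + 1) * (3 * r) + r ≤ r * (8 * (B + 2)) := by nlinarith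
    linarith
  rw [min_eq_right hup.le] at hsl
  have hmo := (hL i₀).mono (a := b) (w := b - k1 * r) (a' := b) (w' := b) (by linarith)
    (by linarith) le_rfl (by linarith) le_rfl (by linarith)
  have hθr : 0 < θ * r := mul_pos hθ hr
  have e3 : θ / 4 * r = θ * r / 4 := by ring
  rw [e3] at hdi2
  linarith

/-- **The strategy at flat rows.** -/
theorem gmeG_flat {m n : ℕ} {S : PCl m} {e : ℕ → Fin m} {L : ℕ → ℝ → ℝ → ℝ} {θ : ℝ}
    {P' : List (Fin m) × Fin m → ℝ → ℝ → ℝ} {ρ : ℝ → ℝ} (H : Ctx S e n L θ P' ρ) {σ : ℕ → ℝ}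
    {a : ℝ} {W : Set ℝ} {Att : Set (ℝ × ℝ)}
    (hE : ExIn S e n L W) (hLab : LabIn S e n L σ a W Att) (ha0 : 0 < a)
    (hder : ∀ i ≤ n + 1, HasDerivAt (fun x => L i x x) (σ i) a) (hσ1 : ∀ i ≤ n, σ i = 1)
    (hσ : ∀ i, 1 ≤ σ i) (hlt : ∀ i ≤ n + 1, L i a a < 1) {Q h : ℝ} (hQ : L (n + 1) a a = Q)
    (hρ : DifferentiableAt ℝ ρ Q) (hh : 0 < h) (hdr : deriv ρ Q ≤ 1 - h) :
    STR.GmeG L (n + 1) σ a W Att := by
  refine STR.gmeG_of (A := 1) (R := 1) le_rfl fun S' hS' => ?_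
  by_cases hS : S' = range (n + 1)
  · rw [hS]
    exact gmeH_all H hE hLab ha0 hder (hσ1 0 (Nat.zero_le _)) hσ hlt hQ hρ hh hdr le_rfl
  · have : ∃ i, i < n + 1 ∧ i ∉ S' := by
      by_contra hcon
      push Not at hcon
      exact hS (Finset.Subset.antisymm hS' fun i hi => hcon i (mem_range.1 hi))
    obtain ⟨i, hi, hiS⟩ := this
    exact gmeH_flat H.law ha0 hder (fun i _ => zero_le_one.trans (hσ i)) hlt le_rfl le_rfl hi hiS
      (hσ1 i (by omega))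

end Pool.STA
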