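import Pool.Agent.H87.GEN.Pkg
import Pool.Agent.H87.GEN.Cut
import Pool.Agent.H87.GEN.Flat

/-!
# The rows of the package

`Pk.zb`: the null set of bad windows. `Pk.row_ex`: at every row which is not full the radius lies in
the good windows of an order, as a density point. `Pk.row_lt`, `Pk.row_ge`: the numbers of the
order are smaller than one, and the slopes are at least one.
-/

set_option autoImplicit false

namespace Pool.PKG

open MeasureTheory Set Filter Topology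
open Pool.Agent.H49.Ent Pool.Agent.H32.Dense Pool.STK Pool.KA Pool.KSAT Pool.K2S Pool.PB
open Pool.GEN Pool.S6C Pool.STAT Pool.CHT Pool.GRW Pool.ONE Pool.STA Pool.STR
open Pool.LBT (LSys ThrOf)
open Pool.LBN (cof)
open Pool.ALL (RateOf)
open Pool.TOP (T1c T2c TopS)

variable {n : ℕ} {hn : 2 ≤ n} {S : PCl n} {P : ℝ → ℝ → ℝ} {r : ℝ → ℝ}
  {P' : ℕ → List (Fin n) × Fin n → ℝ → ℝ → ℝ} {Λ : Finset (Fin n) → Fin n → ℝ → ℝ → ℝ}

/-- The bad windows: below a row which is not full, but not a density point of good windows. -/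
def Zb (P : ℝ → ℝ → ℝ) (r : ℝ → ℝ) (P' : ℕ → List (Fin n) × Fin n → ℝ → ℝ → ℝ)
    (Λ : Finset (Fin n) → Fin n → ℝ → ℝ → ℝ) : Set ℝ :=
  {g | ¬ (0 < g → g < 1 → (∃ a' : ℝ, g < a' ∧ a' ≤ 1 ∧ r 1 - r (P a' a') < 1 - P a' a') →
    ∃ o : Od n, g ∈ Gs P r P' Λ o ∧ STR.Dns (Gs P r P' Λ o) g)}

theorem Pk.zb_null (H : Pk hn S P r P' Λ) : volume (Zb P r P' Λ) = 0 := by
  have h1 : ∀ᵐ g : ℝ, 0 < g → g < 1 →
      (∃ a' : ℝ, g < a' ∧ a' ≤ 1 ∧ r 1 - r (P a' a') < 1 - P a' a') →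
        ∃ o : Od n, g ∈ Gs P r P' Λ o ∧ STR.Dns (Gs P r P' Λ o) g := by
    filter_upwards [H.gs_cover, ae_all_iff.2 fun o => STR.dns_ae (H.gs_meas o)] with g h2 h3 k1 k2 k3
    obtain ⟨o, ho⟩ := h2 k1 k2 k3
    exact ⟨o, ho, h3 o ho⟩
  rwa [ae_iff] at h1

/-- The numbers of all orders. -/
noncomputable def LA (hn : 2 ≤ n) (P : ℝ → ℝ → ℝ)
    (P' : ℕ → List (Fin n) × Fin n → ℝ → ℝ → ℝ) (k : Od n × ℕ) : ℝ → ℝ → ℝ := LL hn P P' k.1 k.2

theorem Pk.law (H : Pk hn S P r P' Λ) (k : Od n × ℕ) : Pool.LEV.Law (LA hn P P' k) :=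
  (H.ctx k.1).law k.2

/-- A row above the radius of a row which is not full. -/
theorem Pk.above (H : Pk hn S P r P' Λ) {ι : Type*} {L : ι → ℝ → ℝ → ℝ} {Z : Set ℝ}
    {h Q a sN : ℝ} {s : ι → ℝ} (hR : Row P L Z r h Q a sN s) :
    ∃ a' : ℝ, a < a' ∧ a' ≤ 1 ∧ r 1 - r (P a' a') < 1 - P a' a' := by
  have hlip := H.rate.lip
  have hD : 0 < Dq r Q := dq_pos hlip hR.Q1 hR.dr (by have := hR.rt; have := hR.h0; linarith)
  have h1 := hR.der.continuousAt
  rw [Metric.continuousAt_iff] at h1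
  obtain ⟨δ, hδ, h2⟩ := h1 (Dq r Q / 4) (by linarith)
  obtain ⟨a', ha'⟩ : ∃ a' : ℝ, a' = min (a + δ / 2) 1 := ⟨_, rfl⟩
  have haa : a < a' := by rw [ha']; exact lt_min (by linarith) hR.lt
  have ha1 : a' ≤ 1 := by rw [ha']; exact min_le_right _ _
  have ha2 : a' ≤ a + δ / 2 := by rw [ha']; exact min_le_left _ _
  refine ⟨a', haa, ha1, ?_⟩
  have h3 := @h2 a' (by rw [Real.dist_eq, abs_lt]; constructor <;> linarith)
  rw [hR.val, Real.dist_eq] at h3
  have h4 := hlip.dist_le_mul (P a' a') Q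
  rw [NNReal.coe_one, one_mul, Real.dist_eq, Real.dist_eq] at h4
  have h5 := (abs_lt.1 h3).2
  have h6 := (abs_le.1 h4).1
  have h7 : |P a' a' - Q| < Dq r Q / 4 := h3
  unfold Dq at *
  linarith

/-- **The order of a row.** -/
theorem Pk.row_ex (H : Pk hn S P r P' Λ) {ι : Type*} {L : ι → ℝ → ℝ → ℝ} {Z : Set ℝ}
    {h Q a sN : ℝ} {s : ι → ℝ} (hR : Row P L Z r h Q a sN s) (hZ : Zb P r P' Λ ⊆ Z) :
    ∃ o : Od n, a ∈ Gs P r P' Λ o ∧ STR.Dns (Gs P r P' Λ o) a := by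
  have h1 : a ∉ Zb P r P' Λ := fun h => hR.nz (hZ h)
  unfold Zb at h1
  rw [Set.mem_ofPred_eq, not_not] at h1
  exact h1 hR.pos hR.lt (H.above hR)

/-- **The numbers of the order of a row** are smaller than one. -/
theorem Fac.lt {o : Od n} {g α Q c : ℝ} (F : Fac hn S P r P' o g α Q c) (i : ℕ) :
    LL hn P P' o i g g < 1 := by
  have hc : 0 < c := (tht_pos _).trans F.thc
  unfold LL
  split_ifs with h1 h2 h3
  · exact F.g1
  · exact (F.le (i - 1) (by omega) g g F.g0 le_rfl F.gα).trans_lt (by linarith)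
  · exact (F.PQ g g F.g0 le_rfl F.gα).trans_lt (by have := F.Q1; linarith)
  · exact F.g1

/-- The derivatives of the diagonals of an order at a row. -/
theorem row_der {Z : Set ℝ} {h Q a sN : ℝ} {s : Od n × ℕ → ℝ}
    (hR : Row P (LA hn P P') Z r h Q a sN s) (o : Od n) (i : ℕ) :
    HasDerivAt (fun x => LL hn P P' o i x x) (s (o, i)) a := hR.derV (o, i)

/-- The slope of the time is one. -/
theorem row_zero {Z : Set ℝ} {h Q a sN : ℝ} {s : Od n × ℕ → ℝ}
    (hR : Row P (LA hn P P') Z r h Q a sN s) (o : Od n) : s (o, 0) = 1 := by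
  have h1 := row_der hR o 0
  have e1 : (fun x : ℝ => LL hn P P' o 0 x x) = fun x => x := by
    funext x
    unfold LL
    rw [if_pos rfl]
  rw [e1] at h1
  exact h1.unique (hasDerivAt_id a)

/-- The slopes at a row are at least one. -/
theorem row_ge {Z : Set ℝ} {h Q a sN : ℝ} {s : Od n × ℕ → ℝ}
    (hR : Row P (LA hn P P') Z r h Q a sN s) {o : Od n} {α Q' c : ℝ}
    (F : Fac hn S P r P' o a α Q' c) (i : ℕ) : 1 ≤ s (o, i) :=
  hR.geV (o, i) (F.lt i)

/-- **The active coordinate** at the good windows: its number on the diagonal is the window. -/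
theorem Pk.act_diag (H : Pk hn S P r P' Λ) (hTop : TopS n) (hF : FZX (n - 1)) {o : Od n} {g : ℝ}
    (hg : g ∈ Gs P r P' Λ o) : LL hn P P' o 1 g g = g := by
  obtain ⟨α, Q, c, F⟩ := H.fac hTop hF hg
  obtain ⟨al, g₀, s, d, e, K₀, N, hal, hg₀, hC⟩ := H.cl
  have hW := hg.1
  have hg0 := F.g0
  have hg1 := F.g1
  have hth := tht_pos o.2
  have hj : (0 : ℕ) < n - 1 := by omega
  have hcε : ∀ i : Fin (n - 1), cc hn o.1.1 i = bse (o.1.1 i) := fun i => cc_lt hn _ i.2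
  have hex : VExa S Λ (fun i => bse (o.1.1 i)) g := by
    intro ρ hρ
    refine vst_exa hF hC.ne (C₀ := 6) (by norm_num) H.tmc H.lam hal hg₀ hC.actm H.pos
      (bse_inj.comp o.1.1.injective) (fun k hk => hC.actb _ ?_) hg0 hg1 hW.1.2.2.1 hW.1.2.2.2 hρ
    exact o.1.2 k hk
  have h1 : vs Λ (fun i => bse (o.1.1 i)) g (0 + 1) = g := by
    have h2 := vs_succ Λ (fun i => bse (o.1.1 i)) g (⟨0, hj⟩ : Fin (n - 1))
    have h3 : (Finset.Iio (⟨0, hj⟩ : Fin (n - 1))).image (fun i => bse (o.1.1 i)) = ∅ := by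
      rw [Finset.image_eq_empty]
      ext x
      simp only [Finset.mem_Iio, Finset.notMem_empty, iff_false, not_lt, Fin.le_def]
      exact Nat.zero_le _
    unfold vn at h2
    rw [h3] at h2
    refine h2.trans ?_
    exact H.lam.act hC.ne hal (hC.actm.q hg₀) (hC.actb _ (o.1.2 _ rfl)) H.pos hg0.le hg1
  have h2 : bet (P' o.2) (cc hn o.1.1) 0 g g < 1 - tht o.2 * g := by
    have h3 := F.le 0 hj g g hg0 le_rfl F.gα
    have h4 : tht o.2 * g ≤ tht o.2 := mul_le_of_le_one_right hth.le hg1.le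
    have h5 := F.thc
    linarith
  have h3 := (bet_lt_iff hth hC.ne (C₀ := 6) (by norm_num) H.tmc H.lam (H.cht o.2)
    (bse_inj.comp o.1.1.injective) hcε hW hex hj).1 h2
  have h4 := bet_eq_vst hth hC.ne (C₀ := 6) (by norm_num) H.tmc H.lam (H.cht o.2)
    (bse_inj.comp o.1.1.injective) hcε hW hex hj h3
  rw [LL_low (by omega) (by omega)]
  exact h4.trans h1

/-- Slopes along a set of density one. -/
theorem slope_dns {f : ℝ → ℝ} {W : Set ℝ} {a s : ℝ} (hd : HasDerivAt f s a) (hW : STR.Dns W a)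
    (h : ∀ w ∈ W, f w = w) (ha : a ∈ W) : s = 1 := by
  by_contra hcon
  have hpos : 0 < |1 - s| := abs_pos.2 fun h0 => hcon (by linarith)
  obtain ⟨δ, hδ, h1⟩ := Metric.eventually_nhds_iff.1 (hd.isLittleO.def (half_pos hpos))
  obtain ⟨r₁, hr₁, h2⟩ := hW (1 / 2) (by norm_num)
  obtain ⟨x, hx⟩ : ∃ x, x = min (δ / 2) (r₁ / 2) := ⟨_, rfl⟩
  have hx0 : 0 < x := by rw [hx]; exact lt_min (by linarith) (by linarith)
  have hx1 : x ≤ δ / 2 := by rw [hx]; exact min_le_left _ _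
  have hx2 : x ≤ r₁ / 2 := by rw [hx]; exact min_le_right _ _
  have h3 := h2 x hx0 (by linarith)
  have h4 : ∃ w ∈ Ioo a (a + x), w ∈ W := by
    by_contra hno
    push Not at hno
    have h5 : Ioo a (a + x) ⊆ Ioo (a - x) (a + x) \ W := fun w hw =>
      ⟨⟨by linarith [hw.1], hw.2⟩, hno w hw⟩
    have h6 := (measure_mono h5).trans h3
    rw [Real.volume_Ioo, ENNReal.ofReal_le_ofReal_iff (by linarith)] at h6
    linarith
  obtain ⟨w, hw, hwW⟩ := h4
  have h5 := h1 (y := w) (by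
    rw [Real.dist_eq, abs_lt]
    constructor <;> linarith [hw.1, hw.2])
  rw [h w hwW, h a ha, Real.norm_eq_abs, Real.norm_eq_abs, smul_eq_mul] at h5
  have h6 : w - a - (w - a) * s = (w - a) * (1 - s) := by ring
  have h7 : 0 < w - a := by linarith [hw.1]
  rw [h6, abs_mul, abs_of_pos h7] at h5
  nlinarith

end Pool.PKG
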