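import Pool.Agent.H95.GN.Til

/-!
# The shear of a chain

A chain of labels; `l` is an index, `v` is a direction with `v (c l) = 1`, `v (c j) = 0` for `j < l`.
If at the samples the derivatives of the labels of `c i`, `l < i`, in the direction `v` are `v (c i)`
up to natural errors, then on the natural boxes the labels move by `s v (c i)` when the point is
moved by `s v`, up to natural errors: `shr_fam`.
-/

set_option autoImplicit false

namespace Pool.SHR

open Finset Real MvPolynomial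
open Pool.Agent.H49.Ent Pool.Agent.H32.Dense Pool.STK Pool.KA Pool.KSAT Pool.K2S Pool.PB Pool.S6C
open Pool.GEN Pool.CHT

variable {m J : ℕ}

/-! ### Directions -/

/-- The direction, with no motion of the time. -/
def dvc (v : Fin m → ℝ) : Option (Fin m) → ℝ
  | none => 0
  | some k => v k

/-- The point moved by `s v`. -/
def mvp (v : Fin m → ℝ) (s : ℝ) (b : Option (Fin m) → ℝ) : Option (Fin m) → ℝ :=
  fun o => b o + s * dvc v o

@[simp] theorem mvp_none (v : Fin m → ℝ) (s : ℝ) (b : Option (Fin m) → ℝ) :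
    mvp v s b none = b none := by
  unfold mvp dvc
  ring

@[simp] theorem mvp_some (v : Fin m → ℝ) (s : ℝ) (b : Option (Fin m) → ℝ) (k : Fin m) :
    mvp v s b (some k) = b (some k) + s * v k := rfl

theorem mvp_zero (v : Fin m → ℝ) (b : Option (Fin m) → ℝ) : mvp v 0 b = b := by
  funext o
  unfold mvp
  ring

theorem mvp_add (v : Fin m → ℝ) (s s' : ℝ) (b : Option (Fin m) → ℝ) :
    mvp v s' (mvp v s b) = mvp v (s + s') b := by
  funext o
  unfold mvp
  ring

/-- The polynomials of the moving point. -/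
noncomputable def lnv (v : Fin m → ℝ) (b : Option (Fin m) → ℝ) : Option (Fin m) → Polynomial ℝ :=
  fun o => Polynomial.C (b o) + Polynomial.C (dvc v o) * Polynomial.X

/-- The derivative in the direction `v`. -/
noncomputable def dir (v : Fin m → ℝ) (P : MvPolynomial (Option (Fin m)) ℝ) :
    MvPolynomial (Option (Fin m)) ℝ := ∑ k, C (v k) * pderiv (some k) P

theorem eval_lnv (v : Fin m → ℝ) (b : Option (Fin m) → ℝ) (P : MvPolynomial (Option (Fin m)) ℝ)
    (s : ℝ) : (MvPolynomial.aeval (lnv v b) P).eval s = eval (mvp v s b) P := by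
  rw [Pool.KBX.eval_aeval_poly]
  congr 2
  funext o
  unfold lnv mvp
  simp only [Polynomial.eval_add, Polynomial.eval_mul, Polynomial.eval_C, Polynomial.eval_X]
  ring

theorem der_lnv (v : Fin m → ℝ) (b : Option (Fin m) → ℝ) (P : MvPolynomial (Option (Fin m)) ℝ)
    (s : ℝ) : (Polynomial.derivative (MvPolynomial.aeval (lnv v b) P)).eval s =
      eval (mvp v s b) (dir v P) := by
  classical
  rw [der_aevalσ, Polynomial.eval_finsetSum, Fintype.sum_option]
  unfold dir
  rw [map_sum]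
  have h1 : ((MvPolynomial.aeval (lnv v b)) (pderiv none P) *
      Polynomial.derivative (lnv v b none)).eval s = 0 := by
    rw [Polynomial.eval_mul]
    unfold lnv dvc
    simp
  rw [h1, zero_add]
  refine Finset.sum_congr rfl fun k _ => ?_
  rw [Polynomial.eval_mul, eval_lnv, map_mul, eval_C]
  have h2 : (Polynomial.derivative (lnv v b (some k))).eval s = v k := by
    unfold lnv dvc
    simp
  rw [h2, mul_comm]

theorem natDegree_lnv (v : Fin m → ℝ) (b : Option (Fin m) → ℝ) {P : MvPolynomial (Option (Fin m)) ℝ}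
    {D : ℕ} (hP : P.totalDegree ≤ D) : (MvPolynomial.aeval (lnv v b) P).natDegree ≤ D := by
  refine Pool.KBX.natDegree_aeval_le _ _ (fun o => ?_) hP
  unfold lnv
  refine (Polynomial.natDegree_add_le _ _).trans ?_
  rw [Polynomial.natDegree_C]
  exact max_le (Nat.zero_le _) ((Polynomial.natDegree_C_mul_le _ _).trans Polynomial.natDegree_X_le)

theorem dir_deg (v : Fin m → ℝ) {P : MvPolynomial (Option (Fin m)) ℝ} {D : ℕ}
    (hP : P.totalDegree ≤ D) : (dir v P).totalDegree ≤ D := by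
  unfold dir
  refine (totalDegree_finsetSum _ _).trans (Finset.sup_le fun k _ => ?_)
  refine (totalDegree_mul _ _).trans ?_
  rw [totalDegree_C, zero_add]
  exact Pool.KS3.SML.totalDegree_pderiv_le _ P D (hP.trans (Nat.le_succ _))

theorem dir_dep {c : ℕ → Fin m} {i : ℕ} (v : Fin m → ℝ) {P : MvPolynomial (Option (Fin m)) ℝ}
    (hP : DepC c i P) : DepC c i (dir v P) := by
  intro b b' hn hb
  have e : MvPolynomial.aeval (lnv v b) P = MvPolynomial.aeval (lnv v b') P := by
    refine Polynomial.funext fun s => ?_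
    rw [eval_lnv, eval_lnv]
    refine hP _ _ ?_ fun k hk => ?_
    · rw [mvp_none, mvp_none, hn]
    · rw [mvp_some, mvp_some, hb k hk]
  have h1 := der_lnv v b P 0
  have h2 := der_lnv v b' P 0
  rw [mvp_zero] at h1 h2
  rw [← h1, ← h2, e]

/-- The polynomial at the moved point. -/
theorem dep_mvp {c : ℕ → Fin m} {i : ℕ} {v : Fin m → ℝ} (hv : ∀ j < i, v (c j) = 0)
    {P : MvPolynomial (Option (Fin m)) ℝ} (hP : DepC c i P) (s : ℝ) (b : Option (Fin m) → ℝ) :
    eval (mvp v s b) P = eval b P :=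
  hP _ _ (mvp_none _ _ _) fun j hj => by rw [mvp_some, hv j hj, mul_zero, add_zero]

/-! ### The mean value -/

/-- **Markov**: the derivative at a point. -/
theorem markov (D : ℕ) : ∃ C : ℝ, 1 ≤ C ∧ ∀ {m : ℕ} (v : Fin m → ℝ) (b : Option (Fin m) → ℝ)
    (P : MvPolynomial (Option (Fin m)) ℝ) (M : ℝ) (g : ℕ), P.totalDegree ≤ D → 0 ≤ M →
    (∀ s : ℝ, 0 ≤ s → s ≤ 1 / 2 ^ g → |eval (mvp v s b) P| ≤ M) →
      |eval b (dir v P)| ≤ C * M * 2 ^ g := by
  obtain ⟨C, hC, hlip⟩ := Pool.Agent.H40.SLP.lip_one D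
  refine ⟨C, hC, ?_⟩
  intro m v b P M g hP hM0 hM
  obtain ⟨f, hf⟩ : ∃ f : Polynomial ℝ, f = (MvPolynomial.aeval (lnv v b) P).comp
      (Polynomial.C (1 / 2 ^ g) * Polynomial.X) := ⟨_, rfl⟩
  have hfe : ∀ τ, f.eval τ = eval (mvp v (1 / 2 ^ g * τ) b) P := by
    intro τ
    rw [hf, Polynomial.eval_comp, eval_lnv]
    simp only [Polynomial.eval_mul, Polynomial.eval_C, Polynomial.eval_X]
  have hfd : f.natDegree ≤ D := by
    rw [hf]
    refine Polynomial.natDegree_comp_le.trans ?_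
    calc (MvPolynomial.aeval (lnv v b) P).natDegree *
          (Polynomial.C (1 / 2 ^ g : ℝ) * Polynomial.X).natDegree ≤ D * 1 :=
          Nat.mul_le_mul (natDegree_lnv v b hP)
            ((Polynomial.natDegree_C_mul_le _ _).trans Polynomial.natDegree_X_le)
      _ = D := mul_one _
  have h1 := hlip f M hfd (fun τ hτ => by
    rw [hfe]
    have h2 : (0 : ℝ) ≤ 1 / 2 ^ g := by positivity
    exact hM _ (mul_nonneg h2 hτ.1) (by
      calc 1 / 2 ^ g * τ ≤ 1 / 2 ^ g * 1 := mul_le_mul_of_nonneg_left hτ.2 h2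
        _ = _ := mul_one _))
  have h2 : |(Polynomial.derivative f).eval 0| ≤ C * M := by
    have h3 := f.hasDerivAt 0
    have h4 : Filter.Tendsto (slope (fun x => f.eval x) 0) (nhdsWithin 0 {0}ᶜ)
        (nhds ((Polynomial.derivative f).eval 0)) := hasDerivAt_iff_tendsto_slope.1 h3
    have h5 := h4.abs
    refine le_of_tendsto h5 ?_
    have h6 : Set.Ioo (-1 : ℝ) 1 ∈ nhds (0 : ℝ) := Ioo_mem_nhds (by norm_num) (by norm_num)
    filter_upwards [self_mem_nhdsWithin, mem_nhdsWithin_of_mem_nhds h6] with y hy1 hy2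
    have hy0 : y ≠ 0 := hy1
    rw [slope_def_field, sub_zero, abs_div, div_le_iff₀ (abs_pos.2 hy0)]
    have h7 := h1 y 0 (abs_le.2 ⟨by linarith [hy2.1], by linarith [hy2.2]⟩) (by simp)
    rw [sub_zero] at h7
    exact h7
  have h3 : (Polynomial.derivative f).eval 0 = 1 / 2 ^ g * eval b (dir v P) := by
    rw [hf, Polynomial.derivative_comp, Polynomial.eval_mul, Polynomial.eval_comp]
    have e1 : (Polynomial.C (1 / 2 ^ g : ℝ) * Polynomial.X).eval 0 = 0 := by simp
    have e2 : (Polynomial.derivative (Polynomial.C (1 / 2 ^ g : ℝ) * Polynomial.X)).eval 0 =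
        1 / 2 ^ g := by
      rw [Polynomial.derivative_C_mul, Polynomial.derivative_X]
      simp
    rw [e1, e2, der_lnv, mvp_zero]
  rw [h3, abs_mul, abs_of_pos (by positivity : (0 : ℝ) < 1 / 2 ^ g)] at h2
  have h4 : |eval b (dir v P)| = 2 ^ g * (1 / 2 ^ g * |eval b (dir v P)|) := by
    field_simp
  rw [h4]
  calc 2 ^ g * (1 / 2 ^ g * |eval b (dir v P)|) ≤ 2 ^ g * (C * M) :=
        mul_le_mul_of_nonneg_left h2 (by positivity)
    _ = _ := by ring

/-- **The mean value theorem** along the direction. -/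
theorem meanv (v : Fin m → ℝ) (b : Option (Fin m) → ℝ) (P : MvPolynomial (Option (Fin m)) ℝ)
    {x Y s : ℝ} (hY : ∀ s' : ℝ, |s'| ≤ |s| → |eval (mvp v s' b) (dir v P) - x| ≤ Y) :
    |eval (mvp v s b) P - eval b P - x * s| ≤ Y * |s| := by
  obtain ⟨f, hf⟩ : ∃ f : Polynomial ℝ, f = MvPolynomial.aeval (lnv v b) P -
      Polynomial.C x * Polynomial.X := ⟨_, rfl⟩
  have h1 : ∀ y : ℝ, f.eval y = eval (mvp v y b) P - x * y := by
    intro y
    rw [hf, Polynomial.eval_sub, eval_lnv]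
    simp
  have h2 : ∀ y : ℝ, (Polynomial.derivative f).eval y = eval (mvp v y b) (dir v P) - x := by
    intro y
    rw [hf, Polynomial.derivative_sub, Polynomial.eval_sub, der_lnv, Polynomial.derivative_C_mul,
      Polynomial.derivative_X]
    simp
  have h3 := (convex_uIcc (0 : ℝ) s).norm_image_sub_le_of_norm_hasDerivWithin_le
    (f := fun y => f.eval y) (f' := fun y => (Polynomial.derivative f).eval y) (C := Y)
    (fun y _ => (f.hasDerivAt y).hasDerivWithinAt) (fun y hy => by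
      rw [h2, Real.norm_eq_abs]
      refine hY y ?_
      rcases le_total 0 s with h | h
      · rw [Set.uIcc_of_le h] at hy
        rw [abs_of_nonneg hy.1, abs_of_nonneg h]
        exact hy.2
      · rw [Set.uIcc_of_ge h] at hy
        rw [abs_of_nonpos hy.2, abs_of_nonpos h]
        linarith [hy.1]) Set.left_mem_uIcc Set.right_mem_uIcc
  rw [h1, h1, mvp_zero, mul_zero, sub_zero, Real.norm_eq_abs, Real.norm_eq_abs, sub_zero] at h3
  have e1 : eval (mvp v s b) P - eval b P - x * s = eval (mvp v s b) P - x * s - eval b P := by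
    ring
  rw [e1]
  exact h3

/-! ### The shear on the natural boxes -/

/-- The label of `c i` moves by `s v (c i)` on the natural boxes, up to `2 ^ (h - g i)`. -/
def Shr (F : Fam m J) (c : ℕ → Fin m) (l a : ℕ) (g : ℕ → ℕ)
    (G : PtT F → ℕ → MvPolynomial (Option (Fin m)) ℝ) (v : PtT F → Fin m → ℝ) (h i : ℕ)
    (ω : F.Ω) : Prop :=
  ∀ b : Option (Fin m) → ℝ, NBx c (G (ptr F J ω)) g a (F.t ω) i b → ∀ s : ℝ, |s| ≤ 1 / 2 ^ g l →
    |eval (mvp (v (ptr F J ω)) s b) (G (ptr F J ω) i) - eval b (G (ptr F J ω) i) -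
      s * v (ptr F J ω) (c i)| ≤ 2 ^ h / 2 ^ g i

/-- The moved point is in the larger box. -/
theorem mvp_box {c : ℕ → Fin m} {l i a y : ℕ} {g : ℕ → ℕ} {t s : ℝ}
    {G : ℕ → MvPolynomial (Option (Fin m)) ℝ} {v : Fin m → ℝ} {b : Option (Fin m) → ℝ}
    (hdep : ∀ j, DepC c j (G j)) (h0 : ∀ j < l, v (c j) = 0) (h1 : v (c l) = 1)
    (hb : NBx c G g a t i b) (hs : |s| ≤ 1 / 2 ^ g l)
    (hy : ∀ j < i, l < j → |eval (mvp v s b) (G j) - eval b (G j) - s * v (c j)| ≤
      2 ^ y / 2 ^ g j) :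
    |mvp v s b none - t| ≤ 1 / 2 ^ a ∧ ∀ j < i,
      |mvp v s b (some (c j)) - eval (mvp v s b) (G j)| ≤ 2 ^ (y + 1) / 2 ^ g j := by
  have h2 : (1 : ℝ) ≤ 2 ^ y := one_le_pow₀ (by norm_num)
  refine ⟨by rw [mvp_none]; exact hb.1, fun j hj => ?_⟩
  have h3 : (2 : ℝ) ^ (y + 1) / 2 ^ g j = 2 ^ y / 2 ^ g j + 2 ^ y / 2 ^ g j := by
    rw [pow_succ]; ring
  have h4 : (1 : ℝ) / 2 ^ g j ≤ 2 ^ y / 2 ^ g j := div_le_div_of_nonneg_right h2 (by positivity)
  have h40 : (0 : ℝ) < 1 / 2 ^ g j := by positivity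
  have h5 := hb.2 j hj
  rw [h3, mvp_some]
  rcases lt_trichotomy j l with h6 | h6 | h6
  · rw [dep_mvp (fun k hk => h0 k (hk.trans h6)) (hdep j), h0 j h6, mul_zero, add_zero]
    linarith
  · subst h6
    rw [dep_mvp h0 (hdep j), h1, mul_one]
    have h7 := abs_add_le (b (some (c j)) - eval b (G j)) s
    have h8 : b (some (c j)) + s - eval b (G j) = b (some (c j)) - eval b (G j) + s := by ring
    rw [h8]
    linarith
  · have h7 := hy j hj h6
    have h8 : b (some (c j)) + s * v (c j) - eval (mvp v s b) (G j) =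
        (b (some (c j)) - eval b (G j)) - (eval (mvp v s b) (G j) - eval b (G j) -
          s * v (c j)) := by ring
    rw [h8]
    have h9 := abs_sub (b (some (c j)) - eval b (G j)) (eval (mvp v s b) (G j) - eval b (G j) -
          s * v (c j))
    linarith

/-- **One step** of the shear. -/
theorem shr_step (D r : ℕ) : ∃ C : ℕ, ∀ {m J : ℕ} {F : Fam m J} {c : ℕ → Fin m}
    {l i a w e h x y : ℕ} {g : ℕ → ℕ} {κ : ℝ} {B₀ B' : F.Ω → Prop}
    {G : PtT F → ℕ → MvPolynomial (Option (Fin m)) ℝ}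
    {H : LnT F → ℕ → MvPolynomial (Option (Fin m)) ℝ}
    {v : PtT F → Fin m → ℝ} {v' : LnT F → Fin m → ℝ}, i < r → l < i →
    Set.InjOn c (Set.Iio i) → RelvF F c i a w g D h κ B₀ G → Sub B' B₀ →
    κ * Pe F.p B₀ ≤ Pe F.p B' → ChOK F c (i + 1) (fun _ => D) a w e g B' G H →
    (∀ ω, B' ω → v (ptr F J ω) = v' (slam F w ω)) →
    (∀ ω, B' ω → v (ptr F J ω) (c l) = 1 ∧ ∀ j < l, v (ptr F J ω) (c j) = 0) →
    (∀ ω, B' ω → ∀ j < i, l < j → Shr F c l a g G v y j ω) →
    (∀ ω, B' ω → |eval (bt F ω) (dir (v (ptr F J ω)) (G (ptr F J ω) i)) -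
      v (ptr F J ω) (c i)| ≤ 2 ^ x * 2 ^ g l / 2 ^ g i) →
    ∃ B'' : F.Ω → Prop, Sub B'' B' ∧ Pe F.p B' / 2 ≤ Pe F.p B'' ∧
      ∀ ω, B'' ω → Shr F c l a g G v (C * (x + h + y + 1)) i ω := by
  obtain ⟨c₀, D₁, hD₁, hdil⟩ := nbx_dil r (fun _ => D)
  obtain ⟨Cm, hC, hmar⟩ := markov D
  obtain ⟨c₁, hc₁⟩ := pow_unbounded_of_one_lt Cm (one_lt_two (α := ℝ))
  refine ⟨c₁ + 2 * c₀ + 2 * D₁ + 2, ?_⟩
  intro m J F c l i a w e h x y g κ B₀ B' G H v v' hi hli hc hR hB hP hL hv hv1 hy hx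
  obtain ⟨z, hz⟩ : ∃ z, z = c₁ + c₀ + (y + 1) * D₁ + x := ⟨_, rfl⟩
  obtain ⟨M, hM⟩ : ∃ M : ℝ, M = 2 ^ z * (2 ^ g l / 2 ^ g i) := ⟨_, rfl⟩
  have hM0 : 0 < M := by rw [hM]; positivity
  have hbox : ∀ ω, B' ω → ∀ b, NBx c (G (ptr F J ω)) g a (F.t ω) i b → ∀ s : ℝ,
      |s| ≤ 1 / 2 ^ g l → |mvp (v (ptr F J ω)) s b none - F.t ω| ≤ 1 / 2 ^ a ∧ ∀ j < i,
      |mvp (v (ptr F J ω)) s b (some (c j)) - eval (mvp (v (ptr F J ω)) s b)
        (G (ptr F J ω) j)| ≤ 2 ^ (y + 1) / 2 ^ g j := fun ω hω b hb s hs =>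
    mvp_box (fun j => hL.depG _ j) (hv1 ω hω).2 (hv1 ω hω).1 hb hs fun j hj hlj =>
      hy ω hω j hj hlj b (hb.mono le_rfl hj.le) s hs
  obtain ⟨B'', k1, k2, k3⟩ := hR B' hB hP (fun p => dir (v p) (G p i) - C (v p (c i)))
    (fun s => dir (v' s) (H s i) - C (v' s (c i))) M
    (fun p => (totalDegree_sub _ _).trans (max_le (dir_deg _ (hL.degG p i)) (by
      rw [totalDegree_C]; exact Nat.zero_le _)))
    (fun s => (totalDegree_sub _ _).trans (max_le (dir_deg _ (hL.degH s i)) (by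
      rw [totalDegree_C]; exact Nat.zero_le _)))
    (fun p b b' hn hb => by
      rw [map_sub, map_sub, eval_C, eval_C, dir_dep (v p) (hL.depG p i) b b' hn hb])
    (fun s b b' hn hb => by
      rw [map_sub, map_sub, eval_C, eval_C, dir_dep (v' s) (hL.depH s i) b b' hn hb])
    hM0 (fun ω hω => by
      rw [map_sub, eval_C]
      refine (hx ω hω).trans ?_
      rw [hM, mul_div_assoc]
      refine mul_le_mul_of_nonneg_right (pow_le_pow_right₀ (by norm_num) ?_) (by positivity)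
      omega)
    (fun ω hω b hb => by
      rw [map_sub, map_sub, eval_C, eval_C, ← hv ω hω]
      have e1 : eval b (dir (v (ptr F J ω)) (G (ptr F J ω) i)) - v (ptr F J ω) (c i) -
          (eval b (dir (v (ptr F J ω)) (H (slam F w ω) i)) - v (ptr F J ω) (c i)) =
          eval b (dir (v (ptr F J ω)) (G (ptr F J ω) i - H (slam F w ω) i)) := by
        unfold dir
        rw [map_sum, map_sum, map_sum, sub_sub_sub_cancel_right, ← Finset.sum_sub_distrib]
        refine Finset.sum_congr rfl fun k _ => ?_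
        rw [map_mul, map_mul, map_mul, map_sub, map_sub]
        ring
      rw [e1]
      refine (hmar (v (ptr F J ω)) b (G (ptr F J ω) i - H (slam F w ω) i)
        (2 ^ (c₀ + (y + 1) * D₁) * (1 / 2 ^ g i)) (g l) ((totalDegree_sub _ _).trans
          (max_le (hL.degG _ i) (hL.degH _ i))) (by positivity) fun s hs0 hs1 => ?_).trans ?_
      · obtain ⟨m1, m2⟩ := hbox ω hω b hb s (by rw [abs_of_nonneg hs0]; exact hs1)
        exact hdil (c := c) (i := i) (G := G (ptr F J ω))
          (Q := G (ptr F J ω) i - H (slam F w ω) i) (g := g) (a := a) (t := F.t ω)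
          (M := 1 / 2 ^ g i) (y + 1) hi hc (hL.degG _) (hL.depG _)
          (fun y y' hn hy => by
            rw [map_sub, map_sub, hL.depG _ i y y' hn hy, hL.depH _ i y y' hn hy])
          ((totalDegree_sub _ _).trans (max_le (hL.degG _ i) (hL.degH _ i))) (by positivity)
          (fun b hb => by
            rw [map_sub]
            exact hL.agr ω hω i (Nat.lt_succ_self i) b hb) _ m1 m2
      · rw [hM, hz]
        calc Cm * (2 ^ (c₀ + (y + 1) * D₁) * (1 / 2 ^ g i)) * 2 ^ g l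
            ≤ 2 ^ c₁ * (2 ^ (c₀ + (y + 1) * D₁) * (1 / 2 ^ g i)) * 2 ^ g l := by
              refine mul_le_mul_of_nonneg_right (mul_le_mul_of_nonneg_right hc₁.le ?_) ?_ <;>
                positivity
          _ = 2 ^ (c₁ + (c₀ + (y + 1) * D₁)) * (2 ^ g l / 2 ^ g i) := by
              rw [pow_add 2 c₁]; ring
          _ ≤ _ := mul_le_mul_of_nonneg_right (pow_le_pow_right₀ (by norm_num) (by omega))
              (by positivity))
  refine ⟨B'', k1, k2, fun ω hω b hb s hs => ?_⟩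
  have hω' := k1 ω hω
  have h5 := meanv (v (ptr F J ω)) b (G (ptr F J ω) i) (x := v (ptr F J ω) (c i))
    (Y := 2 ^ (c₀ + (y + 1) * D₁) * (2 ^ h * M)) (s := s) (fun s' hs' => by
      obtain ⟨m1, m2⟩ := hbox ω hω' b hb s' (hs'.trans hs)
      have h6 := hdil (c := c) (i := i) (G := G (ptr F J ω))
        (Q := dir (v (ptr F J ω)) (G (ptr F J ω) i) - C (v (ptr F J ω) (c i))) (g := g) (a := a)
        (t := F.t ω) (M := 2 ^ h * M) (y + 1) hi hc (hL.degG _) (hL.depG _)
        (fun b b' hn hb => by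
          rw [map_sub, map_sub, eval_C, eval_C, dir_dep _ (hL.depG _ i) b b' hn hb])
        ((totalDegree_sub _ _).trans (max_le (dir_deg _ (hL.degG _ i)) (by
          rw [totalDegree_C]; exact Nat.zero_le _))) (by positivity)
        (fun b hb => k3 ω hω b hb) _ m1 m2
      rw [map_sub, eval_C] at h6
      exact h6)
  have e2 : s * v (ptr F J ω) (c i) = v (ptr F J ω) (c i) * s := mul_comm _ _
  rw [e2]
  refine h5.trans ?_
  calc 2 ^ (c₀ + (y + 1) * D₁) * (2 ^ h * M) * |s|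
      ≤ 2 ^ (c₀ + (y + 1) * D₁) * (2 ^ h * M) * (1 / 2 ^ g l) :=
        mul_le_mul_of_nonneg_left hs (by positivity)
    _ = 2 ^ (c₀ + (y + 1) * D₁ + h + z) / 2 ^ g i := by
        rw [hM, pow_add 2 (c₀ + (y + 1) * D₁ + h), pow_add 2 (c₀ + (y + 1) * D₁)]
        field_simp
    _ ≤ _ := by
        refine div_le_div_of_nonneg_right (pow_le_pow_right₀ (by norm_num) ?_) (by positivity)
        rw [hz]
        nlinarith

/-- **The shear of a chain**: if at the samples the derivatives of the labels of `c i`, `l < i`,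
in the direction `v` are `v (c i)`, up to natural errors, the labels move by `s v (c i)` on the
natural boxes. -/
theorem shr_fam (D r : ℕ) : ∃ C : ℕ, ∀ {m J : ℕ} {F : Fam m J} {c : ℕ → Fin m}
    {l n a w e h x : ℕ} {g : ℕ → ℕ} {κ κ' : ℝ} {B₀ B' : F.Ω → Prop}
    {G : PtT F → ℕ → MvPolynomial (Option (Fin m)) ℝ}
    {H : LnT F → ℕ → MvPolynomial (Option (Fin m)) ℝ}
    {v : PtT F → Fin m → ℝ} {v' : LnT F → Fin m → ℝ}, n ≤ r →
    Set.InjOn c (Set.Iio n) → (∀ i, l < i → i < n → RelvF F c i a w g D h κ B₀ G) → Sub B' B₀ →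
    κ' * Pe F.p B₀ ≤ Pe F.p B' → κ * 2 ^ r ≤ κ' → ChOK F c n (fun _ => D) a w e g B' G H →
    (∀ ω, B' ω → v (ptr F J ω) = v' (slam F w ω)) →
    (∀ ω, B' ω → v (ptr F J ω) (c l) = 1 ∧ ∀ j < l, v (ptr F J ω) (c j) = 0) →
    (∀ ω, B' ω → ∀ i, l < i → i < n →
      |eval (bt F ω) (dir (v (ptr F J ω)) (G (ptr F J ω) i)) - v (ptr F J ω) (c i)| ≤
        2 ^ x * 2 ^ g l / 2 ^ g i) →
    ∃ B'' : F.Ω → Prop, Sub B'' B' ∧ Pe F.p B' / 2 ^ r ≤ Pe F.p B'' ∧
      ∀ ω, B'' ω → ∀ i, l < i → i < n → Shr F c l a g G v (C * (x + h + 1)) i ω := by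
  obtain ⟨C₀, hstep⟩ := shr_step D r
  refine ⟨(2 * C₀ + 1) ^ (r + 1), ?_⟩
  intro m J F c l n a w e h x g κ κ' B₀ B' G H v v' hn hc hR hB hP hκ hL hv hv1 hx
  have hmono : ∀ k ≤ r, (2 * C₀ + 1) ^ k * (x + h + 1) ≤ (2 * C₀ + 1) ^ (r + 1) * (x + h + 1) :=
    fun k hk => Nat.mul_le_mul_right _ (Nat.pow_le_pow_right (by omega) (by omega))
  have key : ∀ k ≤ n, ∃ B : F.Ω → Prop, Sub B B' ∧ Pe F.p B' / 2 ^ k ≤ Pe F.p B ∧ ∀ ω, B ω →
      ∀ i, l < i → i < k → Shr F c l a g G v ((2 * C₀ + 1) ^ k * (x + h + 1)) i ω := by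
    intro k
    induction k with
    | zero => exact fun _ => ⟨B', fun _ h => h, by simp, fun ω _ i _ hi => by omega⟩
    | succ k ih =>
      intro hk
      obtain ⟨B, k1, k2, k3⟩ := ih (by omega)
      have hup : ∀ ω i, Shr F c l a g G v ((2 * C₀ + 1) ^ k * (x + h + 1)) i ω →
          Shr F c l a g G v ((2 * C₀ + 1) ^ (k + 1) * (x + h + 1)) i ω := by
        intro ω i hS b hb s hs
        refine (hS b hb s hs).trans (div_le_div_of_nonneg_right (pow_le_pow_right₀ (by norm_num)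
          ?_) (by positivity))
        exact Nat.mul_le_mul_right _ (Nat.pow_le_pow_right (by omega) (by omega))
      rcases Nat.lt_or_ge l k with hlk | hlk
      · obtain ⟨B'', l1, l2, l3⟩ := hstep (h := h) (x := x)
          (y := (2 * C₀ + 1) ^ k * (x + h + 1)) (B' := B) (v := v) (v' := v') (H := H) (e := e)
          (by omega : k < r) hlk (hc.mono (Set.Iio_subset_Iio (by omega : k ≤ n)))
          (hR k hlk (by omega)) (fun ω h => hB ω (k1 ω h)) (by
            have h1 : κ * 2 ^ r * Pe F.p B₀ ≤ κ' * Pe F.p B₀ :=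
              mul_le_mul_of_nonneg_right hκ (Pe_nonneg F.isLaw B₀)
            have h2 : κ * Pe F.p B₀ * 2 ^ r ≤ Pe F.p B' := by linarith [h1, hP]
            have h3 : (2 : ℝ) ^ k ≤ 2 ^ r := pow_le_pow_right₀ (by norm_num) (by omega)
            rw [div_le_iff₀ (by positivity)] at k2
            rcases le_or_gt (κ * Pe F.p B₀) 0 with h4 | h4
            · exact h4.trans (Pe_nonneg F.isLaw B)
            · have h5 : κ * Pe F.p B₀ * 2 ^ k ≤ Pe F.p B * 2 ^ k :=
                (mul_le_mul_of_nonneg_left h3 h4.le).trans (h2.trans k2)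
              exact le_of_mul_le_mul_right h5 (by positivity))
          ((hL.mono (by omega) (fun _ => le_rfl) le_rfl le_rfl).sub k1) (fun ω hω => hv ω (k1 ω hω))
          (fun ω hω => hv1 ω (k1 ω hω)) (fun ω hω j hj hlj => k3 ω hω j hlj hj)
          (fun ω hω => hx ω (k1 ω hω) k hlk (by omega))
        refine ⟨B'', fun ω h => k1 ω (l1 ω h), ?_, fun ω hω i hli hi => ?_⟩
        · refine le_trans (le_of_eq ?_) ((div_le_div_of_nonneg_right k2 (by norm_num)).trans l2)
          rw [pow_succ]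
          field_simp
        · rcases Nat.lt_or_ge i k with h7 | h7
          · exact hup ω i (k3 ω (l1 ω hω) i hli h7)
          · have : i = k := by omega
            subst this
            intro b hb s hs
            refine (l3 ω hω b hb s hs).trans (div_le_div_of_nonneg_right
              (pow_le_pow_right₀ (by norm_num) ?_) (by positivity))
            have h8 : 1 ≤ (2 * C₀ + 1) ^ i := Nat.one_le_pow _ _ (by omega)
            have h9 : x + h + 1 ≤ (2 * C₀ + 1) ^ i * (x + h + 1) := Nat.le_mul_of_pos_left _ h8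
            rw [pow_succ]
            nlinarith
      · refine ⟨B, k1, ?_, fun ω hω i hli hi => by omega⟩
        refine le_trans ?_ k2
        exact div_le_div_of_nonneg_left (Pe_nonneg F.isLaw _) (by positivity)
          (pow_le_pow_right₀ (by norm_num) (Nat.le_succ k))
  obtain ⟨B, k1, k2, k3⟩ := key n le_rfl
  refine ⟨B, k1, (div_le_div_of_nonneg_left (Pe_nonneg F.isLaw _) (by positivity)
    (pow_le_pow_right₀ (by norm_num) hn)).trans k2, fun ω hω i hli hi b hb s hs => ?_⟩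
  exact (k3 ω hω i hli hi b hb s hs).trans (div_le_div_of_nonneg_right
    (pow_le_pow_right₀ (by norm_num) (hmono n hn)) (by positivity))

end Pool.SHR
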