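import Pool.Agent.H87.GEN.Own

/-!
# The shear of a chain, for small steps

`ShrY`: the form of `Shr` for the steps of size at most `2 ^ (-Y)`, where `Y` is at least the
exponent of the box of the direction. `shrY_fam`: the form of `shr_fam`, where the derivatives at the
samples have the errors `2 ^ Y / 2 ^ g i`.
-/

set_option autoImplicit false

namespace Pool.SHR

open Finset Real MvPolynomial
open Pool.Agent.H49.Ent Pool.Agent.H32.Dense Pool.STK Pool.KA Pool.KSAT Pool.K2S Pool.PB Pool.S6C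
open Pool.GEN Pool.CHT

variable {m J : ℕ}

/-- The label of `c i` moves by `s v (c i)` on the natural boxes, up to `2 ^ (h - g i)`, for the
steps `s` of size at most `2 ^ (-Y)`. -/
def ShrY (F : Fam m J) (c : ℕ → Fin m) (a Y : ℕ) (g : ℕ → ℕ)
    (G : PtT F → ℕ → MvPolynomial (Option (Fin m)) ℝ) (v : PtT F → Fin m → ℝ) (h i : ℕ)
    (ω : F.Ω) : Prop :=
  ∀ b : Option (Fin m) → ℝ, NBx c (G (ptr F J ω)) g a (F.t ω) i b → ∀ s : ℝ, |s| ≤ 1 / 2 ^ Y →
    |eval (mvp (v (ptr F J ω)) s b) (G (ptr F J ω) i) - eval b (G (ptr F J ω) i) -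
      s * v (ptr F J ω) (c i)| ≤ 2 ^ h / 2 ^ g i

theorem inv_le_of {x y : ℕ} (h : x ≤ y) : (1 : ℝ) / 2 ^ y ≤ 1 / 2 ^ x :=
  one_div_le_one_div_of_le (by positivity) (pow_le_pow_right₀ (by norm_num) h)

theorem shrY_iff {F : Fam m J} {c : ℕ → Fin m} {l a : ℕ} {g : ℕ → ℕ}
    {G : PtT F → ℕ → MvPolynomial (Option (Fin m)) ℝ} {v : PtT F → Fin m → ℝ} {h i : ℕ}
    {ω : F.Ω} : ShrY F c a (g l) g G v h i ω ↔ Shr F c l a g G v h i ω := Iff.rfl

/-- Smaller steps, larger errors. -/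
theorem ShrY.mono {F : Fam m J} {c : ℕ → Fin m} {a Y Y' : ℕ} {g : ℕ → ℕ}
    {G : PtT F → ℕ → MvPolynomial (Option (Fin m)) ℝ} {v : PtT F → Fin m → ℝ} {h h' i : ℕ}
    {ω : F.Ω} (hS : ShrY F c a Y g G v h i ω) (hY : Y ≤ Y') (hh : h ≤ h') :
    ShrY F c a Y' g G v h' i ω := fun b hb s hs =>
  (hS b hb s (hs.trans (inv_le_of hY))).trans (div_le_div_of_nonneg_right
    (pow_le_pow_right₀ (by norm_num) hh) (by positivity))

/-- The full size of the steps. -/
theorem Shr.toY {F : Fam m J} {c : ℕ → Fin m} {l a Y : ℕ} {g : ℕ → ℕ}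
    {G : PtT F → ℕ → MvPolynomial (Option (Fin m)) ℝ} {v : PtT F → Fin m → ℝ} {h i : ℕ}
    {ω : F.Ω} (hS : Shr F c l a g G v h i ω) (hY : g l ≤ Y) : ShrY F c a Y g G v h i ω :=
  (shrY_iff.2 hS).mono hY le_rfl

/-- **One step** of the shear. -/
theorem shrY_step (D r : ℕ) : ∃ C : ℕ, ∀ {m J : ℕ} {F : Fam m J} {c : ℕ → Fin m}
    {l i a w e h x y Y : ℕ} {g : ℕ → ℕ} {κ : ℝ} {B₀ B' : F.Ω → Prop}
    {G : PtT F → ℕ → MvPolynomial (Option (Fin m)) ℝ}
    {H : LnT F → ℕ → MvPolynomial (Option (Fin m)) ℝ}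
    {v : PtT F → Fin m → ℝ} {v' : LnT F → Fin m → ℝ}, g l ≤ Y → i < r → l < i →
    Set.InjOn c (Set.Iio i) → RelvF F c i a w g D h κ B₀ G → Sub B' B₀ →
    κ * Pe F.p B₀ ≤ Pe F.p B' → ChOK F c (i + 1) (fun _ => D) a w e g B' G H →
    (∀ ω, B' ω → v (ptr F J ω) = v' (slam F w ω)) →
    (∀ ω, B' ω → v (ptr F J ω) (c l) = 1 ∧ ∀ j < l, v (ptr F J ω) (c j) = 0) →
    (∀ ω, B' ω → ∀ j < i, l < j → ShrY F c a Y g G v y j ω) →
    (∀ ω, B' ω → |eval (bt F ω) (dir (v (ptr F J ω)) (G (ptr F J ω) i)) -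
      v (ptr F J ω) (c i)| ≤ 2 ^ x * 2 ^ Y / 2 ^ g i) →
    ∃ B'' : F.Ω → Prop, Sub B'' B' ∧ Pe F.p B' / 2 ≤ Pe F.p B'' ∧
      ∀ ω, B'' ω → ShrY F c a Y g G v (C * (x + h + y + 1)) i ω := by
  obtain ⟨c₀, D₁, hD₁, hdil⟩ := nbx_dil r (fun _ => D)
  obtain ⟨Cm, hC, hmar⟩ := markov D
  obtain ⟨c₁, hc₁⟩ := pow_unbounded_of_one_lt Cm (one_lt_two (α := ℝ))
  refine ⟨c₁ + 2 * c₀ + 2 * D₁ + 2, ?_⟩
  intro m J F c l i a w e h x y Y g κ B₀ B' G H v v' hY hi hli hc hR hB hP hL hv hv1 hy hx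
  obtain ⟨z, hz⟩ : ∃ z, z = c₁ + c₀ + (y + 1) * D₁ + x := ⟨_, rfl⟩
  obtain ⟨M, hM⟩ : ∃ M : ℝ, M = 2 ^ z * (2 ^ Y / 2 ^ g i) := ⟨_, rfl⟩
  have hM0 : 0 < M := by rw [hM]; positivity
  have hbox : ∀ ω, B' ω → ∀ b, NBx c (G (ptr F J ω)) g a (F.t ω) i b → ∀ s : ℝ,
      |s| ≤ 1 / 2 ^ Y → |mvp (v (ptr F J ω)) s b none - F.t ω| ≤ 1 / 2 ^ a ∧ ∀ j < i,
      |mvp (v (ptr F J ω)) s b (some (c j)) - eval (mvp (v (ptr F J ω)) s b)
        (G (ptr F J ω) j)| ≤ 2 ^ (y + 1) / 2 ^ g j := fun ω hω b hb s hs =>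
    mvp_box (fun j => hL.depG _ j) (hv1 ω hω).2 (hv1 ω hω).1 hb (hs.trans (inv_le_of hY)) fun j hj hlj =>
      hy ω hω j hj hlj b (hb.mono le_rfl hj.le) s hs
  obtain ⟨B'', k1, k2, k3⟩ := hR B' hB hP (fun p => dir (v p) (G p i) - C (v p (c i)))
    (fun s => dir (v' s) (H s i) - C (v' s (c i))) M
    (fun p => (totalDegree_sub _ _).trans (max_le (dir_deg _ (hL.degG p i)) (by
      rw [totalDegree_C]; exact Nat.zero_le _)))
    (fun s => (totalDegree_sub _ _).trans (max_le (dir_deg _ (hL.degH s i)) (by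
      rw [totalDegree_C]; exact Nat.zero_le _)))
    (fun p b b' hn hb => by
      rw [map_sub, map_sub, eval_C, eval_C, dir_dep (v p) (hL.depG p i) b b' hn hb])
    (fun s b b' hn hb => by
      rw [map_sub, map_sub, eval_C, eval_C, dir_dep (v' s) (hL.depH s i) b b' hn hb])
    hM0 (fun ω hω => by
      rw [map_sub, eval_C]
      refine (hx ω hω).trans ?_
      rw [hM, mul_div_assoc]
      refine mul_le_mul_of_nonneg_right (pow_le_pow_right₀ (by norm_num) ?_) (by positivity)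
      omega)
    (fun ω hω b hb => by
      rw [map_sub, map_sub, eval_C, eval_C, ← hv ω hω]
      have e1 : eval b (dir (v (ptr F J ω)) (G (ptr F J ω) i)) - v (ptr F J ω) (c i) -
          (eval b (dir (v (ptr F J ω)) (H (slam F w ω) i)) - v (ptr F J ω) (c i)) =
          eval b (dir (v (ptr F J ω)) (G (ptr F J ω) i - H (slam F w ω) i)) := by
        unfold dir
        rw [map_sum, map_sum, map_sum, sub_sub_sub_cancel_right, ← Finset.sum_sub_distrib]
        refine Finset.sum_congr rfl fun k _ => ?_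
        rw [map_mul, map_mul, map_mul, map_sub, map_sub]
        ring
      rw [e1]
      refine (hmar (v (ptr F J ω)) b (G (ptr F J ω) i - H (slam F w ω) i)
        (2 ^ (c₀ + (y + 1) * D₁) * (1 / 2 ^ g i)) Y ((totalDegree_sub _ _).trans
          (max_le (hL.degG _ i) (hL.degH _ i))) (by positivity) fun s hs0 hs1 => ?_).trans ?_
      · obtain ⟨m1, m2⟩ := hbox ω hω b hb s (by rw [abs_of_nonneg hs0]; exact hs1)
        exact hdil (c := c) (i := i) (G := G (ptr F J ω))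
          (Q := G (ptr F J ω) i - H (slam F w ω) i) (g := g) (a := a) (t := F.t ω)
          (M := 1 / 2 ^ g i) (y + 1) hi hc (hL.degG _) (hL.depG _)
          (fun y y' hn hy => by
            rw [map_sub, map_sub, hL.depG _ i y y' hn hy, hL.depH _ i y y' hn hy])
          ((totalDegree_sub _ _).trans (max_le (hL.degG _ i) (hL.degH _ i))) (by positivity)
          (fun b hb => by
            rw [map_sub]
            exact hL.agr ω hω i (Nat.lt_succ_self i) b hb) _ m1 m2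
      · rw [hM, hz]
        calc Cm * (2 ^ (c₀ + (y + 1) * D₁) * (1 / 2 ^ g i)) * 2 ^ Y
            ≤ 2 ^ c₁ * (2 ^ (c₀ + (y + 1) * D₁) * (1 / 2 ^ g i)) * 2 ^ Y := by
              refine mul_le_mul_of_nonneg_right (mul_le_mul_of_nonneg_right hc₁.le ?_) ?_ <;>
                positivity
          _ = 2 ^ (c₁ + (c₀ + (y + 1) * D₁)) * (2 ^ Y / 2 ^ g i) := by
              rw [pow_add 2 c₁]; ring
          _ ≤ _ := mul_le_mul_of_nonneg_right (pow_le_pow_right₀ (by norm_num) (by omega))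
              (by positivity))
  refine ⟨B'', k1, k2, fun ω hω b hb s hs => ?_⟩
  have hω' := k1 ω hω
  have h5 := meanv (v (ptr F J ω)) b (G (ptr F J ω) i) (x := v (ptr F J ω) (c i))
    (Y := 2 ^ (c₀ + (y + 1) * D₁) * (2 ^ h * M)) (s := s) (fun s' hs' => by
      obtain ⟨m1, m2⟩ := hbox ω hω' b hb s' (hs'.trans hs)
      have h6 := hdil (c := c) (i := i) (G := G (ptr F J ω))
        (Q := dir (v (ptr F J ω)) (G (ptr F J ω) i) - C (v (ptr F J ω) (c i))) (g := g) (a := a)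
        (t := F.t ω) (M := 2 ^ h * M) (y + 1) hi hc (hL.degG _) (hL.depG _)
        (fun b b' hn hb => by
          rw [map_sub, map_sub, eval_C, eval_C, dir_dep _ (hL.depG _ i) b b' hn hb])
        ((totalDegree_sub _ _).trans (max_le (dir_deg _ (hL.degG _ i)) (by
          rw [totalDegree_C]; exact Nat.zero_le _))) (by positivity)
        (fun b hb => k3 ω hω b hb) _ m1 m2
      rw [map_sub, eval_C] at h6
      exact h6)
  have e2 : s * v (ptr F J ω) (c i) = v (ptr F J ω) (c i) * s := mul_comm _ _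
  rw [e2]
  refine h5.trans ?_
  calc 2 ^ (c₀ + (y + 1) * D₁) * (2 ^ h * M) * |s|
      ≤ 2 ^ (c₀ + (y + 1) * D₁) * (2 ^ h * M) * (1 / 2 ^ Y) :=
        mul_le_mul_of_nonneg_left hs (by positivity)
    _ = 2 ^ (c₀ + (y + 1) * D₁ + h + z) / 2 ^ g i := by
        rw [hM, pow_add 2 (c₀ + (y + 1) * D₁ + h), pow_add 2 (c₀ + (y + 1) * D₁)]
        field_simp
    _ ≤ _ := by
        refine div_le_div_of_nonneg_right (pow_le_pow_right₀ (by norm_num) ?_) (by positivity)
        rw [hz]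
        nlinarith

/-- **The shear of a chain**: if at the samples the derivatives of the labels of `c i`, `l < i`,
in the direction `v` are `v (c i)`, up to natural errors, the labels move by `s v (c i)` on the
natural boxes. -/
theorem shrY_fam (D r : ℕ) : ∃ C : ℕ, ∀ {m J : ℕ} {F : Fam m J} {c : ℕ → Fin m}
    {l n a w e h x Y : ℕ} {g : ℕ → ℕ} {κ κ' : ℝ} {B₀ B' : F.Ω → Prop}
    {G : PtT F → ℕ → MvPolynomial (Option (Fin m)) ℝ}
    {H : LnT F → ℕ → MvPolynomial (Option (Fin m)) ℝ}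
    {v : PtT F → Fin m → ℝ} {v' : LnT F → Fin m → ℝ}, g l ≤ Y → n ≤ r →
    Set.InjOn c (Set.Iio n) → (∀ i, l < i → i < n → RelvF F c i a w g D h κ B₀ G) → Sub B' B₀ →
    κ' * Pe F.p B₀ ≤ Pe F.p B' → κ * 2 ^ r ≤ κ' → ChOK F c n (fun _ => D) a w e g B' G H →
    (∀ ω, B' ω → v (ptr F J ω) = v' (slam F w ω)) →
    (∀ ω, B' ω → v (ptr F J ω) (c l) = 1 ∧ ∀ j < l, v (ptr F J ω) (c j) = 0) →
    (∀ ω, B' ω → ∀ i, l < i → i < n →
      |eval (bt F ω) (dir (v (ptr F J ω)) (G (ptr F J ω) i)) - v (ptr F J ω) (c i)| ≤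
        2 ^ x * 2 ^ Y / 2 ^ g i) →
    ∃ B'' : F.Ω → Prop, Sub B'' B' ∧ Pe F.p B' / 2 ^ r ≤ Pe F.p B'' ∧
      ∀ ω, B'' ω → ∀ i, l < i → i < n → ShrY F c a Y g G v (C * (x + h + 1)) i ω := by
  obtain ⟨C₀, hstep⟩ := shrY_step D r
  refine ⟨(2 * C₀ + 1) ^ (r + 1), ?_⟩
  intro m J F c l n a w e h x Y g κ κ' B₀ B' G H v v' hY hn hc hR hB hP hκ hL hv hv1 hx
  have hmono : ∀ k ≤ r, (2 * C₀ + 1) ^ k * (x + h + 1) ≤ (2 * C₀ + 1) ^ (r + 1) * (x + h + 1) :=
    fun k hk => Nat.mul_le_mul_right _ (Nat.pow_le_pow_right (by omega) (by omega))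
  have key : ∀ k ≤ n, ∃ B : F.Ω → Prop, Sub B B' ∧ Pe F.p B' / 2 ^ k ≤ Pe F.p B ∧ ∀ ω, B ω →
      ∀ i, l < i → i < k → ShrY F c a Y g G v ((2 * C₀ + 1) ^ k * (x + h + 1)) i ω := by
    intro k
    induction k with
    | zero => exact fun _ => ⟨B', fun _ h => h, by simp, fun ω _ i _ hi => by omega⟩
    | succ k ih =>
      intro hk
      obtain ⟨B, k1, k2, k3⟩ := ih (by omega)
      have hup : ∀ ω i, ShrY F c a Y g G v ((2 * C₀ + 1) ^ k * (x + h + 1)) i ω →
          ShrY F c a Y g G v ((2 * C₀ + 1) ^ (k + 1) * (x + h + 1)) i ω := by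
        intro ω i hS b hb s hs
        refine (hS b hb s hs).trans (div_le_div_of_nonneg_right (pow_le_pow_right₀ (by norm_num)
          ?_) (by positivity))
        exact Nat.mul_le_mul_right _ (Nat.pow_le_pow_right (by omega) (by omega))
      rcases Nat.lt_or_ge l k with hlk | hlk
      · obtain ⟨B'', l1, l2, l3⟩ := hstep (h := h) (x := x) (Y := Y)
          (y := (2 * C₀ + 1) ^ k * (x + h + 1)) (B' := B) (v := v) (v' := v') (H := H) (e := e)
          hY (by omega : k < r) hlk (hc.mono (Set.Iio_subset_Iio (by omega : k ≤ n)))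
          (hR k hlk (by omega)) (fun ω h => hB ω (k1 ω h)) (by
            have h1 : κ * 2 ^ r * Pe F.p B₀ ≤ κ' * Pe F.p B₀ :=
              mul_le_mul_of_nonneg_right hκ (Pe_nonneg F.isLaw B₀)
            have h2 : κ * Pe F.p B₀ * 2 ^ r ≤ Pe F.p B' := by linarith [h1, hP]
            have h3 : (2 : ℝ) ^ k ≤ 2 ^ r := pow_le_pow_right₀ (by norm_num) (by omega)
            rw [div_le_iff₀ (by positivity)] at k2
            rcases le_or_gt (κ * Pe F.p B₀) 0 with h4 | h4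
            · exact h4.trans (Pe_nonneg F.isLaw B)
            · have h5 : κ * Pe F.p B₀ * 2 ^ k ≤ Pe F.p B * 2 ^ k :=
                (mul_le_mul_of_nonneg_left h3 h4.le).trans (h2.trans k2)
              exact le_of_mul_le_mul_right h5 (by positivity))
          ((hL.mono (by omega) (fun _ => le_rfl) le_rfl le_rfl).sub k1) (fun ω hω => hv ω (k1 ω hω))
          (fun ω hω => hv1 ω (k1 ω hω)) (fun ω hω j hj hlj => k3 ω hω j hlj hj)
          (fun ω hω => hx ω (k1 ω hω) k hlk (by omega))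
        refine ⟨B'', fun ω h => k1 ω (l1 ω h), ?_, fun ω hω i hli hi => ?_⟩
        · refine le_trans (le_of_eq ?_) ((div_le_div_of_nonneg_right k2 (by norm_num)).trans l2)
          rw [pow_succ]
          field_simp
        · rcases Nat.lt_or_ge i k with h7 | h7
          · exact hup ω i (k3 ω (l1 ω hω) i hli h7)
          · have : i = k := by omega
            subst this
            intro b hb s hs
            refine (l3 ω hω b hb s hs).trans (div_le_div_of_nonneg_right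
              (pow_le_pow_right₀ (by norm_num) ?_) (by positivity))
            have h8 : 1 ≤ (2 * C₀ + 1) ^ i := Nat.one_le_pow _ _ (by omega)
            have h9 : x + h + 1 ≤ (2 * C₀ + 1) ^ i * (x + h + 1) := Nat.le_mul_of_pos_left _ h8
            rw [pow_succ]
            nlinarith
      · refine ⟨B, k1, ?_, fun ω hω i hli hi => by omega⟩
        refine le_trans ?_ k2
        exact div_le_div_of_nonneg_left (Pe_nonneg F.isLaw _) (by positivity)
          (pow_le_pow_right₀ (by norm_num) (Nat.le_succ k))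
  obtain ⟨B, k1, k2, k3⟩ := key n le_rfl
  refine ⟨B, k1, (div_le_div_of_nonneg_left (Pe_nonneg F.isLaw _) (by positivity)
    (pow_le_pow_right₀ (by norm_num) hn)).trans k2, fun ω hω i hli hi b hb s hs => ?_⟩
  exact (k3 ω hω i hli hi b hb s hs).trans (div_le_div_of_nonneg_right
    (pow_le_pow_right₀ (by norm_num) (hmono n hn)) (by positivity))

end Pool.SHR
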