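import Pool.Agent.H87.GEN.Nod
import Pool.Agent.H74.PZ.Core

/-!
# The closed shear

`RelvH`: no relation, with a bound which depends on the sample, and the small value at a point near
the sample. `NVf`: the derivative of the label of a line in a closed direction is almost the same
for all the samples of the line in one window. `cbr_fam`: at a node without relations, a direction
`v`, closed in the window, `v (c l) = 1`, such that all the labels move by `s v (c i)` when the point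
is moved by `s v`.
-/

set_option autoImplicit false

namespace Pool.SHR

open Finset Real MvPolynomial
open Pool.Agent.H49.Ent Pool.Agent.H32.Dense Pool.STK Pool.KA Pool.KSAT Pool.K2S Pool.PB Pool.S6C
open Pool.GEN Pool.CHT Pool.ISO
open Pool.FLF (Fam.sub)

variable {m J : ℕ}

/-! ### Rounding -/

/-- Two shifts. -/
theorem two_shift {x y : ℝ} (h : |x - y| ≤ 1 / 4) :
    ⌊x⌋ = ⌊y⌋ ∨ ⌊x + 1 / 2⌋ = ⌊y + 1 / 2⌋ := by
  have key : ∀ x y : ℝ, x ≤ y → y ≤ x + 1 / 4 →
      ⌊x⌋ = ⌊y⌋ ∨ ⌊x + 1 / 2⌋ = ⌊y + 1 / 2⌋ := by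
    intro x y h1 h2
    by_cases h3 : ⌊x⌋ = ⌊y⌋
    · exact Or.inl h3
    · right
      have h4 : ⌊x⌋ < ⌊y⌋ := lt_of_le_of_ne (Int.floor_mono h1) h3
      have h5 : x < ⌊y⌋ := Int.floor_lt.1 h4
      have h6 : (⌊y⌋ : ℝ) ≤ y := Int.floor_le y
      have e1 : ⌊x + 1 / 2⌋ = ⌊y⌋ := Int.floor_eq_iff.2 ⟨by linarith, by linarith⟩
      have e2 : ⌊y + 1 / 2⌋ = ⌊y⌋ := Int.floor_eq_iff.2 ⟨by linarith, by linarith⟩
      rw [e1, e2]
  have h0 := abs_le.1 h
  rcases le_total x y with h1 | h1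
  · exact key x y h1 (by linarith [h0.1])
  · rcases key y x h1 (by linarith [h0.2]) with h2 | h2
    · exact Or.inl h2.symm
    · exact Or.inr h2.symm

/-- The value rounded to multiples of `ε`, shifted. -/
noncomputable def rnd (ε s x : ℝ) : ℝ := ε * (⌊x / ε + s⌋ - s)

theorem rnd_near {ε : ℝ} (hε : 0 < ε) (s x : ℝ) : |rnd ε s x - x| ≤ ε := by
  have h1 := Int.floor_le (x / ε + s)
  have h2 := Int.lt_floor_add_one (x / ε + s)
  have h3 : x = ε * (x / ε) := by field_simp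
  have h4 : rnd ε s x - x = ε * ((⌊x / ε + s⌋ : ℝ) - s - x / ε) := by
    unfold rnd
    rw [mul_sub ε _ (x / ε), ← h3]
  rw [h4, abs_mul, abs_of_pos hε]
  calc ε * |(⌊x / ε + s⌋ : ℝ) - s - x / ε| ≤ ε * 1 := by
        refine mul_le_mul_of_nonneg_left ?_ hε.le
        rw [abs_le]
        constructor <;> linarith
    _ = ε := mul_one _

theorem rnd_two {ε : ℝ} (hε : 0 < ε) {x y : ℝ} (h : |x - y| ≤ ε / 4) :
    rnd ε 0 x = rnd ε 0 y ∨ rnd ε (1 / 2) x = rnd ε (1 / 2) y := by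
  have h1 : |x / ε - y / ε| ≤ 1 / 4 := by
    rw [← sub_div, abs_div, abs_of_pos hε, div_le_iff₀ hε]
    linarith
  unfold rnd
  rcases two_shift h1 with h2 | h2
  · left
    rw [add_zero, add_zero, h2]
  · right
    rw [h2]

/-! ### No relation, homogeneous -/

/-- **No relation**, with a bound which depends on the sample; the value is small at a point `y`
near the sample. -/
def RelvH (F : Fam m J) (c : ℕ → Fin m) (i a w : ℕ) (g Y : ℕ → ℕ) (D h : ℕ) (κ : ℝ)
    (B₀ : F.Ω → Prop) (G : PtT F → ℕ → MvPolynomial (Option (Fin m)) ℝ) : Prop :=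
  ∀ B' : F.Ω → Prop, Sub B' B₀ → κ * Pe F.p B₀ ≤ Pe F.p B' →
    ∀ (Dx : PtT F → MvPolynomial (Option (Fin m)) ℝ) (Dl : LnT F → MvPolynomial (Option (Fin m)) ℝ)
      (M : F.Ω → ℝ) (y : F.Ω → Option (Fin m) → ℝ), (∀ y, (Dx y).totalDegree ≤ D) →
    (∀ s, (Dl s).totalDegree ≤ D) → (∀ y, DepC c i (Dx y)) → (∀ s, DepC c i (Dl s)) →
    (∀ ω, B' ω → 0 < M ω) → (∀ ω, B' ω → y ω none = F.t ω ∧
      ∀ l < i, |y ω (some (c l)) - F.x ω (c l)| ≤ 1 / 2 ^ Y l) →
    (∀ ω, B' ω → |eval (y ω) (Dx (ptr F J ω))| ≤ M ω) →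
    (∀ ω, B' ω → ∀ b, NBx c (G (ptr F J ω)) g a (F.t ω) i b →
      |eval b (Dx (ptr F J ω)) - eval b (Dl (slam F w ω))| ≤ M ω) →
    ∃ B'' : F.Ω → Prop, Sub B'' B' ∧ Pe F.p B' / 2 ≤ Pe F.p B'' ∧ ∀ ω, B'' ω →
      ∀ b, NBx c (G (ptr F J ω)) g a (F.t ω) i b → |eval b (Dx (ptr F J ω))| ≤ 2 ^ h * M ω

/-- The homogeneous form implies the other one. -/
theorem RelvH.relv {F : Fam m J} {c : ℕ → Fin m} {i a w : ℕ} {g Y : ℕ → ℕ} {D h : ℕ} {κ : ℝ}
    {B₀ : F.Ω → Prop} {G : PtT F → ℕ → MvPolynomial (Option (Fin m)) ℝ}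
    (hR : RelvH F c i a w g Y D h κ B₀ G) : RelvF F c i a w g D h κ B₀ G := by
  intro B' hB hP Dx Dl M h1 h2 h3 h4 hM h5 h6
  exact hR B' hB hP Dx Dl (fun _ => M) (fun ω => bt F ω) h1 h2 h3 h4 (fun _ _ => hM)
    (fun ω _ => ⟨rfl, fun l _ => by
      show |F.x ω (c l) - F.x ω (c l)| ≤ _
      rw [sub_self, abs_zero]
      positivity⟩) h5 h6

/-- The first coordinates. -/
theorem RelvH.low {F : Fam m J} {c : ℕ → Fin m} {i n a w : ℕ} {g Y : ℕ → ℕ} {D h : ℕ} {κ : ℝ}
    {B₀ : F.Ω → Prop} {G : PtT F → ℕ → MvPolynomial (Option (Fin m)) ℝ}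
    (hR : RelvH F c n a w g Y D h κ B₀ G) (hi : i ≤ n) (hc : Set.InjOn c (Set.Iio n))
    (hdep : ∀ y l, DepC c l (G y l)) : RelvH F c i a w g Y D h κ B₀ G := by
  classical
  intro B' hB hP Dx Dl M y h1 h2 h3 h4 hM hy h5 h6
  obtain ⟨y', hy'⟩ : ∃ y' : F.Ω → Option (Fin m) → ℝ, y' = fun ω o => match o with
      | none => F.t ω
      | some k => if ∃ l < i, c l = k then y ω (some k) else F.x ω k := ⟨_, rfl⟩
  have y0 : ∀ ω, y' ω none = F.t ω := fun ω => by rw [hy']
  have y1 : ∀ ω, ∀ l < i, y' ω (some (c l)) = y ω (some (c l)) := fun ω l hl => by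
    rw [hy']
    exact if_pos ⟨l, hl, rfl⟩
  have y2 : ∀ ω, ∀ l < n, ¬ l < i → y' ω (some (c l)) = F.x ω (c l) := fun ω l hl hli => by
    rw [hy']
    refine if_neg ?_
    rintro ⟨l', hl', he⟩
    have := hc (Set.mem_Iio.2 (hl'.trans_le hi)) (Set.mem_Iio.2 hl) he
    omega
  obtain ⟨B'', k1, k2, k3⟩ := hR B' hB hP Dx Dl M y' h1 h2 (fun y => (h3 y).mono hi)
    (fun s => (h4 s).mono hi) hM (fun ω hω => ⟨y0 ω, fun l hl => by
      by_cases hli : l < i
      · rw [y1 ω l hli]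
        exact (hy ω hω).2 l hli
      · rw [y2 ω l hl hli, sub_self, abs_zero]
        positivity⟩) (fun ω hω => by
      rw [h3 (ptr F J ω) (y' ω) (y ω) (by rw [y0, (hy ω hω).1]) (y1 ω)]
      exact h5 ω hω) fun ω hω b hb => h6 ω hω b (hb.mono le_rfl hi)
  refine ⟨B'', k1, k2, fun ω hω b hb => ?_⟩
  obtain ⟨b', m1, m2, m3, _⟩ := nbx_ext hc (hdep (ptr F J ω)) hi hb
  rw [← h3 (ptr F J ω) b' b m2 m3]
  exact k3 ω hω b' m1

/-! ### The derivative along the line -/

/-- **The derivative in a closed direction is almost constant along the line** in the window. -/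
def NVf (F : Fam m J) (c : ℕ → Fin m) (l i a w : ℕ) (g : ℕ → ℕ) (y ν : ℕ) (κ : ℝ)
    (B₀ : F.Ω → Prop) (G : PtT F → ℕ → MvPolynomial (Option (Fin m)) ℝ)
    (H : LnT F → ℕ → MvPolynomial (Option (Fin m)) ℝ) : Prop :=
  ∀ B' : F.Ω → Prop, Sub B' B₀ → κ * Pe F.p B₀ ≤ Pe F.p B' →
    ∀ (v : PtT F → Fin m → ℝ) (v' : LnT F → Fin m → ℝ),
    (∀ ω, B' ω → v (ptr F J ω) = v' (slam F w ω)) →
    (∀ ω, B' ω → v (ptr F J ω) (c l) = 1 ∧ ∀ j < l, v (ptr F J ω) (c j) = 0) →
    (∀ ω, B' ω → ∀ j < i, l < j → Shr F c l a g G v y j ω ∧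
      |eval (bt F ω) (dir (v (ptr F J ω)) (G (ptr F J ω) j)) - v (ptr F J ω) (c j)| ≤
        2 ^ y * 2 ^ g l / 2 ^ g j) →
    ∃ B'' : F.Ω → Prop, Sub B'' B' ∧ Pe F.p B' / 2 ≤ Pe F.p B'' ∧
      ∀ ω ω', B'' ω → B'' ω' → slam F w ω = slam F w ω' →
        |eval (bt F ω) (dir (v (ptr F J ω)) (H (slam F w ω) i)) -
          eval (bt F ω') (dir (v (ptr F J ω)) (H (slam F w ω) i))| ≤ 2 ^ ν * 2 ^ g l / 2 ^ g i

/-! ### One more coordinate of the direction -/

theorem dir_upd {c : ℕ → Fin m} {i : ℕ} (hc : Set.InjOn c (Set.Iio (i + 1))) (v : Fin m → ℝ)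
    (x : ℝ) {P : MvPolynomial (Option (Fin m)) ℝ} (hP : DepC c i P) (b : Option (Fin m) → ℝ) :
    eval b (dir (Function.update v (c i) x) P) = eval b (dir v P) := by
  have e : MvPolynomial.aeval (lnv (Function.update v (c i) x) b) P =
      MvPolynomial.aeval (lnv v b) P := by
    refine Polynomial.funext fun s => ?_
    rw [eval_lnv, eval_lnv]
    refine hP _ _ ?_ fun k hk => ?_
    · rw [mvp_none, mvp_none]
    · have hne : c k ≠ c i := fun h => by
        have := hc (Set.mem_Iio.2 (by omega)) (Set.mem_Iio.2 (Nat.lt_succ_self i)) h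
        omega
      rw [mvp_some, mvp_some, Function.update_of_ne hne]
  have h1 := der_lnv (Function.update v (c i) x) b P 0
  have h2 := der_lnv v b P 0
  rw [mvp_zero] at h1 h2
  rw [← h1, ← h2, e]

theorem shr_upd {F : Fam m J} {c : ℕ → Fin m} {l i j a y : ℕ} {g : ℕ → ℕ}
    {G : PtT F → ℕ → MvPolynomial (Option (Fin m)) ℝ} {v : PtT F → Fin m → ℝ} {x : PtT F → ℝ}
    {ω : F.Ω} (hc : Set.InjOn c (Set.Iio (i + 1))) (hdep : ∀ y l, DepC c l (G y l)) (hj : j < i)
    (h : Shr F c l a g G v y j ω) :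
    Shr F c l a g G (fun p => Function.update (v p) (c i) (x p)) y j ω := by
  have hne : ∀ k < i, c k ≠ c i := fun k hk h => by
    have := hc (Set.mem_Iio.2 (by omega)) (Set.mem_Iio.2 (Nat.lt_succ_self i)) h
    omega
  intro b hb s hs
  have h1 := h b hb s hs
  have e1 : eval (mvp (Function.update (v (ptr F J ω)) (c i) (x (ptr F J ω))) s b)
      (G (ptr F J ω) j) = eval (mvp (v (ptr F J ω)) s b) (G (ptr F J ω) j) := by
    refine hdep _ j _ _ ?_ fun k hk => ?_
    · rw [mvp_none, mvp_none]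
    · rw [mvp_some, mvp_some, Function.update_of_ne (hne k (by omega))]
  show |eval (mvp (Function.update (v (ptr F J ω)) (c i) (x (ptr F J ω))) s b)
      (G (ptr F J ω) j) - eval b (G (ptr F J ω) j) -
        s * Function.update (v (ptr F J ω)) (c i) (x (ptr F J ω)) (c j)| ≤ _
  rw [e1, Function.update_of_ne (hne j hj)]
  exact h1

/-- **One step.** -/
theorem cbr_step (D r : ℕ) : ∃ C : ℕ, ∀ {m J : ℕ} {F : Fam m J} {c : ℕ → Fin m}
    {l i a w e h σ y ν : ℕ} {g Y : ℕ → ℕ} {κ : ℝ} {B₀ B' : F.Ω → Prop}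
    {G : PtT F → ℕ → MvPolynomial (Option (Fin m)) ℝ}
    {H : LnT F → ℕ → MvPolynomial (Option (Fin m)) ℝ}
    {v : PtT F → Fin m → ℝ} {v' : LnT F → Fin m → ℝ}, i < r → l < i →
    Set.InjOn c (Set.Iio (i + 1)) → RelvH F c i a w g Y D h κ B₀ G → Sub B' B₀ → 0 ≤ κ →
    κ * 16 * Pe F.p B₀ ≤ Pe F.p B' → ChOK F c (i + 1) (fun _ => D) a w e g B' G H →
    NVf F c l i a w g y ν κ B₀ G H → (∀ j < i, Y j ≤ J) → (∀ j < i + 1, e + g j + σ + C ≤ J) →
    h + C ≤ σ →
    (∀ ω, B' ω → v (ptr F J ω) = v' (slam F w ω)) →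
    (∀ ω, B' ω → v (ptr F J ω) (c l) = 1 ∧ ∀ j < l, v (ptr F J ω) (c j) = 0) →
    (∀ ω, B' ω → ∀ j < i, l < j → Shr F c l a g G v y j ω ∧
      |eval (bt F ω) (dir (v (ptr F J ω)) (G (ptr F J ω) j)) - v (ptr F J ω) (c j)| ≤
        2 ^ y * 2 ^ g l / 2 ^ g j) →
    ∃ (B : F.Ω → Prop) (x : PtT F → ℝ) (x' : LnT F → ℝ), Sub B B' ∧
      Pe F.p B' / 2 ^ 4 ≤ Pe F.p B ∧ (∀ ω, B ω → x (ptr F J ω) = x' (slam F w ω)) ∧
      ∀ ω, B ω → Shr F c l a g G (fun p => Function.update (v p) (c i) (x p))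
          (C * (h + y + ν + 1)) i ω ∧
        |eval (bt F ω) (dir (v (ptr F J ω)) (G (ptr F J ω) i)) - x (ptr F J ω)| ≤
          2 ^ (C * (h + y + ν + 1)) * 2 ^ g l / 2 ^ g i := by
  classical
  obtain ⟨C₁, hstep⟩ := shr_step D r
  obtain ⟨C₂, hcmp⟩ := slp_cmp D r
  obtain ⟨c₃, hscl⟩ := scl r D (fun _ => D)
  obtain hcell := fun r' : ℕ => near_cell r' (fun _ => D)
  choose c₄ hcell using hcell
  obtain ⟨c₅, hc₅⟩ : ∃ c₅, c₅ = ∑ x ∈ range (r + 1), c₄ x := ⟨_, rfl⟩
  have hc45 : ∀ x ≤ r, c₄ x ≤ c₅ := by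
    intro x hx
    rw [hc₅]
    exact Finset.single_le_sum (f := fun x => c₄ x) (fun x _ => Nat.zero_le _)
      (mem_range.2 (Nat.lt_succ_of_le hx))
  refine ⟨c₅ + c₃ + 2 + (C₁ + 1) * (2 * C₂ + 9), ?_⟩
  intro m J F c l i a w e h σ y ν g Y κ B₀ B' G H v v' hi hli hc hR hB' hκ0 hP hL hNV hY hJ hσ hv
    hv1 hy
  have hci : Set.InjOn c (Set.Iio i) := hc.mono (Set.Iio_subset_Iio (Nat.le_succ i))
  obtain ⟨nat, hnat⟩ : ∃ nat : ℝ, nat = 2 ^ g l / 2 ^ g i := ⟨_, rfl⟩
  have hnat0 : 0 < nat := by rw [hnat]; positivity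
  have hPn := Pe_nonneg F.isLaw B₀
  have hκP : 0 ≤ κ * Pe F.p B₀ := mul_nonneg hκ0 hPn
  -- the derivative along the line
  obtain ⟨B₁, k1, k2, k3⟩ := hNV B' hB' (by linarith) v v' hv hv1 hy
  -- the two sides
  obtain ⟨P, hPd⟩ : ∃ P : PtT F → MvPolynomial (Option (Fin m)) ℝ,
      P = fun p => dir (v p) (G p i) := ⟨_, rfl⟩
  obtain ⟨al, hal⟩ : ∃ al : PtT F → ℝ, al = fun p => eval (bho J J p) (P p) := ⟨_, rfl⟩
  obtain ⟨be, hbe⟩ : ∃ be : LnT F → ℝ, be = fun s =>
      if h : ∃ ω, B₁ ω ∧ slam F w ω = s then eval (bt F h.choose) (dir (v' s) (H s i))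
      else 0 := ⟨_, rfl⟩
  have hbeta : ∀ ω, B₁ ω → |eval (bt F ω) (dir (v (ptr F J ω)) (H (slam F w ω) i)) -
      be (slam F w ω)| ≤ 2 ^ ν * nat := by
    intro ω hω
    have hex : ∃ ω', B₁ ω' ∧ slam F w ω' = slam F w ω := ⟨ω, hω, rfl⟩
    have h1 := hex.choose_spec
    have h2 := k3 ω hex.choose hω h1.1 h1.2.symm
    rw [hbe]
    show |_ - (if h : ∃ ω', B₁ ω' ∧ slam F w ω' = slam F w ω then
      eval (bt F h.choose) (dir (v' (slam F w ω)) (H (slam F w ω) i)) else 0)| ≤ _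
    rw [dif_pos hex, ← hv ω (k1 ω hω), hnat, ← mul_div_assoc]
    exact h2
  -- the agreement of the two sides
  have hagr : ∀ ω, B' ω → ∀ b, NBx c (G (ptr F J ω)) g a (F.t ω) i b →
      |eval b (P (ptr F J ω)) - eval b (dir (v (ptr F J ω)) (H (slam F w ω) i))| ≤
        2 ^ (C₂ * (y + 1)) * nat := by
    intro ω hω b hb
    have h1 := hcmp (c := c) (l := l) (i := i) (a := a) (k := 0) (y := y) (p := g i) (g := g)
      (G := G) (v := v) (P := G (ptr F J ω) i - H (slam F w ω) i) (ω := ω) (b := b) hi hci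
      hL.degG hL.depG (fun b b' hn hb => by
        rw [map_sub, map_sub, hL.depG _ i b b' hn hb, hL.depH _ i b b' hn hb])
      ((totalDegree_sub _ _).trans (max_le (hL.degG _ i) (hL.degH _ i))) (hv1 ω hω).1
      (hv1 ω hω).2 (fun j hj hlj => (hy ω hω j hj hlj).1) hb (fun b hb => by
        rw [map_sub, pow_zero]
        exact hL.agr ω hω i (Nat.lt_succ_self i) b hb)
    rw [dir_sub, map_sub, zero_add, mul_div_assoc, ← hnat] at h1
    rw [hPd]
    exact h1
  obtain ⟨x₀, hx₀⟩ : ∃ x₀, x₀ = C₂ * (y + 1) + ν + 2 := ⟨_, rfl⟩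
  obtain ⟨A, hA⟩ : ∃ A : ℝ, A = 2 ^ x₀ * nat := ⟨_, rfl⟩
  have hA0 : 0 < A := by rw [hA]; positivity
  have hsum : 2 * (2 ^ (C₂ * (y + 1)) * nat) + 2 ^ ν * nat ≤ A := by
    have h1 : (2 : ℝ) ^ (C₂ * (y + 1)) ≤ 2 ^ (C₂ * (y + 1) + ν) :=
      pow_le_pow_right₀ (by norm_num) (by omega)
    have h2 : (2 : ℝ) ^ ν ≤ 2 ^ (C₂ * (y + 1) + ν) :=
      pow_le_pow_right₀ (by norm_num) (by omega)
    have h3 : (2 : ℝ) ^ x₀ = 4 * 2 ^ (C₂ * (y + 1) + ν) := by rw [hx₀, pow_add]; ring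
    rw [hA, h3]
    have h4 : 0 < (2 : ℝ) ^ (C₂ * (y + 1) + ν) := by positivity
    nlinarith [mul_le_mul_of_nonneg_right h1 hnat0.le, mul_le_mul_of_nonneg_right h2 hnat0.le,
      mul_pos h4 hnat0]
  obtain ⟨ρ, hρ⟩ : ∃ ρ : F.Ω → ℝ, ρ = fun ω =>
      |eval (bt F ω) (P (ptr F J ω)) - al (ptr F J ω)| := ⟨_, rfl⟩
  have hρ0 : ∀ ω, 0 ≤ ρ ω := fun ω => by rw [hρ]; exact abs_nonneg _
  have hab : ∀ ω, B₁ ω → |al (ptr F J ω) - be (slam F w ω)| ≤
      ρ ω + 2 ^ (C₂ * (y + 1)) * nat + 2 ^ ν * nat := by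
    intro ω hω
    have h1 := hbeta ω hω
    have h2 := hagr ω (k1 ω hω) _ (hL.self (k1 ω hω) (Nat.le_succ i))
    have h3 : ρ ω = |al (ptr F J ω) - eval (bt F ω) (P (ptr F J ω))| := by
      rw [hρ]; exact abs_sub_comm _ _
    have h4 := abs_sub_le (al (ptr F J ω)) (eval (bt F ω) (P (ptr F J ω)))
      (be (slam F w ω))
    have h5 := abs_sub_le (eval (bt F ω) (P (ptr F J ω)))
      (eval (bt F ω) (dir (v (ptr F J ω)) (H (slam F w ω) i))) (be (slam F w ω))
    linarith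
  have hnear : ∀ ω k, |((F.X J ω k : ℤ) : ℝ) / 2 ^ J - F.x ω k| ≤ 1 / 2 ^ J := fun ω k =>
    Pool.PB.Trl.x_near F J ω k
  have hPdeg : ∀ p, (P p).totalDegree ≤ D := fun p => by
    rw [hPd]; exact dir_deg _ (hL.degG p i)
  have hPdep : ∀ p, DepC c i (P p) := fun p => by
    rw [hPd]; exact dir_dep _ (hL.depG p i)
  obtain ⟨B₂, l1, l2, l3⟩ := hR B₁ (fun ω h => hB' ω (k1 ω h)) (by linarith)
    (fun p => P p - C (al p)) (fun s => dir (v' s) (H s i) - C (be s)) (fun ω => A + ρ ω)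
    (fun ω => bho J J (ptr F J ω))
    (fun p => (totalDegree_sub _ _).trans (max_le (hPdeg p) (by
      rw [totalDegree_C]; exact Nat.zero_le _)))
    (fun s => (totalDegree_sub _ _).trans (max_le (dir_deg _ (hL.degH s i)) (by
      rw [totalDegree_C]; exact Nat.zero_le _)))
    (fun p b b' hn hb => by
      rw [map_sub, map_sub, eval_C, eval_C, hPdep p b b' hn hb])
    (fun s b b' hn hb => by
      rw [map_sub, map_sub, eval_C, eval_C, dir_dep (v' s) (hL.depH s i) b b' hn hb])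
    (fun ω _ => by linarith [hρ0 ω]) (fun ω _ => ⟨rfl, fun j hj => by
      refine (hnear ω (c j)).trans (inv_mono (hY j hj))⟩)
    (fun ω _ => by
      have e1 : eval (bho J J (ptr F J ω)) (P (ptr F J ω) - C (al (ptr F J ω))) = 0 := by
        rw [map_sub, eval_C, hal, sub_self]
      rw [e1, abs_zero]
      linarith [hρ0 ω])
    (fun ω hω b hb => by
      have h1 := hagr ω (k1 ω hω) b hb
      have h2 := hab ω hω
      rw [map_sub, map_sub, eval_C, eval_C, ← hv ω (k1 ω hω)]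
      have e1 : eval b (P (ptr F J ω)) - al (ptr F J ω) -
          (eval b (dir (v (ptr F J ω)) (H (slam F w ω) i)) - be (slam F w ω)) =
          (eval b (P (ptr F J ω)) - eval b (dir (v (ptr F J ω)) (H (slam F w ω) i))) -
            (al (ptr F J ω) - be (slam F w ω)) := by ring
      rw [e1]
      have h3 := abs_sub (eval b (P (ptr F J ω)) -
        eval b (dir (v (ptr F J ω)) (H (slam F w ω) i))) (al (ptr F J ω) - be (slam F w ω))
      linarith)
  -- the value at the sample is near the value at the rounded point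
  have hρA : ∀ ω, B₂ ω → ρ ω ≤ A := by
    intro ω hω
    have hω' := k1 ω (l1 ω hω)
    have hself := hL.self hω' (Nat.le_succ i)
    obtain ⟨hc1, -⟩ : (∀ j < i, |bho J J (ptr F J ω) (some (c j)) -
        eval (bho J J (ptr F J ω)) (G (ptr F J ω) j)| ≤ 4 / 2 ^ g j) ∧ True := ⟨fun j hj =>
      (hcell (i + 1) (x := bt F ω) (v := σ) (e := e) (J := J) (g := g) (a := a)
        (G := G (ptr F J ω)) hc (hL.degG _) (hL.depG _) (fun j hj => hL.pos ω hω' j hj)
        (fun j hj b hb => hL.lip ω hω' j hj b hb) (fun j hj => by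
          have h1 := hJ j hj
          have h2 := hc45 (i + 1) (by omega)
          omega) i (by omega) (bho J J (ptr F J ω)) rfl (fun j _ => hnear ω (c j))).1 j hj,
      trivial⟩
    have h2 : ∀ j < i, |(bho J J (ptr F J ω) (some (c j)) -
        eval (bho J J (ptr F J ω)) (G (ptr F J ω) j)) -
        (bt F ω (some (c j)) - eval (bt F ω) (G (ptr F J ω) j))| ≤ 2 ^ 0 / 2 ^ (g j + σ) := by
      intro j hj
      have h3 := (hcell (i + 1) (x := bt F ω) (v := σ) (e := e) (J := J) (g := g) (a := a)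
        (G := G (ptr F J ω)) hc (hL.degG _) (hL.depG _) (fun j hj => hL.pos ω hω' j hj)
        (fun j hj b hb => hL.lip ω hω' j hj b hb) (fun j hj => by
          have h1 := hJ j hj
          have h2 := hc45 (i + 1) (by omega)
          omega) j (by omega) (bho J J (ptr F J ω)) rfl (fun j _ => hnear ω (c j))).2 (by omega)
      have h4 := hnear ω (c j)
      have h5 : (1 : ℝ) / 2 ^ J ≤ 1 / 4 / 2 ^ (g j + σ) := by
        have h6 := hJ j (by omega)
        have h7 : (2 : ℝ) ^ (g j + σ + 2) ≤ 2 ^ J := pow_le_pow_right₀ (by norm_num) (by omega)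
        rw [div_div, div_le_div_iff₀ (by positivity) (by positivity)]
        rw [pow_add] at h7
        linarith
      have e1 : (bho J J (ptr F J ω) (some (c j)) -
          eval (bho J J (ptr F J ω)) (G (ptr F J ω) j)) -
          (bt F ω (some (c j)) - eval (bt F ω) (G (ptr F J ω) j)) =
          (((F.X J ω (c j) : ℤ) : ℝ) / 2 ^ J - F.x ω (c j)) -
            (eval (bho J J (ptr F J ω)) (G (ptr F J ω) j) -
              eval (bt F ω) (G (ptr F J ω) j)) := by
        have e2 : bho J J (ptr F J ω) (some (c j)) = ((F.X J ω (c j) : ℤ) : ℝ) / 2 ^ J := rfl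
        have e3 : bt F ω (some (c j)) = F.x ω (c j) := rfl
        rw [e2, e3]
        ring
      rw [e1, pow_zero]
      have h6 := abs_sub (((F.X J ω (c j) : ℤ) : ℝ) / 2 ^ J - F.x ω (c j))
        (eval (bho J J (ptr F J ω)) (G (ptr F J ω) j) - eval (bt F ω) (G (ptr F J ω) j))
      have h7 : (1 : ℝ) / 4 / 2 ^ (g j + σ) + 1 / 4 / 2 ^ (g j + σ) ≤ 1 / 2 ^ (g j + σ) := by
        have h8 : (0 : ℝ) < 1 / 2 ^ (g j + σ) := by positivity
        have h9 : (1 : ℝ) / 4 / 2 ^ (g j + σ) = 1 / 2 ^ (g j + σ) / 4 := by ring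
        rw [h9]
        linarith
      linarith
    have h3 := hscl (c := c) (i := i) (G := G (ptr F J ω))
      (Q := P (ptr F J ω) - C (al (ptr F J ω))) (g := g) (a := a) (n := 0) (v := σ)
      (M := 2 ^ h * (A + ρ ω)) (x := bt F ω) (b := bho J J (ptr F J ω)) hi hci (hL.degG _)
      (hL.depG _) (fun b b' hn hb => by
        rw [map_sub, map_sub, eval_C, eval_C, hPdep _ b b' hn hb])
      ((totalDegree_sub _ _).trans (max_le (hPdeg _) (by
        rw [totalDegree_C]; exact Nat.zero_le _)))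
      (mul_nonneg (by positivity) (by linarith [hρ0 ω])) (fun b hb => l3 ω hω b hb)
      (fun j hj => hL.pos ω hω' j (by omega)) (Nat.zero_le _) (by
        show |F.t ω - F.t ω| ≤ _
        rw [sub_self, abs_zero]
        positivity) h2
    have e1 : eval (bho J J (ptr F J ω)) (P (ptr F J ω) - C (al (ptr F J ω))) = 0 := by
      rw [map_sub, eval_C, hal, sub_self]
    have e2 : |eval (bho J J (ptr F J ω)) (P (ptr F J ω) - C (al (ptr F J ω))) -
        eval (bt F ω) (P (ptr F J ω) - C (al (ptr F J ω)))| = ρ ω := by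
      rw [e1, zero_sub, abs_neg, map_sub, eval_C, hρ]
    rw [e2] at h3
    have h4 : (2 : ℝ) ^ (c₃ + 0) / 2 ^ σ * (2 ^ h * (A + ρ ω)) ≤ 1 / 2 * (A + ρ ω) := by
      have h5 : (2 : ℝ) ^ (c₃ + 0) / 2 ^ σ * 2 ^ h ≤ 1 / 2 := by
        rw [div_mul_eq_mul_div, ← pow_add, div_le_div_iff₀ (by positivity) (by norm_num), one_mul,
          ← pow_succ]
        exact pow_le_pow_right₀ (by norm_num) (by omega)
      rw [← mul_assoc]
      exact mul_le_mul_of_nonneg_right h5 (by linarith [hρ0 ω])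
    linarith
  -- the rounding
  obtain ⟨ε, hε⟩ : ∃ ε : ℝ, ε = 8 * A := ⟨_, rfl⟩
  have hε0 : 0 < ε := by rw [hε]; linarith
  have htwo : ∀ ω, B₂ ω → rnd ε 0 (al (ptr F J ω)) = rnd ε 0 (be (slam F w ω)) ∨
      rnd ε (1 / 2) (al (ptr F J ω)) = rnd ε (1 / 2) (be (slam F w ω)) := by
    intro ω hω
    refine rnd_two hε0 ?_
    have h1 := hab ω (l1 ω hω)
    have h2 := hρA ω hω
    have h3 : 0 < 2 ^ (C₂ * (y + 1)) * nat := by positivity
    rw [hε]
    linarith
  have hcov := Pool.PZ.Zrt.Pe_cover F.isLaw htwo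
  obtain ⟨s, B₃, m1, m2, m3⟩ : ∃ (s : ℝ) (B₃ : F.Ω → Prop), Sub B₃ B₂ ∧
      Pe F.p B₂ / 2 ≤ Pe F.p B₃ ∧ ∀ ω, B₃ ω → rnd ε s (al (ptr F J ω)) =
        rnd ε s (be (slam F w ω)) := by
    rcases le_total (Pe F.p fun ω => B₂ ω ∧ rnd ε 0 (al (ptr F J ω)) =
        rnd ε 0 (be (slam F w ω))) (Pe F.p fun ω => B₂ ω ∧ rnd ε (1 / 2) (al (ptr F J ω)) =
        rnd ε (1 / 2) (be (slam F w ω))) with h1 | h1
    · exact ⟨1 / 2, fun ω => B₂ ω ∧ rnd ε (1 / 2) (al (ptr F J ω)) =
        rnd ε (1 / 2) (be (slam F w ω)), fun ω h => h.1, by linarith, fun ω h => h.2⟩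
    · exact ⟨0, fun ω => B₂ ω ∧ rnd ε 0 (al (ptr F J ω)) = rnd ε 0 (be (slam F w ω)),
        fun ω h => h.1, by linarith, fun ω h => h.2⟩
  have s3 : Sub B₃ B' := fun ω h => k1 ω (l1 ω (m1 ω h))
  have hx₁ : 2 ^ (x₀ + 4) * 2 ^ g l / 2 ^ g i = 16 * A := by
    rw [hA, hnat, pow_add]
    ring
  have hslope : ∀ ω, B₃ ω → |eval (bt F ω) (dir (v (ptr F J ω)) (G (ptr F J ω) i)) -
      rnd ε s (al (ptr F J ω))| ≤ 2 ^ (x₀ + 4) * 2 ^ g l / 2 ^ g i := by
    intro ω hω
    have h1 := hρA ω (m1 ω hω)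
    have h2 := rnd_near hε0 s (al (ptr F J ω))
    have h3 := abs_sub_le (eval (bt F ω) (P (ptr F J ω))) (al (ptr F J ω))
      (rnd ε s (al (ptr F J ω)))
    have h4 : |al (ptr F J ω) - rnd ε s (al (ptr F J ω))| ≤ ε := by
      rw [abs_sub_comm]; exact h2
    have h5 : ρ ω = |eval (bt F ω) (P (ptr F J ω)) - al (ptr F J ω)| := by rw [hρ]
    have h6 : |eval (bt F ω) (P (ptr F J ω)) - rnd ε s (al (ptr F J ω))| ≤ 16 * A := by
      linarith [hε.le]
    rw [hx₁]
    rw [hPd] at h6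
    exact h6
  -- the new direction
  obtain ⟨B₄, n1, n2, n3⟩ := hstep (v := fun p => Function.update (v p) (c i)
      (rnd ε s (al p))) (v' := fun s' => Function.update (v' s') (c i) (rnd ε s (be s')))
    (x := x₀ + 4) (y := y) hi hli hci hR.relv (fun ω h => hB' ω (s3 ω h)) (by linarith)
    (hL.sub s3) (fun ω hω => by
      show Function.update (v (ptr F J ω)) (c i) (rnd ε s (al (ptr F J ω))) =
        Function.update (v' (slam F w ω)) (c i) (rnd ε s (be (slam F w ω)))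
      rw [hv ω (s3 ω hω), m3 ω hω])
    (fun ω hω => by
      have hne : ∀ k < i, c k ≠ c i := fun k hk h => by
        have := hc (Set.mem_Iio.2 (by omega)) (Set.mem_Iio.2 (Nat.lt_succ_self i)) h
        omega
      have h1 := hv1 ω (s3 ω hω)
      refine ⟨?_, fun j hj => ?_⟩
      · show Function.update (v (ptr F J ω)) (c i) (rnd ε s (al (ptr F J ω))) (c l) = 1
        rw [Function.update_of_ne (hne l hli)]
        exact h1.1
      · show Function.update (v (ptr F J ω)) (c i) (rnd ε s (al (ptr F J ω))) (c j) = 0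
        rw [Function.update_of_ne (hne j (by omega))]
        exact h1.2 j hj)
    (fun ω hω j hj hlj => shr_upd hc hL.depG hj (hy ω (s3 ω hω) j hj hlj).1)
    (fun ω hω => by
      show |eval (bt F ω) (dir (Function.update (v (ptr F J ω)) (c i)
        (rnd ε s (al (ptr F J ω)))) (G (ptr F J ω) i)) -
        Function.update (v (ptr F J ω)) (c i) (rnd ε s (al (ptr F J ω))) (c i)| ≤ _
      rw [dir_upd hc _ _ (hL.depG _ i), Function.update_self]
      exact hslope ω hω)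
  have hx₀C : x₀ + 4 + h + y + 1 ≤ (2 * C₂ + 9) * (h + y + ν + 1) := by
    rw [hx₀]
    have h1 : C₂ * (y + 1) ≤ C₂ * (h + y + ν + 1) := Nat.mul_le_mul_left _ (by omega)
    have h2 : (2 * C₂ + 9) * (h + y + ν + 1) = 2 * (C₂ * (h + y + ν + 1)) +
        9 * (h + y + ν + 1) := by ring
    omega
  obtain ⟨Z, hZ⟩ : ∃ Z, Z = h + y + ν + 1 := ⟨_, rfl⟩
  rw [← hZ] at hx₀C
  have hexp : (C₁ + 1) * (x₀ + 4 + h + y + 1) ≤
      (c₅ + c₃ + 2 + (C₁ + 1) * (2 * C₂ + 9)) * Z := by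
    calc (C₁ + 1) * (x₀ + 4 + h + y + 1) ≤ (C₁ + 1) * ((2 * C₂ + 9) * Z) :=
          Nat.mul_le_mul_left _ hx₀C
      _ = ((C₁ + 1) * (2 * C₂ + 9)) * Z := by ring
      _ ≤ _ := Nat.mul_le_mul_right _ (by omega)
  have hexp2 : (C₁ + 1) * (x₀ + 4 + h + y + 1) = C₁ * (x₀ + 4 + h + y + 1) +
      (x₀ + 4 + h + y + 1) := by ring
  refine ⟨B₄, fun p => rnd ε s (al p), fun s' => rnd ε s (be s'), fun ω h => s3 ω (n1 ω h), ?_,
    fun ω hω => m3 ω (n1 ω hω), fun ω hω => ⟨fun b hb t ht => ?_, ?_⟩⟩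
  · have : (2 : ℝ) ^ 4 = 2 * 2 * 2 * 2 := by norm_num
    rw [this]
    have h1 : Pe F.p B' / (2 * 2 * 2 * 2) = Pe F.p B' / 2 / 2 / 2 / 2 := by
      field_simp
    rw [h1]
    linarith
  · refine (n3 ω hω b hb t ht).trans (div_le_div_of_nonneg_right
      (pow_le_pow_right₀ (by norm_num) ?_) (by positivity))
    rw [← hZ]
    omega
  · refine (hslope ω (n1 ω hω)).trans (div_le_div_of_nonneg_right (mul_le_mul_of_nonneg_right
      (pow_le_pow_right₀ (by norm_num) ?_) (by positivity)) (by positivity))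
    rw [← hZ]
    omega

/-- **The closed shear** at a node without relations. -/
theorem cbr_fam (D r : ℕ) : ∃ L : ℕ, 1 ≤ L ∧ ∀ {m J : ℕ} {F : Fam m J} {c : ℕ → Fin m}
    {l n a w e h σ : ℕ} {g Y ν : ℕ → ℕ} {κ κ' : ℝ} {B₀ B' : F.Ω → Prop}
    {G : PtT F → ℕ → MvPolynomial (Option (Fin m)) ℝ}
    {H : LnT F → ℕ → MvPolynomial (Option (Fin m)) ℝ}, n ≤ r → l < n →
    Set.InjOn c (Set.Iio n) → RelvH F c n a w g Y D h κ B₀ G → Sub B' B₀ → 0 ≤ κ →
    κ' * Pe F.p B₀ ≤ Pe F.p B' → κ * 16 ^ (r + 1) ≤ κ' →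
    ChOK F c n (fun _ => D) a w e g B' G H →
    (∀ i, l < i → i < n → NVf F c l i a w g (L ^ i * (h + ∑ j ∈ range i, ν j + 1)) (ν i) κ
      B₀ G H) → (∀ j < n, Y j ≤ J) → (∀ j < n, e + g j + σ + L ≤ J) → h + L ≤ σ →
    ∃ (B : F.Ω → Prop) (v : PtT F → Fin m → ℝ) (v' : LnT F → Fin m → ℝ), Sub B B' ∧
      Pe F.p B' / 16 ^ r ≤ Pe F.p B ∧ (∀ ω, B ω → v (ptr F J ω) = v' (slam F w ω)) ∧
      (∀ p, v p (c l) = 1 ∧ (∀ j < l, v p (c j) = 0) ∧
        ∀ k, (∀ j, l ≤ j → j < n → c j ≠ k) → v p k = 0) ∧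
      ∀ ω, B ω → ∀ i, l < i → i < n →
        Shr F c l a g G v (L ^ n * (h + ∑ j ∈ range n, ν j + 1)) i ω ∧
        |eval (bt F ω) (dir (v (ptr F J ω)) (G (ptr F J ω) i)) - v (ptr F J ω) (c i)| ≤
          2 ^ (L ^ n * (h + ∑ j ∈ range n, ν j + 1)) * 2 ^ g l / 2 ^ g i := by
  obtain ⟨C, hstep⟩ := cbr_step D r
  refine ⟨2 * C + 1, by omega, ?_⟩
  intro m J F c l n a w e h σ g Y ν κ κ' B₀ B' G H hn hln hc hR hB' hκ0 hP hκ hL hNV hY hJ hσ
  obtain ⟨L, hL0⟩ : ∃ L, L = 2 * C + 1 := ⟨_, rfl⟩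
  rw [← hL0] at hNV hJ hσ ⊢
  have hPn := Pe_nonneg F.isLaw B₀
  have key : ∀ k, l < k → k ≤ n → ∃ (B : F.Ω → Prop) (v : PtT F → Fin m → ℝ)
      (v' : LnT F → Fin m → ℝ), Sub B B' ∧
      Pe F.p B' / 16 ^ k ≤ Pe F.p B ∧ (∀ ω, B ω → v (ptr F J ω) = v' (slam F w ω)) ∧
      (∀ p, v p (c l) = 1 ∧ (∀ j < l, v p (c j) = 0) ∧
        ∀ i, (∀ j, l ≤ j → j < k → c j ≠ i) → v p i = 0) ∧
      ∀ ω, B ω → ∀ i, l < i → i < k →
        Shr F c l a g G v (L ^ k * (h + ∑ j ∈ range k, ν j + 1)) i ω ∧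
        |eval (bt F ω) (dir (v (ptr F J ω)) (G (ptr F J ω) i)) - v (ptr F J ω) (c i)| ≤
          2 ^ (L ^ k * (h + ∑ j ∈ range k, ν j + 1)) * 2 ^ g l / 2 ^ g i := by
    intro k
    induction k with
    | zero => exact fun h => absurd h (Nat.not_lt_zero l)
    | succ k ih =>
      intro hlk hk
      rcases Nat.lt_or_ge l k with h1 | h1
      · obtain ⟨B, v, v', k1, k2, k3, k4, k5⟩ := ih h1 (by omega)
        obtain ⟨y, hy⟩ : ∃ y, y = L ^ k * (h + ∑ j ∈ range k, ν j + 1) := ⟨_, rfl⟩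
        have hck : Set.InjOn c (Set.Iio (k + 1)) := hc.mono (Set.Iio_subset_Iio hk)
        have hne : ∀ j < k, c j ≠ c k := fun j hj he => by
          have := hck (Set.mem_Iio.2 (by omega)) (Set.mem_Iio.2 (Nat.lt_succ_self k)) he
          omega
        rw [← hy] at k5
        obtain ⟨B₂, x, x', l1, l2, l3, l4⟩ := hstep (y := y) (ν := ν k) (v := v) (v' := v')
          (κ := κ) (B₀ := B₀) (by omega) h1 hck (hR.low (by omega) hc hL.depG)
          (fun ω h => hB' ω (k1 ω h)) hκ0 (by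
            have h2 : (16 : ℝ) ^ k ≤ 16 ^ r := pow_le_pow_right₀ (by norm_num) (by omega)
            have h3 : κ * 16 * 16 ^ k * Pe F.p B₀ ≤ Pe F.p B' := by
              refine le_trans (mul_le_mul_of_nonneg_right ?_ hPn) hP
              refine le_trans ?_ hκ
              rw [pow_succ]
              nlinarith [mul_le_mul_of_nonneg_left h2 hκ0]
            refine le_trans ?_ k2
            rw [le_div_iff₀ (by positivity)]
            linarith)
          ((hL.mono hk (fun _ => le_rfl) le_rfl le_rfl).sub k1)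
          (by rw [hy]; exact hNV k h1 (by omega)) (fun j hj => hY j (by omega))
          (fun j hj => by
            have h6 := hJ j (lt_of_lt_of_le hj hk)
            have h7 : C ≤ L := by omega
            exact le_trans (Nat.add_le_add_left h7 _) h6)
          (le_trans (Nat.add_le_add_left (by omega : C ≤ L) _) hσ) k3
          (fun ω _ => ⟨(k4 _).1, (k4 _).2.1⟩) (fun ω hω j hj hlj => k5 ω hω j hlj hj)
        obtain ⟨z, hz⟩ : ∃ z, z = h + ∑ j ∈ range (k + 1), ν j + 1 := ⟨_, rfl⟩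
        have hsum : z = (h + ∑ j ∈ range k, ν j + 1) + ν k := by
          rw [hz, Finset.sum_range_succ]; omega
        rw [← hz]
        have hLk : 1 ≤ L ^ k := Nat.one_le_pow _ _ (by omega)
        have hyz : y + ν k ≤ L ^ k * z := by
          rw [hsum, Nat.mul_add, ← hy]
          exact Nat.add_le_add_left (Nat.le_mul_of_pos_left _ hLk) _
        have hhz : h + 1 ≤ L ^ k * z := by
          have : h + 1 ≤ z := by omega
          exact this.trans (Nat.le_mul_of_pos_left _ hLk)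
        have hCz : C * (h + y + ν k + 1) ≤ L ^ (k + 1) * z := by
          calc C * (h + y + ν k + 1) ≤ C * (2 * (L ^ k * z)) :=
                Nat.mul_le_mul_left _ (by omega)
            _ = (2 * C) * (L ^ k * z) := by ring
            _ ≤ L * (L ^ k * z) := Nat.mul_le_mul_right _ (by omega)
            _ = L ^ (k + 1) * z := by rw [pow_succ]; ring
        have hyL : y ≤ L ^ (k + 1) * z := by
          have : L ^ (k + 1) * z = L * (L ^ k * z) := by rw [pow_succ]; ring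
          rw [this]
          exact (by omega : y ≤ L ^ k * z).trans (Nat.le_mul_of_pos_left _ (by omega))
        refine ⟨B₂, fun p => Function.update (v p) (c k) (x p),
          fun s => Function.update (v' s) (c k) (x' s), fun ω h => k1 ω (l1 ω h), ?_,
          fun ω hω => ?_, fun p => ⟨?_, fun j hj => ?_, fun i hi => ?_⟩,
          fun ω hω i hli hi => ?_⟩
        · have h2 : (16 : ℝ) ^ (k + 1) = 16 ^ k * 2 ^ 4 := by rw [pow_succ]; norm_num
          rw [h2, ← div_div]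
          exact (div_le_div_of_nonneg_right k2 (by positivity)).trans l2
        · show Function.update (v (ptr F J ω)) (c k) (x (ptr F J ω)) =
            Function.update (v' (slam F w ω)) (c k) (x' (slam F w ω))
          rw [k3 ω (l1 ω hω), l3 ω hω]
        · show Function.update (v p) (c k) (x p) (c l) = 1
          rw [Function.update_of_ne (hne l h1)]
          exact (k4 p).1
        · show Function.update (v p) (c k) (x p) (c j) = 0
          rw [Function.update_of_ne (hne j (by omega))]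
          exact (k4 p).2.1 j hj
        · show Function.update (v p) (c k) (x p) i = 0
          rw [Function.update_of_ne (fun he => hi k (by omega) (Nat.lt_succ_self k) he.symm)]
          exact (k4 p).2.2 i fun j h2 h3 => hi j h2 (by omega)
        · rcases Nat.lt_or_ge i k with h2 | h2
          · obtain ⟨h3, h4⟩ := k5 ω (l1 ω hω) i hli h2
            constructor
            · intro b hb s hs
              refine (shr_upd hck hL.depG h2 h3 b hb s hs).trans (div_le_div_of_nonneg_right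
                (pow_le_pow_right₀ (by norm_num) hyL) (by positivity))
            · show |eval (bt F ω) (dir (Function.update (v (ptr F J ω)) (c k)
                (x (ptr F J ω))) (G (ptr F J ω) i)) -
                Function.update (v (ptr F J ω)) (c k) (x (ptr F J ω)) (c i)| ≤ _
              rw [dir_upd hck _ _ ((hL.depG _ i).mono h2.le), Function.update_of_ne (hne i h2)]
              exact h4.trans (div_le_div_of_nonneg_right (mul_le_mul_of_nonneg_right
                (pow_le_pow_right₀ (by norm_num) hyL) (by positivity)) (by positivity))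
          · have : i = k := by omega
            subst this
            obtain ⟨h3, h4⟩ := l4 ω hω
            constructor
            · intro b hb s hs
              exact (h3 b hb s hs).trans (div_le_div_of_nonneg_right
                (pow_le_pow_right₀ (by norm_num) hCz) (by positivity))
            · show |eval (bt F ω) (dir (Function.update (v (ptr F J ω)) (c i)
                (x (ptr F J ω))) (G (ptr F J ω) i)) -
                Function.update (v (ptr F J ω)) (c i) (x (ptr F J ω)) (c i)| ≤ _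
              rw [dir_upd hck _ _ (hL.depG _ i), Function.update_self]
              exact h4.trans (div_le_div_of_nonneg_right (mul_le_mul_of_nonneg_right
                (pow_le_pow_right₀ (by norm_num) hCz) (by positivity)) (by positivity))
      · have : k = l := by omega
        subst this
        refine ⟨B', fun _ => Function.update 0 (c k) 1, fun _ => Function.update 0 (c k) 1,
          fun _ h => h, ?_, fun _ _ => rfl, fun p => ⟨?_, fun j hj => ?_, fun i hi => ?_⟩,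
          fun ω _ i h2 h3 => by omega⟩
        · exact div_le_self (Pe_nonneg F.isLaw _) (one_le_pow₀ (by norm_num))
        · exact Function.update_self _ _ _
        · have hne : c j ≠ c k := fun he => by
            have := hc (Set.mem_Iio.2 (by omega)) (Set.mem_Iio.2 hln) he
            omega
          show Function.update (0 : Fin m → ℝ) (c k) 1 (c j) = 0
          rw [Function.update_of_ne hne]
          rfl
        · show Function.update (0 : Fin m → ℝ) (c k) 1 i = 0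
          rw [Function.update_of_ne (fun he => hi k le_rfl (Nat.lt_succ_self k) he.symm)]
          rfl
  obtain ⟨B, v, v', k1, k2, k3, k4, k5⟩ := key n hln le_rfl
  refine ⟨B, v, v', k1, ?_, k3, k4, k5⟩
  exact (div_le_div_of_nonneg_left (Pe_nonneg F.isLaw _) (by positivity)
    (pow_le_pow_right₀ (by norm_num) hn)).trans k2

end Pool.SHR
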