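import Pool.Agent.H87.GEN.Shr
import Pool.Agent.H2.GEN.Swp

/-!
# The shear at several nodes

`relvF_low`: no relation for the first coordinates. `lab_near`: the labels of two chains are near on
the natural boxes of one of them. `slp_cmp`: the derivatives at the sample of two near labels.
`shr_rec`: the shear, from a comparison chain. `shr_node`: from the slopes at one node `(a₀, w₀)` to
the nodes `(a₀, w)` and `(a, w)`, without loss.
-/

set_option autoImplicit false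

namespace Pool.SHR

open Finset Real MvPolynomial
open Pool.Agent.H49.Ent Pool.Agent.H32.Dense Pool.STK Pool.KA Pool.KSAT Pool.K2S Pool.PB Pool.S6C
open Pool.GEN Pool.CHT Pool.ISO
open Pool.FLF (Fam.sub)

variable {m J : ℕ}

/-- **No relation for the first coordinates.** -/
theorem relvF_low {F : Fam m J} {c : ℕ → Fin m} {i n a w : ℕ} {g : ℕ → ℕ} {D h : ℕ} {κ : ℝ}
    {B₀ : F.Ω → Prop} {G : PtT F → ℕ → MvPolynomial (Option (Fin m)) ℝ}
    (hR : RelvF F c n a w g D h κ B₀ G) (hi : i ≤ n) (hc : Set.InjOn c (Set.Iio n))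
    (hdep : ∀ y l, DepC c l (G y l)) : RelvF F c i a w g D h κ B₀ G := by
  intro B' hB hP Dx Dl M h1 h2 h3 h4 hM h5 h6
  obtain ⟨B'', k1, k2, k3⟩ := hR B' hB hP Dx Dl M h1 h2 (fun y => (h3 y).mono hi)
    (fun s => (h4 s).mono hi) hM h5 fun ω hω b hb => h6 ω hω b (hb.mono le_rfl hi)
  refine ⟨B'', k1, k2, fun ω hω b hb => ?_⟩
  obtain ⟨b', m1, m2, m3, _⟩ := nbx_ext hc (hdep (ptr F J ω)) hi hb
  rw [← h3 (ptr F J ω) b' b m2 m3]
  exact k3 ω hω b' m1

/-- **The labels of two chains** are near on the natural boxes. -/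
theorem lab_near (D r : ℕ) (hD : 1 ≤ D) : ∃ C : ℕ, ∀ {m J : ℕ} {F : Fam m J} {c : ℕ → Fin m}
    {n a w e' h : ℕ} {g g' : ℕ → ℕ} {κ κ' : ℝ} {B₀ B' : F.Ω → Prop}
    {G G' : PtT F → ℕ → MvPolynomial (Option (Fin m)) ℝ}
    {H' : LnT F → ℕ → MvPolynomial (Option (Fin m)) ℝ}, n ≤ r →
    Set.InjOn c (Set.Iio n) → RelvF F c n a w g D h κ B₀ G → (∀ y l, DepC c l (G y l)) →
    Sub B' B₀ → κ' * Pe F.p B₀ ≤ Pe F.p B' → κ * 2 ^ (r + 1) ≤ κ' →
    ChOK F c n (fun _ => D) a w e' g' B' G' H' →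
    ∃ B : F.Ω → Prop, Sub B B' ∧ Pe F.p B' / 2 ^ r ≤ Pe F.p B ∧ ∀ ω, B ω → ∀ i < n, ∀ b,
      NBx c (G (ptr F J ω)) g a (F.t ω) i b →
        |eval b (G (ptr F J ω) i) - eval b (G' (ptr F J ω) i)| ≤ 2 ^ (C * (h + 1)) / 2 ^ g' i := by
  obtain ⟨C, move⟩ := move_all D (r + 1) hD
  refine ⟨C, ?_⟩
  intro m J F c n a w e' h g g' κ κ' B₀ B' G G' H' hn hc hR hdep hB hP hκ hL
  obtain ⟨B, k1, k2, k3⟩ := move (Nat.lt_succ_of_le hn) hc hR hB hP hκ hL
  refine ⟨B, k1, (div_le_div_of_nonneg_left (Pe_nonneg F.isLaw _) (by positivity)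
    (pow_le_pow_right₀ (by norm_num) hn)).trans k2, fun ω hω i hi b hb => ?_⟩
  obtain ⟨b', m1, m2, m3, m4⟩ := nbx_ext hc (hdep (ptr F J ω)) hi.le hb
  have h1 := k3 ω hω b' m1 i hi
  rw [m4 i le_rfl hi] at h1
  rw [← hdep (ptr F J ω) i b' b m2 m3, ← hL.depG (ptr F J ω) i b' b m2 m3]
  exact h1

/-- **The derivatives at the sample** of two near labels. -/
theorem slp_cmp (D r : ℕ) : ∃ C : ℕ, ∀ {m J : ℕ} {F : Fam m J} {c : ℕ → Fin m}
    {l i a k y p : ℕ} {g : ℕ → ℕ} {G : PtT F → ℕ → MvPolynomial (Option (Fin m)) ℝ}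
    {v : PtT F → Fin m → ℝ} {P : MvPolynomial (Option (Fin m)) ℝ} {ω : F.Ω}
    {b : Option (Fin m) → ℝ}, i < r →
    Set.InjOn c (Set.Iio i) → (∀ y l, (G y l).totalDegree ≤ D) → (∀ y l, DepC c l (G y l)) →
    DepC c i P → P.totalDegree ≤ D →
    v (ptr F J ω) (c l) = 1 → (∀ j < l, v (ptr F J ω) (c j) = 0) →
    (∀ j < i, l < j → Shr F c l a g G v y j ω) → NBx c (G (ptr F J ω)) g a (F.t ω) i b →
    (∀ b, NBx c (G (ptr F J ω)) g a (F.t ω) i b → |eval b P| ≤ 2 ^ k / 2 ^ p) →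
    |eval b (dir (v (ptr F J ω)) P)| ≤ 2 ^ (C * (k + y + 1)) * 2 ^ g l / 2 ^ p := by
  obtain ⟨c₀, D₁, hD₁, hdil⟩ := nbx_dil r (fun _ => D)
  obtain ⟨Cm, hC, hmar⟩ := markov D
  obtain ⟨c₁, hc₁⟩ := pow_unbounded_of_one_lt Cm (one_lt_two (α := ℝ))
  refine ⟨c₁ + c₀ + D₁ + 1, ?_⟩
  intro m J F c l i a k y p g G v P ω b hi hc hdeg hdep hPd hP h1 h0 hS hb hk
  refine (hmar (v (ptr F J ω)) b P (2 ^ (c₀ + (y + 1) * D₁) * (2 ^ k / 2 ^ p)) (g l) hP
    (by positivity) fun s hs0 hs1 => ?_).trans ?_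
  · have hs : |s| ≤ 1 / 2 ^ g l := by rw [abs_of_nonneg hs0]; exact hs1
    obtain ⟨m1, m2⟩ := mvp_box (fun j => hdep _ j) h0 h1 hb hs fun j hj hlj =>
      hS j hj hlj b (hb.mono le_rfl hj.le) s hs
    exact hdil (c := c) (i := i) (G := G (ptr F J ω)) (Q := P) (g := g) (a := a) (t := F.t ω)
      (M := 2 ^ k / 2 ^ p) (y + 1) hi hc (hdeg _) (hdep _) hPd hP (by positivity) hk _ m1 m2
  · calc Cm * (2 ^ (c₀ + (y + 1) * D₁) * (2 ^ k / 2 ^ p)) * 2 ^ g l
        ≤ 2 ^ c₁ * (2 ^ (c₀ + (y + 1) * D₁) * (2 ^ k / 2 ^ p)) * 2 ^ g l := by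
          refine mul_le_mul_of_nonneg_right (mul_le_mul_of_nonneg_right hc₁.le ?_) ?_ <;>
            positivity
      _ = 2 ^ (c₁ + (c₀ + (y + 1) * D₁) + k) * 2 ^ g l / 2 ^ p := by
          rw [pow_add 2 (c₁ + (c₀ + (y + 1) * D₁)), pow_add 2 c₁]; ring
      _ ≤ _ := by
          refine div_le_div_of_nonneg_right (mul_le_mul_of_nonneg_right
            (pow_le_pow_right₀ (by norm_num) ?_) (by positivity)) (by positivity)
          nlinarith

/-- **The shear**, from a comparison chain. -/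
theorem shr_rec (D r : ℕ) : ∃ C : ℕ, ∀ {m J : ℕ} {F : Fam m J} {c : ℕ → Fin m}
    {l n a w e h x k q : ℕ} {g p : ℕ → ℕ} {κ κ' : ℝ} {B₀ B' : F.Ω → Prop}
    {G G' : PtT F → ℕ → MvPolynomial (Option (Fin m)) ℝ}
    {H : LnT F → ℕ → MvPolynomial (Option (Fin m)) ℝ}
    {v : PtT F → Fin m → ℝ} {v' : LnT F → Fin m → ℝ}, n ≤ r →
    Set.InjOn c (Set.Iio n) → (∀ i, l < i → i < n → RelvF F c i a w g D h κ B₀ G) → Sub B' B₀ →
    κ' * Pe F.p B₀ ≤ Pe F.p B' → κ * 2 ^ r ≤ κ' → ChOK F c n (fun _ => D) a w e g B' G H →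
    (∀ y i, (G' y i).totalDegree ≤ D) → (∀ y i, DepC c i (G' y i)) →
    (∀ ω, B' ω → v (ptr F J ω) = v' (slam F w ω)) →
    (∀ ω, B' ω → v (ptr F J ω) (c l) = 1 ∧ ∀ j < l, v (ptr F J ω) (c j) = 0) →
    (∀ ω, B' ω → ∀ i, l < i → i < n → ∀ b, NBx c (G (ptr F J ω)) g a (F.t ω) i b →
      |eval b (G (ptr F J ω) i) - eval b (G' (ptr F J ω) i)| ≤ 2 ^ k / 2 ^ p i) →
    (∀ i, l < i → i < n → g i ≤ p i + q) →
    (∀ ω, B' ω → ∀ i, l < i → i < n →
      |eval (bt F ω) (dir (v (ptr F J ω)) (G' (ptr F J ω) i)) - v (ptr F J ω) (c i)| ≤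
        2 ^ x * 2 ^ g l / 2 ^ g i) →
    ∃ B'' : F.Ω → Prop, Sub B'' B' ∧ Pe F.p B' / 2 ^ r ≤ Pe F.p B'' ∧
      ∀ ω, B'' ω → ∀ i, l < i → i < n →
        Shr F c l a g G v (C * (x + h + k + q + 1)) i ω ∧
        |eval (bt F ω) (dir (v (ptr F J ω)) (G (ptr F J ω) i)) - v (ptr F J ω) (c i)| ≤
          2 ^ (C * (x + h + k + q + 1)) * 2 ^ g l / 2 ^ g i := by
  obtain ⟨C₀, hstep⟩ := shr_step D r
  obtain ⟨C₁, hcmp⟩ := slp_cmp (D := D) (r := r)
  obtain ⟨L, hL0⟩ : ∃ L, L = C₀ * (2 * C₁ + 4) + 2 * C₁ + 4 := ⟨_, rfl⟩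
  refine ⟨L ^ (r + 1), ?_⟩
  intro m J F c l n a w e h x k q g p κ κ' B₀ B' G G' H v v' hn hc hR hB hP hκ hL hdG' hcG' hv hv1
    hk hpq hx
  obtain ⟨z, hz⟩ : ∃ z, z = x + h + k + q + 1 := ⟨_, rfl⟩
  rw [← hz]
  have hL1 : 1 ≤ L := by omega
  have key : ∀ j ≤ n, ∃ B : F.Ω → Prop, Sub B B' ∧ Pe F.p B' / 2 ^ j ≤ Pe F.p B ∧ ∀ ω, B ω →
      ∀ i, l < i → i < j → Shr F c l a g G v (L ^ j * z) i ω ∧
        |eval (bt F ω) (dir (v (ptr F J ω)) (G (ptr F J ω) i)) - v (ptr F J ω) (c i)| ≤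
          2 ^ (L ^ j * z) * 2 ^ g l / 2 ^ g i := by
    intro j
    induction j with
    | zero => exact fun _ => ⟨B', fun _ h => h, by simp, fun ω _ i _ hi => by omega⟩
    | succ j ih =>
      intro hj
      obtain ⟨B, k1, k2, k3⟩ := ih (by omega)
      have hzj : z ≤ L ^ j * z := Nat.le_mul_of_pos_left _ (Nat.one_le_pow _ _ (by omega))
      have hjj : L ^ (j + 1) * z = L * (L ^ j * z) := by rw [pow_succ]; ring
      have hle : L ^ j * z ≤ L ^ (j + 1) * z := by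
        rw [hjj]
        exact Nat.le_mul_of_pos_left _ (by omega)
      have hup : ∀ ω i, (Shr F c l a g G v (L ^ j * z) i ω ∧
          |eval (bt F ω) (dir (v (ptr F J ω)) (G (ptr F J ω) i)) - v (ptr F J ω) (c i)| ≤
            2 ^ (L ^ j * z) * 2 ^ g l / 2 ^ g i) → Shr F c l a g G v (L ^ (j + 1) * z) i ω ∧
          |eval (bt F ω) (dir (v (ptr F J ω)) (G (ptr F J ω) i)) - v (ptr F J ω) (c i)| ≤
            2 ^ (L ^ (j + 1) * z) * 2 ^ g l / 2 ^ g i := by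
        intro ω i hS
        refine ⟨fun b hb s hs => (hS.1 b hb s hs).trans (div_le_div_of_nonneg_right
          (pow_le_pow_right₀ (by norm_num) hle) (by positivity)), hS.2.trans ?_⟩
        exact div_le_div_of_nonneg_right (mul_le_mul_of_nonneg_right
          (pow_le_pow_right₀ (by norm_num) hle) (by positivity)) (by positivity)
      rcases Nat.lt_or_ge l j with hlj | hlj
      · have hjn : j < n := by omega
        have hcj : Set.InjOn c (Set.Iio j) := hc.mono (Set.Iio_subset_Iio hjn.le)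
        obtain ⟨x', hx'⟩ : ∃ x', x' = C₁ * (k + L ^ j * z + 1) + q + x + 1 := ⟨_, rfl⟩
        have hown : ∀ ω, B ω → |eval (bt F ω) (dir (v (ptr F J ω)) (G (ptr F J ω) j)) -
            v (ptr F J ω) (c j)| ≤ 2 ^ x' * 2 ^ g l / 2 ^ g j := by
          intro ω hω
          have hω' := k1 ω hω
          have h1 := hcmp (c := c) (l := l) (i := j) (a := a) (k := k) (y := L ^ j * z)
            (p := p j) (g := g) (G := G) (v := v)
            (P := G (ptr F J ω) j - G' (ptr F J ω) j) (ω := ω) (b := bt F ω) (by omega) hcj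
            hL.degG hL.depG (fun b b' hn hb => by
              rw [map_sub, map_sub, hL.depG _ j b b' hn hb, hcG' _ j b b' hn hb])
            ((totalDegree_sub _ _).trans (max_le (hL.degG _ j) (hdG' _ j))) (hv1 ω hω').1
            (hv1 ω hω').2 (fun j' hj' hlj' => (k3 ω hω j' hlj' hj').1)
            (hL.self hω' hjn.le) (fun b hb => by
              rw [map_sub]
              exact hk ω hω' j hlj hjn b hb)
          have e1 : eval (bt F ω) (dir (v (ptr F J ω)) (G (ptr F J ω) j - G' (ptr F J ω) j)) =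
              eval (bt F ω) (dir (v (ptr F J ω)) (G (ptr F J ω) j)) -
                eval (bt F ω) (dir (v (ptr F J ω)) (G' (ptr F J ω) j)) := by
            unfold dir
            rw [map_sum, map_sum, map_sum, ← Finset.sum_sub_distrib]
            refine Finset.sum_congr rfl fun k _ => ?_
            rw [map_mul, map_mul, map_mul, map_sub, map_sub]
            ring
          rw [e1] at h1
          have h2 := hx ω hω' j hlj hjn
          have h3 : (2 : ℝ) ^ (C₁ * (k + L ^ j * z + 1)) * 2 ^ g l / 2 ^ p j ≤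
              2 ^ (C₁ * (k + L ^ j * z + 1) + q) * 2 ^ g l / 2 ^ g j := by
            rw [div_le_div_iff₀ (by positivity) (by positivity)]
            calc (2 : ℝ) ^ (C₁ * (k + L ^ j * z + 1)) * 2 ^ g l * 2 ^ g j
                ≤ 2 ^ (C₁ * (k + L ^ j * z + 1)) * 2 ^ g l * 2 ^ (p j + q) :=
                  mul_le_mul_of_nonneg_left (pow_le_pow_right₀ (by norm_num) (hpq j hlj hjn))
                    (by positivity)
              _ = _ := by rw [pow_add 2 _ q, pow_add]; ring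
          have h4 : (2 : ℝ) ^ (C₁ * (k + L ^ j * z + 1) + q) * 2 ^ g l / 2 ^ g j ≤
              2 ^ (C₁ * (k + L ^ j * z + 1) + q + x) * 2 ^ g l / 2 ^ g j :=
            div_le_div_of_nonneg_right (mul_le_mul_of_nonneg_right
              (pow_le_pow_right₀ (by norm_num) (by omega)) (by positivity)) (by positivity)
          have h5 : (2 : ℝ) ^ x * 2 ^ g l / 2 ^ g j ≤
              2 ^ (C₁ * (k + L ^ j * z + 1) + q + x) * 2 ^ g l / 2 ^ g j :=
            div_le_div_of_nonneg_right (mul_le_mul_of_nonneg_right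
              (pow_le_pow_right₀ (by norm_num) (by omega)) (by positivity)) (by positivity)
          have h6 : (2 : ℝ) ^ x' * 2 ^ g l / 2 ^ g j =
              2 ^ (C₁ * (k + L ^ j * z + 1) + q + x) * 2 ^ g l / 2 ^ g j +
              2 ^ (C₁ * (k + L ^ j * z + 1) + q + x) * 2 ^ g l / 2 ^ g j := by
            rw [hx', pow_succ]; ring
          rw [h6]
          have h7 := abs_sub_le (eval (bt F ω) (dir (v (ptr F J ω)) (G (ptr F J ω) j)))
            (eval (bt F ω) (dir (v (ptr F J ω)) (G' (ptr F J ω) j))) (v (ptr F J ω) (c j))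
          linarith
        obtain ⟨B'', l1, l2, l3⟩ := hstep (h := h) (x := x')
          (y := L ^ j * z) (B' := B) (v := v) (v' := v') (H := H) (e := e)
          (by omega : j < r) hlj hcj (hR j hlj hjn) (fun ω h => hB ω (k1 ω h)) (by
            have h1 : κ * 2 ^ r * Pe F.p B₀ ≤ κ' * Pe F.p B₀ :=
              mul_le_mul_of_nonneg_right hκ (Pe_nonneg F.isLaw B₀)
            have h2 : κ * Pe F.p B₀ * 2 ^ r ≤ Pe F.p B' := by linarith [h1, hP]
            have h3 : (2 : ℝ) ^ j ≤ 2 ^ r := pow_le_pow_right₀ (by norm_num) (by omega)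
            rw [div_le_iff₀ (by positivity)] at k2
            rcases le_or_gt (κ * Pe F.p B₀) 0 with h4 | h4
            · exact h4.trans (Pe_nonneg F.isLaw B)
            · have h5 : κ * Pe F.p B₀ * 2 ^ j ≤ Pe F.p B * 2 ^ j :=
                (mul_le_mul_of_nonneg_left h3 h4.le).trans (h2.trans k2)
              exact le_of_mul_le_mul_right h5 (by positivity))
          ((hL.mono (by omega) (fun _ => le_rfl) le_rfl le_rfl).sub k1)
          (fun ω hω => hv ω (k1 ω hω)) (fun ω hω => hv1 ω (k1 ω hω))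
          (fun ω hω j' hj' hlj' => (k3 ω hω j' hlj' hj').1) hown
        have hx'le : x' ≤ (2 * C₁ + 2) * (L ^ j * z) := by
          rw [hx']
          have h1 : k + L ^ j * z + 1 ≤ 2 * (L ^ j * z) := by omega
          have h2 : C₁ * (k + L ^ j * z + 1) ≤ C₁ * (2 * (L ^ j * z)) := Nat.mul_le_mul_left _ h1
          nlinarith
        refine ⟨B'', fun ω h => k1 ω (l1 ω h), ?_, fun ω hω i hli hi => ?_⟩
        · refine le_trans (le_of_eq ?_) ((div_le_div_of_nonneg_right k2 (by norm_num)).trans l2)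
          rw [pow_succ]
          field_simp
        · rcases Nat.lt_or_ge i j with h7 | h7
          · exact hup ω i (k3 ω (l1 ω hω) i hli h7)
          · have : i = j := by omega
            subst this
            constructor
            · intro b hb s hs
              refine (l3 ω hω b hb s hs).trans (div_le_div_of_nonneg_right
                (pow_le_pow_right₀ (by norm_num) ?_) (by positivity))
              rw [hjj]
              have h8 : x' + h + L ^ i * z + 1 ≤ (2 * C₁ + 4) * (L ^ i * z) := by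
                have : h + 1 ≤ L ^ i * z := by omega
                nlinarith
              calc C₀ * (x' + h + L ^ i * z + 1) ≤ C₀ * ((2 * C₁ + 4) * (L ^ i * z)) :=
                    Nat.mul_le_mul_left _ h8
                _ = (C₀ * (2 * C₁ + 4)) * (L ^ i * z) := by ring
                _ ≤ L * (L ^ i * z) := Nat.mul_le_mul_right _ (by omega)
            · refine (hown ω (l1 ω hω)).trans (div_le_div_of_nonneg_right
                (mul_le_mul_of_nonneg_right (pow_le_pow_right₀ (by norm_num) ?_)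
                  (by positivity)) (by positivity))
              rw [hjj]
              exact hx'le.trans (Nat.mul_le_mul_right _ (by omega))
      · refine ⟨B, k1, ?_, fun ω hω i hli hi => by omega⟩
        refine le_trans ?_ k2
        exact div_le_div_of_nonneg_left (Pe_nonneg F.isLaw _) (by positivity)
          (pow_le_pow_right₀ (by norm_num) (Nat.le_succ j))
  obtain ⟨B, k1, k2, k3⟩ := key n le_rfl
  have hfin : L ^ n * z ≤ L ^ (r + 1) * z :=
    Nat.mul_le_mul_right _ (Nat.pow_le_pow_right (by omega) (by omega))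
  refine ⟨B, k1, (div_le_div_of_nonneg_left (Pe_nonneg F.isLaw _) (by positivity)
    (pow_le_pow_right₀ (by norm_num) hn)).trans k2, fun ω hω i hli hi =>
      ⟨fun b hb s hs => ?_, ?_⟩⟩
  · exact ((k3 ω hω i hli hi).1 b hb s hs).trans (div_le_div_of_nonneg_right
      (pow_le_pow_right₀ (by norm_num) hfin) (by positivity))
  · exact (k3 ω hω i hli hi).2.trans (div_le_div_of_nonneg_right
      (mul_le_mul_of_nonneg_right (pow_le_pow_right₀ (by norm_num) hfin) (by positivity))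
        (by positivity))

theorem dir_sub (v : Fin m → ℝ) (P Q : MvPolynomial (Option (Fin m)) ℝ) :
    dir v (P - Q) = dir v P - dir v Q := by
  unfold dir
  rw [← Finset.sum_sub_distrib]
  refine Finset.sum_congr rfl fun k _ => ?_
  rw [map_sub, mul_sub]

theorem dir_add (v : Fin m → ℝ) (P Q : MvPolynomial (Option (Fin m)) ℝ) :
    dir v (P + Q) = dir v P + dir v Q := by
  unfold dir
  rw [← Finset.sum_add_distrib]
  refine Finset.sum_congr rfl fun k _ => ?_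
  rw [map_add, mul_add]

theorem dir_C (v : Fin m → ℝ) (x : ℝ) :
    dir v (C x : MvPolynomial (Option (Fin m)) ℝ) = 0 := by
  unfold dir
  refine Finset.sum_eq_zero fun k _ => ?_
  rw [pderiv_C, mul_zero]

theorem dir_Gno {F : Fam m J} (v : Fin m → ℝ) (k : Fin m) (r : ℕ)
    (G : PtT F → MvPolynomial (Option (Fin m)) ℝ) (y : PtT F) :
    dir v (Gno k J r G y) = dir v (G y) := by
  unfold Gno
  rw [dir_add, dir_C, add_zero]

theorem pe_div {F : Fam m J} {κ : ℝ} {k : ℕ} {B₀ B' B : F.Ω → Prop}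
    (h : κ * Pe F.p B₀ ≤ Pe F.p B') (hB : Pe F.p B' / 2 ^ k ≤ Pe F.p B) :
    κ / 2 ^ k * Pe F.p B₀ ≤ Pe F.p B := by
  refine le_trans (le_of_eq ?_) ((div_le_div_of_nonneg_right h (by positivity)).trans hB)
  ring

theorem nod_num {C C₂ C₃ C₄ C₅ c₀ n x h q u x' y z : ℕ} (hz : z = x + h + q + u + 1)
    (hy : y = C₃ * (x + h + C₂ * (h + 1) + q + 1))
    (hx' : x' = C₅ * (C₂ * (h + 1) + y + 1) + y + q + n * u + 1)
    (hC : C = (C₃ * (C₂ + 2) + 1) * ((C₄ + 1) * (C₅ * (C₂ + 2) + n + 3)) + c₀ + 5 * n + 8) :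
    y ≤ C * z ∧ C₄ * (x' + h + 1) ≤ C * z := by
  obtain ⟨A, hA⟩ : ∃ A, A = C₃ * (C₂ + 2) + 1 := ⟨_, rfl⟩
  obtain ⟨E, hE⟩ : ∃ E, E = C₅ * (C₂ + 2) + n + 3 := ⟨_, rfl⟩
  rw [← hA, ← hE] at hC
  have hA1 : 1 ≤ A := by omega
  have hE1 : 1 ≤ E := by omega
  have h1 : C₂ * (h + 1) ≤ C₂ * z := Nat.mul_le_mul_left _ (by omega)
  have hyA : y ≤ A * z := by
    have h2 : x + h + C₂ * (h + 1) + q + 1 ≤ (C₂ + 2) * z := by
      have : (C₂ + 2) * z = C₂ * z + 2 * z := by ring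
      omega
    calc y ≤ C₃ * ((C₂ + 2) * z) := by rw [hy]; exact Nat.mul_le_mul_left _ h2
      _ = C₃ * (C₂ + 2) * z := by ring
      _ ≤ A * z := Nat.mul_le_mul_right _ (by omega)
  have hzA : z ≤ A * z := Nat.le_mul_of_pos_left _ hA1
  have hxE : x' + h + 1 ≤ E * (A * z) := by
    have h2 : C₂ * (h + 1) ≤ C₂ * (A * z) := Nat.mul_le_mul_left _ (by omega)
    have h3 : n * u ≤ n * (A * z) := Nat.mul_le_mul_left _ (by omega)
    have h4 : C₂ * (h + 1) + y + 1 ≤ (C₂ + 2) * (A * z) := by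
      have : (C₂ + 2) * (A * z) = C₂ * (A * z) + 2 * (A * z) := by ring
      omega
    have h5 : C₅ * (C₂ * (h + 1) + y + 1) ≤ C₅ * ((C₂ + 2) * (A * z)) :=
      Nat.mul_le_mul_left _ h4
    have h6 : E * (A * z) = C₅ * ((C₂ + 2) * (A * z)) + n * (A * z) + 3 * (A * z) := by
      rw [hE]; ring
    omega
  have hCE : A * ((C₄ + 1) * E) ≤ C := by omega
  have hAE : A * 1 ≤ A * ((C₄ + 1) * E) :=
    Nat.mul_le_mul_left _ (Nat.mul_pos (by omega) hE1)
  refine ⟨hyA.trans (Nat.mul_le_mul_right _ (by omega)), ?_⟩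
  calc C₄ * (x' + h + 1) ≤ (C₄ + 1) * (E * (A * z)) := Nat.mul_le_mul (by omega) hxE
    _ = A * ((C₄ + 1) * E) * z := by ring
    _ ≤ C * z := Nat.mul_le_mul_right _ hCE

/-- **The shear at the nodes** `(a₀, w)` and `(a, w)`, from the slopes at the node `(a₀, w₀)`:
without loss. -/
theorem shr_node (m D n : ℕ) (hD : 1 ≤ D) : ∃ (C : ℕ) (C₁ : ℝ), 1 ≤ C₁ ∧ ∀ {J : ℕ} {F : Fam m J}
    {c : ℕ → Fin m} {l a₀ a w w₀ e h x q u d : ℕ} {g₀ g₁ g₂ : ℕ → ℕ} {κ κ' θ : ℝ}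
    {B₀ B' : F.Ω → Prop} {G₀ G₁ G₂ : PtT F → ℕ → MvPolynomial (Option (Fin m)) ℝ}
    {H₀ H₁ H₂ : LnT F → ℕ → MvPolynomial (Option (Fin m)) ℝ}
    {v : PtT F → Fin m → ℝ} {v' : LnT F → Fin m → ℝ},
    Set.InjOn c (Set.Iio n) → RelvF F c n a₀ w g₂ D h κ B₀ G₂ → RelvF F c n a w g₁ D h κ B₀ G₁ →
    Sub B' B₀ → κ' * Pe F.p B₀ ≤ Pe F.p B' → κ * 2 ^ C ≤ κ' → 0 ≤ κ → ∀ (hB : 0 < Pe F.p B'),
    ChOK F c n (fun _ => D) a₀ w₀ e g₀ B' G₀ H₀ → ChOK F c n (fun _ => D) a₀ w e g₂ B' G₂ H₂ →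
    ChOK F c n (fun _ => D) a w e g₁ B' G₁ H₁ → w₀ ≤ w → w ≤ a → w ≤ J → a + d = a₀ →
    n * u + 1 ≤ d → (∀ i < n, e + g₁ i + d + C ≤ J) → 0 ≤ θ → (Fam.sub F B' hB).Tm θ →
    C₁ * (θ + 1) ≤ ((J : ℝ) - w) * Real.log 2 → Real.exp (C₁ * (θ + 1)) ≤ 2 ^ u →
    (∀ ω, B' ω → v (ptr F J ω) = v' (slam F w ω)) →
    (∀ ω, B' ω → v (ptr F J ω) (c l) = 1 ∧ ∀ j < l, v (ptr F J ω) (c j) = 0) →
    (∀ i, l < i → i < n → g₂ i ≤ g₀ i + q ∧ g₂ l ≤ g₁ l + d + q ∧
      g₁ i + g₂ l ≤ g₂ i + g₁ l + q) →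
    (∀ ω, B' ω → ∀ i, l < i → i < n →
      |eval (bt F ω) (dir (v (ptr F J ω)) (G₀ (ptr F J ω) i)) - v (ptr F J ω) (c i)| ≤
        2 ^ x * 2 ^ g₂ l / 2 ^ g₂ i) →
    ∃ B'' : F.Ω → Prop, Sub B'' B' ∧ Pe F.p B' / 2 ^ C ≤ Pe F.p B'' ∧
      ∀ ω, B'' ω → ∀ i, l < i → i < n →
        Shr F c l a₀ g₂ G₂ v (C * (x + h + q + u + 1)) i ω ∧
        Shr F c l a g₁ G₁ v (C * (x + h + q + u + 1)) i ω := by
  obtain ⟨C₁, c₀, hC₁, hsl⟩ := ch_slope' m n (fun _ => D) fun _ => hD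
  obtain ⟨C₂, hnear⟩ := lab_near D n hD
  obtain ⟨C₃, hrec⟩ := shr_rec D n
  obtain ⟨C₄, hfam⟩ := shr_fam D n
  obtain ⟨C₅, hcmp⟩ := slp_cmp D n
  obtain ⟨C, hC⟩ : ∃ C, C = (C₃ * (C₂ + 2) + 1) * ((C₄ + 1) * (C₅ * (C₂ + 2) + n + 3)) + c₀ +
      5 * n + 8 := ⟨_, rfl⟩
  refine ⟨C, C₁, hC₁, ?_⟩
  intro J F c l a₀ a w w₀ e h x q u d g₀ g₁ g₂ κ κ' θ B₀ B' G₀ G₁ G₂ H₀ H₁ H₂ v v' hc hR₂ hR₁ hB'
    hP hκ hκ0 hpos hL₀ hL₂ hL₁ hw₀ hwa hwJ had hu hJ hθ hTm hN hexp hv hv1 hg hx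
  subst had
  obtain ⟨z, hz⟩ : ∃ z, z = x + h + q + u + 1 := ⟨_, rfl⟩
  rw [← hz]
  have hκC : ∀ k ≤ 5 * n + 8, κ * 2 ^ k ≤ κ' := fun k hk =>
    (mul_le_mul_of_nonneg_left (pow_le_pow_right₀ (by norm_num) (by omega)) hκ0).trans hκ
  have hκd : ∀ j k : ℕ, j + k ≤ 5 * n + 8 → κ * 2 ^ j ≤ κ' / 2 ^ k := fun j k hjk => by
    rw [le_div_iff₀ (by positivity), mul_assoc, ← pow_add]
    exact hκC _ hjk
  -- the slope law
  obtain ⟨B₁, k1, k2, k3, -⟩ := hsl J F c a w e d u g₁ B' G₁ H₁ θ hpos hc hwa hwJ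
    (fun i hi => by have := hJ i hi; omega) hu hθ hTm hN hexp hL₁
  rw [← pow_one (2 : ℝ)] at k2
  have hP1 := pe_div hP k2
  -- near labels
  obtain ⟨B₂, l1, l2, l3⟩ := hnear le_rfl hc hR₂ hL₂.depG (fun ω h => hB' ω (k1 ω h)) hP1
    (hκd (n + 1) 1 (by omega)) k3
  have hP2 := pe_div hP1 l2
  rw [div_div, ← pow_add] at hP2
  have s2 : Sub B₂ B' := fun ω h => k1 ω (l1 ω h)
  obtain ⟨B₃, m1, m2, m3⟩ := hnear le_rfl hc hR₂ hL₂.depG (fun ω h => hB' ω (s2 ω h)) hP2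
    (hκd (n + 1) (1 + n) (by omega)) ((chOK_win hL₀ hw₀ hwJ).sub s2)
  have hP3 := pe_div hP2 m2
  rw [div_div, ← pow_add] at hP3
  have s3 : Sub B₃ B' := fun ω h => s2 ω (m1 ω h)
  -- the shear at the second node
  obtain ⟨y, hy⟩ : ∃ y, y = C₃ * (x + h + C₂ * (h + 1) + q + 1) := ⟨_, rfl⟩
  obtain ⟨B₄, q1, q2, q3⟩ := hrec (k := C₂ * (h + 1)) (p := g₀) (q := q) (x := x) (G' := G₀)
    (v := v) (v' := v') le_rfl hc
    (fun i _ hi => relvF_low hR₂ hi.le hc hL₂.depG) (fun ω h => hB' ω (s3 ω h)) hP3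
    (hκd n (1 + n + n) (by omega)) (hL₂.sub s3) hL₀.degG hL₀.depG (fun ω hω => hv ω (s3 ω hω))
    (fun ω hω => hv1 ω (s3 ω hω)) (fun ω hω i _ hi => m3 ω hω i hi)
    (fun i hli hi => (hg i hli hi).1) (fun ω hω => hx ω (s3 ω hω))
  rw [← hy] at q3
  have hP4 := pe_div hP3 q2
  rw [div_div, ← pow_add] at hP4
  have s4 : Sub B₄ B' := fun ω h => s3 ω (q1 ω h)
  -- the slopes at the third node
  obtain ⟨x', hx'⟩ : ∃ x', x' = C₅ * (C₂ * (h + 1) + y + 1) + y + q + n * u + 1 := ⟨_, rfl⟩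
  have hown : ∀ ω, B₄ ω → ∀ i, l < i → i < n →
      |eval (bt F ω) (dir (v (ptr F J ω)) (G₁ (ptr F J ω) i)) - v (ptr F J ω) (c i)| ≤
        2 ^ x' * 2 ^ g₁ l / 2 ^ g₁ i := by
    intro ω hω i hli hi
    have hω' := s4 ω hω
    obtain ⟨hg1, hg2, hg3⟩ := hg i hli hi
    have h1 := hcmp (c := c) (l := l) (i := i) (a := a + d) (k := C₂ * (h + 1)) (y := y)
      (p := g₁ i + d - (i + 1) * u) (g := g₂) (G := G₂) (v := v)
      (P := G₂ (ptr F J ω) i - Gno (c i) J J (fun y => G₁ y i) (ptr F J ω)) (ω := ω)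
      (b := bt F ω) hi (hc.mono (Set.Iio_subset_Iio hi.le)) hL₂.degG hL₂.depG
      (fun b b' hn hb => by
        rw [map_sub, map_sub, hL₂.depG _ i b b' hn hb, k3.depG _ i b b' hn hb])
      ((totalDegree_sub _ _).trans (max_le (hL₂.degG _ i) (k3.degG _ i))) (hv1 ω hω').1
      (hv1 ω hω').2 (fun j hj hlj => (q3 ω hω j hlj (hj.trans hi)).1)
      (hL₂.self hω' hi.le) (fun b hb => by
        rw [map_sub]
        exact l3 ω (m1 ω (q1 ω hω)) i hi b hb)
    rw [dir_sub, dir_Gno, map_sub] at h1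
    have h2 := (q3 ω hω i hli hi).2
    have hiu : (i + 1) * u ≤ n * u := Nat.mul_le_mul_right u (by omega)
    have h3 : (2 : ℝ) ^ (C₅ * (C₂ * (h + 1) + y + 1)) * 2 ^ g₂ l /
        2 ^ (g₁ i + d - (i + 1) * u) ≤
          2 ^ (C₅ * (C₂ * (h + 1) + y + 1) + y + q + n * u) * 2 ^ g₁ l / 2 ^ g₁ i := by
      rw [div_le_div_iff₀ (by positivity) (by positivity), ← pow_add, ← pow_add, ← pow_add,
        ← pow_add]
      exact pow_le_pow_right₀ (by norm_num) (by omega)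
    have h4 : (2 : ℝ) ^ y * 2 ^ g₂ l / 2 ^ g₂ i ≤
        2 ^ (C₅ * (C₂ * (h + 1) + y + 1) + y + q + n * u) * 2 ^ g₁ l / 2 ^ g₁ i := by
      rw [div_le_div_iff₀ (by positivity) (by positivity), ← pow_add, ← pow_add, ← pow_add,
        ← pow_add]
      exact pow_le_pow_right₀ (by norm_num) (by omega)
    have h5 : (2 : ℝ) ^ x' * 2 ^ g₁ l / 2 ^ g₁ i =
        2 ^ (C₅ * (C₂ * (h + 1) + y + 1) + y + q + n * u) * 2 ^ g₁ l / 2 ^ g₁ i +
        2 ^ (C₅ * (C₂ * (h + 1) + y + 1) + y + q + n * u) * 2 ^ g₁ l / 2 ^ g₁ i := by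
      rw [hx', pow_succ]; ring
    rw [h5]
    have h6 := abs_sub_le (eval (bt F ω) (dir (v (ptr F J ω)) (G₁ (ptr F J ω) i)))
      (eval (bt F ω) (dir (v (ptr F J ω)) (G₂ (ptr F J ω) i))) (v (ptr F J ω) (c i))
    rw [abs_sub_comm] at h1
    linarith
  obtain ⟨B₅, p1, p2, p3⟩ := hfam (x := x') (v := v) (v' := v') le_rfl hc
    (fun i _ hi => relvF_low hR₁ hi.le hc hL₁.depG) (fun ω h => hB' ω (s4 ω h)) hP4
    (hκd n (1 + n + n + n) (by omega)) (hL₁.sub s4) (fun ω hω => hv ω (s4 ω hω))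
    (fun ω hω => hv1 ω (s4 ω hω)) hown
  obtain ⟨n1, n2⟩ := nod_num hz hy hx' hC
  refine ⟨B₅, fun ω h => s4 ω (p1 ω h), ?_, fun ω hω i hli hi => ⟨?_, ?_⟩⟩
  · have h1 : Pe F.p B' / 2 ^ (1 + n + n + n + n) ≤ Pe F.p B₅ := by
      have := pe_div (pe_div (pe_div (pe_div (pe_div (κ := 1) (B₀ := B') (B' := B') (by
        rw [one_mul]) k2) l2) m2) q2) p2
      refine le_trans (le_of_eq ?_) this
      rw [div_div, div_div, div_div, div_div, ← pow_add, ← pow_add, ← pow_add, ← pow_add]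
      ring
    refine le_trans (div_le_div_of_nonneg_left (Pe_nonneg F.isLaw _) (by positivity)
      (pow_le_pow_right₀ (by norm_num) ?_)) h1
    omega
  · intro b hb s hs
    exact ((q3 ω (p1 ω hω) i hli hi).1 b hb s hs).trans (div_le_div_of_nonneg_right
      (pow_le_pow_right₀ (by norm_num) n1) (by positivity))
  · intro b hb s hs
    exact (p3 ω hω i hli hi b hb s hs).trans (div_le_div_of_nonneg_right
      (pow_le_pow_right₀ (by norm_num) n2) (by positivity))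

end Pool.SHR
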