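import Pool.Agent.H87.GEN.Tg2

/-!
# The shear, from a window to a finer window

`win_fam`: the derivatives at the samples and the shear, from the window `om 0` to the window `om K`,
in real numbers, in units of `J`.
-/

set_option autoImplicit false

namespace Pool.SHR

open Finset Real MvPolynomial
open Pool.Agent.H49.Ent Pool.Agent.H32.Dense Pool.STK Pool.KA Pool.KSAT Pool.K2S Pool.PB Pool.S6C
open Pool.GEN Pool.CHT
open Pool.FLF (Fam.sub)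
open Pool.LEV (Law)
open Pool.Z3 (share_ex)

/-- **From a window to a finer window**: the derivatives at the samples and the shear. -/
theorem win_fam (m Dt r : ℕ) (hDt : 1 ≤ Dt) : ∃ S : ℕ, ∀ D : ℕ, Dt ≤ D → ∃ C : ℕ,
    ∀ {P : ℕ → ℝ → ℝ → ℝ} {l K : ℕ} {w₀ Kg A a w Ψ₀ η μ τ : ℝ} {Bv Tv : ℕ → ℝ} {om : ℕ → ℝ},
    (∀ i ≤ r, ∀ a w, 0 ≤ w → w ≤ a → a ≤ 1 → a ≤ P i a w) → l ≤ r →
    Vld P l r w₀ Kg A a w Ψ₀ Bv Tv → 0 < w₀ → a ≤ 1 → 0 ≤ A → 0 < η → om 0 = w₀ → om K = w →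
    0 ≤ τ → (∀ k < K, om k ≤ om (k + 1) ∧ om (k + 1) - om k ≤ μ) →
    (∀ i, l < i → i ≤ r → (|Tv i| + 4 * (r + 1) * Kg) * μ ≤ τ) →
    (S + 1) * ((r + 2) * τ) ≤ η / 16 →
    ∃ σ₀ : ℝ, 0 < σ₀ ∧ ∀ κ₁ ψ : ℝ, 0 < κ₁ → 0 < ψ → ∃ J₀ : ℕ, ∀ J : ℕ, J₀ ≤ J →
    ∀ {F : Fam m J} {c : ℕ → Fin m} {d : ℕ → ℕ → ℝ} {x : ℕ} {e : ℕ → ℕ} {w₁ : ℝ}
      {B₀ B' : F.Ω → Prop} {G : ℕ → PtT F → ℕ → MvPolynomial (Option (Fin m)) ℝ}
      {H : ℕ → LnT F → ℕ → MvPolynomial (Option (Fin m)) ℝ} {v : PtT F → Fin m → ℝ}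
      {v' : LnT F → Fin m → ℝ}, Set.InjOn c (Set.Iio (r + 1)) → w₁ ≤ w →
      (∀ k ≤ K, ∀ i ≤ r, 0 ≤ d k i ∧ d k i ≤ σ₀) → (x : ℝ) ≤ σ₀ * J →
      (∀ k ≤ K, RelvF F c (r + 1) ⌊a * J⌋₊ ⌊om k * J⌋₊ (fun i => ⌊(P i a (om k) - d k i) * J⌋₊) D
        ⌊σ₀ * J⌋₊ (Real.exp (-(ψ * J))) B₀ (G k)) →
      Sub B' B₀ → κ₁ * Pe F.p B₀ ≤ Pe F.p B' →
      (∀ k ≤ K, ChOK F c (r + 1) (fun _ => D) ⌊a * J⌋₊ ⌊om k * J⌋₊ (e k)
        (fun i => ⌊(P i a (om k) - d k i) * J⌋₊) B' (G k) (H k)) →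
      (∀ y i, (G K y i).totalDegree ≤ Dt) → (∀ s i, (H K s i).totalDegree ≤ Dt) →
      (∀ ω, B' ω → v (ptr F J ω) = v' (slam F ⌊w₁ * J⌋₊ ω)) →
      (∀ ω, B' ω → v (ptr F J ω) (c l) = 1 ∧ ∀ j < l, v (ptr F J ω) (c j) = 0) →
      (∀ ω, B' ω → ∀ i, l < i → i < r + 1 →
        |eval (bt F ω) (dir (v (ptr F J ω)) (G 0 (ptr F J ω) i)) - v (ptr F J ω) (c i)| ≤
          2 ^ x * 2 ^ ⌊A * J⌋₊ / 2 ^ ⌊(P i a (om 0) - d 0 i) * J⌋₊) →
      ∃ B'' : F.Ω → Prop, Sub B'' B' ∧ Pe F.p B' / 2 ^ (C * (K + 1)) ≤ Pe F.p B'' ∧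
        ∀ ω, B'' ω → ∀ i, l < i → i < r + 1 →
          ShrY F c ⌊a * J⌋₊ ⌊(P l a w + 4 * ((r : ℝ) - l) * Ψ₀) * J⌋₊
            (fun i => ⌊(P i a (om K) - d K i) * J⌋₊) (G K) v ⌊η * J⌋₊ i ω ∧
          |eval (bt F ω) (dir (v (ptr F J ω)) (G K (ptr F J ω) i)) - v (ptr F J ω) (c i)| ≤
            2 ^ ⌊η * J⌋₊ * 2 ^ ⌊(P l a w + 4 * ((r : ℝ) - l) * Ψ₀) * J⌋₊ /
              2 ^ ⌊(P i a (om K) - d K i) * J⌋₊ := by
  obtain ⟨S, hshr⟩ := shrY_fam Dt (r + 1)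
  refine ⟨S, fun D hDD => ?_⟩
  obtain ⟨Cp, hpath⟩ := path_fam D (r + 1) (hDt.trans hDD)
  obtain ⟨C, hC⟩ : ∃ C, C = 2 * (r + 1) + 1 := ⟨_, rfl⟩
  refine ⟨C, ?_⟩
  intro P l K w₀ Kg A a w Ψ₀ η μ τ Bv Tv om hLow hlr V hw₀ ha₀ hA0 hη hom0 homK hτ0 hom hT hCτ
  subst hom0
  subst homK
  have hC0 : (0 : ℝ) ≤ Cp := Nat.cast_nonneg Cp
  have hS0 : (0 : ℝ) ≤ S := Nat.cast_nonneg S
  have hr0 : (0 : ℝ) ≤ r := Nat.cast_nonneg r
  have hVw := V.w0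
  have hVa := V.wa
  have hKg := V.K0
  obtain ⟨σ₀, hσ₀⟩ : ∃ σ₀ : ℝ, σ₀ = min (η / (16 * (S + 1) * ((Cp + 1) * (r + 2) * 8)))
    (om 0) := ⟨_, rfl⟩
  have hs0 : 0 < σ₀ := by
    rw [hσ₀]
    exact lt_min (by positivity) hw₀
  have hs1 : (S + 1) * ((Cp + 1) * (r + 2) * 8 * σ₀) ≤ η / 16 := by
    have h1 : σ₀ ≤ η / (16 * (S + 1) * ((Cp + 1) * (r + 2) * 8)) := by
      rw [hσ₀]; exact min_le_left _ _
    rw [le_div_iff₀ (by positivity)] at h1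
    linarith
  have hs4 : σ₀ ≤ om 0 := by rw [hσ₀]; exact min_le_right _ _
  refine ⟨σ₀, hs0, fun κ₁ ψ hκ₁ hψ => ?_⟩
  -- the windows
  have homm : ∀ k j, k ≤ j → j ≤ K → om k ≤ om j := by
    intro k j hkj
    induction j, hkj using Nat.le_induction with
    | base => exact fun _ => le_rfl
    | succ j _ ih => exact fun hj => (ih (by omega)).trans (hom j (by omega)).1
  have hom0K : ∀ k ≤ K, om 0 ≤ om k ∧ om k ≤ om K := fun k hk =>
    ⟨homm 0 k (Nat.zero_le _) hk, homm k K hk le_rfl⟩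
  obtain ⟨J₁, hJ₁⟩ := share_ex (ψ := ψ) (κ := κ₁ / 2 ^ (C * (K + 1))) hψ (by positivity)
  obtain ⟨Cc, hCc⟩ : ∃ Cc : ℝ, Cc = (S + 1) * ((Cp + 1) * (r + 2) * (2 * K + 16)) := ⟨_, rfl⟩
  obtain ⟨J₅, hJ₅⟩ := exists_nat_gt ((Cc + 1) / (η / 2))
  refine ⟨max J₁ J₅, ?_⟩
  intro J hJ F c d x e w₁ B₀ B' G H v v' hc hw₁ hd hx hR hB' hP hL hGt hHt hv hv1 hsl
  simp only [max_le_iff] at hJ
  obtain ⟨j1, j5⟩ := hJ
  have hJr : (0 : ℝ) ≤ J := Nat.cast_nonneg J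
  have hj5 : Cc + 1 < η / 2 * J := by
    have h3 := hJ₅.trans_le (show (J₅ : ℝ) ≤ J by exact_mod_cast j5)
    rw [div_lt_iff₀ (by linarith)] at h3
    linarith
  have ha0 : 0 < a := by linarith
  obtain ⟨q, hq⟩ : ∃ q, q = ⌈(τ + σ₀) * (J : ℝ)⌉₊ := ⟨_, rfl⟩
  have hq1 : (τ + σ₀) * (J : ℝ) ≤ q := by rw [hq]; exact Nat.le_ceil _
  have hq2 : (q : ℝ) ≤ (τ + σ₀) * J + 1 := by
    rw [hq]
    exact (Nat.ceil_lt_add_one (by positivity)).le
  have hPp : ∀ i ≤ r, ∀ k ≤ K, a ≤ P i a (om k) := fun i hi k hk => by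
    obtain ⟨h1, h2⟩ := hom0K k hk
    exact hLow i hi a (om k) (by linarith) (by linarith) ha₀
  have hxi : ∀ i k, l ≤ i → k ≤ K → 0 ≤ xiv l Kg (om K) Ψ₀ i (om k) := fun i k hi hk => by
    have h1 := xiv_mono (l := l) (w := om K) V.K0 V.ps hi (hom0K k hk).2
    rwa [xiv_self] at h1
  obtain ⟨y, hy⟩ : ∃ y : ℕ → ℕ → ℕ, y = fun k i =>
    ⌊(P l a (om k) + xiv l Kg (om K) Ψ₀ i (om k)) * (J : ℝ)⌋₊ := ⟨_, rfl⟩
  have hyi : ∀ k i, y k i = ⌊(P l a (om k) + xiv l Kg (om K) Ψ₀ i (om k)) * (J : ℝ)⌋₊ :=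
    fun k i => by rw [hy]
  have hsl' : ∀ i ≤ r, ∀ k ≤ K, 0 ≤ (P i a (om k) - d k i) * (J : ℝ) := fun i hi k hk => by
    have h1 := hPp i hi k hk
    have h2 := (hd k hk i hi).2
    exact mul_nonneg (by linarith) hJr
  have hκC : ∀ k ≤ C * (K + 1), Real.exp (-(ψ * J)) * 2 ^ k ≤ κ₁ := fun k hk => by
    have := hJ₁ J j1
    rw [le_div_iff₀ (by positivity)] at this
    exact (mul_le_mul_of_nonneg_left (pow_le_pow_right₀ (by norm_num) hk)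
      (Real.exp_pos _).le).trans this
  have hCK : r + 1 + 1 + (r + 1) * K ≤ C * (K + 1) ∧ (r + 1) * K + (r + 1) ≤ C * (K + 1) := by
    rw [hC]
    have h2 : (2 * (r + 1) + 1) * (K + 1) = (r + 1) * K + ((r + 1) * K + K) + (r + 1) +
      (r + 1 + 1) := by ring
    have : 0 ≤ (r + 1) * K := Nat.zero_le _
    omega
  obtain ⟨B'', k1, k2, k3⟩ := hpath (J := J) (F := F) (c := c) (l := l) (n := r + 1)
    (a := ⌊a * (J : ℝ)⌋₊) (h := ⌊σ₀ * (J : ℝ)⌋₊) (K := K)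
    (w := fun k => ⌊om k * (J : ℝ)⌋₊) (e := e)
    (g := fun k i => ⌊(P i a (om k) - d k i) * (J : ℝ)⌋₊)
    (κ₀ := Real.exp (-(ψ * J))) (κ₁ := κ₁) (B₀ := B₀) (B' := B') (G := G) (H := H) le_rfl hc
    (fun k hk => hR (k + 1) (by omega)) hB' hP (hκC _ hCK.1) (Real.exp_pos _).le hL
    (fun k hk => Nat.floor_le_floor (mul_le_mul_of_nonneg_right (hom k hk).1 hJr))
    (fun k hk => by
      refine Nat.floor_le_of_le ?_
      have h1 : om k ≤ 1 := by linarith [(hom0K k hk).2]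
      have := mul_le_mul_of_nonneg_right h1 hJr
      linarith)
  obtain ⟨X, hX⟩ : ∃ X, X = x + q + 1 + (r + 1) * (Cp * (⌊σ₀ * (J : ℝ)⌋₊ + 1) + (q + 1) + (K + 1)) +
    (K + 1) := ⟨_, rfl⟩
  have hyK : ∀ i, l ≤ i → i ≤ r → y K i ≤ ⌊(P l a (om K) + 4 * ((r : ℝ) - l) * Ψ₀) * (J : ℝ)⌋₊ :=
    fun i hi hir => by
      rw [hyi]
      refine Nat.floor_le_floor (mul_le_mul_of_nonneg_right ?_ hJr)
      have h1 := xiv_mono (l := l) (w := om K) V.K0 V.ps hir (le_refl (om K))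
      rw [xiv_end r] at h1
      linarith
  have hown : ∀ ω, B'' ω → ∀ i, l < i → i < r + 1 →
      |eval (bt F ω) (dir (v (ptr F J ω)) (G K (ptr F J ω) i)) - v (ptr F J ω) (c i)| ≤
        2 ^ X * 2 ^ ⌊(P l a (om K) + 4 * ((r : ℝ) - l) * Ψ₀) * (J : ℝ)⌋₊ /
          2 ^ ⌊(P i a (om K) - d K i) * (J : ℝ)⌋₊ := by
    intro ω hω i hli hi
    obtain ⟨v1, v0⟩ := hv1 ω (k1 ω hω)
    have h1 := k3 ω hω (v (ptr F J ω)) (x + q + 1) (q + 1) (K + 1) y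
      (Nat.lt_two_pow_self (n := K + 1)).le v1 v0 (fun k hk j i hlj hji hi => by
        rw [hyi, hyi]
        refine Nat.floor_le_floor (mul_le_mul_of_nonneg_right ?_ hJr)
        have := xiv_mono (l := l) (w := om K) V.K0 V.ps hji (hom0K k hk).2
        linarith) (fun k hk => by
        rw [hyi, xiv_self, add_zero]
        refine Nat.floor_le_floor (mul_le_mul_of_nonneg_right ?_ hJr)
        have := (hd k hk l hlr).1
        linarith) (fun k hk k' hkk' hk' i hli hi => by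
        rw [hyi, hyi]
        obtain ⟨w1, w2⟩ := hom k hk
        have h1 := V.step (i := i) hli (by omega) (hom0K k (by omega)).1 w1
          (homm (k + 1) k' hkk' hk') (hom0K k' hk').2
        have h2 := hT i hli (by omega)
        have h3 : (|Tv i| + 4 * (r + 1) * Kg) * (om (k + 1) - om k) ≤
            (|Tv i| + 4 * (r + 1) * Kg) * μ := mul_le_mul_of_nonneg_left w2 (by positivity)
        have h4 := (hd k' hk' i (by omega)).1
        have h5 := (hd k (by omega) i (by omega)).2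
        have h6 := fl_four (x := (P l a (om (k + 1)) + xiv l Kg (om K) Ψ₀ (i - 1) (om (k + 1))) * J)
          (y := (P i a (om k') - d k' i) * (J : ℝ))
          (z := (P l a (om k') + xiv l Kg (om K) Ψ₀ i (om k')) * J)
          (t := (P i a (om k) - d k i) * (J : ℝ)) (s := (τ + σ₀) * J) (q := q) (by
            have h7 := hPp l hlr (k + 1) (by omega)
            have h8 := hxi (i - 1) (k + 1) (by omega) (by omega)
            exact mul_nonneg (by linarith) hJr) (hsl' i (by omega) k' hk') (by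
            rw [← add_mul, ← add_mul, ← add_mul]
            refine mul_le_mul_of_nonneg_right ?_ hJr
            linarith) hq1
        exact h6) (fun i hli hi k hk => by
        refine (hsl ω (k1 ω hω) i hli hi).trans ?_
        rw [hyi]
        have h1 := V.base (i := i) hli (by omega) (hom0K k hk).1 (hom0K k hk).2
        have h4 := (hd k hk i (by omega)).1
        have h5 := (hd 0 (Nat.zero_le _) i (by omega)).2
        have h6 := fl_four (x := A * (J : ℝ))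
          (y := (P i a (om k) - d k i) * (J : ℝ))
          (z := (P l a (om k) + xiv l Kg (om K) Ψ₀ i (om k)) * J)
          (t := (P i a (om 0) - d 0 i) * (J : ℝ)) (s := (τ + σ₀) * J) (q := q)
          (mul_nonneg hA0 hJr) (hsl' i (by omega) k hk) (by
            rw [← add_mul, ← add_mul, ← add_mul]
            refine mul_le_mul_of_nonneg_right ?_ hJr
            linarith) hq1
        rw [div_le_div_iff₀ (by positivity) (by positivity), ← pow_add, ← pow_add, ← pow_add,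
          ← pow_add]
        refine pow_le_pow_right₀ (by norm_num) ?_
        omega) i hli hi
    rw [← hX] at h1
    refine h1.trans (div_le_div_of_nonneg_right (mul_le_mul_of_nonneg_left (pow_le_pow_right₀
      (by norm_num) (hyK i hli.le (by omega))) (by positivity)) (by positivity))
  have hP'' := pe_div hP k2
  obtain ⟨B₃, m1, m2, m3⟩ := hshr (l := l) (Y := ⌊(P l a (om K) + 4 * ((r : ℝ) - l) * Ψ₀) *
      (J : ℝ)⌋₊) (x := X) (v := v) (G := G K) (H := H K) (B' := B'')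
    (v' := fun s => v' (s.1, s.2.1, s.2.2 / 2 ^ (⌊om K * (J : ℝ)⌋₊ - ⌊w₁ * (J : ℝ)⌋₊))) (by
      show ⌊(P l a (om K) - d K l) * (J : ℝ)⌋₊ ≤ _
      refine Nat.floor_le_floor (mul_le_mul_of_nonneg_right ?_ hJr)
      have h1 := (hd K le_rfl l hlr).1
      have h2 : 0 ≤ 4 * ((r : ℝ) - l) * Ψ₀ := by
        have : (l : ℝ) ≤ r := by exact_mod_cast hlr
        have := V.ps
        have : 0 ≤ (r : ℝ) - l := by linarith
        positivity
      linarith) le_rfl hc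
    (fun i _ hi => (relvF_low (hR K le_rfl) hi.le hc (hL K le_rfl).depG).mono hDD le_rfl)
    (fun ω h => hB' ω (k1 ω h)) hP'' (by
      rw [le_div_iff₀ (by positivity), mul_assoc, ← pow_add]
      refine hκC _ ?_
      have := hCK.2
      omega)
    ⟨hGt, hHt, (hL K le_rfl).depG, (hL K le_rfl).depH, ((hL K le_rfl).sub k1).pos,
      ((hL K le_rfl).sub k1).agr, ((hL K le_rfl).sub k1).lip⟩
    (fun ω hω => by
      rw [hv ω (k1 ω hω), slam_coarse' F (Nat.floor_le_floor (mul_le_mul_of_nonneg_right hw₁ hJr))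
        (Nat.floor_le_of_le (by
          have h1 : om K ≤ 1 := by linarith
          have := mul_le_mul_of_nonneg_right h1 hJr
          linarith)) ω])
    (fun ω hω => hv1 ω (k1 ω hω)) hown
  have hXe : (S + 1) * (X + ⌊σ₀ * (J : ℝ)⌋₊ + 1) ≤ ⌊η * (J : ℝ)⌋₊ := by
    rw [Nat.le_floor_iff (by positivity), hX]
    push_cast
    have h1 : ((⌊σ₀ * (J : ℝ)⌋₊ : ℕ) : ℝ) ≤ σ₀ * J := Nat.floor_le (by positivity)
    have hσJ : 0 ≤ σ₀ * (J : ℝ) := by positivity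
    have hK0 : (0 : ℝ) ≤ K := Nat.cast_nonneg K
    obtain ⟨A', hAe⟩ : ∃ A' : ℝ, A' = (Cp + 1) * (r + 2) := ⟨_, rfl⟩
    have hA1 : (1 : ℝ) ≤ A' := by rw [hAe]; nlinarith
    have hA2 : (r : ℝ) + 2 ≤ A' := by rw [hAe]; nlinarith
    have hA3 : ((r : ℝ) + 1) * Cp ≤ A' := by rw [hAe]; nlinarith
    rw [← hAe] at hs1 hCc
    have h2 : ((r : ℝ) + 1) * (Cp * ((⌊σ₀ * (J : ℝ)⌋₊ : ℕ) + 1) + ((q : ℝ) + 1) + ((K : ℝ) + 1)) ≤
        (r + 1) * τ * J + A' * (2 * (σ₀ * J) + (K + 4)) := by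
      have h3 : ((r : ℝ) + 1) * (Cp * ((⌊σ₀ * (J : ℝ)⌋₊ : ℕ) + 1)) ≤ A' * (σ₀ * J + 1) := by
        rw [← mul_assoc]
        exact mul_le_mul hA3 (by linarith) (by positivity) (by linarith)
      have h4 : ((r : ℝ) + 1) * ((q : ℝ) + 1 + (K + 1)) ≤
          (r + 1) * τ * J + A' * (σ₀ * J + (K + 3)) := by
        have h5 : (q : ℝ) + 1 + (K + 1) ≤ τ * J + (σ₀ * J + (K + 3)) := by linarith
        have h6 : ((r : ℝ) + 1) * (σ₀ * J + (K + 3)) ≤ A' * (σ₀ * J + (K + 3)) :=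
          mul_le_mul_of_nonneg_right (by linarith) (by positivity)
        have h7 := mul_le_mul_of_nonneg_left h5 (show (0 : ℝ) ≤ r + 1 by linarith)
        linarith
      linarith
    have h10 : (x : ℝ) + q + 1 + (K + 1) + (⌊σ₀ * (J : ℝ)⌋₊ : ℕ) + 1 ≤
        τ * J + A' * (3 * (σ₀ * J) + (K + 4)) := by
      have h11 : 0 ≤ 3 * (σ₀ * (J : ℝ)) + (K + 4) := by positivity
      have := mul_le_mul_of_nonneg_right hA1 h11
      linarith
    have h12 : (x : ℝ) + q + 1 + ((r : ℝ) + 1) * (Cp * ((⌊σ₀ * (J : ℝ)⌋₊ : ℕ) + 1) +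
        ((q : ℝ) + 1) + ((K : ℝ) + 1)) + (K + 1) + (⌊σ₀ * (J : ℝ)⌋₊ : ℕ) + 1 ≤
        (r + 2) * τ * J + (A' * 8 * σ₀ * J + A' * (2 * K + 16)) := by
      have h13 : 0 ≤ A' * (σ₀ * (J : ℝ)) := by positivity
      have h14 : 0 ≤ A' * K := by positivity
      linarith
    have h15 := mul_le_mul_of_nonneg_left h12 (show (0 : ℝ) ≤ S + 1 by linarith)
    have h16 := mul_le_mul_of_nonneg_right hs1 hJr
    have h17 := mul_le_mul_of_nonneg_right hCτ hJr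
    have h18 : 0 ≤ η * (J : ℝ) := by positivity
    have h19 : (S + 1 : ℝ) * ((r + 2) * τ * J + (A' * 8 * σ₀ * J + A' * (2 * K + 16))) =
        (S + 1) * ((r + 2) * τ) * J + (S + 1) * (A' * 8 * σ₀) * J +
        (S + 1) * (A' * (2 * K + 16)) := by ring
    rw [h19, ← hCc] at h15
    linarith
  have e3 : (S + 1) * (X + ⌊σ₀ * (J : ℝ)⌋₊ + 1) = S * (X + ⌊σ₀ * (J : ℝ)⌋₊ + 1) +
    (X + ⌊σ₀ * (J : ℝ)⌋₊ + 1) := by ring
  refine ⟨B₃, fun ω h => k1 ω (m1 ω h), ?_, fun ω hω i hli hi => ?_⟩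
  · have h1 : Pe F.p B' / 2 ^ ((r + 1) * K + (r + 1)) ≤ Pe F.p B₃ := by
      have h2 := pe_div (pe_div (κ := 1) (B₀ := B') (B' := B') (by rw [one_mul]) k2) m2
      refine le_trans (le_of_eq ?_) h2
      rw [div_div, ← pow_add]
      ring
    exact le_trans (div_le_div_of_nonneg_left (Pe_nonneg F.isLaw _) (by positivity)
      (pow_le_pow_right₀ (by norm_num) hCK.2)) h1
  · refine ⟨(m3 ω hω i hli hi).mono le_rfl (by omega), (hown ω (m1 ω hω) i hli hi).trans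
      (div_le_div_of_nonneg_right (mul_le_mul_of_nonneg_right (pow_le_pow_right₀ (by norm_num)
        (by omega)) (by positivity)) (by positivity))⟩

end Pool.SHR
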