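import Pool.Agent.H87.GEN.Cst
import Pool.Agent.H87.GEN.Win
import Pool.Agent.H77.Z3.Gnd

/-!
# The stages of the construction of the direction, in a class

`Sl`: a direction on an event, closed at a window, with its derivatives at the samples. `PstQ`: in a
class, a node with a direction for the coordinates `c j`, `l < j ≤ s`, closed at the window `w'`.
`PreQ`: a node with such a direction which is closed at the window of the node, and with the shear.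
`pst_of_pre`: one more coordinate.
-/

set_option autoImplicit false

namespace Pool.SHR

open Finset Real MvPolynomial
open Pool.Agent.H49.Ent Pool.Agent.H32.Dense Pool.STK Pool.KA Pool.KSAT Pool.K2S Pool.PB Pool.S6C
open Pool.GEN Pool.CHT Pool.ISO
open Pool.FLF (Fam.sub)
open Pool.LEV (Law)
open Pool.Z3 (share_ex Nod NodQ NodS)

variable {m J : ℕ}

/-- **A direction on an event**: closed at the window `W`; its derivatives of the labels at the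
samples. -/
structure Sl (F : Fam m J) (c : ℕ → Fin m) (l s W Y y : ℕ) (g : ℕ → ℕ)
    (G : PtT F → ℕ → MvPolynomial (Option (Fin m)) ℝ) (v : PtT F → Fin m → ℝ)
    (v' : LnT F → Fin m → ℝ) (B : F.Ω → Prop) : Prop where
  cls : ∀ ω, B ω → v (ptr F J ω) = v' (slam F W ω)
  nrm : ∀ ω, B ω → v (ptr F J ω) (c l) = 1 ∧ ∀ j < l, v (ptr F J ω) (c j) = 0
  own : ∀ ω, B ω → ∀ j, l < j → j ≤ s →
    |eval (bt F ω) (dir (v (ptr F J ω)) (G (ptr F J ω) j)) - v (ptr F J ω) (c j)| ≤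
      2 ^ y * 2 ^ Y / 2 ^ g j

theorem Sl.sub {F : Fam m J} {c : ℕ → Fin m} {l s W Y y : ℕ} {g : ℕ → ℕ}
    {G : PtT F → ℕ → MvPolynomial (Option (Fin m)) ℝ} {v : PtT F → Fin m → ℝ}
    {v' : LnT F → Fin m → ℝ} {B B' : F.Ω → Prop} (h : Sl F c l s W Y y g G v v' B)
    (hB : Sub B' B) : Sl F c l s W Y y g G v v' B' :=
  ⟨fun ω h1 => h.cls ω (hB ω h1), fun ω h1 => h.nrm ω (hB ω h1), fun ω h1 => h.own ω (hB ω h1)⟩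

/-- A node with a direction, on an event. -/
def PstS (c : ℕ → Fin m) (r l s D Dr : ℕ) (β d : ℕ → ℝ) (a w w' e E η ϱ θ Λ ψ : ℝ) : Stat m :=
  fun J F B => ∃ (G : PtT F → ℕ → MvPolynomial (Option (Fin m)) ℝ)
    (H : LnT F → ℕ → MvPolynomial (Option (Fin m)) ℝ) (v : PtT F → Fin m → ℝ)
    (v' : LnT F → Fin m → ℝ),
    Nod F c r D Dr ⌊a * J⌋₊ ⌊w * J⌋₊ ⌊e * J⌋₊ ⌊(E + ϱ) * J⌋₊ (fun j => ⌊(β j - d j) * J⌋₊)
      ⌊η * J⌋₊ ⌊(1 - ϱ) * J⌋₊ ⌊(1 - (E + ϱ)) * J⌋₊ (Real.exp (-(ψ * J))) B G H ∧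
    Sl F c l s ⌊w' * J⌋₊ ⌊(β l + Λ) * J⌋₊ ⌊θ * J⌋₊ (fun j => ⌊(β j - d j) * J⌋₊) G v v' B

/-- A node with a direction, closed at the window of the node, and the shear, on an event. -/
def PreS (c : ℕ → Fin m) (r l s D Dr : ℕ) (β d : ℕ → ℝ) (a w e E η ϱ θ Li ψ : ℝ) : Stat m :=
  fun J F B => ∃ (G : PtT F → ℕ → MvPolynomial (Option (Fin m)) ℝ)
    (H : LnT F → ℕ → MvPolynomial (Option (Fin m)) ℝ) (v : PtT F → Fin m → ℝ)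
    (v' : LnT F → Fin m → ℝ),
    Nod F c r D Dr ⌊a * J⌋₊ ⌊w * J⌋₊ ⌊e * J⌋₊ ⌊(E + ϱ) * J⌋₊ (fun j => ⌊(β j - d j) * J⌋₊)
      ⌊η * J⌋₊ ⌊(1 - ϱ) * J⌋₊ ⌊(1 - (E + ϱ)) * J⌋₊ (Real.exp (-(ψ * J))) B G H ∧
    Sl F c l s ⌊w * J⌋₊ ⌊(β l + Li) * J⌋₊ ⌊θ * J⌋₊ (fun j => ⌊(β j - d j) * J⌋₊) G v v' B ∧
    ∀ ω, B ω → ∀ j, l < j → j ≤ s → ShrY F c ⌊a * J⌋₊ ⌊(β l + Li) * J⌋₊
      (fun j => ⌊(β j - d j) * J⌋₊) G v ⌊θ * J⌋₊ j ω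

/-- Smaller events. -/
theorem PstS.sub {c : ℕ → Fin m} {r l s D Dr : ℕ} {β d : ℕ → ℝ} {a w w' e E η ϱ θ Λ ψ ψ' κ₁ : ℝ}
    {J : ℕ} {F : Fam m J} {B B' : F.Ω → Prop}
    (h : PstS c r l s D Dr β d a w w' e E η ϱ θ Λ ψ J F B) (hB : Sub B' B)
    (hP : κ₁ * Pe F.p B ≤ Pe F.p B') (hκ : Real.exp (-((ψ - ψ') * J)) ≤ κ₁) :
    PstS c r l s D Dr β d a w w' e E η ϱ θ Λ ψ' J F B' := by
  obtain ⟨G, H, v, v', h1, h2⟩ := h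
  refine ⟨G, H, v, v', h1.sub hB hP (Real.exp_pos _).le ?_, h2.sub hB⟩
  calc Real.exp (-(ψ * J)) = Real.exp (-(ψ' * J)) * Real.exp (-((ψ - ψ') * J)) := by
        rw [← Real.exp_add]
        congr 1
        ring
    _ ≤ _ := mul_le_mul_of_nonneg_left hκ (Real.exp_pos _).le

/-- The nodes of a class, with the degree. -/
def NodD (S : PCl m) (c : ℕ → Fin m) (r D : ℕ) (β : ℕ → ℝ → ℝ → ℝ) (e E ϱ a w : ℝ) : Prop :=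
  1 ≤ D ∧ ∀ (Dr : ℕ) (η σ : ℝ), 0 < η → 0 < σ → σ ≤ ϱ →
    ∃ (K₁ : ℝ) (d : ℕ → ℝ) (ψ : ℝ), 0 < K₁ ∧ 0 < ψ ∧ (∀ l ≤ r, 0 < d l ∧ d l ≤ σ ∧ d l < a) ∧
      Bas S (fun J F A => ∃ B : F.Ω → Prop, Sub B A ∧ Pe F.p A ≤ K₁ * Pe F.p B ∧
        NodS c r D Dr (fun l => β l a w) d a w e (E + σ) η ϱ (E + ϱ) ψ J F B)

theorem nodQ_iff {S : PCl m} {c : ℕ → Fin m} {r : ℕ} {β : ℕ → ℝ → ℝ → ℝ} {e E ϱ a w : ℝ} :
    NodQ S c r β e E ϱ a w ↔ ∃ D, NodD S c r D β e E ϱ a w := Iff.rfl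

/-- **The variation over the window `w'`** in a class, for one degree. -/
def NVD (S : PCl m) (c : ℕ → Fin m) (r l i D : ℕ) (β : ℕ → ℝ → ℝ → ℝ)
    (e E ϱ a₀ w w' Li Lo : ℝ) : Prop :=
  ∃ (Dr : ℕ) (δ : ℝ), 0 < δ ∧ ∀ d : ℕ → ℝ, (∀ j ≤ r, 0 < d j ∧ d j ≤ δ) →
    ∀ ψ₀ : ℝ, 0 < ψ₀ → ∃ ψ : ℝ, 0 < ψ ∧ ∀ κ₁ : ℝ, 0 < κ₁ → Bas S (fun J F A =>
      ∀ (B₀ : F.Ω → Prop) (G : PtT F → ℕ → MvPolynomial (Option (Fin m)) ℝ)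
        (H : LnT F → ℕ → MvPolynomial (Option (Fin m)) ℝ), Sub B₀ A →
        κ₁ * Pe F.p A ≤ Pe F.p B₀ →
        Nod F c r D Dr ⌊a₀ * J⌋₊ ⌊w * J⌋₊ ⌊e * J⌋₊ ⌊(E + ϱ) * J⌋₊
          (fun j => ⌊(β j a₀ w - d j) * J⌋₊) ⌊δ * J⌋₊ ⌊(1 - ϱ) * J⌋₊ ⌊(1 - (E + ϱ)) * J⌋₊
          (Real.exp (-(ψ₀ * J))) B₀ G H →
        NVG F c l i ⌊a₀ * J⌋₊ ⌊w * J⌋₊ ⌊w' * J⌋₊ (fun j => ⌊(β j a₀ w - d j) * J⌋₊)
          ⌊(β l a₀ w + Li) * J⌋₊ ⌊δ * J⌋₊ ⌊(β l a₀ w + Lo) * J⌋₊ (Real.exp (-(ψ * J))) B₀ G H)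

theorem nvc_iff {S : PCl m} {c : ℕ → Fin m} {r l i : ℕ} {β : ℕ → ℝ → ℝ → ℝ}
    {e E ϱ a₀ w w' Li Lo : ℝ} :
    NVC S c r l i β e E ϱ a₀ w w' Li Lo ↔ ∀ D, NVD S c r l i D β e E ϱ a₀ w w' Li Lo := Iff.rfl

/-- **A node with a direction**, closed at the window `w'`, with the degree. -/
def PstD (S : PCl m) (c : ℕ → Fin m) (r l s D : ℕ) (β : ℕ → ℝ → ℝ → ℝ)
    (e E ϱ a w w' Λ : ℝ) : Prop :=
  ∀ (Dr : ℕ) (η σ θ : ℝ), 0 < η → 0 < σ → σ ≤ ϱ → 0 < θ →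
    ∃ (K₁ : ℝ) (d : ℕ → ℝ) (ψ : ℝ), 0 < K₁ ∧ 0 < ψ ∧ (∀ j ≤ r, 0 < d j ∧ d j ≤ σ) ∧
      Bas S (fun J F A => ∃ B : F.Ω → Prop, Sub B A ∧ Pe F.p A ≤ K₁ * Pe F.p B ∧
        PstS c r l s D Dr (fun j => β j a w) d a w w' e E η ϱ θ Λ ψ J F B)

/-- **A node with a direction**, closed at the window of the node, and the shear, with the
degree. -/
def PreD (S : PCl m) (c : ℕ → Fin m) (r l s D : ℕ) (β : ℕ → ℝ → ℝ → ℝ) (e E ϱ a w Li : ℝ) :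
    Prop :=
  ∀ (Dr : ℕ) (η σ θ : ℝ), 0 < η → 0 < σ → σ ≤ ϱ → 0 < θ →
    ∃ (K₁ : ℝ) (d : ℕ → ℝ) (ψ : ℝ), 0 < K₁ ∧ 0 < ψ ∧ (∀ j ≤ r, 0 < d j ∧ d j ≤ σ) ∧
      Bas S (fun J F A => ∃ B : F.Ω → Prop, Sub B A ∧ Pe F.p A ≤ K₁ * Pe F.p B ∧
        PreS c r l s D Dr (fun j => β j a w) d a w e E η ϱ θ Li ψ J F B)

/-- **A node with a direction**, closed at the window `w'`. -/
def PstQ (S : PCl m) (c : ℕ → Fin m) (r l s : ℕ) (β : ℕ → ℝ → ℝ → ℝ) (e E ϱ a w w' Λ : ℝ) :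
    Prop :=
  ∃ D : ℕ, 1 ≤ D ∧ ∀ (Dr : ℕ) (η σ θ : ℝ), 0 < η → 0 < σ → σ ≤ ϱ → 0 < θ →
    ∃ (K₁ : ℝ) (d : ℕ → ℝ) (ψ : ℝ), 0 < K₁ ∧ 0 < ψ ∧ (∀ j ≤ r, 0 < d j ∧ d j ≤ σ) ∧
      Bas S (fun J F A => ∃ B : F.Ω → Prop, Sub B A ∧ Pe F.p A ≤ K₁ * Pe F.p B ∧
        PstS c r l s D Dr (fun j => β j a w) d a w w' e E η ϱ θ Λ ψ J F B)

/-- **A node with a direction**, closed at the window of the node, and the shear. -/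
def PreQ (S : PCl m) (c : ℕ → Fin m) (r l s : ℕ) (β : ℕ → ℝ → ℝ → ℝ) (e E ϱ a w Li : ℝ) :
    Prop :=
  ∃ D : ℕ, 1 ≤ D ∧ ∀ (Dr : ℕ) (η σ θ : ℝ), 0 < η → 0 < σ → σ ≤ ϱ → 0 < θ →
    ∃ (K₁ : ℝ) (d : ℕ → ℝ) (ψ : ℝ), 0 < K₁ ∧ 0 < ψ ∧ (∀ j ≤ r, 0 < d j ∧ d j ≤ σ) ∧
      Bas S (fun J F A => ∃ B : F.Ω → Prop, Sub B A ∧ Pe F.p A ≤ K₁ * Pe F.p B ∧
        PreS c r l s D Dr (fun j => β j a w) d a w e E η ϱ θ Li ψ J F B)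

/-- **The first direction.** -/
theorem pre_zeroD {S : PCl m} {c : ℕ → Fin m} {r l D : ℕ} {β : ℕ → ℝ → ℝ → ℝ} {e E ϱ a w Li : ℝ}
    (hc : Set.InjOn c (Set.Iio (r + 1))) (hl : l ≤ r) (h : NodD S c r D β e E ϱ a w) :
    PreD S c r l l D β e E ϱ a w Li := by
  classical
  intro Dr η σ θ hη hσ hσϱ hθ
  obtain ⟨-, h⟩ := h
  obtain ⟨K₁, d, ψ, hK₁, hψ, hd, hB⟩ := h Dr η σ hη hσ hσϱ
  refine ⟨K₁, d, ψ, hK₁, hψ, fun j hj => ⟨(hd j hj).1, (hd j hj).2.1⟩, hB.mono 0 ?_⟩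
  rintro J - F A ⟨B, k1, k2, T, TH, k3⟩
  refine ⟨B, k1, k2, T, TH, fun _ => Function.update 0 (c l) 1, fun _ => Function.update 0 (c l) 1,
    ⟨k3.lst, k3.top.mono le_rfl (fun _ => le_rfl) le_rfl ?_, k3.rlY⟩,
    ⟨fun _ _ => rfl, fun ω _ => ⟨Function.update_self _ _ _, fun j hj => ?_⟩,
      fun ω _ j h1 h2 => by omega⟩, fun ω _ j h1 h2 => by omega⟩
  · exact Nat.floor_le_floor (mul_le_mul_of_nonneg_right (by linarith) (Nat.cast_nonneg J))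
  · have hne : c j ≠ c l := fun he => by
      have := hc (show j < r + 1 by omega) (show l < r + 1 by omega) he
      omega
    show Function.update (0 : Fin m → ℝ) (c l) 1 (c j) = 0
    rw [Function.update_of_ne hne]
    rfl

/-- The first direction. -/
theorem pre_zero {S : PCl m} {c : ℕ → Fin m} {r l : ℕ} {β : ℕ → ℝ → ℝ → ℝ} {e E ϱ a w Li : ℝ}
    (hc : Set.InjOn c (Set.Iio (r + 1))) (hl : l ≤ r) (h : NodQ S c r β e E ϱ a w) :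
    PreQ S c r l l β e E ϱ a w Li := by
  obtain ⟨D, hD, h⟩ := h
  exact ⟨D, hD, pre_zeroD hc hl ⟨hD, h⟩⟩

/-- **One more coordinate.** -/
theorem pst_of_preD {S : PCl m} {c : ℕ → Fin m} {r l s D : ℕ} {β : ℕ → ℝ → ℝ → ℝ}
    {e E ϱ a w w' Li Lo Lo₀ x : ℝ} (hc : Set.InjOn c (Set.Iio (r + 1))) (hls : l ≤ s)
    (hsr : s < r) (hw0 : 0 ≤ w) (hww : w ≤ w') (hwa : w' ≤ a) (ha1 : a ≤ 1)
    (hLow : ∀ i ≤ r, ∀ a w, 0 ≤ w → w ≤ a → a ≤ 1 → a ≤ β i a w)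
    (hE : 0 ≤ E) (hϱ : 0 < ϱ) (hx : 0 < x) (hLi : 0 ≤ Li) (hLio : Li ≤ Lo) (hLo : Lo ≤ Lo₀)
    (hLox : Lo₀ < Lo + x) (hnum : ∀ j ≤ r, β j a w + (E + ϱ) + x < 1)
    (h : PreD S c r l s D β e E ϱ a w Li) (hN₀ : NVD S c r l (s + 1) D β e E ϱ a w w Li Lo₀)
    (hN : NVD S c r l (s + 1) D β e E ϱ a w w' Li Lo) :
    PstD S c r l (s + 1) D β e E ϱ a w w' Lo := by
  classical
  intro Dr η σ θ hη hσ hσϱ hθ
  obtain ⟨Dr₁, δ₁, hδ₁, hN₀⟩ := hN₀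
  obtain ⟨Dr₂, δ₂, hδ₂, hN⟩ := hN
  obtain ⟨C, hst⟩ := cst_step D (r + 1)
  have hC0 : (0 : ℝ) ≤ C := Nat.cast_nonneg C
  obtain ⟨δ, hδ⟩ : ∃ δ, δ = min δ₁ δ₂ := ⟨_, rfl⟩
  have hδ0 : 0 < δ := by rw [hδ]; exact lt_min hδ₁ hδ₂
  have hδ1 : δ ≤ δ₁ := by rw [hδ]; exact min_le_left _ _
  have hδ2 : δ ≤ δ₂ := by rw [hδ]; exact min_le_right _ _
  obtain ⟨γ, hγ⟩ : ∃ γ, γ = Lo + x - Lo₀ := ⟨_, rfl⟩
  have hγ0 : 0 < γ := by rw [hγ]; linarith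
  obtain ⟨η', hη'⟩ : ∃ η', η' = min (min η δ) (γ / 2) := ⟨_, rfl⟩
  have hη'0 : 0 < η' := by rw [hη']; exact lt_min (lt_min hη hδ0) (by linarith)
  have hη'1 : η' ≤ η := by rw [hη']; exact (min_le_left _ _).trans (min_le_left _ _)
  have hη'2 : η' ≤ δ := by rw [hη']; exact (min_le_left _ _).trans (min_le_right _ _)
  have hη'3 : η' ≤ γ / 2 := by rw [hη']; exact min_le_right _ _
  obtain ⟨θ', hθ'⟩ : ∃ θ', θ' = min δ (θ / (2 * (C + 1))) := ⟨_, rfl⟩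
  have hθ'0 : 0 < θ' := by rw [hθ']; exact lt_min hδ0 (by positivity)
  have hθ'1 : θ' ≤ δ := by rw [hθ']; exact min_le_left _ _
  have hθ'2 : (C + 1) * θ' ≤ θ / 2 := by
    have h1 : θ' ≤ θ / (2 * (C + 1)) := by rw [hθ']; exact min_le_right _ _
    rw [le_div_iff₀ (by positivity)] at h1
    linarith
  obtain ⟨K₁, d, ψ, hK₁, hψ, hd, hB⟩ := h (max Dr (max D (max Dr₁ Dr₂))) η' (min σ δ) θ' hη'0
    (lt_min hσ hδ0) ((min_le_left _ _).trans hσϱ) hθ'0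
  have hd1 : ∀ j ≤ r, d j ≤ σ := fun j hj => (hd j hj).2.trans (min_le_left _ _)
  have hd2 : ∀ j ≤ r, d j ≤ δ := fun j hj => (hd j hj).2.trans (min_le_right _ _)
  obtain ⟨ψ₁, hψ₁, hN₀⟩ := hN₀ d (fun j hj => ⟨(hd j hj).1, (hd2 j hj).trans hδ1⟩) ψ hψ
  obtain ⟨ψ₂, hψ₂, hN⟩ := hN d (fun j hj => ⟨(hd j hj).1, (hd2 j hj).trans hδ2⟩) ψ hψ
  obtain ⟨ψ₃, hψ₃⟩ : ∃ ψ₃, ψ₃ = min ψ (min ψ₁ ψ₂) := ⟨_, rfl⟩
  have hψ₃0 : 0 < ψ₃ := by rw [hψ₃]; exact lt_min hψ (lt_min hψ₁ hψ₂)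
  have p1 : ψ₃ ≤ ψ := by rw [hψ₃]; exact min_le_left _ _
  have p2 : ψ₃ ≤ ψ₁ := by rw [hψ₃]; exact (min_le_right _ _).trans (min_le_left _ _)
  have p3 : ψ₃ ≤ ψ₂ := by rw [hψ₃]; exact (min_le_right _ _).trans (min_le_right _ _)
  refine ⟨K₁ * 2 ^ 4, d, ψ / 2, by positivity, by positivity, fun j hj => ⟨(hd j hj).1, hd1 j hj⟩,
    ?_⟩
  have b1 := hN₀ (1 / K₁) (by positivity)
  have b2 := hN (1 / K₁) (by positivity)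
  obtain ⟨J₁, hJ₁⟩ := share_ex (ψ := ψ₃) (κ := 1 / 16) hψ₃0 (by norm_num)
  obtain ⟨J₂, hJ₂⟩ := exists_nat_gt ((C + 3) / (γ / 2))
  obtain ⟨J₃, hJ₃⟩ := exists_nat_gt ((C + 2) / (θ / 2))
  obtain ⟨δ₃, hδ₃, hδn⟩ := fin_pos (r + 1) (f := fun j => 1 - (β j a w + (E + ϱ) + x))
    fun j hj => by
      have := hnum j (by omega)
      linarith
  obtain ⟨J₄, hJ₄⟩ := exists_nat_gt ((C : ℝ) / δ₃)
  obtain ⟨J₅, hJ₅⟩ := share_ex (ψ := ψ / 2) (κ := 1 / 2 ^ 4) (by positivity) (by positivity)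
  refine Bas.mono (max (max J₁ J₂) (max J₃ (max J₄ J₅))) ((hB.and b1).and b2) ?_
  rintro J hJ F A ⟨⟨⟨B, k1, k2, G, H, v, v', k3, k4, k5⟩, c1⟩, c2⟩
  simp only [ge_iff_le, max_le_iff] at hJ
  obtain ⟨⟨j1, j2⟩, j3, j4, j5⟩ := hJ
  have hJr : (0 : ℝ) ≤ J := Nat.cast_nonneg J
  have hj2 : C + 3 < γ / 2 * J := by
    have h3 := hJ₂.trans_le (show (J₂ : ℝ) ≤ J by exact_mod_cast j2)
    rw [div_lt_iff₀ (by linarith)] at h3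
    linarith
  have hj3 : C + 2 < θ / 2 * J := by
    have h3 := hJ₃.trans_le (show (J₃ : ℝ) ≤ J by exact_mod_cast j3)
    rw [div_lt_iff₀ (by linarith)] at h3
    linarith
  have hj4 : C < δ₃ * J := by
    have h3 := hJ₄.trans_le (show (J₄ : ℝ) ≤ J by exact_mod_cast j4)
    rw [div_lt_iff₀ hδ₃] at h3
    linarith
  have hKB : 1 / K₁ * Pe F.p A ≤ Pe F.p B := by
    rw [one_div, inv_mul_le_iff₀ hK₁]
    exact k2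
  have hex : ∀ x y : ℝ, x ≤ y → Real.exp (-(y * J)) ≤ Real.exp (-(x * J)) := fun x y hxy =>
    Real.exp_le_exp.2 (by
      have := mul_le_mul_of_nonneg_right hxy hJr
      linarith)
  have hfl : ∀ x y : ℝ, x ≤ y → ⌊x * (J : ℝ)⌋₊ ≤ ⌊y * (J : ℝ)⌋₊ := fun x y hxy =>
    Nat.floor_le_floor (mul_le_mul_of_nonneg_right hxy hJr)
  have hNV₀ := (c1 B G H k1 hKB ⟨k3.lst, k3.top, k3.rlY.mono
    ((le_max_left _ _).trans ((le_max_right _ _).trans (le_max_right _ _)))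
    (hfl _ _ (hη'2.trans hδ1)) le_rfl⟩).mono (Y' := ⌊(β l a w + Li) * (J : ℝ)⌋₊)
    (y' := ⌊θ' * (J : ℝ)⌋₊) (V' := ⌊(β l a w + Lo₀) * (J : ℝ)⌋₊)
    (κ' := Real.exp (-(ψ₃ * J))) le_rfl (hfl _ _ (hθ'1.trans hδ1)) le_rfl (hex _ _ p2)
  have hNV := (c2 B G H k1 hKB ⟨k3.lst, k3.top, k3.rlY.mono
    ((le_max_right _ _).trans ((le_max_right _ _).trans (le_max_right _ _)))
    (hfl _ _ (hη'2.trans hδ2)) le_rfl⟩).mono (Y' := ⌊(β l a w + Li) * (J : ℝ)⌋₊)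
    (y' := ⌊θ' * (J : ℝ)⌋₊) (V' := ⌊(β l a w + Lo) * (J : ℝ)⌋₊)
    (κ' := Real.exp (-(ψ₃ * J))) le_rfl (hfl _ _ (hθ'1.trans hδ2)) le_rfl (hex _ _ p3)
  have hβ : ∀ j ≤ r, 0 ≤ β j a w := fun j hj => by
    have := hLow j hj a w hw0 (hww.trans hwa) ha1
    linarith
  have hRH := ((relvH_of k3.rlY).low (i := s + 1) (by omega) hc k3.top.depG)
  have hRH' : RelvH F c (s + 1) ⌊a * (J : ℝ)⌋₊ ⌊w * (J : ℝ)⌋₊ (fun j => ⌊(β j a w - d j) * (J : ℝ)⌋₊)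
      (fun l => if l < r then ⌊(1 - ϱ) * (J : ℝ)⌋₊ else ⌊(1 - (E + ϱ)) * (J : ℝ)⌋₊) D
      ⌊η' * (J : ℝ)⌋₊ (Real.exp (-(ψ₃ * J))) B G := by
    intro B' hB hP Dx Dl M y h1 h2 h3 h4 hM hy h5 h6
    exact hRH B' hB ((mul_le_mul_of_nonneg_right (hex _ _ p1) (Pe_nonneg F.isLaw B)).trans hP)
      Dx Dl M y (fun y => (h1 y).trans ((le_max_left _ _).trans (le_max_right _ _)))
      (fun s => (h2 s).trans ((le_max_left _ _).trans (le_max_right _ _))) h3 h4 hM hy h5 h6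
  have hfl1 : ∀ z : ℝ, z ≤ 1 → ⌊z * (J : ℝ)⌋₊ ≤ J := fun z hz => Nat.floor_le_of_le (by
    have := mul_le_mul_of_nonneg_right hz hJr
    linarith)
  obtain ⟨B₂, x', xl, l1, l2, l3, l4⟩ := hst (J := J) (F := F) (c := c) (l := l) (i := s + 1)
    (a := ⌊a * (J : ℝ)⌋₊) (w := ⌊w * (J : ℝ)⌋₊) (w' := ⌊w' * (J : ℝ)⌋₊)
    (e := ⌊(E + ϱ) * (J : ℝ)⌋₊) (h := ⌊η' * (J : ℝ)⌋₊) (σ := ⌊x * (J : ℝ)⌋₊)
    (y := ⌊θ' * (J : ℝ)⌋₊) (Y := ⌊(β l a w + Li) * (J : ℝ)⌋₊) (V := ⌊(β l a w + Lo) * (J : ℝ)⌋₊)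
    (V₀ := ⌊(β l a w + Lo₀) * (J : ℝ)⌋₊) (g := fun j => ⌊(β j a w - d j) * (J : ℝ)⌋₊)
    (κ := Real.exp (-(ψ₃ * J))) (B₀ := B) (B' := B) (G := G) (H := H) (v := v) (v' := v')
    (hfl _ _ hww) (hfl1 _ (hwa.trans ha1)) (hfl _ _ (by
      have := (hd l (by omega)).1
      linarith)) (hfl _ _ (by linarith)) (hfl _ _ (by linarith)) (by omega) (by omega)
    (hc.mono (Set.Iio_subset_Iio (by omega))) hRH' (fun _ h => h) (Real.exp_pos _).le (by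
      have h1 := hJ₁ J j1
      have h2 := Pe_nonneg F.isLaw B
      nlinarith) (k3.top.mono (by omega) (fun _ => le_rfl) le_rfl le_rfl) hNV₀ hNV (fun j hj => by
      show (if j < r then _ else _) ≤ J
      split_ifs
      · exact hfl1 _ (by linarith)
      · exact hfl1 _ (by linarith)) (fun j hj => by
      have h1 : ((⌊(E + ϱ) * (J : ℝ)⌋₊ + ⌊(β j a w - d j) * (J : ℝ)⌋₊ + ⌊x * (J : ℝ)⌋₊ + C : ℕ) :
          ℝ) ≤ J := by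
        push_cast
        have h2 : ((⌊(E + ϱ) * (J : ℝ)⌋₊ : ℕ) : ℝ) ≤ (E + ϱ) * J := Nat.floor_le (by positivity)
        have h3 : ((⌊(β j a w - d j) * (J : ℝ)⌋₊ : ℕ) : ℝ) ≤ β j a w * J := by
          have h4 : ⌊(β j a w - d j) * (J : ℝ)⌋₊ ≤ ⌊β j a w * (J : ℝ)⌋₊ := hfl _ _ (by
            have := (hd j (by omega)).1
            linarith)
          have h5 : ((⌊(β j a w - d j) * (J : ℝ)⌋₊ : ℕ) : ℝ) ≤ ((⌊β j a w * (J : ℝ)⌋₊ : ℕ) : ℝ) := by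
            exact_mod_cast h4
          exact h5.trans (Nat.floor_le (mul_nonneg (hβ j (by omega)) hJr))
        have h4 : ((⌊x * (J : ℝ)⌋₊ : ℕ) : ℝ) ≤ x * J := Nat.floor_le (by positivity)
        have h5 := mul_le_mul_of_nonneg_right (hδn j (by omega)) hJr
        linarith
      exact_mod_cast h1) (by
      have h1 : ((⌊η' * (J : ℝ)⌋₊ + C + ⌊(β l a w + Lo₀) * (J : ℝ)⌋₊ : ℕ) : ℝ) ≤
          ((⌊x * (J : ℝ)⌋₊ + ⌊(β l a w + Lo) * (J : ℝ)⌋₊ : ℕ) : ℝ) := by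
        push_cast
        have h2 : ((⌊η' * (J : ℝ)⌋₊ : ℕ) : ℝ) ≤ η' * J := Nat.floor_le (by positivity)
        have h3 : ((⌊(β l a w + Lo₀) * (J : ℝ)⌋₊ : ℕ) : ℝ) ≤ (β l a w + Lo₀) * J :=
          Nat.floor_le (mul_nonneg (by
            have := hβ l (by omega)
            linarith) hJr)
        have h4 := Nat.lt_floor_add_one (x * (J : ℝ))
        have h5 := Nat.lt_floor_add_one ((β l a w + Lo) * (J : ℝ))
        have h6 := mul_le_mul_of_nonneg_right hη'3 hJr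
        have h7 : γ * J = Lo * J + x * J - Lo₀ * J := by rw [hγ]; ring
        linarith
      exact_mod_cast h1) k4.cls k4.nrm (fun ω hω j hj hlj => ⟨k5 ω hω j hlj (by omega),
        k4.own ω hω j hlj (by omega)⟩)
  have hne : ∀ k < s + 1, c k ≠ c (s + 1) := fun k hk he => by
    have := hc (show k < r + 1 by omega) (show s + 1 < r + 1 by omega) he
    omega
  have hcs : Set.InjOn c (Set.Iio (s + 1 + 1)) := hc.mono (Set.Iio_subset_Iio (by omega))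
  refine ⟨B₂, fun ω h => k1 ω (l1 ω h), ?_, G, H,
    fun p => Function.update (v p) (c (s + 1)) (x' p),
    fun s' => Function.update (v' (s'.1, s'.2.1, s'.2.2 / 2 ^ (⌊w' * (J : ℝ)⌋₊ - ⌊w * (J : ℝ)⌋₊)))
      (c (s + 1)) (xl s'), ?_, ⟨fun ω hω => ?_, fun ω hω => ⟨?_, fun j hj => ?_⟩,
      fun ω hω j hlj hjs => ?_⟩⟩
  · rw [div_le_iff₀ (by positivity)] at l2
    calc Pe F.p A ≤ K₁ * Pe F.p B := k2
      _ ≤ K₁ * (Pe F.p B₂ * 2 ^ 4) := mul_le_mul_of_nonneg_left l2 hK₁.le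
      _ = _ := by ring
  · refine (Nod.sub ⟨k3.lst, k3.top, k3.rlY.mono (le_max_left _ _) (hfl _ _ hη'1) le_rfl⟩ l1
      (κ₁ := 1 / 2 ^ 4) (by rw [one_div, inv_mul_eq_div]; exact l2) (Real.exp_pos _).le ?_)
    have h1 := hJ₅ J j5
    have h2 : Real.exp (-(ψ * J)) = Real.exp (-(ψ / 2 * J)) * Real.exp (-(ψ / 2 * J)) := by
      rw [← Real.exp_add]
      congr 1
      ring
    rw [h2]
    exact mul_le_mul_of_nonneg_left h1 (Real.exp_pos _).le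
  · show Function.update (v (ptr F J ω)) (c (s + 1)) (x' (ptr F J ω)) = _
    rw [slam_coarse' F (hfl _ _ hww) (hfl1 _ (hwa.trans ha1)) ω, ← k4.cls ω (l1 ω hω), l3 ω hω]
  · show Function.update (v (ptr F J ω)) (c (s + 1)) (x' (ptr F J ω)) (c l) = 1
    rw [Function.update_of_ne (hne l (by omega))]
    exact (k4.nrm ω (l1 ω hω)).1
  · show Function.update (v (ptr F J ω)) (c (s + 1)) (x' (ptr F J ω)) (c j) = 0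
    rw [Function.update_of_ne (hne j (by omega))]
    exact (k4.nrm ω (l1 ω hω)).2 j hj
  · show |eval (bt F ω) (dir (Function.update (v (ptr F J ω)) (c (s + 1)) (x' (ptr F J ω)))
      (G (ptr F J ω) j)) - Function.update (v (ptr F J ω)) (c (s + 1)) (x' (ptr F J ω)) (c j)| ≤ _
    rw [dir_upd hcs _ _ ((k3.top.depG _ j).mono hjs)]
    have hθθ : C * (⌊θ' * (J : ℝ)⌋₊ + 1) ≤ ⌊θ * (J : ℝ)⌋₊ ∧ ⌊θ' * (J : ℝ)⌋₊ ≤ ⌊θ * (J : ℝ)⌋₊ := by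
      have h1 : (((C + 1) * (⌊θ' * (J : ℝ)⌋₊ + 1) : ℕ) : ℝ) ≤ θ * J := by
        push_cast
        have h2 : ((⌊θ' * (J : ℝ)⌋₊ : ℕ) : ℝ) ≤ θ' * J := Nat.floor_le (by positivity)
        have h3 : ((C : ℝ) + 1) * ((⌊θ' * (J : ℝ)⌋₊ : ℕ) + 1) ≤ (C + 1) * (θ' * J + 1) :=
          mul_le_mul_of_nonneg_left (by linarith) (by positivity)
        have h4 := mul_le_mul_of_nonneg_right hθ'2 hJr
        linarith
      have h2 : (C + 1) * (⌊θ' * (J : ℝ)⌋₊ + 1) ≤ ⌊θ * (J : ℝ)⌋₊ := Nat.le_floor h1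
      have e1 : (C + 1) * (⌊θ' * (J : ℝ)⌋₊ + 1) = C * (⌊θ' * (J : ℝ)⌋₊ + 1) +
        (⌊θ' * (J : ℝ)⌋₊ + 1) := by ring
      constructor <;> omega
    rcases Nat.lt_or_ge j (s + 1) with h1 | h1
    · rw [Function.update_of_ne (hne j h1)]
      refine (k4.own ω (l1 ω hω) j hlj (by omega)).trans (div_le_div_of_nonneg_right
        (mul_le_mul (pow_le_pow_right₀ (by norm_num) hθθ.2) (pow_le_pow_right₀ (by norm_num)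
          (hfl _ _ (by linarith))) (by positivity) (by positivity)) (by positivity))
    · have h2 : j = s + 1 := by omega
      subst h2
      rw [Function.update_self]
      exact (l4 ω hω).trans (div_le_div_of_nonneg_right (mul_le_mul_of_nonneg_right
        (pow_le_pow_right₀ (by norm_num) hθθ.1) (by positivity)) (by positivity))

/-- One more coordinate. -/
theorem pst_of_pre {S : PCl m} {c : ℕ → Fin m} {r l s : ℕ} {β : ℕ → ℝ → ℝ → ℝ}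
    {e E ϱ a w w' Li Lo Lo₀ x : ℝ} (hc : Set.InjOn c (Set.Iio (r + 1))) (hls : l ≤ s)
    (hsr : s < r) (hw0 : 0 ≤ w) (hww : w ≤ w') (hwa : w' ≤ a) (ha1 : a ≤ 1)
    (hLow : ∀ i ≤ r, ∀ a w, 0 ≤ w → w ≤ a → a ≤ 1 → a ≤ β i a w)
    (hE : 0 ≤ E) (hϱ : 0 < ϱ) (hx : 0 < x) (hLi : 0 ≤ Li) (hLio : Li ≤ Lo) (hLo : Lo ≤ Lo₀)
    (hLox : Lo₀ < Lo + x) (hnum : ∀ j ≤ r, β j a w + (E + ϱ) + x < 1)
    (h : PreQ S c r l s β e E ϱ a w Li) (hN₀ : NVC S c r l (s + 1) β e E ϱ a w w Li Lo₀)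
    (hN : NVC S c r l (s + 1) β e E ϱ a w w' Li Lo) :
    PstQ S c r l (s + 1) β e E ϱ a w w' Lo := by
  obtain ⟨D, hD, h⟩ := h
  exact ⟨D, hD, pst_of_preD hc hls hsr hw0 hww hwa ha1 hLow hE hϱ hx hLi hLio hLo hLox hnum h
    (hN₀ D) (hN D)⟩

end Pool.SHR
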