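import Pool.Agent.H87.GEN.Path
import Pool.Agent.H77.Z3.Gnd

/-!
# The numbers of the paths

`Vld`: at the windows `w₀ ≤ ω ≤ w` the levels `P i a ω`, `l ≤ i ≤ r`, are affine with the slopes
`T i < T l`, up to `Ψ₀ + K (w - ω)`; `A` is the exponent of the errors at the window `w₀`. `Vld.step`, `Vld.base`: the inequalities for the errors of the
shear along the path of windows. Also the adapter from the relations `RelvY` to `RelvH`.
-/

set_option autoImplicit false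

namespace Pool.SHR

open Finset Real MvPolynomial
open Pool.Agent.H49.Ent Pool.Agent.H32.Dense Pool.STK Pool.KA Pool.KSAT Pool.K2S Pool.PB Pool.S6C
open Pool.GEN Pool.CHT
open Pool.Z3 (RelvY)

/-- **The levels are almost affine in the window**, with the largest slope for `l`; `A` is the
exponent of the errors at the window `w₀`. -/
structure Vld (P : ℕ → ℝ → ℝ → ℝ) (l r : ℕ) (w₀ K A a w Ψ₀ : ℝ) (B T : ℕ → ℝ) : Prop where
  w0 : w₀ ≤ w
  wa : w ≤ a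
  ps : 0 ≤ Ψ₀
  K0 : 0 < K
  slo : ∀ i, l < i → i ≤ r → T i + 4 * (r + 1) * K ≤ T l
  lin : ∀ i, l ≤ i → i ≤ r → ∀ ω, w₀ ≤ ω → ω ≤ w →
    |P i a ω - B i - T i * ω| ≤ Ψ₀ + K * (w - ω)
  top : A ≤ B l + T l * w₀ + Ψ₀ + K * (w - w₀)

/-- The exponent of the errors. -/
noncomputable def xiv (l : ℕ) (K w Ψ₀ : ℝ) (i : ℕ) (ω : ℝ) : ℝ :=
  4 * ((i : ℝ) - l) * (Ψ₀ + K * (w - ω))

section

variable {P : ℕ → ℝ → ℝ → ℝ} {l r : ℕ} {w₀ K A a w Ψ₀ : ℝ} {B T : ℕ → ℝ}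

/-- Fewer coordinates. -/
theorem Vld.low (V : Vld P l r w₀ K A a w Ψ₀ B T) {s : ℕ} (hs : s ≤ r) :
    Vld P l s w₀ K A a w Ψ₀ B T := by
  refine ⟨V.w0, V.wa, V.ps, V.K0, fun i h1 h2 => ?_, fun i h1 h2 => V.lin i h1 (by omega), V.top⟩
  have h3 := V.slo i h1 (by omega)
  have h4 : (s : ℝ) ≤ r := by exact_mod_cast hs
  have h5 := mul_le_mul_of_nonneg_right h4 V.K0.le
  linarith

/-- **A step of the path.** -/
theorem Vld.step (V : Vld P l r w₀ K A a w Ψ₀ B T) {i : ℕ} (hli : l < i) (hir : i ≤ r)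
    {ω ω' ω'' : ℝ} (h0 : w₀ ≤ ω) (h1 : ω ≤ ω') (h2 : ω' ≤ ω'') (h3 : ω'' ≤ w) :
    P l a ω' + xiv l K w Ψ₀ (i - 1) ω' + P i a ω'' ≤
      P l a ω'' + xiv l K w Ψ₀ i ω'' + P i a ω + (|T i| + 4 * (r + 1) * K) * (ω' - ω) := by
  have hK0 := V.K0
  have hr0 : (0 : ℝ) ≤ r := Nat.cast_nonneg r
  obtain ⟨gap, hgap⟩ : ∃ gap, gap = 4 * ((r : ℝ) + 1) * K := ⟨_, rfl⟩
  have hgap0 : 0 < gap := by rw [hgap]; positivity
  have hps := V.ps
  have e1 : (((i - 1 : ℕ)) : ℝ) = i - 1 := by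
    rw [Nat.cast_sub (by omega), Nat.cast_one]
  have hil : (l : ℝ) + 1 ≤ i := by exact_mod_cast hli
  have hir' : (i : ℝ) ≤ r := by exact_mod_cast hir
  have hl0 : (0 : ℝ) ≤ l := Nat.cast_nonneg l
  have a1 := abs_le.1 (V.lin l le_rfl (hli.le.trans hir) ω' (h0.trans h1) (h2.trans h3))
  have a2 := abs_le.1 (V.lin l le_rfl (hli.le.trans hir) ω'' (h0.trans (h1.trans h2)) h3)
  have a3 := abs_le.1 (V.lin i hli.le hir ω'' (h0.trans (h1.trans h2)) h3)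
  have a4 := abs_le.1 (V.lin i hli.le hir ω h0 (h1.trans (h2.trans h3)))
  have hT := V.slo i hli hir
  rw [← hgap] at hT ⊢
  unfold xiv
  rw [e1]
  obtain ⟨x, hx⟩ : ∃ x, x = ω' - ω := ⟨_, rfl⟩
  obtain ⟨y, hy⟩ : ∃ y, y = ω'' - ω' := ⟨_, rfl⟩
  obtain ⟨z, hz⟩ : ∃ z, z = w - ω'' := ⟨_, rfl⟩
  have hx0 : 0 ≤ x := by linarith
  have hy0 : 0 ≤ y := by linarith
  have hz0 : 0 ≤ z := by linarith
  have e2 : w - ω'' = z := hz.symm
  have e3 : w - ω' = z + y := by linarith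
  have e4 : w - ω = z + y + x := by linarith
  rw [e2, e3, ← hx]
  rw [e3] at a1
  rw [e2] at a2 a3
  rw [e4] at a4
  obtain ⟨s, hs⟩ : ∃ s : ℝ, s = (i : ℝ) - l := ⟨_, rfl⟩
  have hs1 : 1 ≤ s := by linarith
  have hs2 : s ≤ r := by linarith
  have e5 : (i : ℝ) - 1 - l = s - 1 := by linarith
  rw [e5, ← hs]
  have b1 : 4 * (s - 1) * (Ψ₀ + K * (z + y)) = 4 * (s - 1) * (Ψ₀ + K * z) + 4 * (s - 1) * K * y := by
    ring
  have b2 : 4 * s * (Ψ₀ + K * z) = 4 * (s - 1) * (Ψ₀ + K * z) + 4 * (Ψ₀ + K * z) := by ring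
  rw [b1, b2]
  have b3 : T l * ω' = T l * ω'' - T l * y := by rw [hy]; ring
  have b4 : T i * ω = T i * ω'' - T i * y - T i * x := by rw [hy, hx]; ring
  have b5 : -|T i| ≤ T i := neg_abs_le _
  have b6 := mul_le_mul_of_nonneg_right (le_abs_self (T i)) hx0
  have b7 : (T i + gap) * y ≤ T l * y := mul_le_mul_of_nonneg_right hT hy0
  have b8 : 4 * s * K * y ≤ (gap - 4 * K) * y := by
    refine mul_le_mul_of_nonneg_right ?_ hy0
    have := mul_le_mul_of_nonneg_right hs2 hK0.le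
    linarith
  have b9 : 0 ≤ K * y := by positivity
  have b10 : K * x ≤ gap * x := by
    refine mul_le_mul_of_nonneg_right ?_ hx0
    have : 0 ≤ 4 * (r : ℝ) * K := by positivity
    linarith
  have b11 : 4 * (s - 1) * K * y = 4 * s * K * y - 4 * (K * y) := by ring
  have b12 : (gap - 4 * K) * y = gap * y - 4 * (K * y) := by ring
  have b13 : (T i + gap) * y = T i * y + gap * y := by ring
  have b14 : K * (z + y) = K * z + K * y := by ring
  have b15 : K * (z + y + x) = K * z + K * y + K * x := by ring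
  rw [b14] at a1
  rw [b15] at a4
  linarith

/-- **The first chart of the path.** -/
theorem Vld.base (V : Vld P l r w₀ K A a w Ψ₀ B T) {i : ℕ} (hli : l < i) (hir : i ≤ r)
    {ω : ℝ} (h0 : w₀ ≤ ω) (h3 : ω ≤ w) :
    A + P i a ω ≤ P l a ω + xiv l K w Ψ₀ i ω + P i a w₀ := by
  have hK0 := V.K0
  have hr0 : (0 : ℝ) ≤ r := Nat.cast_nonneg r
  obtain ⟨gap, hgap⟩ : ∃ gap, gap = 4 * ((r : ℝ) + 1) * K := ⟨_, rfl⟩
  have hgap0 : 0 < gap := by rw [hgap]; positivity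
  have hps := V.ps
  have hil : (l : ℝ) + 1 ≤ i := by exact_mod_cast hli
  have a1 := abs_le.1 (V.lin l le_rfl (hli.le.trans hir) ω h0 h3)
  have a3 := abs_le.1 (V.lin i hli.le hir ω h0 h3)
  have a4 := abs_le.1 (V.lin i hli.le hir w₀ le_rfl (h0.trans h3))
  have a5 := V.top
  have hT := V.slo i hli hir
  rw [← hgap] at hT
  unfold xiv
  obtain ⟨y, hy⟩ : ∃ y, y = ω - w₀ := ⟨_, rfl⟩
  obtain ⟨z, hz⟩ : ∃ z, z = w - ω := ⟨_, rfl⟩
  have hy0 : 0 ≤ y := by linarith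
  have hz0 : 0 ≤ z := by linarith
  have e2 : w - ω = z := hz.symm
  have e3 : w - w₀ = z + y := by linarith
  rw [e2]
  rw [e2] at a1 a3
  rw [e3] at a4 a5
  obtain ⟨s, hs⟩ : ∃ s : ℝ, s = (i : ℝ) - l := ⟨_, rfl⟩
  have hs1 : 1 ≤ s := by linarith
  rw [← hs]
  have b0 : 0 ≤ Ψ₀ + K * z := by positivity
  have b1 : 4 * (Ψ₀ + K * z) ≤ 4 * s * (Ψ₀ + K * z) := by
    have := mul_le_mul_of_nonneg_right hs1 b0
    linarith
  have b3 : T l * w₀ = T l * ω - T l * y := by rw [hy]; ring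
  have b4 : T i * w₀ = T i * ω - T i * y := by rw [hy]; ring
  have b7 : (T i + gap) * y ≤ T l * y := mul_le_mul_of_nonneg_right hT hy0
  have b13 : (T i + gap) * y = T i * y + gap * y := by ring
  have b14 : K * (z + y) = K * z + K * y := by ring
  have b15 : 2 * (K * y) ≤ gap * y := by
    have h1 : 0 ≤ (4 * (r : ℝ) + 2) * K * y := by positivity
    have h2 : gap * y = (4 * (r : ℝ) + 2) * K * y + 2 * (K * y) := by rw [hgap]; ring
    linarith
  rw [b14] at a4 a5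
  linarith

/-- Larger exponents for larger indices. -/
theorem xiv_mono (hK : 0 < K) (hp : 0 ≤ Ψ₀) {i j : ℕ} (hij : i ≤ j) {ω : ℝ} (h : ω ≤ w) :
    xiv l K w Ψ₀ i ω ≤ xiv l K w Ψ₀ j ω := by
  unfold xiv
  have h1 : 0 ≤ Ψ₀ + K * (w - ω) := by
    have : 0 ≤ w - ω := by linarith
    positivity
  refine mul_le_mul_of_nonneg_right ?_ h1
  have : (i : ℝ) ≤ j := by exact_mod_cast hij
  linarith

theorem xiv_self (ω : ℝ) : xiv l K w Ψ₀ l ω = 0 := by
  unfold xiv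
  rw [sub_self, mul_zero, zero_mul]

theorem xiv_end (i : ℕ) : xiv l K w Ψ₀ i w = 4 * ((i : ℝ) - l) * Ψ₀ := by
  unfold xiv
  rw [sub_self, mul_zero, add_zero]

end

/-! ### The relations -/

variable {m J : ℕ}

/-- The homogeneous form of the absence of relations. -/
theorem relvH_of {F : Fam m J} {c : ℕ → Fin m} {j a w : ℕ} {g : ℕ → ℕ} {D h Y Z : ℕ} {κ : ℝ}
    {B₀ : F.Ω → Prop} {G : PtT F → ℕ → MvPolynomial (Option (Fin m)) ℝ}
    (hR : RelvY F c j a w g D h Y Z κ B₀ G) :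
    RelvH F c (j + 1) a w g (fun l => if l < j then Y else Z) D h κ B₀ G := by
  intro B' hB hP Dx Dl M y h1 h2 h3 h4 hM hy h5 h6
  refine hR B' hB hP Dx Dl M h1 h2 h3 h4 hM (fun ω hω => ⟨y ω, (hy ω hω).1, fun l hl => ?_, ?_,
    h5 ω hω⟩) h6
  · have := (hy ω hω).2 l (by omega)
    simp only [if_pos hl] at this
    exact this
  · have := (hy ω hω).2 j (by omega)
    simp only [lt_irrefl, if_false] at this
    exact this

end Pool.SHR
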