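import Pool.Agent.H87.GEN.Stg

/-!
# The size of the direction

`cb_lst`: the direction of a node is small at the coordinates of the list, if the gradients of the
labels are small and the precisions increase along the list. `cb_top`: the direction at the target.
-/

set_option autoImplicit false

namespace Pool.SHR

open Finset Real MvPolynomial
open Pool.Agent.H49.Ent Pool.Agent.H32.Dense Pool.STK Pool.KA Pool.KSAT Pool.K2S Pool.PB Pool.S6C
open Pool.GEN Pool.CHT Pool.ISO
open Pool.FLF (Fam.sub)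

variable {m J : ℕ}

/-- The derivative depends on the direction at the coordinates of the polynomial only. -/
theorem dir_congr {c : ℕ → Fin m} {i : ℕ} {v v' : Fin m → ℝ} (hv : ∀ j < i, v (c j) = v' (c j))
    {P : MvPolynomial (Option (Fin m)) ℝ} (hP : DepC c i P) (b : Option (Fin m) → ℝ) :
    eval b (dir v P) = eval b (dir v' P) := by
  have e : MvPolynomial.aeval (lnv v b) P = MvPolynomial.aeval (lnv v' b) P := by
    refine Polynomial.funext fun s => ?_
    rw [eval_lnv, eval_lnv]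
    refine hP _ _ ?_ fun k hk => ?_
    · rw [mvp_none, mvp_none]
    · rw [mvp_some, mvp_some, hv k hk]
  have h1 := der_lnv v b P 0
  have h2 := der_lnv v' b P 0
  rw [mvp_zero] at h1 h2
  rw [← h1, ← h2, e]

/-- The derivative as a sum. -/
theorem dir_eq {c : ℕ → Fin m} {i : ℕ} (hc : Set.InjOn c (Set.Iio i)) (v : Fin m → ℝ)
    {P : MvPolynomial (Option (Fin m)) ℝ} (hP : DepC c i P) (b : Option (Fin m) → ℝ) :
    eval b (dir v P) = ∑ j ∈ range i, v (c j) * eval b (pderiv (some (c j)) P) := by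
  classical
  obtain ⟨v', hv'⟩ : ∃ v' : Fin m → ℝ, v' = fun k => if ∃ j < i, c j = k then v k else 0 :=
    ⟨_, rfl⟩
  have h1 : ∀ j < i, v (c j) = v' (c j) := fun j hj => by
    rw [hv']
    exact (if_pos ⟨j, hj, rfl⟩).symm
  rw [dir_congr h1 hP b]
  unfold dir
  rw [map_sum]
  have h2 : ∀ k ∉ (range i).image c, eval b (C (v' k) * pderiv (some k) P) = 0 := by
    intro k hk
    have h3 : v' k = 0 := by
      rw [hv']
      refine if_neg ?_
      rintro ⟨j, hj, rfl⟩
      exact hk (mem_image.2 ⟨j, mem_range.2 hj, rfl⟩)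
    rw [h3, map_mul, eval_C, zero_mul]
  rw [← Finset.sum_subset (Finset.subset_univ ((range i).image c)) fun k _ hk => h2 k hk,
    Finset.sum_image fun x hx y hy h => hc (by simpa using hx) (by simpa using hy) h]
  refine Finset.sum_congr rfl fun j hj => ?_
  rw [map_mul, eval_C, h1 j (mem_range.1 hj)]

/-- A bound of the derivative. -/
theorem dir_le {c : ℕ → Fin m} {l i : ℕ} (hc : Set.InjOn c (Set.Iio i)) {v : Fin m → ℝ}
    (hv0 : ∀ j < l, v (c j) = 0) {P : MvPolynomial (Option (Fin m)) ℝ} (hP : DepC c i P)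
    {b : Option (Fin m) → ℝ} {M N : ℝ} (hM : 0 ≤ M) (hN : 0 ≤ N)
    (hv : ∀ j, l ≤ j → j < i → |v (c j)| ≤ M)
    (hb : ∀ j, l ≤ j → j < i → |eval b (pderiv (some (c j)) P)| ≤ N) :
    |eval b (dir v P)| ≤ i * (M * N) := by
  rw [dir_eq hc v hP b]
  refine (Finset.abs_sum_le_sum_abs _ _).trans ?_
  have h1 : ∀ j ∈ range i, |v (c j) * eval b (pderiv (some (c j)) P)| ≤ M * N := by
    intro j hj
    rw [abs_mul]
    rcases Nat.lt_or_ge j l with h2 | h2
    · rw [hv0 j h2, abs_zero, zero_mul]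
      exact mul_nonneg hM hN
    · exact mul_le_mul (hv j h2 (mem_range.1 hj)) (hb j h2 (mem_range.1 hj)) (abs_nonneg _) hM
  refine (Finset.sum_le_sum h1).trans (le_of_eq ?_)
  rw [Finset.sum_const, card_range, nsmul_eq_mul]

theorem nlp_le {g : ℕ → ℕ} {j i q : ℕ} (h : ∀ k, j ≤ k → k ≤ i → g k ≤ g i + q) :
    nlp g j i ≤ q := by
  unfold nlp
  have : (Finset.Icc j i).sup g ≤ g i + q := Finset.sup_le fun k hk =>
    h k (Finset.mem_Icc.1 hk).1 (Finset.mem_Icc.1 hk).2
  omega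

/-- **The size of the direction** at the coordinates of the list. -/
theorem cb_lst {F : Fam m J} {c : ℕ → Fin m} {l r D a w e y Y q : ℕ} {g : ℕ → ℕ}
    {B : F.Ω → Prop} {T : PtT F → ℕ → MvPolynomial (Option (Fin m)) ℝ}
    {TH : LnT F → ℕ → MvPolynomial (Option (Fin m)) ℝ} {v : PtT F → Fin m → ℝ}
    (hc : Set.InjOn c (Set.Iio (r + 1))) (hL : ChOK F c r (fun _ => D) a w e g B T TH)
    (hY : ∀ i, l < i → i < r → Y ≤ g i + q) (hg : ∀ j i, l ≤ j → j ≤ i → i < r → g j ≤ g i + q)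
    (hv : ∀ ω, B ω → v (ptr F J ω) (c l) = 1 ∧ ∀ j < l, v (ptr F J ω) (c j) = 0)
    (hown : ∀ ω, B ω → ∀ j, l < j → j < r →
      |eval (bt F ω) (dir (v (ptr F J ω)) (T (ptr F J ω) j)) - v (ptr F J ω) (c j)| ≤
        2 ^ y * 2 ^ Y / 2 ^ g j) : ∀ ω, B ω →
    ∀ i, l ≤ i → i < r → |v (ptr F J ω) (c i)| ≤ 2 ^ (r * (e + q + y + r + 2)) := by
  intro ω hω
  obtain ⟨Z, hZ⟩ : ∃ Z, Z = e + q + y + r + 2 := ⟨_, rfl⟩
  rw [← hZ]
  have hr2 : ∀ i ≤ r, (i : ℝ) ≤ 2 ^ r := fun i hi => by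
    have h1 : i ≤ 2 ^ r := (hi.trans (Nat.lt_two_pow_self (n := r)).le)
    exact_mod_cast h1
  obtain ⟨hv1, hv0⟩ := hv ω hω
  have key : ∀ i, l ≤ i → i < r → |v (ptr F J ω) (c i)| ≤ 2 ^ ((i - l) * Z) := by
    intro i
    induction i using Nat.strong_induction_on with
    | _ i ih =>
      intro hli hir
      rcases Nat.eq_or_lt_of_le hli with h0 | h0
      · subst h0
        rw [hv1, abs_one, Nat.sub_self, zero_mul, pow_zero]
      · have h1 := dir_le (c := c) (l := l) (i := i) (hc.mono (Set.Iio_subset_Iio (by omega))) hv0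
          (hL.depG (ptr F J ω) i) (b := bt F ω) (M := 2 ^ ((i - 1 - l) * Z)) (N := 2 ^ (e + q))
          (by positivity) (by positivity) (fun j hlj hji => (ih j hji hlj (by omega)).trans
            (pow_le_pow_right₀ (by norm_num) (Nat.mul_le_mul_right _ (by omega))))
          (fun j hlj hji => (hL.lip ω hω i hir _ (hL.self hω (by omega)) j hji).trans
            (pow_le_pow_right₀ (by norm_num) (by
              have := nlp_le (g := g) (j := j) (i := i) (q := q) fun k h2 h3 =>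
                hg k i (by omega) h3 hir
              omega)))
        have h2 := hown ω hω i h0 hir
        have h3 : (2 : ℝ) ^ y * 2 ^ Y / 2 ^ g i ≤ 2 ^ (y + q) := by
          rw [div_le_iff₀ (by positivity), ← pow_add, ← pow_add]
          have := hY i h0 hir
          exact pow_le_pow_right₀ (by norm_num) (by omega)
        have h4 := abs_sub_abs_le_abs_sub (v (ptr F J ω) (c i))
          (eval (bt F ω) (dir (v (ptr F J ω)) (T (ptr F J ω) i)))
        rw [abs_sub_comm] at h4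
        have e1 : (i - l) * Z = (i - 1 - l) * Z + Z := by
          have : i - l = i - 1 - l + 1 := by omega
          rw [this]
          ring
        have h5 : (i : ℝ) * (2 ^ ((i - 1 - l) * Z) * 2 ^ (e + q)) ≤
            2 ^ ((i - 1 - l) * Z + (Z - 1)) := by
          calc (i : ℝ) * (2 ^ ((i - 1 - l) * Z) * 2 ^ (e + q))
              ≤ 2 ^ r * (2 ^ ((i - 1 - l) * Z) * 2 ^ (e + q)) :=
                mul_le_mul_of_nonneg_right (hr2 i (by omega)) (by positivity)
            _ = 2 ^ ((i - 1 - l) * Z + (e + q + r)) := by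
                rw [pow_add 2 ((i - 1 - l) * Z), pow_add 2 (e + q) r]; ring
            _ ≤ _ := pow_le_pow_right₀ (by norm_num) (by omega)
        have h6 : (2 : ℝ) ^ (y + q) ≤ 2 ^ ((i - 1 - l) * Z + (Z - 1)) :=
          pow_le_pow_right₀ (by norm_num) (by omega)
        have h7 : (2 : ℝ) ^ ((i - l) * Z) = 2 ^ ((i - 1 - l) * Z + (Z - 1)) +
            2 ^ ((i - 1 - l) * Z + (Z - 1)) := by
          have : (i - l) * Z = (i - 1 - l) * Z + (Z - 1) + 1 := by omega
          rw [this, pow_succ]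
          ring
        rw [h7]
        linarith
  exact fun i h1 h2 =>
    (key i h1 h2).trans (pow_le_pow_right₀ (by norm_num) (Nat.mul_le_mul_right _ (by omega)))

/-- **The size of the direction** at the target. -/
theorem cb_top {F : Fam m J} {c : ℕ → Fin m} {l r D a w E y Y N M : ℕ} {g : ℕ → ℕ}
    {B : F.Ω → Prop} {T : PtT F → ℕ → MvPolynomial (Option (Fin m)) ℝ}
    {TH : LnT F → ℕ → MvPolynomial (Option (Fin m)) ℝ} {v : PtT F → Fin m → ℝ}
    (hc : Set.InjOn c (Set.Iio (r + 1))) (hT : ChOK F c (r + 1) (fun _ => D) a w E g B T TH)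
    (hYr : Y ≤ g r + N) (hgr : ∀ j, l ≤ j → j ≤ r → g j ≤ g r + N)
    (hv : ∀ ω, B ω → v (ptr F J ω) (c l) = 1 ∧ ∀ j < l, v (ptr F J ω) (c j) = 0)
    (hown : ∀ ω, B ω →
      |eval (bt F ω) (dir (v (ptr F J ω)) (T (ptr F J ω) r)) - v (ptr F J ω) (c r)| ≤
        2 ^ y * 2 ^ Y / 2 ^ g r) {ω : F.Ω} (hω : B ω)
    (hM : ∀ i, l ≤ i → i < r → |v (ptr F J ω) (c i)| ≤ 2 ^ M) :
    |v (ptr F J ω) (c r)| ≤ 2 ^ (M + E + N + y + r + 1) := by
  have hr2 : (r : ℝ) ≤ 2 ^ r := by
    have h1 : r ≤ 2 ^ r := (Nat.lt_two_pow_self (n := r)).le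
    exact_mod_cast h1
  have h1 := dir_le (c := c) (l := l) (i := r) (hc.mono (Set.Iio_subset_Iio (by omega)))
    (hv ω hω).2 (hT.depG (ptr F J ω) r) (b := bt F ω) (M := 2 ^ M) (N := 2 ^ (E + N))
    (by positivity) (by positivity) hM
    (fun j hlj hji => (hT.lip ω hω r (Nat.lt_succ_self r) _ (hT.self hω (by omega)) j hji).trans
      (pow_le_pow_right₀ (by norm_num) (by
        have := nlp_le (g := g) (j := j) (i := r) (q := N) fun k h2 h3 => hgr k (by omega) h3
        omega)))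
  have h2 := hown ω hω
  have h3 : (2 : ℝ) ^ y * 2 ^ Y / 2 ^ g r ≤ 2 ^ (y + N) := by
    rw [div_le_iff₀ (by positivity), ← pow_add, ← pow_add]
    exact pow_le_pow_right₀ (by norm_num) (by omega)
  have h4 := abs_sub_abs_le_abs_sub (v (ptr F J ω) (c r))
    (eval (bt F ω) (dir (v (ptr F J ω)) (T (ptr F J ω) r)))
  rw [abs_sub_comm] at h4
  have h5 : (r : ℝ) * (2 ^ M * 2 ^ (E + N)) ≤ 2 ^ (M + E + N + y + r) := by
    calc (r : ℝ) * (2 ^ M * 2 ^ (E + N)) ≤ 2 ^ r * (2 ^ M * 2 ^ (E + N)) :=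
          mul_le_mul_of_nonneg_right hr2 (by positivity)
      _ = 2 ^ (M + E + N + r) := by
          rw [pow_add 2 (M + E + N), pow_add 2 (M + E), pow_add 2 M E, pow_add 2 E N]
          ring
      _ ≤ _ := pow_le_pow_right₀ (by norm_num) (by omega)
  have h6 : (2 : ℝ) ^ (y + N) ≤ 2 ^ (M + E + N + y + r) :=
    pow_le_pow_right₀ (by norm_num) (by omega)
  have h7 : (2 : ℝ) ^ (M + E + N + y + r + 1) = 2 ^ (M + E + N + y + r) +
      2 ^ (M + E + N + y + r) := by
    rw [pow_succ]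
    ring
  rw [h7]
  linarith

end Pool.SHR
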