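import Pool.Agent.H87.GEN.StaE

/-!
# The static theorem in a class: the play against the static cells

`GmeH`: the strategy of the game for one set of static coordinates. `gmeH_all`: all coordinates are
static.
-/

set_option autoImplicit false

namespace Pool.STR

open MeasureTheory Set Filter Topology Pool.LEV

/-- **A strategy** for one set `S` of static coordinates and given `A`, `R`. -/
def GmeH (L : ℕ → ℝ → ℝ → ℝ) (n : ℕ) (σ : ℕ → ℝ) (a : ℝ) (W : Set ℝ) (Att : Set (ℝ × ℝ))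
    (A R : ℕ) (S : Finset ℕ) : Prop :=
  ∀ (m : ℕ → ℕ) (s : ℕ) (V : ℚ × ℚ → ℕ) (θ : ℝ), 1 ≤ m 0 → (∀ j, m j < m (j + 1)) → 0 < θ →
    ∃ τ : ℝ, 0 < τ ∧ ∀ g₀ : ℝ, 0 < g₀ → g₀ ≤ 1 / 2 ^ m R →
      ∃ (γ μ : ℝ) (F : Finset (ℚ × ℚ)), 0 ≤ γ ∧ γ ≤ g₀ ∧ 0 ≤ μ ∧ μ ≤ g₀ ∧
        (∀ x ∈ F, 0 ≤ x.1 ∧ x.1 ≤ x.2 ∧ x.2 ≤ 1 / 2) ∧
        ∀ o₀ : ℝ, 0 < o₀ → ∃ o : ℝ, 0 ≤ o ∧ o ≤ o₀ ∧ ∃ ε : ℝ, 0 < ε ∧ ∃ r₁ : ℝ, 0 < r₁ ∧
          ∃ K : Finset ℝ, ∀ r b : ℝ, 0 < r → r < r₁ → |b - a| ≤ 2 * r →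
            STAT.CellW L n S σ s A R (fun j => 1 / 2 ^ m j) θ τ γ μ F V o b r ε →
            (∀ k ∈ K, b - k * r ∈ W) →
            (∀ p₁ q₁ p₂ q₂ : ℚ, 0 < b - p₂ - q₂ * r → b - p₂ - q₂ * r ≤ b - p₁ - q₁ * r →
              b - p₁ - q₁ * r < 1 → (b - p₁ - q₁ * r, b - p₂ - q₂ * r) ∈ Att) → False

/-- The strategies for all the sets give a strategy. -/
theorem gmeG_of {L : ℕ → ℝ → ℝ → ℝ} {n : ℕ} {σ : ℕ → ℝ} {a : ℝ} {W : Set ℝ}
    {Att : Set (ℝ × ℝ)} {A R : ℕ} (hA : 1 ≤ A)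
    (h : ∀ S : Finset ℕ, S ⊆ Finset.range n → GmeH L n σ a W Att A R S) :
    GmeG L n σ a W Att :=
  ⟨A, R, hA, fun S m s V θ hS h1 h2 h3 => h S hS m s V θ h1 h2 h3⟩

end Pool.STR

namespace Pool.STA

open Finset MvPolynomial
open Pool.Agent.H49.Ent Pool.Agent.H32.Dense Pool.STK Pool.KS3 Pool.KA Pool.KSAT Pool.K2S Pool.PB
open Pool.GEN Pool.S6C Pool.STAT
open Pool.LBT (ThrOf)

variable {m n : ℕ} {S : PCl m} {e : ℕ → Fin m} {L : ℕ → ℝ → ℝ → ℝ} {θ : ℝ}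
  {P' : List (Fin m) × Fin m → ℝ → ℝ → ℝ} {ρ : ℝ → ℝ}

/-- The diagonals near a point where they are differentiable. -/
theorem diag_near {σ : ℕ → ℝ} {a B : ℝ} {N : ℕ}
    (hder : ∀ i ≤ N, HasDerivAt (fun x => L i x x) (σ i) a) (hσ : ∀ i ≤ N, 0 ≤ σ i)
    (hB : ∀ i ≤ N, σ i ≤ B) :
    ∃ d : ℝ, 0 < d ∧ ∀ i ≤ N, ∀ b : ℝ, |b - a| ≤ d → |L i b b - L i a a| ≤ (B + 1) * |b - a| := by
  have h1 := PrM.fset_small (range (N + 1)) (Q := fun i d => ∀ b : ℝ, |b - a| ≤ d →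
    |L i b b - L i a a| ≤ (B + 1) * |b - a|) fun i hi => by
      have hi' : i ≤ N := Nat.lt_succ_iff.1 (mem_range.1 hi)
      have h2 := ((hder i hi').isLittleO).def one_pos
      obtain ⟨d, hd0, hd⟩ := Metric.eventually_nhds_iff.1 h2
      refine ⟨d / 2, half_pos hd0, fun e' he' hed b hb => ?_⟩
      have h3 := hd (y := b) (by rw [Real.dist_eq]; linarith)
      rw [Real.norm_eq_abs, Real.norm_eq_abs, smul_eq_mul, one_mul] at h3
      have h4 : |(b - a) * σ i| ≤ B * |b - a| := by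
        rw [abs_mul, mul_comm, abs_of_nonneg (hσ i hi')]
        exact mul_le_mul_of_nonneg_right (hB i hi') (abs_nonneg _)
      have e1 : L i b b - L i a a = (L i b b - L i a a - (b - a) * σ i) + (b - a) * σ i := by ring
      rw [e1]
      refine (abs_add_le _ _).trans ?_
      linarith
  obtain ⟨d, hd, h1⟩ := h1
  exact ⟨d, hd, fun i hi => h1 d hd le_rfl i (mem_range.2 (Nat.lt_succ_of_le hi))⟩

/-- **The play**, all coordinates static. -/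
theorem gmeH_all (H : Ctx S e n L θ P' ρ) {σ : ℕ → ℝ} {a : ℝ} {W : Set ℝ} {Att : Set (ℝ × ℝ)}
    (hE : ExIn S e n L W) (hLab : LabIn S e n L σ a W Att) (ha0 : 0 < a)
    (hder : ∀ i ≤ n + 1, HasDerivAt (fun x => L i x x) (σ i) a) (hσ0 : σ 0 = 1)
    (hσ : ∀ i, 1 ≤ σ i) (hlt : ∀ i ≤ n + 1, L i a a < 1) {Q h : ℝ} (hQ : L (n + 1) a a = Q)
    (hρ : DifferentiableAt ℝ ρ Q) (hh : 0 < h) (hdr : deriv ρ Q ≤ 1 - h) {A R : ℕ}
    (hA : 1 ≤ A) : STR.GmeH L (n + 1) σ a W Att A R (range (n + 1)) := by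
  classical
  intro m' s V θg hm1 hms _
  obtain ⟨C₀, hC₀, hT⟩ := H.tm
  have hpow0 : ∀ m : ℕ, (0 : ℝ) < 1 / 2 ^ m := fun m => by positivity
  have hanti : ∀ m m' : ℕ, m ≤ m' → (1 : ℝ) / 2 ^ m' ≤ 1 / 2 ^ m := fun m m' h =>
    one_div_le_one_div_of_le (by positivity) (pow_le_pow_right₀ (by norm_num) h)
  have hmmono : StrictMono m' := strictMono_nat_of_lt_succ hms
  obtain ⟨k₀, hk₀⟩ : ∃ k₀ : ℝ, k₀ = 1 / 2 ^ m' 0 := ⟨_, rfl⟩
  have hk00 : 0 < k₀ := by rw [hk₀]; exact hpow0 _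
  have hk02 : k₀ ≤ 1 / 2 := by
    rw [hk₀]
    have := hanti 1 (m' 0) hm1
    rwa [pow_one] at this
  have ha1 : a < 1 := lt_of_le_of_lt (by rw [H.zero]) (hlt 0 (Nat.zero_le _))
  obtain ⟨K, hLab⟩ := hLab s k₀ hk00 hk02
  have hh1 : h ≤ 1 := by
    have h1 : 0 ≤ deriv ρ Q := H.rate.mono.deriv_nonneg
    linarith
  obtain ⟨c, hG⟩ := sta_abs (n + 1) K 1 σ 1 4 h (Nat.succ_pos n) hσ0 hσ le_rfl (by norm_num) hh hh1
  refine ⟨1, one_pos, fun g₀ hg hgR => ?_⟩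
  obtain ⟨γ, hγ1, hγ2⟩ := exists_rat_btwn (show g₀ / 2 < g₀ by linarith)
  have hγ0 : (0 : ℝ) < γ := by linarith
  have hγk : (γ : ℝ) ≤ k₀ := by
    rw [hk₀]
    exact hγ2.le.trans (hgR.trans (hanti _ _ (hmmono.monotone (Nat.zero_le R))))
  have hγ12 : (γ : ℝ) ≤ 1 / 2 := hγk.trans hk02
  have hθa : 0 < θ * a := mul_pos H.θ_pos ha0
  obtain ⟨κ₀, hκ₀, hLab⟩ := hLab c.M c.U γ (θ * a / 8) hγ0 hγk (by positivity)
  refine ⟨γ, 0, ∅, hγ0.le, hγ2.le, le_rfl, hg.le, fun x hx => absurd hx (Finset.notMem_empty x),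
    fun o₀ ho₀ => ⟨0, le_rfl, ho₀.le, ?_⟩⟩
  have hM0 : (0 : ℝ) ≤ c.M := Nat.cast_nonneg _
  have hU0 : (0 : ℝ) ≤ c.U := Nat.cast_nonneg _
  have hn0 : (0 : ℝ) ≤ n := Nat.cast_nonneg _
  obtain ⟨κm, hκm⟩ : ∃ κm, κm = min c.κ 1 := ⟨_, rfl⟩
  have hκ0 : 0 < κm := by rw [hκm]; exact lt_min c.κ_pos one_pos
  have hκ1 : κm ≤ 1 := by rw [hκm]; exact min_le_right _ _
  -- the loss of precision
  obtain ⟨κ, hκ⟩ : ∃ κ, κ = min κ₀ (κm * γ / (16 * (n + 1) * (c.M + 2))) := ⟨_, rfl⟩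
  have hκ00 : 0 < κ := by rw [hκ]; exact lt_min hκ₀ (by positivity)
  have hκκ : κ ≤ κm * γ / (16 * (n + 1) * (c.M + 2)) := by rw [hκ]; exact min_le_right _ _
  obtain ⟨εL, hεL, rL, hrL, K₀, hLab⟩ := hLab κ hκ00 (by rw [hκ]; exact min_le_left _ _)
  -- the bound of the slopes
  obtain ⟨B, hB, hB1⟩ : ∃ B : ℝ, (∀ i ≤ n + 1, σ i ≤ B) ∧ 1 ≤ B := by
    refine ⟨∑ i ∈ range (n + 2), σ i, fun i hi => Finset.single_le_sum (f := σ)
      (fun i _ => zero_le_one.trans (hσ i)) (mem_range.2 (by omega)), ?_⟩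
    exact (hσ 0).trans (Finset.single_le_sum (f := σ)
      (fun i _ => zero_le_one.trans (hσ i)) (mem_range.2 (by omega)))
  obtain ⟨d, hd, hdg⟩ := diag_near hder (fun i _ => zero_le_one.trans (hσ i)) hB
  obtain ⟨lam, hlam, hlam'⟩ : ∃ lam : ℝ, 0 < lam ∧ ∀ i ≤ n + 1, L i a a + lam ≤ 1 := by
    obtain ⟨x, hx, h1⟩ := PrM.fset_small (range (n + 2)) (Q := fun i x => L i a a + x ≤ 1)
      fun i hi => ⟨1 - L i a a, by
        have := hlt i (Nat.lt_succ_iff.1 (mem_range.1 hi))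
        linarith, fun e' _ he' => by linarith⟩
    exact ⟨x, hx, fun i hi => h1 x hx le_rfl i (mem_range.2 (by omega))⟩
  -- the rate
  obtain ⟨Cr, hCr⟩ : ∃ Cr : ℝ, Cr = 2 * (B + 1) + B + 1 + (c.U + 1) + 1 := ⟨_, rfl⟩
  have hCr0 : 0 < Cr := by rw [hCr]; positivity
  have hQ0 : 0 < Q := by
    rw [← hQ]
    exact ha0.trans_le (H.ge _ ha0.le le_rfl ha1.le)
  have hQ1 : Q < 1 := by
    rw [← hQ]
    exact hlt _ le_rfl
  obtain ⟨r₀, hr₀, hrate⟩ := rate_fam (S := S) (fun τ J F A hA => (hT (max τ 1) J F A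
    (lt_of_lt_of_le one_pos (le_max_right _ _)) (S.mono (le_max_left _ _) hA)).1) (e (n + 1))
    (ρ := ρ) (fun Q' h0 h1 h' hh' => H.rate.num Q' h0 h1 h' hh') hQ0 hQ1 hρ hh.le hdr
    (e := γ / (4 * (c.M + 2) * Cr)) (by positivity)
  -- the tolerance
  obtain ⟨ε, hε⟩ : ∃ ε, ε = min εL (κm * γ / (16 * (n + 1) * (c.M + 2))) := ⟨_, rfl⟩
  have hε0 : 0 < ε := by rw [hε]; exact lt_min hεL (by positivity)
  have hεL' : ε ≤ εL := by rw [hε]; exact min_le_left _ _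
  have hε' : ε ≤ κm * γ / (16 * (n + 1) * (c.M + 2)) := by rw [hε]; exact min_le_right _ _
  obtain ⟨X, hX⟩ : ∃ X : ℝ, X = 2 * (B + 1) + B * (c.M + c.U + 2) + 1 := ⟨_, rfl⟩
  have hX0 : 0 < X := by rw [hX]; positivity
  have hC₆ := c.C₆_nonneg
  obtain ⟨r₁, hr₁⟩ : ∃ r₁, r₁ = min (min rL (min (a / 4) (d / 2)))
      (min (lam / (2 * X)) (min (θ * a / (16 * (1 + 2 * c.C₆))) (r₀ / Cr))) := ⟨_, rfl⟩
  refine ⟨ε, hε0, r₁, ?_, K₀ ∪ (range (c.M + 1)).image (fun k : ℕ => -((k : ℝ) * (γ / (c.M + 2)))),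
    fun r b hr hrr hba C hK hAt => ?_⟩
  · rw [hr₁]
    exact lt_min (lt_min hrL (lt_min (by linarith) (by linarith)))
      (lt_min (by positivity) (lt_min (by positivity) (by positivity)))
  have hrL' : r < rL := hrr.trans_le (by
    rw [hr₁]; exact (min_le_left _ _).trans (min_le_left _ _))
  have hra : r < a / 4 := hrr.trans_le (by
    rw [hr₁]; exact (min_le_left _ _).trans ((min_le_right _ _).trans (min_le_left _ _)))
  have hrd : r < d / 2 := hrr.trans_le (by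
    rw [hr₁]; exact (min_le_left _ _).trans ((min_le_right _ _).trans (min_le_right _ _)))
  have hrX : X * r ≤ lam / 2 := by
    have : r < lam / (2 * X) := hrr.trans_le (by
      rw [hr₁]; exact (min_le_right _ _).trans (min_le_left _ _))
    rw [lt_div_iff₀ (by positivity)] at this
    linarith
  have hrθ : (1 + 2 * c.C₆) * r ≤ θ * a / 16 := by
    have : r < θ * a / (16 * (1 + 2 * c.C₆)) := hrr.trans_le (by
      rw [hr₁]; exact (min_le_right _ _).trans ((min_le_right _ _).trans (min_le_left _ _)))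
    rw [lt_div_iff₀ (by positivity)] at this
    linarith
  have hrr₀ : Cr * r ≤ r₀ := by
    have : r < r₀ / Cr := hrr.trans_le (by
      rw [hr₁]; exact (min_le_right _ _).trans ((min_le_right _ _).trans (min_le_right _ _)))
    rw [lt_div_iff₀ hCr0] at this
    linarith
  obtain ⟨hb1, hb2⟩ := abs_le.1 hba
  have hb : 0 < b := by linarith
  -- the step
  obtain ⟨ζ, hζ⟩ : ∃ ζ, ζ = stp γ r c.M := ⟨_, rfl⟩
  have hζ0 : 0 < ζ := by
    rw [hζ]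
    unfold stp
    positivity
  have hζM : ((c.M : ℝ) + 2) * ζ = γ * r := by
    rw [hζ]
    unfold stp
    field_simp
  have hζr : ζ ≤ r := by
    have h1 : 2 * ζ ≤ ((c.M : ℝ) + 2) * ζ := mul_le_mul_of_nonneg_right (by linarith) hζ0.le
    have h2 : γ * r ≤ 1 / 2 * r := mul_le_mul_of_nonneg_right hγ12 hr.le
    linarith
  have hMζ : (c.M : ℝ) * ζ ≤ r := by
    have h1 : (c.M : ℝ) * ζ ≤ ((c.M : ℝ) + 2) * ζ := mul_le_mul_of_nonneg_right (by linarith) hζ0.le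
    have h2 : γ * r ≤ 1 / 2 * r := mul_le_mul_of_nonneg_right hγ12 hr.le
    linarith
  have hκγ : ∀ x : ℝ, x ≤ κm * γ / (16 * (n + 1) * (c.M + 2)) →
      x * r ≤ κm * ζ / (16 * (n + 1)) := by
    intro x hx
    have h1 := mul_le_mul_of_nonneg_right hx hr.le
    refine h1.trans (le_of_eq ?_)
    have h2 : ζ = γ * r / (c.M + 2) := hζ
    rw [h2]
    field_simp
  have hεr : ε * r ≤ κm * ζ / (16 * (n + 1)) := hκγ ε hε'
  have hκζ : κm * ζ ≤ ζ := mul_le_of_le_one_left hζ0.le hκ1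
  have hκζ0 : 0 < κm * ζ := mul_pos hκ0 hζ0
  have hq16 : κm * ζ / (16 * (n + 1)) ≤ κm * ζ / 16 := by
    refine div_le_div_of_nonneg_left hκζ0.le (by norm_num) ?_
    linarith
  -- the cell
  have hk₀' : (fun j => (1 : ℝ) / 2 ^ m' j) 0 = k₀ := hk₀.symm
  have hAk : k₀ * r ≤ (A * (fun j => (1 : ℝ) / 2 ^ m' j) 0 + 0) * r := by
    rw [hk₀', add_zero]
    have hA1 : (1 : ℝ) ≤ A := by exact_mod_cast hA
    refine mul_le_mul_of_nonneg_right ?_ hr.le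
    nlinarith
  have hcell : ∀ ε' : ℝ, ε ≤ ε' → SCell L n σ s k₀ γ b r ε' := by
    intro ε' hεε
    have h1 : ε * r ≤ ε' * r := mul_le_mul_of_nonneg_right hεε hr.le
    refine ⟨hAk.trans C.lo, ?_, C.one, fun i hi a' w' g1 g2 g3 => ?_, fun i hi v g1 g2 => ?_⟩
    · have := C.hi
      rw [add_zero, add_zero] at this
      exact this
    · refine (C.stat i ?_ a' w' (by linarith) g2 (by rw [add_zero]; exact g3)).trans h1
      rcases Nat.lt_or_ge i (n + 1) with h2 | h2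
      · exact Or.inl (mem_range.2 h2)
      · exact Or.inr (by omega)
    · have := C.sl i hi v g1 g2
      linarith
  have hGnr : Gnr W Att K₀ b r :=
    ⟨fun k hk => hK k (mem_union_left _ hk), hAt⟩
  -- the number `δ`
  obtain ⟨δ, hδ⟩ : ∃ δ, δ = κ * r := ⟨_, rfl⟩
  have hδ0 : 0 < δ := by
    rw [hδ]
    positivity
  have hδ3 : δ ≤ κm * ζ / (16 * (n + 1)) := by
    rw [hδ]
    exact hκγ κ hκκ
  have hδ2 : δ ≤ b := by linarith
  obtain ⟨K₁, Lc, hK₁, hLc, hlab⟩ := hLab r b hr hrL' hba (hcell εL hεL') hGnr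
  rw [← hζ, ← hδ] at hlab
  obtain ⟨η, hη⟩ : ∃ η, η = min (lam / 2) (min (θ * a / 16) r) := ⟨_, rfl⟩
  have hη0 : 0 < η := by
    rw [hη]
    exact lt_min (by positivity) (lt_min (by positivity) hr)
  have e1 : η ≤ lam / 2 := by rw [hη]; exact min_le_left _ _
  have e2 : η ≤ θ * a / 16 := by rw [hη]; exact (min_le_right _ _).trans (min_le_left _ _)
  have e3 : η ≤ r := by rw [hη]; exact (min_le_right _ _).trans (min_le_right _ _)
  have hdg' : ∀ i ≤ n + 1, |L i b b - L i a a| ≤ (B + 1) * (2 * r) := fun i hi =>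
    (hdg i hi b (hba.trans (by linarith))).trans
      (mul_le_mul_of_nonneg_left hba (by positivity))
  have h16 : ((n : ℝ) + 1) * (κm * ζ / (16 * (n + 1))) = κm * ζ / 16 := by
    field_simp
  obtain ⟨τr, hτr, hrt⟩ := hrate (Cr * r) (by positivity) hrr₀
  refine cell_false H hE hh hh1 hG hσ0 hσ hB (s := s) (k₀ := k₀) (ε := ε) (b := b) (r := r)
    (γ := γ) (ζ := ζ) hr hγ0 hγk hζ (hcell ε le_rfl) hb hε0.le (fun k hk => ?_) hδ0 hδ2
    (by linarith) ?_ (by linarith) ?_ hη0 (fun i hi => ?_) (ε₀ := θ * a / 8) (ε₁ := θ * a / 4)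
    (by positivity) ?_ ?_ (Q := Q) (ρ' := Cr * r) ?_ ⟨τr, hτr, ?_⟩ hK₁ hLc hlab
  · have h1 := hK (-((k : ℝ) * (γ / (c.M + 2)))) (mem_union_right _
      (mem_image_of_mem _ (mem_range.2 (by omega))))
    have h2 : b - -((k : ℝ) * (γ / (c.M + 2))) * r = b + k * ζ := by
      rw [hζ]
      unfold stp
      ring
    rw [h2] at h1
    exact h1
  · rw [← hκm]
    have := mul_le_mul_of_nonneg_left hεr (by positivity : (0 : ℝ) ≤ n + 1)
    linarith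
  · rw [← hκm]
    have := mul_le_mul_of_nonneg_left hδ3 (by positivity : (0 : ℝ) ≤ n + 1)
    linarith
  · have h1 := (abs_le.1 (hdg' i hi)).2
    have h2 := hlam' i hi
    have h3 : B * (((c.M : ℝ) + c.U + 2) * ζ) ≤ B * (((c.M : ℝ) + c.U + 2) * r) :=
      mul_le_mul_of_nonneg_left (mul_le_mul_of_nonneg_left hζr (by positivity)) (by linarith)
    have h4 : X * r = (B + 1) * (2 * r) + B * (((c.M : ℝ) + c.U + 2) * r) + r := by
      rw [hX]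
      ring
    linarith
  · have h1 : (1 + 2 * c.C₆) * ζ ≤ (1 + 2 * c.C₆) * r :=
      mul_le_mul_of_nonneg_left hζr (by positivity)
    linarith
  · have h1 : θ * (a / 2) ≤ θ * b := mul_le_mul_of_nonneg_left (by linarith) H.θ_pos.le
    have h2 : θ * (a / 2) = θ * a / 2 := by ring
    linarith
  · have h1 := hdg' (n + 1) le_rfl
    rw [hQ] at h1
    have h2 : B * (c.M * ζ) ≤ B * r := mul_le_mul_of_nonneg_left hMζ (by linarith)
    have h3 : ((c.U : ℝ) + 1) * ζ ≤ (c.U + 1) * r := mul_le_mul_of_nonneg_left hζr (by positivity)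
    have h4 : Cr * r = (B + 1) * (2 * r) + B * r + r + (c.U + 1) * r + r := by
      rw [hCr]
      ring
    have h5 : δ ≤ r := by linarith
    linarith
  · refine Bas.mono 0 hrt ?_
    intro J _ F A' h1 B' hB' hP P R' k1 k2 k3
    refine (h1 B' hB' hP P R' k1 k2 k3).trans (le_of_eq ?_)
    have h2 : ζ = γ * r / (c.M + 2) := hζ
    rw [h2]
    field_simp

end Pool.STA
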