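import Pool.Agent.H87.GEN.Tgc
import Pool.Agent.H87.GEN.Cbl
import Pool.Agent.H77.Z4.Mvt

/-!
# The data on the events of a class

`TgC`: the node of a request can be reached from the precise nodes with a direction. `tgc_lst`: the
nodes of finitely many requests, with one direction, on one event. `VdM`: the requests. `mevt_of`:
the data `MEvt` on the events of a class, from a node with a direction which is closed at `w₁`.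
-/

set_option autoImplicit false

namespace Pool.SHR

open Finset Real MvPolynomial
open Pool.Agent.H49.Ent Pool.Agent.H32.Dense Pool.STK Pool.KA Pool.KSAT Pool.K2S Pool.PB Pool.S6C
open Pool.GEN Pool.CHT Pool.ISO Pool.Z4
open Pool.FLF (Fam.sub)
open Pool.LEV (Law)
open Pool.Z3 (share_ex Nod NodQ NodS bas_all ShY)

variable {m J : ℕ}

/-! ### Finitely many steps -/

/-- Finitely many properties on one event. -/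
theorem bas_lst {α : Type} {S : PCl m} {Φ Φ' : α → Stat m} : ∀ (L : List α)
    (_ : ∀ x ∈ L, ∀ κ : ℝ, 0 < κ → ∃ J₀ : ℕ, ∀ J : ℕ, J₀ ≤ J →
      ∀ (F : Fam m J) (B B' : F.Ω → Prop), Φ x J F B → Sub B' B → κ * Pe F.p B ≤ Pe F.p B' →
      Φ' x J F B')
    (_ : ∀ x ∈ L, ∃ K : ℝ, 0 < K ∧ Bas S (fun J F A => ∃ B : F.Ω → Prop, Sub B A ∧
      Pe F.p A ≤ K * Pe F.p B ∧ Φ x J F B)),
    ∃ K : ℝ, 0 < K ∧ Bas S (fun J F A => ∃ B : F.Ω → Prop, Sub B A ∧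
      Pe F.p A ≤ K * Pe F.p B ∧ ∀ x ∈ L, Φ' x J F B)
  | [], _, _ => ⟨1, one_pos, 1, one_pos, 0, fun J _ F A _ => ⟨A, fun _ h => h,
      by rw [one_mul], fun x hx => absurd hx List.not_mem_nil⟩⟩
  | y :: L, hΦ, h => by
    obtain ⟨K, hK, h1⟩ := bas_lst L (fun x hx => hΦ x (List.mem_cons_of_mem _ hx))
      (fun x hx => h x (List.mem_cons_of_mem _ hx))
    obtain ⟨K', hK', h2⟩ := h y List.mem_cons_self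
    obtain ⟨J₀, hJ₀⟩ := hΦ y List.mem_cons_self (1 / K) (by positivity)
    refine ⟨K' * K, mul_pos hK' hK, ?_⟩
    refine Bas.mono J₀ (bas_then hK' h2 h1) ?_
    rintro J hJ F A ⟨B, k1, k2, k3, B', k4, k5, k6⟩
    refine ⟨B', fun ω hω => k1 ω (k4 ω hω), ?_, fun x hx => ?_⟩
    · calc Pe F.p A ≤ K' * Pe F.p B := k2
        _ ≤ K' * (K * Pe F.p B') := mul_le_mul_of_nonneg_left k5 hK'.le
        _ = _ := by ring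
    · rcases List.mem_cons.1 hx with rfl | hx
      · refine hJ₀ J hJ F B B' k3 k4 ?_
        rw [one_div, inv_mul_le_iff₀ hK]
        exact k5
      · exact k6 x hx

/-- Finitely many refinements. -/
theorem rfn_lst {α : Type} {Γ : ∀ J, Fam m J → Type}
    {P : ∀ (J : ℕ) (F : Fam m J), (F.Ω → Prop) → Γ J F → Prop}
    {Q : α → ∀ (J : ℕ) (F : Fam m J), (F.Ω → Prop) → Γ J F → (F.Ω → Prop) → Prop} {τ : ℝ}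
    (hQ : ∀ (a : α) (J : ℕ) (F : Fam m J) (B₀ : F.Ω → Prop) (x : Γ J F) (B B' : F.Ω → Prop),
      Q a J F B₀ x B → Sub B' B → Q a J F B₀ x B') : ∀ (L : List α)
    (_ : ∀ a ∈ L, ∀ κ₁ : ℝ, 0 < κ₁ → ∃ κ₂ : ℝ, 0 < κ₂ ∧ ∃ J₀ : ℕ, ∀ J : ℕ, J₀ ≤ J →
      ∀ (F : Fam m J) (B₀ : F.Ω → Prop) (x : Γ J F), P J F B₀ x → ∀ B' : F.Ω → Prop, Sub B' B₀ →
      κ₁ * Pe F.p B₀ ≤ Pe F.p B' → 0 < Pe F.p B' →
      (∀ h : 0 < Pe F.p B', (Fam.sub F B' h).Tm (τ * J)) →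
      ∃ B'' : F.Ω → Prop, Sub B'' B' ∧ κ₂ * Pe F.p B' ≤ Pe F.p B'' ∧ Q a J F B₀ x B''),
    ∀ κ₁ : ℝ, 0 < κ₁ → ∃ κ₂ : ℝ, 0 < κ₂ ∧ ∃ J₀ : ℕ, ∀ J : ℕ, J₀ ≤ J →
      ∀ (F : Fam m J) (B₀ : F.Ω → Prop) (x : Γ J F), P J F B₀ x → ∀ B' : F.Ω → Prop, Sub B' B₀ →
      κ₁ * Pe F.p B₀ ≤ Pe F.p B' → 0 < Pe F.p B' →
      (∀ B₁ : F.Ω → Prop, Sub B₁ B' → κ₂ * Pe F.p B₀ ≤ Pe F.p B₁ → ∀ h : 0 < Pe F.p B₁,
        (Fam.sub F B₁ h).Tm (τ * J)) →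
      ∃ B'' : F.Ω → Prop, Sub B'' B' ∧ κ₂ * Pe F.p B₀ ≤ Pe F.p B'' ∧ ∀ a ∈ L, Q a J F B₀ x B''
  | [], _ => fun κ₁ hκ₁ => ⟨κ₁, hκ₁, 0, fun J _ F B₀ x _ B' _ h2 _ _ => ⟨B', fun _ h => h, h2,
      fun a ha => absurd ha List.not_mem_nil⟩⟩
  | y :: L, h => by
    intro κ₁ hκ₁
    obtain ⟨κa, hκa, J₁, h1⟩ := h y List.mem_cons_self κ₁ hκ₁
    obtain ⟨κb, hκb, J₂, h2⟩ := rfn_lst hQ L (fun a ha => h a (List.mem_cons_of_mem _ ha))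
      (κ₁ * κa) (mul_pos hκ₁ hκa)
    refine ⟨min κ₁ κb, lt_min hκ₁ hκb, max J₁ J₂, fun J hJ F B₀ x hP B' hB' hκ hpos hTm => ?_⟩
    have hB0 : 0 ≤ Pe F.p B₀ := Pe_nonneg F.isLaw B₀
    have hm1 : min κ₁ κb * Pe F.p B₀ ≤ κ₁ * Pe F.p B₀ :=
      mul_le_mul_of_nonneg_right (min_le_left _ _) hB0
    have hm2 : min κ₁ κb * Pe F.p B₀ ≤ κb * Pe F.p B₀ :=
      mul_le_mul_of_nonneg_right (min_le_right _ _) hB0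
    obtain ⟨B₁, k1, k2, k3⟩ := h1 J ((le_max_left _ _).trans hJ) F B₀ x hP B' hB' hκ hpos
      (hTm B' (fun _ h => h) (hm1.trans hκ))
    have hpos1 : 0 < Pe F.p B₁ := (mul_pos hκa hpos).trans_le k2
    obtain ⟨B₂, l1, l2, l3⟩ := h2 J ((le_max_right _ _).trans hJ) F B₀ x hP B₁
      (fun ω h => hB' ω (k1 ω h)) (by
        calc κ₁ * κa * Pe F.p B₀ = κa * (κ₁ * Pe F.p B₀) := by ring
          _ ≤ κa * Pe F.p B' := mul_le_mul_of_nonneg_left hκ hκa.le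
          _ ≤ _ := k2) hpos1 (fun B₂ m1 m2 => hTm B₂ (fun ω h => k1 ω (m1 ω h)) (hm2.trans m2))
    refine ⟨B₂, fun ω h => k1 ω (l1 ω h), hm2.trans l2, fun a ha => ?_⟩
    rcases List.mem_cons.1 ha with rfl | ha
    · exact hQ _ J F B₀ x B₁ B₂ k3 l1
    · exact l3 a ha

/-- A bound for finitely many numbers. -/
theorem lst_le {α : Type} (f : α → ℕ) (L : List α) : ∃ x : ℕ, ∀ a ∈ L, f a ≤ x := by
  induction L with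
  | nil => exact ⟨0, fun a ha => absurd ha List.not_mem_nil⟩
  | cons b L ih =>
    obtain ⟨x, h1⟩ := ih
    refine ⟨max x (f b), fun a ha => ?_⟩
    rcases List.mem_cons.1 ha with rfl | ha
    · exact le_max_right _ _
    · exact (h1 a ha).trans (le_max_left _ _)

/-! ### The requests -/

/-- The node of a request can be reached from the precise nodes with a direction. -/
def TgC (S : PCl m) (c : ℕ → Fin m) (r l : ℕ) (β : ℕ → ℝ → ℝ → ℝ) (e E ϱ a₀ w₀ w₁ Λ : ℝ)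
    (Db : ℕ) (e' E' ϱ' : ℝ) (Dt : ℕ) (q : Rq) (d : ℕ → ℝ) (ψ : ℝ) : Prop :=
  ∃ (D₀ : ℕ) (τ₀ : ℝ) (Φ Φ' : Stat m), 0 < τ₀ ∧
    (∀ κ : ℝ, 0 < κ → ∃ J₀ : ℕ, ∀ J : ℕ, J₀ ≤ J → ∀ (F : Fam m J) (B B' : F.Ω → Prop),
      Φ J F B → Sub B' B → κ * Pe F.p B ≤ Pe F.p B' → Φ' J F B') ∧
    (∃ K : ℝ, 0 < K ∧ Bas S (fun J F A => ∃ B : F.Ω → Prop, Sub B A ∧
      Pe F.p A ≤ K * Pe F.p B ∧ Φ J F B)) ∧
    ∀ (Drb : ℕ) (ηb θb ψb : ℝ) (d₀ : ℕ → ℝ), D₀ ≤ Drb → ηb ≤ τ₀ → 0 < θb → θb ≤ τ₀ → 0 < ψb →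
      (∀ j ≤ r, 0 ≤ d₀ j ∧ d₀ j ≤ τ₀) → ∀ κ₁ : ℝ, 0 < κ₁ → ∃ κ₂ : ℝ, 0 < κ₂ ∧ ∃ J₀ : ℕ,
      ∀ J : ℕ, J₀ ≤ J → ∀ (F : Fam m J) (B₀ : F.Ω → Prop) (v : PtT F → Fin m → ℝ)
        (v' : LnT F → Fin m → ℝ), Φ' J F B₀ →
        BsV c r l r Db Drb (fun j => β j a₀ w₀) d₀ a₀ w₀ w₁ e E ηb ϱ θb Λ ψb J F B₀ v v' →
        ∀ B' : F.Ω → Prop, Sub B' B₀ → κ₁ * Pe F.p B₀ ≤ Pe F.p B' → 0 < Pe F.p B' →
        (∀ h : 0 < Pe F.p B', (Fam.sub F B' h).Tm (τ₀ * J)) →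
        ∃ B'' : F.Ω → Prop, Sub B'' B' ∧ κ₂ * Pe F.p B' ≤ Pe F.p B'' ∧
          OutV c r l Dt q.Dr (fun j => β j q.a q.w) d q.a q.w e' E' q.σ q.η ϱ' q.lam ψ J F B₀ v
            B''

/-- A request, its node and its data. -/
structure Rx (S : PCl m) (c : ℕ → Fin m) (r l : ℕ) (β : ℕ → ℝ → ℝ → ℝ) (e E ϱ a₀ w₀ w₁ Λ : ℝ)
    (Db : ℕ) where
  /-- the request -/
  q : Rq
  /-- the gradients of the list -/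
  e' : ℝ
  /-- the gradients of the target -/
  E' : ℝ
  /-- the room -/
  ϱ' : ℝ
  /-- the degree -/
  Dt : ℕ
  /-- the losses of the sides -/
  d : ℕ → ℝ
  /-- the exponent of the events of the relations -/
  ψ : ℝ
  ψ0 : 0 < ψ
  tgc : TgC S c r l β e E ϱ a₀ w₀ w₁ Λ Db e' E' ϱ' Dt q d ψ

/-- **The nodes of finitely many requests**, with one direction, on one event. -/
theorem tgc_lst {S : PCl m} {c : ℕ → Fin m} {r l : ℕ} {β : ℕ → ℝ → ℝ → ℝ}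
    {e E ϱ a₀ w₀ w₁ Λ : ℝ} {Db : ℕ} (hS : TmH S) (hϱ : 0 < ϱ)
    (hP : ∀ (Dr : ℕ) (η σ θ : ℝ), 0 < η → 0 < σ → σ ≤ ϱ → 0 < θ →
      ∃ (K₁ : ℝ) (d : ℕ → ℝ) (ψ : ℝ), 0 < K₁ ∧ 0 < ψ ∧ (∀ j ≤ r, 0 < d j ∧ d j ≤ σ) ∧
        Bas S (fun J F A => ∃ B : F.Ω → Prop, Sub B A ∧ Pe F.p A ≤ K₁ * Pe F.p B ∧
          PstS c r l r Db Dr (fun j => β j a₀ w₀) d a₀ w₀ w₁ e E η ϱ θ Λ ψ J F B))
    (L : List (Rx S c r l β e E ϱ a₀ w₀ w₁ Λ Db)) :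
    ∃ K : ℝ, 0 < K ∧ Bas S (fun J F A => ∃ B : F.Ω → Prop, Sub B A ∧
      Pe F.p A ≤ K * Pe F.p B ∧ ∃ (v : PtT F → Fin m → ℝ) (v' : LnT F → Fin m → ℝ),
      (∀ ω, B ω → v (ptr F J ω) = v' (slam F ⌊w₁ * J⌋₊ ω)) ∧
      (∀ ω, B ω → v (ptr F J ω) (c l) = 1 ∧ ∀ j < l, v (ptr F J ω) (c j) = 0) ∧
      ∀ x ∈ L, OutV c r l x.Dt x.q.Dr (fun j => β j x.q.a x.q.w) x.d x.q.a x.q.w x.e' x.E' x.q.σ
        x.q.η x.ϱ' x.q.lam (x.ψ / 2) J F B v B) := by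
  classical
  have hx : ∀ x : Rx S c r l β e E ϱ a₀ w₀ w₁ Λ Db,
    TgC S c r l β e E ϱ a₀ w₀ w₁ Λ Db x.e' x.E' x.ϱ' x.Dt x.q x.d x.ψ := fun x => x.tgc
  unfold TgC at hx
  choose D₀ τ₀ Φ Φ' hτ₀ hst hbas href using hx
  obtain ⟨Dm, hDm⟩ := lst_le D₀ L
  obtain ⟨τ, hτ, hτm⟩ := lst_pos hτ₀ L
  obtain ⟨Kc, hKc, hBc⟩ := bas_lst (Φ := Φ) (Φ' := Φ') L (fun x _ κ hκ => hst x κ hκ)
    fun x _ => hbas x
  obtain ⟨K₁, d₀, ψb, hK₁, hψb, hd₀, hB₀⟩ := hP Dm τ (min τ ϱ) τ hτ (lt_min hτ hϱ)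
    (min_le_right _ _) hτ
  obtain ⟨κ₂, hκ₂, J₀, hrf⟩ := rfn_lst (α := Rx S c r l β e E ϱ a₀ w₀ w₁ Λ Db)
    (Γ := fun J F => (PtT F → Fin m → ℝ) × (LnT F → Fin m → ℝ))
    (P := fun J F B x => (∀ y ∈ L, Φ' y J F B) ∧ BsV c r l r Db Dm (fun j => β j a₀ w₀) d₀ a₀ w₀ w₁
      e E τ ϱ τ Λ (ψb / 2) J F B x.1 x.2)
    (Q := fun y J F B₀ x B => OutV c r l y.Dt y.q.Dr (fun j => β j y.q.a y.q.w) y.d y.q.a y.q.w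
      y.e' y.E' y.q.σ y.q.η y.ϱ' y.q.lam y.ψ J F B₀ x.1 B) (τ := τ)
    (fun y J F B₀ x B B' h hB => h.sub hB) L (fun y hy κ₁ hκ₁ => by
      obtain ⟨κ₂, hκ₂, J₀, h1⟩ := href y Dm τ τ (ψb / 2) d₀ (hDm y hy) (hτm y hy) hτ (hτm y hy)
        (half_pos hψb) (fun j hj => ⟨(hd₀ j hj).1.le, (hd₀ j hj).2.trans ((min_le_left _ _).trans
          (hτm y hy))⟩) κ₁ hκ₁
      refine ⟨κ₂, hκ₂, J₀, fun J hJ F B₀ x hPx B' hB' hP' hpos hTm => ?_⟩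
      exact h1 J hJ F B₀ x.1 x.2 (hPx.1 y hy) hPx.2 B' hB' hP' hpos fun h =>
        Pool.KA.AP5.Tm_mono (hTm h) (mul_le_mul_of_nonneg_right (hτm y hy) (Nat.cast_nonneg J)))
    1 one_pos
  obtain ⟨J₁, hJ₁⟩ := share_ex (ψ := ψb - ψb / 2) (κ := 1 / Kc) (by linarith) (by positivity)
  have hsh : ∀ y : Rx S c r l β e E ϱ a₀ w₀ w₁ Λ Db, ∃ J₀ : ℕ, ∀ J : ℕ, J₀ ≤ J →
      Real.exp (-(y.ψ / 2 * J)) ≤ κ₂ := fun y => share_ex (half_pos y.ψ0) hκ₂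
  choose Js hJs using hsh
  obtain ⟨J₂, hJ₂⟩ := lst_le Js L
  have hTm := bas_ev (hS.2 τ hτ) (κ := κ₂ / (K₁ * Kc)) (by positivity)
  have hpos : Bas S (fun J F A => 0 < Pe F.p A) := ⟨1, one_pos, 0, fun J _ F A hA =>
    hS.1 1 J F A hA⟩
  refine ⟨K₁ * Kc / κ₂, by positivity, Bas.mono (max J₀ (max J₁ J₂))
    (((bas_then hK₁ hB₀ hBc).and hTm).and hpos) ?_⟩
  rintro J hJ F A ⟨⟨⟨B, k1, k2, k3, B', k4, k5, k6⟩, hT⟩, hA⟩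
  simp only [ge_iff_le, max_le_iff] at hJ
  obtain ⟨j0, j1, j2⟩ := hJ
  have hJr : (0 : ℝ) ≤ J := Nat.cast_nonneg J
  obtain ⟨G, H, v, v', n0, s0⟩ := k3.sub k4 (κ₁ := 1 / Kc) (by
    rw [one_div, inv_mul_le_iff₀ hKc]
    exact k5) (hJ₁ J j1)
  have hAB : Pe F.p A ≤ K₁ * Kc * Pe F.p B' := by
    calc Pe F.p A ≤ K₁ * Pe F.p B := k2
      _ ≤ K₁ * (Kc * Pe F.p B') := mul_le_mul_of_nonneg_left k5 hK₁.le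
      _ = _ := by ring
  have hB'pos : 0 < Pe F.p B' := by
    by_contra hcon
    push Not at hcon
    have : K₁ * Kc * Pe F.p B' ≤ 0 := mul_nonpos_of_nonneg_of_nonpos (by positivity) hcon
    linarith
  obtain ⟨B₂, l1, l2, l3⟩ := hrf J j0 F B' (v, v') ⟨k6, G, H, n0, s0⟩ B' (fun _ h => h)
    (by rw [one_mul]) hB'pos (fun B₁ m1 m2 h => hT B₁ (fun ω h => k1 ω (k4 ω (m1 ω h))) (by
      rw [div_mul_eq_mul_div, div_le_iff₀ (by positivity)]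
      calc κ₂ * Pe F.p A ≤ κ₂ * (K₁ * Kc * Pe F.p B') := mul_le_mul_of_nonneg_left hAB hκ₂.le
        _ = K₁ * Kc * (κ₂ * Pe F.p B') := by ring
        _ ≤ K₁ * Kc * Pe F.p B₁ := mul_le_mul_of_nonneg_left m2 (by positivity)
        _ = _ := by ring) h)
  refine ⟨B₂, fun ω h => k1 ω (k4 ω (l1 ω h)), ?_, v, v', fun ω h => s0.cls ω (l1 ω h),
    fun ω h => s0.nrm ω (l1 ω h), fun x hx => ?_⟩
  · rw [div_mul_eq_mul_div, le_div_iff₀ hκ₂]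
    calc Pe F.p A * κ₂ ≤ K₁ * Kc * Pe F.p B' * κ₂ := mul_le_mul_of_nonneg_right hAB hκ₂.le
      _ = K₁ * Kc * (κ₂ * Pe F.p B') := by ring
      _ ≤ _ := mul_le_mul_of_nonneg_left l2 (by positivity)
  · obtain ⟨T, TH, h1, h2⟩ := l3 x hx
    refine ⟨T, TH, h1.sub l1 (κ₁ := κ₂) l2 (Real.exp_pos _).le ?_, h2⟩
    have h3 := hJs x J ((hJ₂ x hx).trans j2)
    calc Real.exp (-(x.ψ * J)) = Real.exp (-(x.ψ / 2 * J)) * Real.exp (-(x.ψ / 2 * J)) := by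
          rw [← Real.exp_add]
          congr 1
          ring
      _ ≤ _ := mul_le_mul_of_nonneg_left h3 (Real.exp_pos _).le

/-- **The requests** of the plan. -/
structure VdM (S : PCl m) (c : ℕ → Fin m) (r l : ℕ) (β : ℕ → ℝ → ℝ → ℝ)
    (e E ϱ a₀ w₀ w₁ Λ : ℝ) (q : Rq) : Prop where
  w1 : w₁ ≤ q.w
  aa : q.a < a₀
  η0 : 0 < q.η
  σ0 : 0 < q.σ
  σϱ : q.σ ≤ ϱ
  mesh : MeshQ S c r β e E ϱ q.a w₀ q.w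
  lin : ∃ (Kg Ψ₀ : ℝ) (Bv Tv : ℕ → ℝ),
    Vld β l r w₀ Kg (β l a₀ w₀ + Λ - (a₀ - q.a)) q.a q.w Ψ₀ Bv Tv ∧
      4 * ((r : ℝ) - l) * Ψ₀ ≤ q.lam

/-- Natural parts of sums. -/
theorem flr_le {x y z : ℝ} (h : x ≤ y + z) : ⌊x⌋₊ ≤ ⌊y⌋₊ + (⌊z⌋₊ + 1) := by
  rcases lt_or_ge x 0 with hx | hx
  · rw [Nat.floor_of_nonpos hx.le]
    exact Nat.zero_le _
  · have h1 := Nat.lt_floor_add_one y
    have h2 := Nat.lt_floor_add_one z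
    have h3 : ⌊x⌋₊ < ⌊y⌋₊ + (⌊z⌋₊ + 1) + 1 := (Nat.floor_lt hx).2 (by
      push_cast
      linarith)
    omega

/-- **The data on the events of a class.** -/
theorem mevt_of {S : PCl m} {c : ℕ → Fin m} {r l : ℕ} {β : ℕ → ℝ → ℝ → ℝ}
    {e E ϱ E' ϱ' a₀ w₀ w₁ Λ E₁ : ℝ} (hc : Set.InjOn c (Set.Iio (r + 1))) (hl : l < r)
    (hw0 : 0 < w₀) (hw01 : w₀ ≤ w₁) (hwa : w₁ < a₀) (ha1 : a₀ < 1) (hLaw : ∀ i ≤ r, Law (β i))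
    (hLow : ∀ i ≤ r, ∀ a w, 0 ≤ w → w ≤ a → a ≤ 1 → a ≤ β i a w) (hE : 0 ≤ E) (hϱ : 0 < ϱ)
    (hϱ' : 0 < ϱ') (hnum : ∀ i ≤ r, β i a₀ w₀ + (E + ϱ) < 1) (hΛ : 0 ≤ Λ) (hS : TmH S)
    (hsrt : ∀ j i, l ≤ j → j ≤ i → i < r → β j w₁ w₁ ≤ β i w₁ w₁)
    (hE₁ : ∀ j, l ≤ j → j ≤ r → E + (β j w₁ w₁ - β r w₁ w₁) ≤ E₁)
    (hN₁ : ∀ e' : ℝ, 0 < e' → NodQ S c r β e' E' ϱ' w₁ w₁)
    (hV₁ : ∀ h : ℝ, 0 < h → VdM S c r l β e E ϱ a₀ w₀ w₁ Λ ⟨w₁, w₁, h, 0, 1, ϱ⟩)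
    {Vd : Rq → Prop} (hVd : ∀ q, Vd q → VdM S c r l β e E ϱ a₀ w₀ w₁ Λ q)
    (hP : PstQ S c r l r β e E ϱ a₀ w₀ w₁ Λ) :
    ∃ M : MDat, M.e = e ∧ M.E = E ∧ M.ϱ = ϱ ∧ (∀ q, 0 < M.ψ q) ∧
      (∀ q, Vd q → ∀ i ≤ r, 0 ≤ M.d q i ∧ M.d q i ≤ q.σ) ∧ MEvt S M w₁ E₁ c r l β Vd := by
  classical
  obtain ⟨Db, hDb, hP⟩ := hP
  have hnq : ∀ q, VdM S c r l β e E ϱ a₀ w₀ w₁ Λ q → NodQ S c r β e E ϱ q.a q.w := fun q h => by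
    obtain ⟨K, om, hK, om0, omK, -, hn⟩ := h.mesh 1 one_pos
    have h1 := hn K le_rfl
    rwa [omK] at h1
  have key : ∀ (q : Rq) (e' E' ϱ' : ℝ) (Dt : ℕ), VdM S c r l β e E ϱ a₀ w₀ w₁ Λ q → 1 ≤ Dt →
      q.σ ≤ ϱ' → (∀ (Dr : ℕ) (η σ : ℝ), 0 < η → 0 < σ → σ ≤ ϱ' →
        ∃ (K₁ : ℝ) (d : ℕ → ℝ) (ψ : ℝ), 0 < K₁ ∧ 0 < ψ ∧ (∀ l ≤ r, 0 < d l ∧ d l ≤ σ ∧ d l < q.a) ∧
          Bas S (fun J F A => ∃ B : F.Ω → Prop, Sub B A ∧ Pe F.p A ≤ K₁ * Pe F.p B ∧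
            NodS c r Dt Dr (fun l => β l q.a q.w) d q.a q.w e' (E' + σ) η ϱ' (E' + ϱ') ψ J F B)) →
      ∃ (d : ℕ → ℝ) (ψ : ℝ), 0 < ψ ∧ (∀ j ≤ r, 0 < d j ∧ d j ≤ q.σ) ∧
        TgC S c r l β e E ϱ a₀ w₀ w₁ Λ Db e' E' ϱ' Dt q d ψ := by
    intro q e' E' ϱ' Dt hq hDt hσ hN
    obtain ⟨Kg, Ψ₀, Bv, Tv, V, hlam⟩ := hq.lin
    obtain ⟨d, ψ, h1, h2, h3⟩ := tgt_cls hc hl.le hw0 hw01 hq.w1 hq.aa ha1 hLaw hLow hE hϱ hnum hΛ V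
      hlam hq.mesh hDt hDb hN q.Dr hq.η0 hq.σ0 hσ
    exact ⟨d, ψ, h1, h2, h3⟩
  obtain ⟨DD, hDD⟩ : ∃ DD : ℝ → ℝ → ℕ, DD = fun a w =>
    if h : NodQ S c r β e E ϱ a w then h.choose else 1 := ⟨_, rfl⟩
  have hreq : ∀ q, VdM S c r l β e E ϱ a₀ w₀ w₁ Λ q → ∃ (d : ℕ → ℝ) (ψ : ℝ), 0 < ψ ∧
      (∀ j ≤ r, 0 < d j ∧ d j ≤ q.σ) ∧
      TgC S c r l β e E ϱ a₀ w₀ w₁ Λ Db e E ϱ (DD q.a q.w) q d ψ := by
    intro q hq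
    have h1 := hnq q hq
    have h2 : DD q.a q.w = h1.choose := by
      rw [hDD]
      exact dif_pos h1
    rw [h2]
    exact key q e E ϱ _ hq h1.choose_spec.1 hq.σϱ h1.choose_spec.2
  choose! dq ψq hψq hdq htq using hreq
  refine ⟨⟨DD, fun _ _ => 0, dq, fun q => if Vd q then ψq q / 2 else 1, e, E, ϱ⟩, rfl, rfl, rfl,
    fun q => ?_, fun q hq i hi => ⟨(hdq q (hVd q hq) i hi).1.le, (hdq q (hVd q hq) i hi).2⟩, ?_⟩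
  · show 0 < if Vd q then ψq q / 2 else 1
    split_ifs with h
    · exact half_pos (hψq q (hVd q h))
    · exact one_pos
  intro L h hh
  -- the two requests for the size of the direction
  obtain ⟨h₁, hh₁⟩ : ∃ h₁, h₁ = h / (16 * ((r : ℝ) + 1)) := ⟨_, rfl⟩
  have hh₁0 : 0 < h₁ := by rw [hh₁]; positivity
  obtain ⟨σ₁, hσ₁⟩ : ∃ σ₁, σ₁ = min h₁ (min ϱ ϱ') := ⟨_, rfl⟩
  have hσ₁0 : 0 < σ₁ := by rw [hσ₁]; exact lt_min hh₁0 (lt_min hϱ hϱ')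
  have hσ₁1 : σ₁ ≤ h₁ := by rw [hσ₁]; exact min_le_left _ _
  have hσ₁2 : σ₁ ≤ ϱ := by rw [hσ₁]; exact (min_le_right _ _).trans (min_le_left _ _)
  have hσ₁3 : σ₁ ≤ ϱ' := by rw [hσ₁]; exact (min_le_right _ _).trans (min_le_right _ _)
  obtain ⟨q₁, hq₁⟩ : ∃ q₁ : Rq, q₁ = ⟨w₁, w₁, h₁, 0, h₁, σ₁⟩ := ⟨_, rfl⟩
  have hv₁ : VdM S c r l β e E ϱ a₀ w₀ w₁ Λ q₁ := by
    have h1 := hV₁ h₁ hh₁0
    rw [hq₁]
    exact ⟨h1.w1, h1.aa, hh₁0, hσ₁0, hσ₁2, h1.mesh, h1.lin⟩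
  obtain ⟨D₁, hD₁, hn₁⟩ := hN₁ h₁ hh₁0
  obtain ⟨d₁, ψ₁, hψ₁, hd₁, ht₁⟩ := key q₁ h₁ E' ϱ' D₁ hv₁ hD₁ (by rw [hq₁]; exact hσ₁3) (by
    rw [hq₁]
    exact hn₁)
  obtain ⟨Kc, hKc, hB⟩ := tgc_lst hS hϱ hP
    ((⟨q₁, h₁, E', ϱ', D₁, d₁, ψ₁, hψ₁, ht₁⟩ : Rx S c r l β e E ϱ a₀ w₀ w₁ Λ Db) ::
      (⟨q₁, e, E, ϱ, DD q₁.a q₁.w, dq q₁, ψq q₁, hψq q₁ hv₁, htq q₁ hv₁⟩ :
        Rx S c r l β e E ϱ a₀ w₀ w₁ Λ Db) ::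
      L.map fun q : {q : Rq // Vd q} => (⟨q.1, e, E, ϱ, DD q.1.a q.1.w, dq q.1, ψq q.1, hψq q.1 (hVd q.1 q.2),
        htq q.1 (hVd q.1 q.2)⟩ : Rx S c r l β e E ϱ a₀ w₀ w₁ Λ Db))
  obtain ⟨J₁, hJ₁⟩ := exists_nat_gt (((r : ℝ) * (r + 3) + 4 + r) / (h / 4))
  refine ⟨Kc, hKc, hB.mono J₁ ?_⟩
  rintro J hJ F A ⟨B, k1, k2, v, v', hcls, hnrm, hall⟩
  have hJr : (0 : ℝ) ≤ J := Nat.cast_nonneg J
  have hj : (r : ℝ) * (r + 3) + 4 + r < h / 4 * J := by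
    have h3 := hJ₁.trans_le (show (J₁ : ℝ) ≤ J by exact_mod_cast hJ)
    rw [div_lt_iff₀ (by linarith)] at h3
    linarith
  have hr0 : (0 : ℝ) ≤ r := Nat.cast_nonneg r
  have hh₁r : (r : ℝ) * (4 * h₁) ≤ h / 4 := by
    rw [hh₁, mul_div_assoc', mul_div_assoc', div_le_div_iff₀ (by positivity) (by norm_num)]
    nlinarith
  have hh₁s : 4 * h₁ ≤ h / 4 := by
    rw [hh₁, mul_div_assoc', div_le_div_iff₀ (by positivity) (by norm_num)]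
    nlinarith
  -- the coordinates of the list
  obtain ⟨T₁, TH₁, n₁, s₁⟩ := hall _ List.mem_cons_self
  simp only at n₁ s₁
  rw [hq₁] at n₁ s₁
  simp only at n₁ s₁
  have hd₁' : ∀ j ≤ r, d₁ j ≤ h₁ := fun j hj => by
    have h1 := (hd₁ j hj).2
    rw [hq₁] at h1
    exact h1.trans hσ₁1
  have hsm : ∀ ω, B ω → ∀ i, l ≤ i → i < r → |v (ptr F J ω) (c i)| ≤
      2 ^ (r * (⌊h₁ * (J : ℝ)⌋₊ + (⌊2 * h₁ * (J : ℝ)⌋₊ + 1) + ⌊h₁ * (J : ℝ)⌋₊ + r + 2)) := by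
    refine cb_lst hc n₁.lst (Y := ⌊(β l w₁ w₁ + h₁) * (J : ℝ)⌋₊) (fun i hli hir => flr_le ?_)
      (fun j i hlj hji hir => flr_le ?_) hnrm (fun ω hω j hlj hjr => (s₁ ω hω j hlj (by omega)).2)
    · have h1 := hsrt l i le_rfl hli.le hir
      have h2 := hd₁' i hir.le
      rw [← add_mul]
      exact mul_le_mul_of_nonneg_right (by linarith) hJr
    · have h1 := hsrt j i hlj hji hir
      have h2 := hd₁' i hir.le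
      have h3 := (hd₁ j (by omega)).1
      rw [← add_mul]
      exact mul_le_mul_of_nonneg_right (by linarith) hJr
  obtain ⟨M₀, hM₀⟩ : ∃ M₀, M₀ = r * (⌊h₁ * (J : ℝ)⌋₊ + (⌊2 * h₁ * (J : ℝ)⌋₊ + 1) +
    ⌊h₁ * (J : ℝ)⌋₊ + r + 2) := ⟨_, rfl⟩
  rw [← hM₀] at hsm
  have hf1 : ((⌊h₁ * (J : ℝ)⌋₊ : ℕ) : ℝ) ≤ h₁ * J := Nat.floor_le (by positivity)
  have hf2 : ((⌊2 * h₁ * (J : ℝ)⌋₊ : ℕ) : ℝ) ≤ 2 * h₁ * J := Nat.floor_le (by positivity)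
  have hMr : (M₀ : ℝ) ≤ h / 4 * J + r * (r + 3) := by
    rw [hM₀]
    push_cast
    have h1 : (r : ℝ) * ((⌊h₁ * (J : ℝ)⌋₊ : ℕ) + ((⌊2 * h₁ * (J : ℝ)⌋₊ : ℕ) + 1) +
        (⌊h₁ * (J : ℝ)⌋₊ : ℕ) + r + 2) ≤ r * (4 * h₁ * J + (r + 3)) :=
      mul_le_mul_of_nonneg_left (by linarith) hr0
    have h2 := mul_le_mul_of_nonneg_right hh₁r hJr
    calc _ ≤ _ := h1
      _ = r * (4 * h₁) * J + r * (r + 3) := by ring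
      _ ≤ _ := by linarith
  -- the target
  obtain ⟨T₂, TH₂, n₂, s₂⟩ := hall _ (List.mem_cons_of_mem _ List.mem_cons_self)
  simp only at n₂ s₂
  have hd₂' : ∀ j ≤ r, dq q₁ j ≤ h₁ := fun j hj => by
    have h1 := (hdq q₁ hv₁ j hj).2
    have h2 : q₁.σ = σ₁ := by rw [hq₁]
    rw [h2] at h1
    exact h1.trans hσ₁1
  have hd₂0 : ∀ j ≤ r, 0 < dq q₁ j := fun j hj => (hdq q₁ hv₁ j hj).1
  obtain ⟨D₂, hD₂⟩ : ∃ D₂, D₂ = DD q₁.a q₁.w := ⟨_, rfl⟩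
  obtain ⟨d₂, hd₂⟩ : ∃ d₂, d₂ = dq q₁ := ⟨_, rfl⟩
  obtain ⟨ψ₂, hψ₂⟩ : ∃ ψ₂, ψ₂ = ψq q₁ := ⟨_, rfl⟩
  rw [← hD₂, ← hd₂, ← hψ₂] at n₂
  rw [← hd₂] at s₂ hd₂' hd₂0
  rw [hq₁] at n₂ s₂
  simp only at n₂ s₂
  have hE1' := hE₁ r hl.le le_rfl
  have htp : ∀ ω, B ω → |v (ptr F J ω) (c r)| ≤ 2 ^ (M₀ + ⌊(E + σ₁) * (J : ℝ)⌋₊ +
      (⌊(E₁ - E + 2 * h₁) * (J : ℝ)⌋₊ + 1) + ⌊h₁ * (J : ℝ)⌋₊ + r + 1) := by
    intro ω hω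
    refine cb_top hc n₂.top (l := l) (Y := ⌊(β l w₁ w₁ + h₁) * (J : ℝ)⌋₊) (flr_le ?_)
      (fun j hlj hjr => flr_le ?_) hnrm (fun ω hω => (s₂ ω hω r hl (by omega)).2) hω (hsm ω hω)
    · have h1 := hE₁ l le_rfl hl.le
      have h2 := hd₂' r le_rfl
      rw [← add_mul]
      exact mul_le_mul_of_nonneg_right (by linarith) hJr
    · have h1 := hE₁ j hlj hjr
      have h2 := hd₂' r le_rfl
      have h3 := hd₂0 j hjr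
      rw [← add_mul]
      exact mul_le_mul_of_nonneg_right (by linarith) hJr
  refine ⟨B, k1, k2, Fin m → ℝ, v, v', id, hcls, fun ω hω => ?_, fun ω hω i hli hir => ?_,
    fun q hq => ?_⟩
  · show |v' (slam F ⌊w₁ * J⌋₊ ω) (c r)| ≤ _
    rw [← hcls ω hω]
    refine (htp ω hω).trans (pow_le_pow_right₀ one_le_two (Nat.le_floor ?_))
    push_cast
    have f1 : ((⌊(E + σ₁) * (J : ℝ)⌋₊ : ℕ) : ℝ) ≤ (E + σ₁) * J := Nat.floor_le (by positivity)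
    have f2 : ((⌊(E₁ - E + 2 * h₁) * (J : ℝ)⌋₊ : ℕ) : ℝ) ≤ (E₁ - E + 2 * h₁) * J :=
      Nat.floor_le (mul_nonneg (by linarith) hJr)
    have f3 : (E + σ₁) * (J : ℝ) ≤ (E + h₁) * J := mul_le_mul_of_nonneg_right (by linarith) hJr
    have f4 := mul_le_mul_of_nonneg_right hh₁s hJr
    nlinarith
  · show |v' (slam F ⌊w₁ * J⌋₊ ω) (c i)| ≤ _
    rw [← hcls ω hω]
    refine (hsm ω hω i hli.le hir).trans (pow_le_pow_right₀ one_le_two (Nat.le_floor ?_))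
    have f4 : 0 ≤ h * J := by positivity
    linarith
  · obtain ⟨T, TH, h1, h2⟩ := hall _ (List.mem_cons_of_mem _ (List.mem_cons_of_mem _
      (List.mem_map_of_mem hq)))
    simp only at h1 h2
    refine ⟨T, TH, ⟨?_, fun ω hω i hli hi => ?_⟩⟩
    · have e1 : Real.exp (-(1 * (if Vd q.1 then ψq q.1 / 2 else 1) * (J : ℝ))) =
          Real.exp (-(ψq q.1 / 2 * J)) := by
        rw [if_pos q.2, one_mul]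
      show Nod F c r (DD q.1.a q.1.w) q.1.Dr ⌊q.1.a * J⌋₊ ⌊q.1.w * J⌋₊ ⌊e * J⌋₊
        ⌊(E + q.1.σ) * J⌋₊ (fun j => ⌊(β j q.1.a q.1.w - dq q.1 j) * J⌋₊) ⌊q.1.η * J⌋₊
        ⌊(1 - ϱ) * J⌋₊ ⌊(1 - (E + ϱ)) * J⌋₊
        (Real.exp (-(1 * (if Vd q.1 then ψq q.1 / 2 else 1) * (J : ℝ)))) B T TH
      rw [e1]
      exact h1
    · have e1 : dcb c l (id (v (ptr F J ω))) = v (ptr F J ω) := by
        funext k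
        obtain ⟨m1, m2⟩ := hnrm ω hω
        unfold dcb
        split_ifs with c1 c2
        · rw [c1, m1]
        · obtain ⟨j, hj, rfl⟩ := c2
          rw [m2 j hj]
        · rfl
      have h3 := (h2 ω hω i hli hi).1
      intro b hb s hs
      have h4 := h3 b hb s hs
      show |eval (mvp (dcb c l (id (v (ptr F J ω)))) s b) (T (ptr F J ω) i) -
        eval b (T (ptr F J ω) i) - s * dcb c l (id (v (ptr F J ω))) (c i)| ≤ _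
      rw [e1]
      exact h4

end Pool.SHR
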