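import Pool.Agent.H87.GEN.Stp

/-!
# All the stages

`pst_all`: a node with a direction for all the coordinates, from the variations over the windows.
-/

set_option autoImplicit false

namespace Pool.SHR

open Finset Real MvPolynomial
open Pool.Agent.H49.Ent Pool.Agent.H32.Dense Pool.STK Pool.KA Pool.KSAT Pool.K2S Pool.PB Pool.S6C
open Pool.GEN Pool.CHT Pool.ISO
open Pool.FLF (Fam.sub)
open Pool.LEV (Law)
open Pool.Z3 (share_ex Nod NodQ NodS bas_all)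

variable {m J : ℕ}

/-- Larger errors. -/
theorem PreD.mono {S : PCl m} {c : ℕ → Fin m} {r l s D : ℕ} {β : ℕ → ℝ → ℝ → ℝ}
    {e E ϱ a w Li Li' : ℝ} (h : PreD S c r l s D β e E ϱ a w Li) (hL : Li ≤ Li') :
    PreD S c r l s D β e E ϱ a w Li' := by
  intro Dr η σ θ hη hσ hσϱ hθ
  obtain ⟨K₁, d, ψ, hK₁, hψ, hd, hB⟩ := h Dr η σ θ hη hσ hσϱ hθ
  refine ⟨K₁, d, ψ, hK₁, hψ, hd, hB.mono 0 ?_⟩
  rintro J - F A ⟨B, k1, k2, G, H, v, v', k3, k4, k5⟩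
  have hY : ⌊(β l a w + Li) * (J : ℝ)⌋₊ ≤ ⌊(β l a w + Li') * (J : ℝ)⌋₊ :=
    Nat.floor_le_floor (mul_le_mul_of_nonneg_right (by linarith) (Nat.cast_nonneg J))
  exact ⟨B, k1, k2, G, H, v, v', k3, ⟨k4.cls, k4.nrm, fun ω hω j hlj hjs =>
    (k4.own ω hω j hlj hjs).trans (div_le_div_of_nonneg_right (mul_le_mul_of_nonneg_left
      (pow_le_pow_right₀ (by norm_num) hY) (by positivity)) (by positivity))⟩,
    fun ω hω j hlj hjs => (k5 ω hω j hlj hjs).mono hY le_rfl⟩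

/-- **All the stages**, with the degrees of the nodes `(a₀, om s)`. -/
theorem pst_allD {S : PCl m} {c : ℕ → Fin m} {r l : ℕ} {β : ℕ → ℝ → ℝ → ℝ}
    {e E ϱ a₀ x : ℝ} {om Li Lo Lo₀ Ψ : ℕ → ℝ} {D : ℕ → ℕ} (hc : Set.InjOn c (Set.Iio (r + 1)))
    (hl : l < r) (hom0 : 0 < om l) (hom : ∀ s, l ≤ s → s < r → om s ≤ om (s + 1))
    (homa : om r ≤ a₀) (ha1 : a₀ ≤ 1)
    (hLow : ∀ i ≤ r, ∀ a w, 0 ≤ w → w ≤ a → a ≤ 1 → a ≤ β i a w)
    (hE : 0 ≤ E) (hϱ : 0 < ϱ) (hx : 0 < x)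
    (hnum : ∀ s, l ≤ s → s < r → ∀ j ≤ r, β j a₀ (om s) + (E + ϱ) + x < 1)
    (hLi : ∀ s, l ≤ s → s < r → 0 ≤ Li s ∧ Li s ≤ Lo (s + 1) ∧ Lo (s + 1) ≤ Lo₀ (s + 1) ∧
      Lo₀ (s + 1) < Lo (s + 1) + x)
    (hN : ∀ s, l ≤ s → s < r → NodD S c r (D s) β e E ϱ a₀ (om s))
    (hmesh : ∀ s, l ≤ s → s + 1 < r → MeshQ S c r β e E ϱ a₀ (om s) (om (s + 1)))
    (hV : ∀ s, l ≤ s → s + 1 < r → (∃ (Kg : ℝ) (Bv Tv : ℕ → ℝ),
      Vld β l (s + 1) (om s) Kg (β l a₀ (om s) + Lo (s + 1)) a₀ (om (s + 1)) (Ψ (s + 1)) Bv Tv) ∧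
      4 * ((s : ℝ) + 1 - l) * Ψ (s + 1) ≤ Li (s + 1))
    (hNV : ∀ s, l ≤ s → s < r →
      NVD S c r l (s + 1) (D s) β e E ϱ a₀ (om s) (om s) (Li s) (Lo₀ (s + 1)) ∧
      NVD S c r l (s + 1) (D s) β e E ϱ a₀ (om s) (om (s + 1)) (Li s) (Lo (s + 1))) :
    PstQ S c r l r β e E ϱ a₀ (om (r - 1)) (om r) (Lo r) := by
  have hmon : ∀ s, l ≤ s → ∀ t, s ≤ t → t ≤ r → om s ≤ om t := by
    intro s hs t hst
    induction t, hst using Nat.le_induction with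
    | base => exact fun _ => le_rfl
    | succ t ht ih => exact fun h => (ih (by omega)).trans (hom t (by omega) (by omega))
  have step : ∀ s, l ≤ s → s < r → PreD S c r l s (D s) β e E ϱ a₀ (om s) (Li s) →
      PstQ S c r l (s + 1) β e E ϱ a₀ (om s) (om (s + 1)) (Lo (s + 1)) := by
    intro s hls hsr h
    obtain ⟨h1, h2, h3, h4⟩ := hLi s hls hsr
    exact ⟨D s, (hN s hls hsr).1, pst_of_preD hc hls hsr
      (hom0.le.trans (hmon l le_rfl s hls (by omega))) (hom s hls hsr)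
      ((hmon (s + 1) (by omega) r (by omega) le_rfl).trans homa) ha1 hLow hE hϱ hx h1 h2 h3 h4
      (hnum s hls hsr) h (hNV s hls hsr).1 (hNV s hls hsr).2⟩
  have key : ∀ s, l ≤ s → s < r → PreD S c r l s (D s) β e E ϱ a₀ (om s) (Li s) := by
    intro s hs
    induction s, hs using Nat.le_induction with
    | base => exact fun h => pre_zeroD hc hl.le (hN l le_rfl h)
    | succ s hs ih =>
      intro hsr
      have h1 := step s hs (by omega) (ih (by omega))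
      obtain ⟨⟨Kg, Bv, Tv, V⟩, h2⟩ := hV s hs hsr
      have hw0 : 0 < om s := hom0.trans_le (hmon l le_rfl s hs (by omega))
      have hwa : om s ≤ a₀ := (hmon s hs r (by omega) le_rfl).trans homa
      have h5 := hLow l hl.le a₀ (om s) hw0.le hwa ha1
      obtain ⟨h6, h7, -, -⟩ := hLi s hs (by omega)
      refine (pre_of_pstD hc (by omega) (by omega) hw0 ha1 hLow (by linarith) V (hmesh s hs hsr)
        (hN (s + 1) (by omega) hsr) h1).mono ?_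
      push_cast
      exact h2
  have h1 := step (r - 1) (by omega) (by omega) (key (r - 1) (by omega) (by omega))
  have e1 : r - 1 + 1 = r := by omega
  rwa [e1] at h1

/-- **All the stages.** -/
theorem pst_all {S : PCl m} {c : ℕ → Fin m} {r l : ℕ} {β : ℕ → ℝ → ℝ → ℝ}
    {e E ϱ a₀ x : ℝ} {om Li Lo Lo₀ Ψ : ℕ → ℝ} (hc : Set.InjOn c (Set.Iio (r + 1))) (hl : l < r)
    (hom0 : 0 < om l) (hom : ∀ s, l ≤ s → s < r → om s ≤ om (s + 1)) (homa : om r ≤ a₀)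
    (ha1 : a₀ ≤ 1) (hLow : ∀ i ≤ r, ∀ a w, 0 ≤ w → w ≤ a → a ≤ 1 → a ≤ β i a w)
    (hE : 0 ≤ E) (hϱ : 0 < ϱ) (hx : 0 < x)
    (hnum : ∀ s, l ≤ s → s < r → ∀ j ≤ r, β j a₀ (om s) + (E + ϱ) + x < 1)
    (hLi : ∀ s, l ≤ s → s < r → 0 ≤ Li s ∧ Li s ≤ Lo (s + 1) ∧ Lo (s + 1) ≤ Lo₀ (s + 1) ∧
      Lo₀ (s + 1) < Lo (s + 1) + x)
    (hN : NodQ S c r β e E ϱ a₀ (om l))
    (hmesh : ∀ s, l ≤ s → s + 1 < r → MeshQ S c r β e E ϱ a₀ (om s) (om (s + 1)))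
    (hV : ∀ s, l ≤ s → s + 1 < r → (∃ (Kg : ℝ) (Bv Tv : ℕ → ℝ),
      Vld β l (s + 1) (om s) Kg (β l a₀ (om s) + Lo (s + 1)) a₀ (om (s + 1)) (Ψ (s + 1)) Bv Tv) ∧
      4 * ((s : ℝ) + 1 - l) * Ψ (s + 1) ≤ Li (s + 1))
    (hNV : ∀ s, l ≤ s → s < r →
      NVC S c r l (s + 1) β e E ϱ a₀ (om s) (om s) (Li s) (Lo₀ (s + 1)) ∧
      NVC S c r l (s + 1) β e E ϱ a₀ (om s) (om (s + 1)) (Li s) (Lo (s + 1))) :
    PstQ S c r l r β e E ϱ a₀ (om (r - 1)) (om r) (Lo r) := by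
  have hD : ∀ s, l ≤ s → s < r → ∃ D, NodD S c r D β e E ϱ a₀ (om s) := by
    intro s hs hsr
    rcases Nat.eq_or_lt_of_le hs with h | h
    · subst h
      exact hN
    · obtain ⟨K, om', hK, om0, omK, -, hn⟩ := hmesh (s - 1) (by omega) (by omega) 1 one_pos
      have h5 := hn K le_rfl
      rw [omK] at h5
      have e1 : s - 1 + 1 = s := by omega
      rwa [e1] at h5
  choose! D hD using hD
  exact pst_allD (D := D) hc hl hom0 hom homa ha1 hLow hE hϱ hx hnum hLi hD hmesh hV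
    fun s hs hsr => ⟨(hNV s hs hsr).1 (D s), (hNV s hs hsr).2 (D s)⟩

end Pool.SHR
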