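import Pool.Agent.H99.GEN.Lim
import Pool.Agent.H99.GEN.Sel

/-!
# Cells of limit numbers are cells of the classes (row 310)

* `LevC`: Levy closeness of thresholds; `CellM`: the cell with real slopes and with a margin, which
  is closed under Levy closeness (`CellM.clo`).
* `Affn.clo`: affine cells of level functions. `NonF`: rows which are not full on a block; closed
  (`NonF.clo`), and true at all small scales at a point where the derivative is less than `1 - h`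
  (`nonF_of`).
* `micB_of`, `jmpN_of`, `staC_of`: if for all large `k` the numbers of the class `k` have no bad
  cell, then the limit numbers satisfy `MicB`, `JmpN`, `StaC`.
* `row310`: the contradiction.
-/

set_option autoImplicit false

namespace Pool.CLO

open MeasureTheory Set Filter Topology Pool.LEV Pool.STR

/-! ### Levy closeness and cells with a margin -/

/-- The threshold `L'` is close to the threshold `L`: shifts of radius and window by `δ`. -/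
def LevC (δ : ℝ) (L L' : ℝ → ℝ → ℝ) : Prop :=
  ∀ a w, δ ≤ w → w ≤ a → a + δ ≤ 1 → L' a w ≤ L (a + δ) (w + δ) ∧ L (a - δ) (w - δ) ≤ L' a w

/-- **The cell** of size `r` at the radius `a`, with gap `γ` and margin `μ`; the slopes are real. -/
structure CellM (L : ℕ → ℝ → ℝ → ℝ) (n : ℕ) (S : Finset ℕ) (σ : ℕ → ℝ) (R : ℕ) (k : ℕ → ℝ)
    (γ μ a r ε : ℝ) : Prop where
  stat : ∀ i, (i ∈ S ∨ i = n) → ∀ a' w', a - (k 0 + μ) * r ≤ w' → w' ≤ a' → a' ≤ a + μ * r →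
    |L i a' w' - L i a a - σ i * (a' - a)| ≤ ε * r
  dyn : ∀ i < n, i ∉ S → ∀ j < R, ∀ x u y v, |x - a| ≤ (γ + μ) * r → |y - a| ≤ (γ + μ) * r →
    |x - y| ≤ 2 * μ * r → |u - (a - k j * r)| ≤ μ * r → |v - (a - k (j + 1) * r)| ≤ μ * r →
    u ≤ x → v ≤ y → L i x u + γ * r ≤ L i y v
  diag : ∀ i < n, i ∉ S → ∀ a', a - (k 0 + μ) * r ≤ a' → a' ≤ a + μ * r →
    |L i a' a' - L i a a - σ i * (a' - a)| ≤ ε * r

variable {L L' : ℕ → ℝ → ℝ → ℝ} {n R : ℕ} {S : Finset ℕ} {σ k : ℕ → ℝ}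
  {γ μ μ' a r ε ε' δ s : ℝ}

/-- Static and diagonal estimates are closed. -/
theorem stat_clo {L L' : ℝ → ℝ → ℝ} {σ a w' a' B C s ε δ : ℝ} (hL : LevC δ L L') (hδ : 0 ≤ δ)
    (hs : |σ| ≤ s) (hd : δ ≤ w') (hw : w' ≤ a') (ha1 : a' + δ ≤ 1) (hda : δ ≤ a)
    (haa : a + δ ≤ 1) (hB : B ≤ w' - δ) (hBa : B ≤ a - δ) (hC : a' + δ ≤ C) (hCa : a + δ ≤ C)
    (h : ∀ x y, B ≤ y → y ≤ x → x ≤ C → |L x y - L a a - σ * (x - a)| ≤ ε) :
    |L' a' w' - L' a a - σ * (a' - a)| ≤ 2 * ε + 2 * s * δ := by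
  obtain ⟨u1, l1⟩ := hL a' w' hd hw ha1
  obtain ⟨u2, l2⟩ := hL a a hda le_rfl haa
  have e1 := abs_le.1 (h (a' + δ) (w' + δ) (by linarith) (by linarith) hC)
  have e2 := abs_le.1 (h (a' - δ) (w' - δ) hB (by linarith) (by linarith))
  have e3 := abs_le.1 (h (a + δ) (a + δ) (by linarith) le_rfl hCa)
  have e4 := abs_le.1 (h (a - δ) (a - δ) hBa le_rfl (by linarith))
  obtain ⟨s1, s2⟩ := abs_le.1 hs
  have t1 : σ * δ ≤ s * δ := mul_le_mul_of_nonneg_right s2 hδ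
  have t2 : -(s * δ) ≤ σ * δ := by
    have := mul_le_mul_of_nonneg_right s1 hδ
    linarith
  have f1 : σ * (a' + δ - a) = σ * (a' - a) + σ * δ := by ring
  have f2 : σ * (a' - δ - a) = σ * (a' - a) - σ * δ := by ring
  have f3 : σ * (a + δ - a) = σ * δ := by ring
  have f4 : σ * (a - δ - a) = -(σ * δ) := by ring
  rw [f1] at e1
  rw [f2] at e2
  rw [f3] at e3
  rw [f4] at e4
  rw [abs_le]
  constructor <;> linarith [e1.1, e1.2, e2.1, e2.2, e3.1, e3.2, e4.1, e4.2]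

/-- **Closedness of cells.** -/
theorem CellM.clo (h : CellM L n S σ R k γ μ a r ε) (hL : ∀ i ≤ n, LevC δ (L i) (L' i))
    (hS : ∀ i ∈ S, i ≤ n) (hδ : 0 ≤ δ) (hr : 0 ≤ r) (hγ : 0 ≤ γ) (hμ : 0 ≤ μ')
    (hm : μ' * r + δ ≤ μ * r) (hk : ∀ j ≤ R, 0 ≤ k j ∧ k j ≤ k 0) (hs : ∀ i ≤ n, |σ i| ≤ s)
    (hlo : (k 0 + μ) * r ≤ a) (hhi : a + (γ + μ) * r ≤ 1)
    (hε : 2 * (ε * r) + 2 * s * δ ≤ ε' * r) : CellM L' n S σ R k γ μ' a r ε' := by
  have hk0 := (hk 0 (Nat.zero_le R)).1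
  have g2 : 0 ≤ k 0 * r := mul_nonneg hk0 hr
  have g3 : 0 ≤ γ * r := mul_nonneg hγ hr
  have g4 : (γ + μ) * r = γ * r + μ * r := by ring
  have g5 : 0 ≤ μ' * r := mul_nonneg hμ hr
  have g6 : (k 0 + μ) * r = k 0 * r + μ * r := by ring
  have g7 : (k 0 + μ') * r = k 0 * r + μ' * r := by ring
  have g8 : (γ + μ') * r = γ * r + μ' * r := by ring
  constructor
  · intro i hi a' w' h1 h2 h3
    have hin : i ≤ n := by
      rcases hi with hi | hi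
      · exact hS i hi
      · exact hi.le
    exact (stat_clo (hL i hin) hδ (hs i hin) (B := a - (k 0 + μ) * r) (C := a + μ * r)
      (by linarith) h2 (by linarith) (by linarith) (by linarith) (by linarith) (by linarith)
      (by linarith) (by linarith) (fun x y e1 e2 e3 => h.stat i hi x y e1 e2 e3)).trans hε
  · intro i hi hiS j hj x u y v h1 h2 h3 h4 h5 h6 h7
    obtain ⟨kj0, kj1⟩ := hk j hj.le
    obtain ⟨kk0, kk1⟩ := hk (j + 1) hj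
    have m1 : k j * r ≤ k 0 * r := mul_le_mul_of_nonneg_right kj1 hr
    have m2 : k (j + 1) * r ≤ k 0 * r := mul_le_mul_of_nonneg_right kk1 hr
    obtain ⟨x1, x2⟩ := abs_le.1 h1
    obtain ⟨y1, y2⟩ := abs_le.1 h2
    obtain ⟨z1, z2⟩ := abs_le.1 h3
    obtain ⟨p1, p2⟩ := abs_le.1 h4
    obtain ⟨q1, q2⟩ := abs_le.1 h5
    rw [g8] at x1 x2 y1 y2
    have u1 := (hL i hi.le x u (by linarith) h6 (by linarith)).1
    have l1 := (hL i hi.le y v (by linarith) h7 (by linarith)).2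
    have e1 : 2 * μ' * r + 2 * δ ≤ 2 * μ * r := by linarith
    have key := h.dyn i hi hiS j hj (x + δ) (u + δ) (y - δ) (v - δ)
      (by rw [abs_le, g4]; constructor <;> linarith)
      (by rw [abs_le, g4]; constructor <;> linarith)
      (by rw [abs_le]; constructor <;> linarith)
      (by rw [abs_le]; constructor <;> linarith)
      (by rw [abs_le]; constructor <;> linarith) (by linarith) (by linarith)
    linarith
  · intro i hi hiS a' h1 h2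
    rw [g7] at h1
    have e1 := stat_clo (L := fun x _ => L i x x) (L' := fun x _ => L' i x x) (w' := a')
      (a' := a') (a := a) (σ := σ i) (s := s) (ε := ε * r) (δ := δ)
      (B := a - (k 0 + μ) * r) (C := a + μ * r) ?_ hδ (hs i hi.le)
      (by linarith) le_rfl (by linarith) (by linarith) (by linarith) (by linarith) (by linarith)
      (by linarith) (by linarith)
      (fun x y e1 e2 e3 => h.diag i hi hiS x (by linarith) e3)
    · exact e1.trans hε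
    · intro x w hw hwx hx
      exact hL i hi.le x x (by linarith) le_rfl hx

/-! ### Affine cells and rows which are not full -/

/-- Affine cells of level functions are closed. -/
theorem affn_clo {A A' : ℝ × ℝ → ℝ} {ε ε' δ X al be : ℝ} {p : ℝ × ℝ} (h : Affn A ε p X al be)
    (hd : ∀ p, |A' p - A p| ≤ δ) (he : ε * X + 2 * δ ≤ ε' * X) :
    Affn A' ε' p X al be := by
  intro p' hp'
  have e1 := abs_le.1 (h p' hp')
  have e2 := abs_le.1 (hd p')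
  have e3 := abs_le.1 (hd p)
  rw [abs_le]
  constructor <;> linarith [e1.1, e1.2, e2.1, e2.2, e3.1, e3.2]

/-- **The rows of the block of size `X` around `Q` are not full**, at the rate `1 - h`. -/
def NonF (ρ : ℝ → ℝ) (h e Q X : ℝ) : Prop :=
  ∀ x y : ℝ, |x - Q| ≤ X → |y - Q| ≤ X → x ≤ y → ρ y - ρ x ≤ (1 - h) * (y - x) + e * X

theorem NonF.clo {ρ ρ' : ℝ → ℝ} {h e e' Q X δ : ℝ} (H : NonF ρ h e Q X)
    (hd : ∀ x, |x - Q| ≤ X → |ρ' x - ρ x| ≤ δ) (he : e * X + 2 * δ ≤ e' * X) :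
    NonF ρ' h e' Q X := by
  intro x y hx hy hxy
  have e1 := H x y hx hy hxy
  have e2 := abs_le.1 (hd x hx)
  have e3 := abs_le.1 (hd y hy)
  linarith [e2.1, e2.2, e3.1, e3.2]

/-- At a point with derivative less than `1 - h` the rows of all blocks of size at least `δ r`
within `r` are not full, for all small `r`. -/
theorem nonF_of {ρ : ℝ → ℝ} {Q h : ℝ} (hd : DifferentiableAt ℝ ρ Q) (hh : deriv ρ Q < 1 - h)
    {δ e : ℝ} (hδ : 0 < δ) (he : 0 < e) : ∃ r₁ : ℝ, 0 < r₁ ∧ ∀ r : ℝ, 0 < r → r < r₁ →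
      ∀ Q' X : ℝ, |Q' - Q| ≤ r → δ * r ≤ X → X ≤ r → NonF ρ h e Q' X := by
  have h1 := hd.hasDerivAt.isLittleO.def (show 0 < e * δ / 4 by positivity)
  obtain ⟨d, hd0, h2⟩ := Metric.eventually_nhds_iff.1 h1
  refine ⟨d / 2, half_pos hd0, fun r hr hrd Q' X hQ' hX1 hX2 x y hx hy hxy => ?_⟩
  obtain ⟨q1, q2⟩ := abs_le.1 hQ'
  obtain ⟨x1, x2⟩ := abs_le.1 hx
  obtain ⟨y1, y2⟩ := abs_le.1 hy
  have hX0 : 0 < X := lt_of_lt_of_le (mul_pos hδ hr) hX1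
  have bx : |x - Q| ≤ 2 * r := by rw [abs_le]; constructor <;> linarith
  have by' : |y - Q| ≤ 2 * r := by rw [abs_le]; constructor <;> linarith
  have h3 := h2 (y := x) (by rw [Real.dist_eq]; linarith)
  have h4 := h2 (y := y) (by rw [Real.dist_eq]; linarith)
  rw [Real.norm_eq_abs, Real.norm_eq_abs, smul_eq_mul] at h3 h4
  have c0 : 0 ≤ e * δ / 4 := by positivity
  have h5 : e * δ / 4 * |x - Q| ≤ e * X / 2 := by
    calc e * δ / 4 * |x - Q| ≤ e * δ / 4 * (2 * r) := mul_le_mul_of_nonneg_left bx c0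
      _ = e * (δ * r) / 2 := by ring
      _ ≤ e * X / 2 := by
          have := mul_le_mul_of_nonneg_left hX1 he.le
          linarith
  have h6 : e * δ / 4 * |y - Q| ≤ e * X / 2 := by
    calc e * δ / 4 * |y - Q| ≤ e * δ / 4 * (2 * r) := mul_le_mul_of_nonneg_left by' c0
      _ = e * (δ * r) / 2 := by ring
      _ ≤ e * X / 2 := by
          have := mul_le_mul_of_nonneg_left hX1 he.le
          linarith
  have h7 := (abs_le.1 (h3.trans h5)).1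
  have h8 := (abs_le.1 (h4.trans h6)).2
  have h9 : deriv ρ Q * (y - x) ≤ (1 - h) * (y - x) :=
    mul_le_mul_of_nonneg_right hh.le (by linarith)
  have h10 : deriv ρ Q * (y - x) = (y - Q) * deriv ρ Q - (x - Q) * deriv ρ Q := by ring
  linarith

/-! ### From the classes to the limit numbers -/

/-- Convergence of the level functions of `N` and of the rates. -/
structure Cv (U : Filter ℕ) (Pk : ℕ → ℝ → ℝ → ℝ) (P : ℝ → ℝ → ℝ) (ρk : ℕ → ℝ → ℝ)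
    (ρ : ℝ → ℝ) : Prop where
  lv : ∀ δ : ℝ, 0 < δ → ∀ᶠ k in U, ∀ p, |Lv (Pk k) p - Lv P p| ≤ δ
  ra : ∀ δ : ℝ, 0 < δ → ∀ᶠ k in U, ∀ x, 0 ≤ x → x ≤ 1 → |ρk k x - ρ x| ≤ δ

/-- **The micro input for the classes**: no bad cell. -/
def MicI (U : Filter ℕ) (Pk : ℕ → ℝ → ℝ → ℝ) (ρk : ℕ → ℝ → ℝ) : Prop :=
  ∀ h β : ℝ, 0 < h → 0 < β → ∃ ε : ℝ, 0 < ε ∧ ∀ δ w₁ : ℝ, 0 < δ → 0 < w₁ → ∃ r₁ : ℝ, 0 < r₁ ∧
    ∀ r : ℝ, 0 < r → r < r₁ → ∀ᶠ k in U, ∀ (p : ℝ × ℝ) (X al be : ℝ), δ * r ≤ X → X ≤ p.2 →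
      p.2 + X ≤ r → X ≤ p.1 → p.1 + X ≤ 1 → w₁ ≤ Lv (Pk k) p - p.2 → 0 ≤ al → β ≤ be →
      al + be ≤ 1 → Affn (Lv (Pk k)) ε p X al be → ¬ NonF (ρk k) h ε p.1 X

/-- **The jump input for the classes.** -/
def JmpI (U : Filter ℕ) (Pk : ℕ → ℝ → ℝ → ℝ) (ρk : ℕ → ℝ → ℝ) : Prop :=
  ∀ h : ℝ, 0 < h → ∃ ε : ℝ, 0 < ε ∧ ∀ w₁ : ℝ, 0 < w₁ → ∃ r₁ : ℝ, 0 < r₁ ∧
    ∀ r : ℝ, 0 < r → r < r₁ → ∀ᶠ k in U, ∀ Q : ℝ, r ≤ Q → Q + r ≤ 1 → w₁ ≤ Lv (Pk k) (Q, 0) →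
      (∀ Q', |Q' - Q| ≤ r → |Lv (Pk k) (Q', 0) - Lv (Pk k) (Q, 0)| ≤ ε * r) →
      ¬ NonF (ρk k) h ε Q r

variable {U : Filter ℕ} {Pk : ℕ → ℝ → ℝ → ℝ} {P : ℝ → ℝ → ℝ} {ρk : ℕ → ℝ → ℝ} {ρ : ℝ → ℝ}

theorem Lv_add_le {P : ℝ → ℝ → ℝ} (h : Law P) (p p' : ℝ × ℝ) : Lv P p' ≤ Lv P p + dist p' p := by
  have := (Lv_lip h).dist_le_mul p' p
  rw [NNReal.coe_one, one_mul, Real.dist_eq] at this
  linarith [(abs_le.1 this).2]

/-- **The micro input for the limit numbers.** -/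
theorem micB_of [U.NeBot] (hP : Law P) (hc : Cv U Pk P ρk ρ) (hM : MicI U Pk ρk) : MicB P ρ := by
  intro h β hh hβ
  obtain ⟨ε, hε, h1⟩ := hM h β hh hβ
  refine ⟨ε / 2, half_pos hε, fun δ hδ => Filter.Eventually.of_forall ?_⟩
  intro Q hQ0 hQ1 ha _ _ hd hrt
  obtain ⟨r₂, hr₂, h2⟩ := h1 δ (Lv P (Q, 0) / 4) hδ (by positivity)
  obtain ⟨r₃, hr₃, h3⟩ := nonF_of hd hrt hδ (half_pos hε)
  obtain ⟨r₄, hr₄⟩ : ∃ r₄, r₄ = min (Lv P (Q, 0) / 8) (min (Q / 2) ((1 - Q) / 2)) := ⟨_, rfl⟩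
  have hr₄0 : 0 < r₄ := by
    rw [hr₄]
    exact lt_min (by positivity) (lt_min (by positivity) (by linarith))
  have k1 : r₄ ≤ Lv P (Q, 0) / 8 := by rw [hr₄]; exact min_le_left _ _
  have k2 : r₄ ≤ Q / 2 := by rw [hr₄]; exact (min_le_right _ _).trans (min_le_left _ _)
  have k3 : r₄ ≤ (1 - Q) / 2 := by rw [hr₄]; exact (min_le_right _ _).trans (min_le_right _ _)
  refine ⟨min r₂ (min r₃ r₄), lt_min hr₂ (lt_min hr₃ hr₄0), ?_⟩
  intro r hr hrr p X al be hp hX1 hX2 hX3 hal hbe hab hA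
  have j1 : r < r₂ := hrr.trans_le (min_le_left _ _)
  have j2 : r < r₃ := hrr.trans_le ((min_le_right _ _).trans (min_le_left _ _))
  have j3 : r < r₄ := hrr.trans_le ((min_le_right _ _).trans (min_le_right _ _))
  have hX0 : 0 < X := lt_of_lt_of_le (mul_pos hδ hr) hX1
  obtain ⟨p1, p2⟩ := abs_le.1 hp
  have hη : 0 < min (ε * (δ * r) / 8) (Lv P (Q, 0) / 8) := lt_min (by positivity) (by positivity)
  obtain ⟨k, hk, hkl, hkr⟩ := ((h2 r hr j1).and ((hc.lv _ hη).and (hc.ra _ hη))).exists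
  have hηX : 2 * min (ε * (δ * r) / 8) (Lv P (Q, 0) / 8) ≤ ε / 2 * X := by
    have e1 := min_le_left (ε * (δ * r) / 8) (Lv P (Q, 0) / 8)
    have e2 := mul_le_mul_of_nonneg_left hX1 hε.le
    have e3 : 0 < ε * (δ * r) := by positivity
    linarith
  refine hk p X al be hX1 hX2 hX3 (by linarith) (by linarith) ?_ hal hbe hab ?_ ?_
  · have e1 := Lv_add_le hP p (Q, 0)
    have e2 : dist ((Q, 0) : ℝ × ℝ) p ≤ r := by
      rw [Prod.dist_eq, Real.dist_eq, Real.dist_eq]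
      refine max_le ?_ ?_
      · show |Q - p.1| ≤ r
        rw [abs_sub_comm]
        exact hp
      · show |0 - p.2| ≤ r
        rw [abs_le]
        constructor <;> linarith
    have e3 := (abs_le.1 (hkl p)).1
    have e4 := min_le_right (ε * (δ * r) / 8) (Lv P (Q, 0) / 8)
    linarith
  · exact affn_clo hA hkl (by linarith)
  · refine (h3 r hr j2 p.1 X hp hX1 (by linarith)).clo
      (δ := min (ε * (δ * r) / 8) (Lv P (Q, 0) / 8)) (fun x hx => ?_) (by linarith)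
    obtain ⟨x1, x2⟩ := abs_le.1 hx
    exact hkr x (by linarith) (by linarith)

/-- **The jump input for the limit numbers.** -/
theorem jmpN_of [U.NeBot] (hc : Cv U Pk P ρk ρ) (hJ : JmpI U Pk ρk) : JmpN P ρ := by
  intro h hh
  refine Filter.Eventually.of_forall ?_
  intro Q hQ0 hQ1 ha hg hg0 hd
  by_contra hrt
  push Not at hrt
  obtain ⟨ε, hε, h1⟩ := hJ h hh
  obtain ⟨r₂, hr₂, h2⟩ := h1 (Lv P (Q, 0) / 2) (by positivity)
  obtain ⟨r₃, hr₃, h3⟩ := nonF_of hd hrt one_pos (half_pos hε)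
  have h4 := (hg.hasDerivAt.isLittleO).def (show 0 < ε / 2 by positivity)
  rw [hg0] at h4
  obtain ⟨r₅, hr₅, h5⟩ := Metric.eventually_nhds_iff.1 h4
  obtain ⟨r₄, hr₄⟩ : ∃ r₄, r₄ = min r₂ (min r₃ (min r₅ (min Q (1 - Q)))) := ⟨_, rfl⟩
  have hr₄0 : 0 < r₄ := by
    rw [hr₄]
    exact lt_min hr₂ (lt_min hr₃ (lt_min hr₅ (lt_min hQ0 (by linarith))))
  have k1 : r₄ ≤ r₂ := by rw [hr₄]; exact min_le_left _ _
  have k2 : r₄ ≤ r₃ := by rw [hr₄]; exact (min_le_right _ _).trans (min_le_left _ _)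
  have k3 : r₄ ≤ r₅ := by
    rw [hr₄]
    exact (min_le_right _ _).trans ((min_le_right _ _).trans (min_le_left _ _))
  have k4 : r₄ ≤ Q := by
    rw [hr₄]
    exact (min_le_right _ _).trans ((min_le_right _ _).trans ((min_le_right _ _).trans
      (min_le_left _ _)))
  have k5 : r₄ ≤ 1 - Q := by
    rw [hr₄]
    exact (min_le_right _ _).trans ((min_le_right _ _).trans ((min_le_right _ _).trans
      (min_le_right _ _)))
  obtain ⟨r, hr⟩ : ∃ r, r = r₄ / 2 := ⟨_, rfl⟩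
  have hr0 : 0 < r := by rw [hr]; exact half_pos hr₄0
  have hr4 : r < r₄ := by rw [hr]; exact half_lt_self hr₄0
  have hη : 0 < min (ε * r / 8) (Lv P (Q, 0) / 2) := lt_min (by positivity) (by positivity)
  obtain ⟨k, hk, hkl, hkr⟩ :=
    ((h2 r hr0 (hr4.trans_le k1)).and ((hc.lv _ hη).and (hc.ra _ hη))).exists
  have e1 := min_le_left (ε * r / 8) (Lv P (Q, 0) / 2)
  have e2 := min_le_right (ε * r / 8) (Lv P (Q, 0) / 2)
  have e3 : 0 < ε * r := mul_pos hε hr0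
  refine hk Q (by linarith) (by linarith) ?_ ?_ ?_
  · have := (abs_le.1 (hkl (Q, 0))).1
    linarith
  · intro Q' hQ'
    have f1 := h5 (y := Q') (by rw [Real.dist_eq]; linarith)
    rw [smul_zero, sub_zero, Real.norm_eq_abs, Real.norm_eq_abs] at f1
    have f2 : ε / 2 * |Q' - Q| ≤ ε / 2 * r := mul_le_mul_of_nonneg_left hQ' (half_pos hε).le
    have f3 := abs_le.1 (f1.trans f2)
    have f4 := abs_le.1 (hkl (Q', 0))
    have f5 := abs_le.1 (hkl (Q, 0))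
    rw [abs_le]
    constructor <;> linarith [f3.1, f3.2, f4.1, f4.2, f5.1, f5.2]
  · refine (h3 r hr0 (hr4.trans_le k2) Q r (by rw [sub_self, abs_zero]; exact hr0.le)
      (by linarith) le_rfl).clo (δ := min (ε * r / 8) (Lv P (Q, 0) / 2)) (fun x hx => ?_)
      (by linarith)
    obtain ⟨x1, x2⟩ := abs_le.1 hx
    exact hkr x (by linarith) (by linarith)

/-- **The static input for the classes**, for abstract cells `Cell k p a r ε` (radius, size,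
tolerance) of the class `k`; the rows of the block of size `K p * r` are not full. -/
def StaI {π : Type*} (U : Filter ℕ) (Pk : ℕ → ℝ → ℝ → ℝ) (ρk : ℕ → ℝ → ℝ)
    (Cell : ℕ → π → ℝ → ℝ → ℝ → Prop) (K : π → ℝ) : Prop :=
  ∀ h : ℝ, 0 < h → ∀ p : π, ∃ ε : ℝ, 0 < ε ∧ ∀ w₁ : ℝ, 0 < w₁ → ∃ r₁ : ℝ, 0 < r₁ ∧
    ∀ r : ℝ, 0 < r → r < r₁ → ∀ᶠ k in U, ∀ Q a : ℝ, K p * r ≤ Q → Q + K p * r ≤ 1 → w₁ ≤ a →
      |Lv (Pk k) (Q, 0) - a| ≤ ε * r → Cell k p a r ε → ¬ NonF (ρk k) h ε Q (K p * r)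

/-- **The static input for the limit numbers.** Cells of the limit numbers are cells of the
classes. -/
theorem staC_of {π : Type*} [U.NeBot] {CellL : π → ℝ → ℝ → ℝ → Prop}
    {Cell : ℕ → π → ℝ → ℝ → ℝ → Prop} {K : π → ℝ} (hK : ∀ p, 0 < K p)
    (hc : Cv U Pk P ρk ρ) (hS : StaI U Pk ρk Cell K)
    (hcl : ∀ (p : π) (ε : ℝ), 0 < ε → ∃ ε' : ℝ, 0 < ε' ∧ ∀ w₁ : ℝ, 0 < w₁ → ∃ r₁ : ℝ, 0 < r₁ ∧
      ∀ r : ℝ, 0 < r → r < r₁ → ∀ᶠ k in U, ∀ a, w₁ ≤ a → CellL p a r ε' →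
        Cell k p a r ε) : StaC P CellL ρ := by
  intro h hh p
  obtain ⟨ε, hε, h1⟩ := hS h hh p
  obtain ⟨ε', hε', h2⟩ := hcl p ε hε
  refine ⟨ε', hε', Filter.Eventually.of_forall ?_⟩
  intro Q hQ0 hQ1 ha hd hrt
  obtain ⟨r₂, hr₂, h3⟩ := h1 (Lv P (Q, 0)) ha
  obtain ⟨r₃, hr₃, h4⟩ := nonF_of hd hrt one_pos (half_pos hε)
  obtain ⟨r₅, hr₅, h5⟩ := h2 (Lv P (Q, 0)) ha
  obtain ⟨r₄, hr₄⟩ : ∃ r₄, r₄ = min r₂ (min (r₃ / K p) (min r₅ (min Q (1 - Q) / K p))) := ⟨_, rfl⟩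
  have hr₄0 : 0 < r₄ := by
    rw [hr₄]
    exact lt_min hr₂ (lt_min (div_pos hr₃ (hK p)) (lt_min hr₅
      (div_pos (lt_min hQ0 (by linarith)) (hK p))))
  have k1 : r₄ ≤ r₂ := by rw [hr₄]; exact min_le_left _ _
  have k2 : r₄ ≤ r₃ / K p := by rw [hr₄]; exact (min_le_right _ _).trans (min_le_left _ _)
  have k3 : r₄ ≤ r₅ := by
    rw [hr₄]
    exact (min_le_right _ _).trans ((min_le_right _ _).trans (min_le_left _ _))
  have k4 : r₄ ≤ min Q (1 - Q) / K p := by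
    rw [hr₄]
    exact (min_le_right _ _).trans ((min_le_right _ _).trans (min_le_right _ _))
  refine ⟨r₄, hr₄0, fun r hr hrr hcell => ?_⟩
  have j2 : K p * r < r₃ := by
    have := hrr.trans_le k2
    rw [lt_div_iff₀ (hK p)] at this
    linarith
  have j4 : K p * r < min Q (1 - Q) := by
    have := hrr.trans_le k4
    rw [lt_div_iff₀ (hK p)] at this
    linarith
  have j5 := j4.trans_le (min_le_left _ _)
  have j6 := j4.trans_le (min_le_right _ _)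
  have hKr : 0 < K p * r := mul_pos (hK p) hr
  have hη : 0 < min (ε * r) (ε * (K p * r) / 8) := lt_min (by positivity) (by positivity)
  obtain ⟨k, hk, hkc, hkl, hkr⟩ := ((h3 r hr (hrr.trans_le k1)).and
    ((h5 r hr (hrr.trans_le k3)).and ((hc.lv _ hη).and (hc.ra _ hη)))).exists
  have e1 := min_le_left (ε * r) (ε * (K p * r) / 8)
  have e2 := min_le_right (ε * r) (ε * (K p * r) / 8)
  have e3 : 0 < ε * (K p * r) := mul_pos hε hKr
  refine hk Q (Lv P (Q, 0)) j5.le (by linarith) le_rfl ((hkl (Q, 0)).trans e1)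
    (hkc _ le_rfl hcell) ?_
  refine (h4 (K p * r) hKr j2 Q (K p * r) (by rw [sub_self, abs_zero]; exact hKr.le)
    (by linarith) le_rfl).clo (δ := min (ε * r) (ε * (K p * r) / 8)) (fun x hx => ?_)
    (by linarith)
  obtain ⟨x1, x2⟩ := abs_le.1 hx
  exact hkr x (by linarith) (by linarith)

/-- **Cells with a margin are closed**: the hypothesis of `staC_of` for `CellM`. -/
theorem cellM_hcl {L : ℕ → ℝ → ℝ → ℝ} {Lk : ℕ → ℕ → ℝ → ℝ → ℝ} {n R : ℕ} {S : Finset ℕ}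
    {σ k : ℕ → ℝ} {γ μ μ' : ℝ}
    (hL : ∀ i ≤ n, ∀ δ : ℝ, 0 < δ → ∀ᶠ t in U, LevC δ (L i) (Lk t i)) (hS : ∀ i ∈ S, i ≤ n)
    (hγ : 0 ≤ γ) (hμ' : 0 ≤ μ') (hμ : μ' < μ) (hk : ∀ j ≤ R, 0 ≤ k j ∧ k j ≤ k 0) :
    ∀ ε : ℝ, 0 < ε → ∃ ε' : ℝ, 0 < ε' ∧ ∀ w₁ : ℝ, 0 < w₁ → ∃ r₁ : ℝ, 0 < r₁ ∧
      ∀ r : ℝ, 0 < r → r < r₁ → ∀ᶠ t in U, ∀ a, w₁ ≤ a →
        CellM L n S σ R k γ μ a r ε' ∧ a + (γ + μ) * r ≤ 1 →
        CellM (Lk t) n S σ R k γ μ' a r ε := by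
  intro ε hε
  obtain ⟨s, hs⟩ : ∃ s : ℝ, s = ∑ i ∈ Finset.range (n + 1), |σ i| := ⟨_, rfl⟩
  have hs0 : 0 ≤ s := by
    rw [hs]
    exact Finset.sum_nonneg fun i _ => abs_nonneg _
  have hsi : ∀ i ≤ n, |σ i| ≤ s := by
    intro i hi
    rw [hs]
    exact Finset.single_le_sum (f := fun i => |σ i|) (fun i _ => abs_nonneg _)
      (Finset.mem_range.2 (by omega))
  refine ⟨ε / 4, by positivity, fun w₁ hw₁ => ?_⟩
  have hk0 := (hk 0 (Nat.zero_le R)).1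
  have hkμ : 0 < k 0 + μ := by linarith
  refine ⟨w₁ / (k 0 + μ), by positivity, fun r hr hrr => ?_⟩
  obtain ⟨δ, hδ⟩ : ∃ δ : ℝ, δ = min ((μ - μ') * r) (ε * r / (4 * (s + 1))) := ⟨_, rfl⟩
  have hδ0 : 0 < δ := by
    rw [hδ]
    exact lt_min (mul_pos (by linarith) hr) (by positivity)
  have hδ1 : δ ≤ (μ - μ') * r := by rw [hδ]; exact min_le_left _ _
  have hδ2 : s * δ ≤ ε * r / 4 := by
    have e1 : δ ≤ ε * r / (4 * (s + 1)) := by rw [hδ]; exact min_le_right _ _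
    rw [le_div_iff₀ (by positivity)] at e1
    nlinarith [mul_nonneg hs0 hδ0.le]
  have hev : ∀ᶠ t in U, ∀ i ∈ Finset.range (n + 1), LevC δ (L i) (Lk t i) :=
    (Filter.eventually_all_finset _).2 fun i hi => hL i (by
      have := Finset.mem_range.1 hi
      omega) δ hδ0
  filter_upwards [hev] with t ht a ha hcell
  have hlo : (k 0 + μ) * r ≤ a := by
    rw [lt_div_iff₀ hkμ] at hrr
    linarith
  have e2 : (μ - μ') * r = μ * r - μ' * r := by ring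
  rw [e2] at hδ1
  exact hcell.1.clo (fun i hi => ht i (Finset.mem_range.2 (by omega))) hS hδ0.le hr.le hγ hμ'
    (by linarith) hk hsi hlo hcell.2 (by nlinarith)

/-- **The limit numbers.** -/
theorem limits (U : Ultrafilter ℕ) {ι : Type*} (Pk : ℕ → ℝ → ℝ → ℝ) (Lk : ℕ → ι → ℝ → ℝ → ℝ)
    (ρk : ℕ → ℝ → ℝ) (hP : ∀ n, Law (Pk n))
    (hP0 : ∀ n a w, 0 ≤ w → w ≤ a → a ≤ 1 → 0 ≤ Pk n a w)
    (hP1 : ∀ n a w, 0 ≤ w → w ≤ a → a ≤ 1 → Pk n a w ≤ 1) (hL : ∀ n i, Law (Lk n i))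
    (hL0 : ∀ n i a w, 0 ≤ w → w ≤ a → a ≤ 1 → 0 ≤ Lk n i a w)
    (hL1 : ∀ n i a w, 0 ≤ w → w ≤ a → a ≤ 1 → Lk n i a w ≤ 1)
    (hρ : ∀ n x y, 0 ≤ x → x ≤ y → y ≤ 1 → ρk n x ≤ ρk n y ∧ ρk n y ≤ ρk n x + (y - x))
    (hρ0 : ∀ n, ρk n 0 = 0) :
    ∃ (P : ℝ → ℝ → ℝ) (L : ι → ℝ → ℝ → ℝ) (ρ : ℝ → ℝ), Law P ∧
      (∀ a w, 0 ≤ w → w ≤ a → a ≤ 1 → 0 ≤ P a w ∧ P a w ≤ 1) ∧ (∀ i, Law (L i)) ∧
      (∀ i a w, 0 ≤ w → w ≤ a → a ≤ 1 → 0 ≤ L i a w ∧ L i a w ≤ 1) ∧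
      (∀ x y, x ≤ y → ρ x ≤ ρ y ∧ ρ y ≤ ρ x + (y - x)) ∧ Cv U Pk P ρk ρ ∧
      (∀ δ : ℝ, 0 < δ → ∀ᶠ n in (U : Filter ℕ), LevC δ P (Pk n)) ∧
      (∀ i, ∀ δ : ℝ, 0 < δ → ∀ᶠ n in (U : Filter ℕ), LevC δ (L i) (Lk n i)) ∧
      ∀ i, ∀ δ : ℝ, 0 < δ → ∀ᶠ n in (U : Filter ℕ), ∀ p, |Lv (Lk n i) p - Lv (L i) p| ≤ δ := by
  obtain ⟨P, p1, p2, p3, -, p5, p6⟩ := ulim_law U Pk hP hP0 hP1
  choose L l1 l2 l3 l4 l5 l6 using fun i => ulim_law U (fun n => Lk n i) (fun n => hL n i)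
    (fun n a w => hL0 n i a w) (fun n a w => hL1 n i a w)
  obtain ⟨ρ, r1, r2, r3, r4⟩ := ulim_num U ρk 1 (fun n => by
    refine LipschitzOnWith.of_dist_le_mul fun x hx y hy => ?_
    rw [NNReal.coe_one, one_mul, Real.dist_eq, Real.dist_eq]
    rcases le_total x y with h | h
    · have := hρ n x y hx.1 h hy.2
      rw [abs_sub_comm, abs_of_nonneg (by linarith), abs_sub_comm, abs_of_nonneg (by linarith)]
      linarith
    · have := hρ n y x hy.1 h hx.2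
      rw [abs_of_nonneg (by linarith), abs_of_nonneg (by linarith)]
      linarith) 1 (fun n x hx => by
    have := hρ n 0 x le_rfl hx.1 hx.2
    rw [hρ0] at this
    rw [abs_of_nonneg this.1]
    linarith [hx.2])
  have hm : Monotone ρ := r3 fun n x hx y hy hxy => (hρ n x y hx.1 hxy hy.2).1
  refine ⟨P, L, ρ, p1, fun a w a1 a2 a3 => ⟨p2 a w a1 a2 a3, p3 a w a1 a2 a3⟩, l1,
    fun i a w a1 a2 a3 => ⟨l2 i a w a1 a2 a3, l3 i a w a1 a2 a3⟩, fun x y hxy => ⟨hm hxy, ?_⟩,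
    ⟨p5, fun δ hδ => (r4 δ hδ).mono fun n hn x x0 x1 => hn x ⟨x0, x1⟩⟩,
    fun δ hδ => (p6 δ hδ).mono fun n hn a w a1 a2 a3 => hn a w (hδ.le.trans a1) a2 (by linarith),
    fun i δ hδ => (l6 i δ hδ).mono fun n hn a w a1 a2 a3 =>
      hn a w (hδ.le.trans a1) a2 (by linarith), l5⟩
  have := r1.dist_le_mul y x
  rw [NNReal.coe_one, one_mul, Real.dist_eq, Real.dist_eq, abs_of_nonneg (by linarith [hm hxy]),
    abs_of_nonneg (by linarith)] at this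
  linarith

/-! ### The contradiction -/

/-- **The contradiction**: the rows above the diagonal threshold of one window cost the full
price, this threshold is at most `s + c / 2`, and the rows above `s` cost at most
`1 - s - c`. -/
theorem contra0 {P : ℝ → ℝ → ℝ} {ρ : ℝ → ℝ} {s c w : ℝ} (hc : 0 < c)
    (hl : ∀ x y, 0 ≤ x → x ≤ y → y ≤ 1 → ρ x ≤ ρ y ∧ ρ y ≤ ρ x + (y - x))
    (hs : 0 ≤ s) (hs1 : s ≤ 1) (h0 : 0 ≤ P w w) (h1 : P w w ≤ 1) (hw : P w w ≤ s + c / 2)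
    (hr : 1 - P w w ≤ ρ 1 - ρ (P w w)) (F1 : ρ 1 - ρ s ≤ 1 - s - c) : False := by
  rcases le_total s (P w w) with h | h
  · have := (hl s (P w w) hs h h1).1
    linarith
  · have := (hl (P w w) s h0 h hs1).2
    linarith

/-- **The contradiction, for a sequence of classes**: the diagonal threshold of one window
`w > 0` is at most `s + c / 4` for all large `k`, the rows above `s` cost at most `1 - s - c`,
the limit numbers satisfy `JmpN`, `MicB`, `StaN`. -/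
theorem contra {U : Filter ℕ} [U.NeBot] {Pk : ℕ → ℝ → ℝ → ℝ} {P : ℝ → ℝ → ℝ} {ρk : ℕ → ℝ → ℝ}
    {ρ : ℝ → ℝ} {s c w : ℝ} (hP : Law P)
    (hP01 : ∀ a w, 0 ≤ w → w ≤ a → a ≤ 1 → 0 ≤ P a w ∧ P a w ≤ 1)
    (hl : ∀ x y, x ≤ y → ρ x ≤ ρ y ∧ ρ y ≤ ρ x + (y - x)) (hc : Cv U Pk P ρk ρ)
    (hlev : ∀ δ : ℝ, 0 < δ → ∀ᶠ k in U, LevC δ P (Pk k)) (hJ : JmpN P ρ) (hM : MicB P ρ)
    (hS : StaN P ρ) (c0 : 0 < c) (hs : 0 ≤ s) (hs1 : s ≤ 1) (hw : 0 < w) (hw1 : w < 1)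
    (hd : ∀ᶠ k in U, Pk k w w ≤ s + c / 4)
    (F1 : ∀ᶠ k in U, ρk k 1 - ρk k s ≤ 1 - s - c) : False := by
  obtain ⟨w', hw'⟩ : ∃ w' : ℝ, w' = w / 2 := ⟨_, rfl⟩
  have hδ : 0 < min (w / 2) (1 - w) := lt_min (by linarith) (by linarith)
  have hw'0 : 0 < w' := by linarith
  have e1 := min_le_left (w / 2) (1 - w)
  have e2 := min_le_right (w / 2) (1 - w)
  have h1 : P w' w' ≤ s + c / 4 := by
    obtain ⟨k, k1, k2⟩ := ((hlev _ hδ).and hd).exists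
    have e3 := (k1 w w (by linarith) le_rfl (by linarith)).2
    have e4 : P w' w' ≤ P (w - min (w / 2) (1 - w)) (w - min (w / 2) (1 - w)) :=
      hP.mono hw'0.le le_rfl (by linarith) (by linarith) le_rfl (by linarith)
    linarith
  have h2 : ρ 1 - ρ s ≤ 1 - s - c / 2 := by
    obtain ⟨k, k1, k2⟩ := ((hc.ra (c / 4) (by linarith)).and F1).exists
    have e3 := abs_le.1 (k1 1 zero_le_one le_rfl)
    have e4 := abs_le.1 (k1 s hs hs1)
    linarith [e3.1, e3.2, e4.1, e4.2]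
  have hq := hP01 w' w' hw'0.le le_rfl (by linarith)
  have h3 := rowsB hP hw'0 (by linarith) hq.1 hq.2
    (fun x _ y _ hxy => (hl x y hxy).1) hJ hM hS
  exact contra0 (c := c / 2) (w := w') (by linarith) (fun x y _ hxy _ => hl x y hxy) hs hs1
    hq.1 hq.2 (by linarith) h3 h2

end Pool.CLO
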