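/-
H87/GEN/Cpt.lean (helper87): compactness, the pure part of row 310.

* `ult_lip`   : an ultrafilter version: a family `P i j` of functions on a totally bounded set,
  bounded and Lipschitz up to an error `x i → 0` (along the ultrafilter), converges uniformly
  on the set, along the ultrafilter, to Lipschitz functions.
* `lim_lip`   : the same for a countable index set and a subsequence.
* `lim_sub`   : helper1's statement (finite index set, cube, error free).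
* `ult_mono`  : families of monotone functions on an order interval of `κ → ℝ`: convergence
  along an ultrafilter, uniform up to a shift `δ` of the argument (Levy distance).
* `lim_mono`  : the same for a countable index set and a subsequence.
* `helly`     : Helly's theorem on `[0,1]`, countable index set, pointwise convergence at
  EVERY point of a subsequence.
-/
import Mathlib

open Filter Topology Set

namespace Pool.CPT

/-- bounded real families converge along ultrafilters -/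
theorem ult_lim {α : Type*} (U : Ultrafilter α) (f : α → ℝ) (C : ℝ) (h : ∀ i, |f i| ≤ C) :
    ∃ l : ℝ, |l| ≤ C ∧ Tendsto f U (𝓝 l) := by
  have hc : IsCompact (Icc (-C) C) := isCompact_Icc
  have h1 : ((U.map f : Ultrafilter ℝ) : Filter ℝ) ≤ 𝓟 (Icc (-C) C) := by
    rw [le_principal_iff]
    have h2 : ∀ᶠ i in (U : Filter α), f i ∈ Icc (-C) C :=
      Eventually.of_forall (fun i => abs_le.1 (h i))
    exact h2
  obtain ⟨l, hl, hle⟩ := hc.ultrafilter_le_nhds (U.map f) h1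
  exact ⟨l, abs_le.2 hl, hle⟩

/-- Uniform convergence along an ultrafilter of functions which are Lipschitz up to an error
tending to zero. -/
theorem ult_lip {α ι X : Type*} [PseudoMetricSpace X] (U : Ultrafilter α) (S : Set X)
    (hS : TotallyBounded S) (C : ι → ℝ) (x : α → ℝ) (hx : Tendsto x U (𝓝 0))
    (P : α → ι → X → ℝ)
    (hb : ∀ i j, ∀ p ∈ S, |P i j p| ≤ C j)
    (hl : ∀ i j, ∀ p ∈ S, ∀ q ∈ S, |P i j p - P i j q| ≤ C j * dist p q + x i) :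
    ∃ Q : ι → X → ℝ, (∀ j, ∀ p ∈ S, |Q j p| ≤ C j) ∧
      (∀ j, ∀ p ∈ S, ∀ q ∈ S, |Q j p - Q j q| ≤ C j * dist p q) ∧
      (∀ j, ∀ p ∈ S, Tendsto (fun i => P i j p) U (𝓝 (Q j p))) ∧
      ∀ j, ∀ ε > 0, ∀ᶠ i in (U : Filter α), ∀ p ∈ S, |P i j p - Q j p| ≤ ε := by
  classical
  have h1 : ∀ j, ∀ p : X, ∃ l : ℝ, p ∈ S → (|l| ≤ C j ∧
      Tendsto (fun i => P i j p) U (𝓝 l)) := by
    intro j p
    by_cases hp : p ∈ S
    · obtain ⟨l, hl1, hl2⟩ := ult_lim U (fun i => P i j p) (C j) (fun i => hb i j p hp)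
      exact ⟨l, fun _ => ⟨hl1, hl2⟩⟩
    · exact ⟨0, fun h => absurd h hp⟩
  choose Q hQ using h1
  have hlip : ∀ j, ∀ p ∈ S, ∀ q ∈ S, |Q j p - Q j q| ≤ C j * dist p q := by
    intro j p hp q hq
    have a1 : Tendsto (fun i => |P i j p - P i j q|) U (𝓝 |Q j p - Q j q|) :=
      (((hQ j p hp).2.sub (hQ j q hq).2)).abs
    have a2 : Tendsto (fun i => C j * dist p q + x i) U (𝓝 (C j * dist p q + 0)) :=
      tendsto_const_nhds.add hx
    rw [add_zero] at a2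
    exact le_of_tendsto_of_tendsto' a1 a2 (fun i => hl i j p hp q hq)
  refine ⟨Q, fun j p hp => (hQ j p hp).1, hlip, fun j p hp => (hQ j p hp).2, ?_⟩
  intro j ε hε
  -- a net
  set δ : ℝ := ε / (4 * (|C j| + 1)) with hδ
  have hCp : 0 < |C j| + 1 := by positivity
  have hδ0 : 0 < δ := by positivity
  have hCδ : C j * δ ≤ ε / 4 := by
    have : C j * δ ≤ (|C j| + 1) * δ :=
      mul_le_mul_of_nonneg_right (le_trans (le_abs_self _) (by linarith)) hδ0.le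
    refine le_trans this (le_of_eq ?_)
    rw [hδ]; field_simp
  obtain ⟨t, htS, htf, hcov⟩ := Metric.finite_approx_of_totallyBounded hS δ hδ0
  have e1 : ∀ᶠ i in (U : Filter α), ∀ y ∈ t, |P i j y - Q j y| < ε / 4 := by
    rw [eventually_all_finite htf]
    intro y hy
    have := (hQ j y (htS hy)).2
    have h2 := (Metric.tendsto_nhds.1 this) (ε / 4) (by positivity)
    filter_upwards [h2] with i hi
    rwa [Real.dist_eq] at hi
  have e2 : ∀ᶠ i in (U : Filter α), x i < ε / 4 :=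
    (tendsto_order.1 hx).2 _ (by positivity)
  filter_upwards [e1, e2] with i hi1 hi2 p hp
  obtain ⟨y, hy, hpy⟩ := mem_iUnion₂.1 (hcov hp)
  rw [Metric.mem_ball] at hpy
  have hyS := htS hy
  have hC0 : 0 ≤ C j := le_trans (abs_nonneg _) (hb i j p hp)
  have b1 : |P i j p - P i j y| ≤ ε / 4 + ε / 4 := by
    refine le_trans (hl i j p hp y hyS) ?_
    have : C j * dist p y ≤ C j * δ := mul_le_mul_of_nonneg_left hpy.le hC0
    linarith
  have b2 : |Q j y - Q j p| ≤ ε / 4 := by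
    refine le_trans (hlip j y hyS p hp) ?_
    rw [dist_comm]
    have : C j * dist p y ≤ C j * δ := mul_le_mul_of_nonneg_left hpy.le hC0
    linarith
  have b3 := hi1 y hy
  have : P i j p - Q j p = (P i j p - P i j y) + (P i j y - Q j y) + (Q j y - Q j p) := by ring
  rw [this]
  refine le_trans (abs_add_le _ _) ?_
  refine le_trans (add_le_add (abs_add_le _ _) le_rfl) ?_
  linarith

/-- diagonal extraction from an ultrafilter: countably many events, each of which holds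
eventually along a free ultrafilter, hold eventually along one subsequence -/
theorem extract (U : Ultrafilter ℕ) (hU : (U : Filter ℕ) ≤ atTop) (E : ℕ → ℕ → Prop)
    (hE : ∀ n, ∀ᶠ i in (U : Filter ℕ), E n i) :
    ∃ φ : ℕ → ℕ, StrictMono φ ∧ ∀ n, ∀ m, n ≤ m → E n (φ m) := by
  have h1 : ∀ m, ∃ᶠ i in atTop, ∀ n, n ≤ m → E n i := by
    intro m
    have : ∀ᶠ i in (U : Filter ℕ), ∀ n ∈ Finset.range (m + 1), E n i :=
      (Filter.eventually_all_finset _).2 (fun n _ => hE n)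
    have h2 : ∃ᶠ i in (U : Filter ℕ), ∀ n ∈ Finset.range (m + 1), E n i := this.frequently
    exact (h2.filter_mono hU).mono (fun i hi n hn => hi n (Finset.mem_range.2 (by omega)))
  obtain ⟨φ, hφ, hall⟩ := extraction_forall_of_frequently h1
  exact ⟨φ, hφ, fun n m hnm => hall m n hnm⟩

theorem hyper_le : ((hyperfilter ℕ : Ultrafilter ℕ) : Filter ℕ) ≤ atTop := by
  rw [← Nat.cofinite_eq_atTop]; exact hyperfilter_le_cofinite

/-- countable diagonal extraction, countably many families of events -/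
theorem extract_of_countable {β : Type*} [Countable β] (U : Ultrafilter ℕ)
    (hU : (U : Filter ℕ) ≤ atTop) (E : β → ℕ → Prop)
    (hE : ∀ b, ∀ᶠ i in (U : Filter ℕ), E b i) :
    ∃ φ : ℕ → ℕ, StrictMono φ ∧ ∀ b, ∃ i0, ∀ i, i0 ≤ i → E b (φ i) := by
  classical
  rcases isEmpty_or_nonempty β with hβ | hβ
  · exact ⟨id, strictMono_id, fun b => (hβ.false b).elim⟩
  · obtain ⟨e, he⟩ := exists_surjective_nat β
    obtain ⟨φ, hφ, hall⟩ := extract U hU (fun n i => E (e n) i) (fun n => hE (e n))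
    refine ⟨φ, hφ, fun b => ?_⟩
    obtain ⟨n, rfl⟩ := he b
    exact ⟨n, fun i hi => hall n i hi⟩

/-- **Compactness for functions which are Lipschitz up to an error tending to zero**,
countable index set, one subsequence for all. -/
theorem lim_lip {ι X : Type*} [Countable ι] [PseudoMetricSpace X] (S : Set X)
    (hS : TotallyBounded S) (C : ι → ℝ) (x : ℕ → ℝ) (hx : Tendsto x atTop (𝓝 0))
    (P : ℕ → ι → X → ℝ)
    (hb : ∀ i j, ∀ p ∈ S, |P i j p| ≤ C j)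
    (hl : ∀ i j, ∀ p ∈ S, ∀ q ∈ S, |P i j p - P i j q| ≤ C j * dist p q + x i) :
    ∃ φ : ℕ → ℕ, StrictMono φ ∧ ∃ Q : ι → X → ℝ, (∀ j, ∀ p ∈ S, |Q j p| ≤ C j) ∧
      (∀ j, ∀ p ∈ S, ∀ q ∈ S, |Q j p - Q j q| ≤ C j * dist p q) ∧
      (∀ j, ∀ p ∈ S, Tendsto (fun i => P (φ i) j p) atTop (𝓝 (Q j p))) ∧
      ∀ j, ∀ ε > 0, ∃ i0, ∀ i, i0 ≤ i → ∀ p ∈ S, |P (φ i) j p - Q j p| ≤ ε := by
  obtain ⟨Q, h1, h2, h3, h4⟩ := ult_lip (hyperfilter ℕ) S hS C x (hx.mono_left hyper_le) P hb hl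
  obtain ⟨φ, hφ, hall⟩ := extract_of_countable (β := ι × ℕ) (hyperfilter ℕ) hyper_le
    (fun b i => ∀ p ∈ S, |P i b.1 p - Q b.1 p| ≤ 1 / ((b.2 : ℝ) + 1))
    (fun b => h4 b.1 _ (by positivity))
  have h5 : ∀ j, ∀ ε > 0, ∃ i0, ∀ i, i0 ≤ i → ∀ p ∈ S, |P (φ i) j p - Q j p| ≤ ε := by
    intro j ε hε
    obtain ⟨n, hn⟩ := exists_nat_one_div_lt hε
    obtain ⟨i0, hi0⟩ := hall (j, n)
    exact ⟨i0, fun i hi p hp => le_trans (hi0 i hi p hp) hn.le⟩
  refine ⟨φ, hφ, Q, h1, h2, ?_, h5⟩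
  intro j p hp
  rw [Metric.tendsto_atTop]
  intro ε hε
  obtain ⟨i0, hi0⟩ := h5 j (ε / 2) (by positivity)
  refine ⟨i0, fun i hi => ?_⟩
  rw [Real.dist_eq]
  have := hi0 i hi p hp
  linarith

/-- helper1's statement, verbatim. -/
theorem lim_sub {k r : ℕ} (C : ℝ) (P : ℕ → Fin r → (Fin k → ℝ) → ℝ)
    (hb : ∀ i j x, (∀ l, 0 ≤ x l ∧ x l ≤ 1) → |P i j x| ≤ C)
    (hl : ∀ i j x y, (∀ l, 0 ≤ x l ∧ x l ≤ 1) → (∀ l, 0 ≤ y l ∧ y l ≤ 1) →
      |P i j x - P i j y| ≤ C * ∑ l, |x l - y l|) :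
    ∃ φ : ℕ → ℕ, StrictMono φ ∧ ∃ Q : Fin r → (Fin k → ℝ) → ℝ,
      (∀ j x, (∀ l, 0 ≤ x l ∧ x l ≤ 1) → |Q j x| ≤ C) ∧
      (∀ j x y, (∀ l, 0 ≤ x l ∧ x l ≤ 1) → (∀ l, 0 ≤ y l ∧ y l ≤ 1) →
        |Q j x - Q j y| ≤ C * ∑ l, |x l - y l|) ∧
      (∀ j x, (∀ l, 0 ≤ x l ∧ x l ≤ 1) →
        Tendsto (fun i => P (φ i) j x) atTop (𝓝 (Q j x))) ∧
      ∀ ε > 0, ∃ i0, ∀ i, i0 ≤ i → ∀ j x, (∀ l, 0 ≤ x l ∧ x l ≤ 1) →
        |P (φ i) j x - Q j x| ≤ ε := by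
  classical
  set S : Set (Fin k → ℝ) := {x | ∀ l, 0 ≤ x l ∧ x l ≤ 1} with hSdef
  have hSI : S = Icc (fun _ => (0 : ℝ)) (fun _ => 1) := by
    ext x
    simp only [hSdef, Set.mem_ofPred_eq, mem_Icc, Pi.le_def]
    constructor
    · intro h; exact ⟨fun l => (h l).1, fun l => (h l).2⟩
    · rintro ⟨h1, h2⟩ l; exact ⟨h1 l, h2 l⟩
  have hS : TotallyBounded S := by
    rw [hSI]; exact isCompact_Icc.totallyBounded
  rcases isEmpty_or_nonempty (Fin r) with hr | ⟨⟨j0⟩⟩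
  · exact ⟨id, strictMono_id, fun j => (hr.false j).elim, fun j => (hr.false j).elim,
      fun j => (hr.false j).elim, fun j => (hr.false j).elim,
      fun ε _ => ⟨0, fun i _ j => (hr.false j).elim⟩⟩
  have hC0 : 0 ≤ C := le_trans (abs_nonneg _) (hb 0 j0 0 (fun l => by simp))
  obtain ⟨φ, hφ, Q, h1, h2, h3, h4⟩ := lim_lip (ι := Fin r) S hS (fun _ => C * (k + 1))
    (fun _ => 0) tendsto_const_nhds P
    (fun i j p hp => le_trans (hb i j p hp) (by nlinarith [Nat.cast_nonneg (α := ℝ) k]))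
    (fun i j p hp q hq => by
      have a := hl i j p q hp hq
      have b : ∑ l, |p l - q l| ≤ ∑ _l : Fin k, dist p q :=
        Finset.sum_le_sum (fun l _ => by rw [← Real.dist_eq]; exact dist_le_pi_dist p q l)
      rw [Finset.sum_const, Finset.card_univ, Fintype.card_fin, nsmul_eq_mul] at b
      have c : C * ∑ l, |p l - q l| ≤ C * ((k : ℝ) * dist p q) :=
        mul_le_mul_of_nonneg_left b hC0
      have d : 0 ≤ dist p q := dist_nonneg
      nlinarith [mul_nonneg hC0 d])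
  refine ⟨φ, hφ, Q, ?_, ?_, h3, ?_⟩
  · intro j x hx
    exact le_of_tendsto' ((h3 j x hx).abs) (fun i => hb (φ i) j x hx)
  · intro j x y hx hy
    exact le_of_tendsto' (((h3 j x hx).sub (h3 j y hy)).abs) (fun i => hl (φ i) j x y hx hy)
  · intro ε hε
    choose i0 hi0 using fun j => h4 j ε hε
    refine ⟨Finset.univ.sup i0, fun i hi j x hx => ?_⟩
    exact hi0 j i (le_trans (Finset.le_sup (Finset.mem_univ j)) hi) x hx

/-! ### Monotone functions: the Levy form -/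

/-- A grid point between `p` and every `q` which is larger by `δ` in every coordinate
(or equal to `1` there; or where `p` vanishes). -/
theorem grid_pt {κ : Type*} (m : ℕ) (hm : 0 < m) (δ : ℝ) (hδ : 1 / (m : ℝ) ≤ δ)
    (p : κ → ℝ) (hp : ∀ l, 0 ≤ p l ∧ p l ≤ 1) :
    ∃ g : κ → Fin (m + 1), (∀ l, p l ≤ ((g l : ℕ) : ℝ) / m) ∧
      ∀ q : κ → ℝ, (∀ l, 0 ≤ q l ∧ q l ≤ 1) →
        (∀ l, p l + δ ≤ q l ∨ q l = 1 ∨ p l = 0) → ∀ l, ((g l : ℕ) : ℝ) / m ≤ q l := by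
  have hm' : (0 : ℝ) < m := by exact_mod_cast hm
  refine ⟨fun l => ⟨⌈(m : ℝ) * p l⌉₊, ?_⟩, ?_, ?_⟩
  · have : ⌈(m : ℝ) * p l⌉₊ ≤ m := by
      rw [Nat.ceil_le]
      nlinarith [(hp l).2]
    omega
  · intro l
    rw [le_div_iff₀ hm']
    have := Nat.le_ceil ((m : ℝ) * p l)
    show p l * m ≤ ((⌈(m : ℝ) * p l⌉₊ : ℕ) : ℝ)
    linarith [mul_comm (p l) (m : ℝ)]
  · intro q hq hpq l
    show ((⌈(m : ℝ) * p l⌉₊ : ℕ) : ℝ) / m ≤ q l
    rw [div_le_iff₀ hm']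
    rcases hpq l with h | h | h
    · have h1 : ((⌈(m : ℝ) * p l⌉₊ : ℕ) : ℝ) < (m : ℝ) * p l + 1 :=
        Nat.ceil_lt_add_one (mul_nonneg hm'.le (hp l).1)
      have h2 : 1 ≤ δ * m := by
        rw [div_le_iff₀ hm'] at hδ; exact hδ
      nlinarith
    · rw [h]
      have : ⌈(m : ℝ) * p l⌉₊ ≤ m := by
        rw [Nat.ceil_le]
        nlinarith [(hp l).2]
      rw [one_mul]; exact_mod_cast this
    · rw [h]
      simp only [mul_zero, Nat.ceil_zero, Nat.cast_zero]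
      exact mul_nonneg (hq l).1 hm'.le

/-- Convergence of monotone functions on the cube along an ultrafilter: pointwise
everywhere, and uniformly up to a shift `δ` of the argument. -/
theorem ult_mono {α ι κ : Type*} [Fintype κ] (U : Ultrafilter α) (C : ι → ℝ)
    (f : α → ι → (κ → ℝ) → ℝ)
    (hb : ∀ i j p, (∀ l, 0 ≤ p l ∧ p l ≤ 1) → |f i j p| ≤ C j)
    (hm : ∀ i j p q, (∀ l, 0 ≤ p l ∧ p l ≤ 1) → (∀ l, 0 ≤ q l ∧ q l ≤ 1) →
      (∀ l, p l ≤ q l) → f i j p ≤ f i j q) :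
    ∃ F : ι → (κ → ℝ) → ℝ,
      (∀ j p, (∀ l, 0 ≤ p l ∧ p l ≤ 1) → |F j p| ≤ C j ∧
        Tendsto (fun i => f i j p) U (𝓝 (F j p))) ∧
      (∀ j p q, (∀ l, 0 ≤ p l ∧ p l ≤ 1) → (∀ l, 0 ≤ q l ∧ q l ≤ 1) →
        (∀ l, p l ≤ q l) → F j p ≤ F j q) ∧
      ∀ j, ∀ δ > 0, ∀ᶠ i in (U : Filter α), ∀ p q : κ → ℝ,
        (∀ l, 0 ≤ p l ∧ p l ≤ 1) → (∀ l, 0 ≤ q l ∧ q l ≤ 1) →
        (∀ l, p l + δ ≤ q l ∨ q l = 1 ∨ p l = 0) →
          f i j p ≤ F j q + δ ∧ F j p ≤ f i j q + δ := by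
  classical
  have h1 : ∀ j, ∀ p : κ → ℝ, ∃ y : ℝ, (∀ l, 0 ≤ p l ∧ p l ≤ 1) → (|y| ≤ C j ∧
      Tendsto (fun i => f i j p) U (𝓝 y)) := by
    intro j p
    by_cases hp : ∀ l, 0 ≤ p l ∧ p l ≤ 1
    · obtain ⟨y, hy1, hy2⟩ := ult_lim U (fun i => f i j p) (C j) (fun i => hb i j p hp)
      exact ⟨y, fun _ => ⟨hy1, hy2⟩⟩
    · exact ⟨0, fun h => absurd h hp⟩
  choose F hF using h1
  have hFm : ∀ j p q, (∀ l, 0 ≤ p l ∧ p l ≤ 1) → (∀ l, 0 ≤ q l ∧ q l ≤ 1) →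
      (∀ l, p l ≤ q l) → F j p ≤ F j q := fun j p q hp hq hpq =>
    le_of_tendsto_of_tendsto' (hF j p hp).2 (hF j q hq).2 (fun i => hm i j p q hp hq hpq)
  refine ⟨F, hF, hFm, ?_⟩
  intro j δ hδ
  obtain ⟨m0, hm0⟩ := exists_nat_one_div_lt hδ
  set m : ℕ := m0 + 1 with hmdef
  have hmp : 0 < m := by omega
  have hmδ : 1 / (m : ℝ) ≤ δ := by rw [hmdef]; push_cast; exact hm0.le
  have hm' : (0 : ℝ) < m := by exact_mod_cast hmp
  have hgc : ∀ g : κ → Fin (m + 1), ∀ l, 0 ≤ ((g l : ℕ) : ℝ) / m ∧ ((g l : ℕ) : ℝ) / m ≤ 1 := by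
    intro g l
    refine ⟨by positivity, ?_⟩
    rw [div_le_one hm']
    have := (g l).2
    exact_mod_cast (by omega : (g l : ℕ) ≤ m)
  have e1 : ∀ᶠ i in (U : Filter α), ∀ g : κ → Fin (m + 1),
      |f i j (fun l => ((g l : ℕ) : ℝ) / m) - F j (fun l => ((g l : ℕ) : ℝ) / m)| < δ := by
    rw [eventually_all]
    intro g
    have h2 := (Metric.tendsto_nhds.1 (hF j _ (hgc g)).2) δ hδ
    filter_upwards [h2] with i hi
    rwa [Real.dist_eq] at hi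
  filter_upwards [e1] with i hi p q hp hq hpq
  obtain ⟨g, hg1, hg2⟩ := grid_pt m hmp δ hmδ p hp
  have hgq := hg2 q hq hpq
  have hgi := abs_lt.1 (hi g)
  constructor
  · have a := hm i j p _ hp (hgc g) hg1
    have b := hFm j _ q (hgc g) hq hgq
    linarith
  · have a := hFm j p _ hp (hgc g) hg1
    have b := hm i j _ q (hgc g) hq hgq
    linarith

/-- The same for a subsequence, countable index set. -/
theorem lim_mono {ι κ : Type*} [Countable ι] [Fintype κ] (C : ι → ℝ)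
    (f : ℕ → ι → (κ → ℝ) → ℝ)
    (hb : ∀ i j p, (∀ l, 0 ≤ p l ∧ p l ≤ 1) → |f i j p| ≤ C j)
    (hm : ∀ i j p q, (∀ l, 0 ≤ p l ∧ p l ≤ 1) → (∀ l, 0 ≤ q l ∧ q l ≤ 1) →
      (∀ l, p l ≤ q l) → f i j p ≤ f i j q) :
    ∃ φ : ℕ → ℕ, StrictMono φ ∧ ∃ F : ι → (κ → ℝ) → ℝ,
      (∀ j p, (∀ l, 0 ≤ p l ∧ p l ≤ 1) → |F j p| ≤ C j) ∧
      (∀ j p q, (∀ l, 0 ≤ p l ∧ p l ≤ 1) → (∀ l, 0 ≤ q l ∧ q l ≤ 1) →
        (∀ l, p l ≤ q l) → F j p ≤ F j q) ∧
      ∀ j, ∀ δ > 0, ∃ i0, ∀ i, i0 ≤ i → ∀ p q : κ → ℝ,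
        (∀ l, 0 ≤ p l ∧ p l ≤ 1) → (∀ l, 0 ≤ q l ∧ q l ≤ 1) →
        (∀ l, p l + δ ≤ q l ∨ q l = 1 ∨ p l = 0) →
          f (φ i) j p ≤ F j q + δ ∧ F j p ≤ f (φ i) j q + δ := by
  obtain ⟨F, h1, h2, h3⟩ := ult_mono (hyperfilter ℕ) C f hb hm
  obtain ⟨φ, hφ, hall⟩ := extract_of_countable (β := ι × ℕ) (hyperfilter ℕ) hyper_le
    (fun b i => ∀ p q : κ → ℝ,
        (∀ l, 0 ≤ p l ∧ p l ≤ 1) → (∀ l, 0 ≤ q l ∧ q l ≤ 1) →
        (∀ l, p l + 1 / ((b.2 : ℝ) + 1) ≤ q l ∨ q l = 1 ∨ p l = 0) →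
          f i b.1 p ≤ F b.1 q + 1 / ((b.2 : ℝ) + 1) ∧ F b.1 p ≤ f i b.1 q + 1 / ((b.2 : ℝ) + 1))
    (fun b => h3 b.1 _ (by positivity))
  refine ⟨φ, hφ, F, fun j p hp => (h1 j p hp).1, h2, ?_⟩
  intro j δ hδ
  obtain ⟨n, hn⟩ := exists_nat_one_div_lt hδ
  obtain ⟨i0, hi0⟩ := hall (j, n)
  refine ⟨i0, fun i hi p q hp hq hpq => ?_⟩
  have := hi0 i hi p q hp hq (fun l => (hpq l).imp_left (fun h => by
    show p l + 1 / ((n : ℝ) + 1) ≤ q l
    linarith))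
  simp only at this
  exact ⟨by linarith [this.1], by linarith [this.2]⟩

/-- **Helly's selection theorem** on `[0,1]`, countably many sequences at once, convergence
at every point. -/
theorem helly {ι : Type*} [Countable ι] (C : ι → ℝ) (f : ℕ → ι → ℝ → ℝ)
    (hb : ∀ i j p, 0 ≤ p → p ≤ 1 → |f i j p| ≤ C j)
    (hm : ∀ i j p q, 0 ≤ p → p ≤ q → q ≤ 1 → f i j p ≤ f i j q) :
    ∃ φ : ℕ → ℕ, StrictMono φ ∧ ∃ F : ι → ℝ → ℝ,
      (∀ j p, 0 ≤ p → p ≤ 1 → |F j p| ≤ C j) ∧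
      (∀ j p q, 0 ≤ p → p ≤ q → q ≤ 1 → F j p ≤ F j q) ∧
      ∀ j p, 0 ≤ p → p ≤ 1 → Tendsto (fun i => f (φ i) j p) atTop (𝓝 (F j p)) := by
  classical
  set U := hyperfilter ℕ with hU
  have h1 : ∀ j, ∀ p : ℝ, ∃ y : ℝ, (0 ≤ p ∧ p ≤ 1) → (|y| ≤ C j ∧
      Tendsto (fun i => f i j p) U (𝓝 y)) := by
    intro j p
    by_cases hp : 0 ≤ p ∧ p ≤ 1
    · obtain ⟨y, hy1, hy2⟩ := ult_lim U (fun i => f i j p) (C j) (fun i => hb i j p hp.1 hp.2)
      exact ⟨y, fun _ => ⟨hy1, hy2⟩⟩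
    · exact ⟨0, fun h => absurd h hp⟩
  choose F hF using h1
  have hFm : ∀ j, MonotoneOn (F j) (Icc 0 1) := by
    intro j p hp q hq hpq
    exact le_of_tendsto_of_tendsto' (hF j p hp).2 (hF j q hq).2
      (fun i => hm i j p q hp.1 hpq hq.2)
  -- the countable set of test points
  let D : ι → Set ℝ := fun j => ({x | x ∈ Icc (0 : ℝ) 1 ∧ ¬ ContinuousWithinAt (F j) (Icc 0 1) x} ∪
    (range (fun q : ℚ => (q : ℝ)) ∩ Icc 0 1))
  have hD : ∀ j, (D j).Countable := fun j =>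
    (hFm j).countable_not_continuousWithinAt.union
      ((countable_range _).mono inter_subset_left)
  have hDc : ∀ j, Countable (D j) := fun j => (hD j).to_subtype
  have hDsub : ∀ j, ∀ x ∈ D j, x ∈ Icc (0 : ℝ) 1 := by
    rintro j x (hx | hx)
    · exact hx.1
    · exact hx.2
  obtain ⟨φ, hφ, hall⟩ := extract_of_countable (β := (Σ j, D j) × ℕ) U hyper_le
    (fun b i => |f i b.1.1 b.1.2.1 - F b.1.1 b.1.2.1| ≤ 1 / ((b.2 : ℝ) + 1))
    (fun b => by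
      have h2 := (Metric.tendsto_nhds.1 (hF b.1.1 b.1.2.1 (hDsub _ _ b.1.2.2)).2)
        (1 / ((b.2 : ℝ) + 1)) (by positivity)
      filter_upwards [h2] with i hi
      rw [Real.dist_eq] at hi
      exact hi.le)
  have hlimD : ∀ j, ∀ x ∈ D j, ∀ ε > 0, ∃ i0, ∀ i, i0 ≤ i → |f (φ i) j x - F j x| ≤ ε := by
    intro j x hx ε hε
    obtain ⟨n, hn⟩ := exists_nat_one_div_lt hε
    obtain ⟨i0, hi0⟩ := hall (⟨j, ⟨x, hx⟩⟩, n)
    exact ⟨i0, fun i hi => le_trans (hi0 i hi) hn.le⟩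
  refine ⟨φ, hφ, F, fun j p h0 h1 => (hF j p ⟨h0, h1⟩).1,
    fun j p q h0 hpq h1 => hFm j ⟨h0, by linarith⟩ ⟨by linarith, h1⟩ hpq, ?_⟩
  intro j p h0 h1
  rw [Metric.tendsto_atTop]
  intro ε hε
  by_cases hpD : p ∈ D j
  · obtain ⟨i0, hi0⟩ := hlimD j p hpD (ε / 2) (by positivity)
    refine ⟨i0, fun i hi => ?_⟩
    rw [Real.dist_eq]
    have := hi0 i hi
    linarith
  · have hc : ContinuousWithinAt (F j) (Icc 0 1) p := by
      by_contra h
      exact hpD (Or.inl ⟨⟨h0, h1⟩, h⟩)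
    have hpQ : ∀ q : ℚ, (q : ℝ) ≠ p := by
      intro q hq
      exact hpD (Or.inr ⟨⟨q, hq⟩, ⟨h0, h1⟩⟩)
    have hp0 : 0 < p := lt_of_le_of_ne h0 (fun h => hpQ 0 (by simpa using h))
    have hp1 : p < 1 := lt_of_le_of_ne h1 (fun h => hpQ 1 (by simpa using h.symm))
    obtain ⟨η, hη, hball⟩ := Metric.continuousWithinAt_iff.1 hc (ε / 3) (by positivity)
    obtain ⟨a, ha1, ha2⟩ := exists_rat_btwn (max_lt (by linarith : p - η < p) hp0)
    obtain ⟨b, hb1, hb2⟩ := exists_rat_btwn (lt_min (by linarith : p < p + η) hp1)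
    have ha3 := max_lt_iff.1 ha1
    have hb3 := lt_min_iff.1 hb2
    have haI : (a : ℝ) ∈ Icc (0 : ℝ) 1 := ⟨ha3.2.le, by linarith⟩
    have hbI : (b : ℝ) ∈ Icc (0 : ℝ) 1 := ⟨by linarith, hb3.2.le⟩
    have haF := hball haI (by rw [Real.dist_eq, abs_lt]; constructor <;> linarith [ha3.1])
    have hbF := hball hbI (by rw [Real.dist_eq, abs_lt]; constructor <;> linarith [hb3.1])
    rw [Real.dist_eq, abs_lt] at haF hbF
    obtain ⟨i1, hi1⟩ := hlimD j a (Or.inr ⟨⟨a, rfl⟩, haI⟩) (ε / 3) (by positivity)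
    obtain ⟨i2, hi2⟩ := hlimD j b (Or.inr ⟨⟨b, rfl⟩, hbI⟩) (ε / 3) (by positivity)
    refine ⟨max i1 i2, fun i hi => ?_⟩
    have e1 := abs_le.1 (hi1 i (le_trans (le_max_left _ _) hi))
    have e2 := abs_le.1 (hi2 i (le_trans (le_max_right _ _) hi))
    have m1 := hm (φ i) j a p haI.1 (by linarith) h1
    have m2 := hm (φ i) j p b h0 (by linarith) hbI.2
    rw [Real.dist_eq, abs_lt]
    constructor <;> linarith [e1.1, e1.2, e2.1, e2.2, haF.1, haF.2, hbF.1, hbF.2]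

end Pool.CPT
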