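import Pool.Agent.H87.GEN.Nvg

/-!
# One more coordinate of the direction, over a finer window

`slpY_cmp`: the derivatives of small polynomials, from the shear for small steps. `cst_step`: if the
derivative of the label of `c i` of the window `w` is almost constant in the windows `w` and `w'`, the
direction has a component at `c i` which is closed at `w'` and which is the derivative of the label at
the samples.
-/

set_option autoImplicit false

namespace Pool.SHR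

open Finset Real MvPolynomial
open Pool.Agent.H49.Ent Pool.Agent.H32.Dense Pool.STK Pool.KA Pool.KSAT Pool.K2S Pool.PB Pool.S6C
open Pool.GEN Pool.CHT Pool.ISO
open Pool.FLF (Fam.sub)

variable {m J : ℕ}

/-- **The derivatives at a point** of small polynomials, from the shear for small steps. -/
theorem slpY_cmp (D r : ℕ) : ∃ C : ℕ, ∀ {m J : ℕ} {F : Fam m J} {c : ℕ → Fin m}
    {l i a k y p Y : ℕ} {g : ℕ → ℕ} {G : PtT F → ℕ → MvPolynomial (Option (Fin m)) ℝ}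
    {v : PtT F → Fin m → ℝ} {P : MvPolynomial (Option (Fin m)) ℝ} {ω : F.Ω}
    {b : Option (Fin m) → ℝ}, g l ≤ Y → i < r →
    Set.InjOn c (Set.Iio i) → (∀ y l, (G y l).totalDegree ≤ D) → (∀ y l, DepC c l (G y l)) →
    DepC c i P → P.totalDegree ≤ D →
    v (ptr F J ω) (c l) = 1 → (∀ j < l, v (ptr F J ω) (c j) = 0) →
    (∀ j < i, l < j → ShrY F c a Y g G v y j ω) → NBx c (G (ptr F J ω)) g a (F.t ω) i b →
    (∀ b, NBx c (G (ptr F J ω)) g a (F.t ω) i b → |eval b P| ≤ 2 ^ k / 2 ^ p) →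
    |eval b (dir (v (ptr F J ω)) P)| ≤ 2 ^ (C * (k + y + 1)) * 2 ^ Y / 2 ^ p := by
  obtain ⟨c₀, D₁, hD₁, hdil⟩ := nbx_dil r (fun _ => D)
  obtain ⟨Cm, hC, hmar⟩ := markov D
  obtain ⟨c₁, hc₁⟩ := pow_unbounded_of_one_lt Cm (one_lt_two (α := ℝ))
  refine ⟨c₁ + c₀ + D₁ + 1, ?_⟩
  intro m J F c l i a k y p Y g G v P ω b hY hi hc hdeg hdep hPd hP h1 h0 hS hb hk
  refine (hmar (v (ptr F J ω)) b P (2 ^ (c₀ + (y + 1) * D₁) * (2 ^ k / 2 ^ p)) Y hP
    (by positivity) fun s hs0 hs1 => ?_).trans ?_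
  · have hs : |s| ≤ 1 / 2 ^ Y := by rw [abs_of_nonneg hs0]; exact hs1
    obtain ⟨m1, m2⟩ := mvp_box (fun j => hdep _ j) h0 h1 hb (hs.trans (inv_le_of hY))
      fun j hj hlj => hS j hj hlj b (hb.mono le_rfl hj.le) s hs
    exact hdil (c := c) (i := i) (G := G (ptr F J ω)) (Q := P) (g := g) (a := a) (t := F.t ω)
      (M := 2 ^ k / 2 ^ p) (y + 1) hi hc (hdeg _) (hdep _) hPd hP (by positivity) hk _ m1 m2
  · calc Cm * (2 ^ (c₀ + (y + 1) * D₁) * (2 ^ k / 2 ^ p)) * 2 ^ Y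
        ≤ 2 ^ c₁ * (2 ^ (c₀ + (y + 1) * D₁) * (2 ^ k / 2 ^ p)) * 2 ^ Y := by
          refine mul_le_mul_of_nonneg_right (mul_le_mul_of_nonneg_right hc₁.le ?_) ?_ <;>
            positivity
      _ = 2 ^ (c₁ + (c₀ + (y + 1) * D₁) + k) * 2 ^ Y / 2 ^ p := by
          rw [pow_add 2 (c₁ + (c₀ + (y + 1) * D₁)), pow_add 2 c₁]; ring
      _ ≤ _ := by
          refine div_le_div_of_nonneg_right (mul_le_mul_of_nonneg_right
            (pow_le_pow_right₀ (by norm_num) ?_) (by positivity)) (by positivity)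
          nlinarith

/-- **One more coordinate.** -/
theorem cst_step (D r : ℕ) : ∃ C : ℕ, ∀ {m J : ℕ} {F : Fam m J} {c : ℕ → Fin m}
    {l i a w w' e h σ y Y V V₀ : ℕ} {g Yc : ℕ → ℕ} {κ : ℝ} {B₀ B' : F.Ω → Prop}
    {G : PtT F → ℕ → MvPolynomial (Option (Fin m)) ℝ}
    {H : LnT F → ℕ → MvPolynomial (Option (Fin m)) ℝ}
    {v : PtT F → Fin m → ℝ} {v' : LnT F → Fin m → ℝ}, w ≤ w' → w' ≤ J → g l ≤ Y → Y ≤ V →
    V ≤ V₀ → i < r → l < i →
    Set.InjOn c (Set.Iio (i + 1)) → RelvH F c i a w g Yc D h κ B₀ G → Sub B' B₀ → 0 ≤ κ →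
    κ * 16 * Pe F.p B₀ ≤ Pe F.p B' → ChOK F c (i + 1) (fun _ => D) a w e g B' G H →
    NVG F c l i a w w g Y y V₀ κ B₀ G H → NVG F c l i a w w' g Y y V κ B₀ G H →
    (∀ j < i, Yc j ≤ J) → (∀ j < i + 1, e + g j + σ + C ≤ J) → h + C + V₀ ≤ σ + V →
    (∀ ω, B' ω → v (ptr F J ω) = v' (slam F w ω)) →
    (∀ ω, B' ω → v (ptr F J ω) (c l) = 1 ∧ ∀ j < l, v (ptr F J ω) (c j) = 0) →
    (∀ ω, B' ω → ∀ j < i, l < j → ShrY F c a Y g G v y j ω ∧
      |eval (bt F ω) (dir (v (ptr F J ω)) (G (ptr F J ω) j)) - v (ptr F J ω) (c j)| ≤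
        2 ^ y * 2 ^ Y / 2 ^ g j) →
    ∃ (B : F.Ω → Prop) (x : PtT F → ℝ) (x' : LnT F → ℝ), Sub B B' ∧
      Pe F.p B' / 2 ^ 4 ≤ Pe F.p B ∧ (∀ ω, B ω → x (ptr F J ω) = x' (slam F w' ω)) ∧
      ∀ ω, B ω → |eval (bt F ω) (dir (v (ptr F J ω)) (G (ptr F J ω) i)) - x (ptr F J ω)| ≤
          2 ^ (C * (y + 1)) * 2 ^ V / 2 ^ g i := by
  classical
  obtain ⟨C₂, hcmp⟩ := slpY_cmp D r
  obtain ⟨c₃, hscl⟩ := scl r D (fun _ => D)
  obtain hcell := fun r' : ℕ => near_cell r' (fun _ => D)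
  choose c₄ hcell using hcell
  obtain ⟨c₅, hc₅⟩ : ∃ c₅, c₅ = ∑ x ∈ range (r + 1), c₄ x := ⟨_, rfl⟩
  have hc45 : ∀ x ≤ r, c₄ x ≤ c₅ := by
    intro x hx
    rw [hc₅]
    exact Finset.single_le_sum (f := fun x => c₄ x) (fun x _ => Nat.zero_le _)
      (mem_range.2 (Nat.lt_succ_of_le hx))
  refine ⟨c₅ + c₃ + C₂ + 8, ?_⟩
  intro m J F c l i a w w' e h σ y Y V V₀ g Yc κ B₀ B' G H v v' hww hwJ hgY hYV hVV hi hli hc hR hB' hκ0
    hP hL hNV₀ hNV hYc hJ hσ hv hv1 hy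
  have hci : Set.InjOn c (Set.Iio i) := hc.mono (Set.Iio_subset_Iio (Nat.le_succ i))
  obtain ⟨nat, hnat⟩ : ∃ nat : ℝ, nat = 1 / 2 ^ g i := ⟨_, rfl⟩
  have hnat0 : 0 < nat := by rw [hnat]; positivity
  have hPn := Pe_nonneg F.isLaw B₀
  have hκP : 0 ≤ κ * Pe F.p B₀ := mul_nonneg hκ0 hPn
  -- the derivative along the line
  obtain ⟨B₀₁, j1, j2, j3⟩ := hNV₀ B' hB' (by linarith) v v' hv hv1 hy
  obtain ⟨B₁, k1', k2, k3⟩ := hNV B₀₁ (fun ω h => hB' ω (j1 ω h)) (by linarith) v v'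
    (fun ω h => hv ω (j1 ω h)) (fun ω h => hv1 ω (j1 ω h)) (fun ω h => hy ω (j1 ω h))
  have k1 : Sub B₁ B' := fun ω h => j1 ω (k1' ω h)
  -- the two sides
  obtain ⟨P, hPd⟩ : ∃ P : PtT F → MvPolynomial (Option (Fin m)) ℝ,
      P = fun p => dir (v p) (G p i) := ⟨_, rfl⟩
  obtain ⟨al, hal⟩ : ∃ al : PtT F → ℝ, al = fun p => eval (bho J J p) (P p) := ⟨_, rfl⟩
  obtain ⟨be, hbe⟩ : ∃ be : LnT F → ℝ, be = fun s =>
      if h : ∃ ω, B₁ ω ∧ slam F w ω = s then eval (bt F h.choose) (dir (v' s) (H s i))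
      else 0 := ⟨_, rfl⟩
  obtain ⟨be', hbe'⟩ : ∃ be' : LnT F → ℝ, be' = fun s =>
      if h : ∃ ω, B₁ ω ∧ slam F w' ω = s then eval (bt F h.choose) (dir
        (v' (s.1, s.2.1, s.2.2 / 2 ^ (w' - w))) (H (s.1, s.2.1, s.2.2 / 2 ^ (w' - w)) i))
      else 0 := ⟨_, rfl⟩
  have hbeta : ∀ ω, B₁ ω → |eval (bt F ω) (dir (v (ptr F J ω)) (H (slam F w ω) i)) -
      be (slam F w ω)| ≤ 2 ^ V₀ * nat := by
    intro ω hω
    have hex : ∃ ω', B₁ ω' ∧ slam F w ω' = slam F w ω := ⟨ω, hω, rfl⟩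
    have h1 := hex.choose_spec
    have h2 := j3 ω hex.choose (k1' ω hω) (k1' _ h1.1) h1.2.symm
    rw [hbe]
    show |_ - (if h : ∃ ω', B₁ ω' ∧ slam F w ω' = slam F w ω then
      eval (bt F h.choose) (dir (v' (slam F w ω)) (H (slam F w ω) i)) else 0)| ≤ _
    rw [dif_pos hex, ← hv ω (k1 ω hω), hnat, mul_one_div]
    exact h2
  have hbeta' : ∀ ω, B₁ ω → |eval (bt F ω) (dir (v (ptr F J ω)) (H (slam F w ω) i)) -
      be' (slam F w' ω)| ≤ 2 ^ V * nat := by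
    intro ω hω
    have hex : ∃ ω', B₁ ω' ∧ slam F w' ω' = slam F w' ω := ⟨ω, hω, rfl⟩
    have h1 := hex.choose_spec
    have h2 := k3 ω hex.choose hω h1.1 h1.2.symm
    rw [hbe']
    show |_ - (if h : ∃ ω', B₁ ω' ∧ slam F w' ω' = slam F w' ω then eval (bt F h.choose) (dir
      (v' ((slam F w' ω).1, (slam F w' ω).2.1, (slam F w' ω).2.2 / 2 ^ (w' - w)))
        (H ((slam F w' ω).1, (slam F w' ω).2.1, (slam F w' ω).2.2 / 2 ^ (w' - w)) i))
      else 0)| ≤ _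
    rw [dif_pos hex, slam_coarse' F hww hwJ ω, ← hv ω (k1 ω hω), hnat, mul_one_div]
    exact h2
  -- the agreement of the two sides
  have hagr : ∀ ω, B' ω → ∀ b, NBx c (G (ptr F J ω)) g a (F.t ω) i b →
      |eval b (P (ptr F J ω)) - eval b (dir (v (ptr F J ω)) (H (slam F w ω) i))| ≤
        2 ^ (C₂ * (y + 1)) * 2 ^ Y * nat := by
    intro ω hω b hb
    have h1 := hcmp (c := c) (l := l) (i := i) (a := a) (k := 0) (y := y) (p := g i) (g := g)
      (Y := Y) (G := G) (v := v) (P := G (ptr F J ω) i - H (slam F w ω) i) (ω := ω) (b := b) hgY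
      hi hci hL.degG hL.depG (fun b b' hn hb => by
        rw [map_sub, map_sub, hL.depG _ i b b' hn hb, hL.depH _ i b b' hn hb])
      ((totalDegree_sub _ _).trans (max_le (hL.degG _ i) (hL.degH _ i))) (hv1 ω hω).1
      (hv1 ω hω).2 (fun j hj hlj => (hy ω hω j hj hlj).1) hb (fun b hb => by
        rw [map_sub, pow_zero]
        exact hL.agr ω hω i (Nat.lt_succ_self i) b hb)
    rw [dir_sub, map_sub, zero_add] at h1
    rw [hPd, hnat, mul_one_div]
    exact h1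
  obtain ⟨x₀, hx₀⟩ : ∃ x₀, x₀ = C₂ * (y + 1) + 2 := ⟨_, rfl⟩
  obtain ⟨A, hA⟩ : ∃ A : ℝ, A = 2 ^ x₀ * 2 ^ V * nat := ⟨_, rfl⟩
  obtain ⟨A₀, hA₀⟩ : ∃ A₀ : ℝ, A₀ = 2 ^ x₀ * 2 ^ V₀ * nat := ⟨_, rfl⟩
  have hA0 : 0 < A := by rw [hA]; positivity
  have hA₀0 : 0 < A₀ := by rw [hA₀]; positivity
  have hsumg : ∀ W : ℕ, Y ≤ W → 2 * (2 ^ (C₂ * (y + 1)) * 2 ^ Y * nat) + 2 ^ W * nat ≤
      2 ^ x₀ * 2 ^ W * nat := by
    intro W hW
    have h0 : 2 ^ (C₂ * (y + 1)) * (2 : ℝ) ^ Y ≤ 2 ^ (C₂ * (y + 1)) * 2 ^ W :=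
      mul_le_mul_of_nonneg_left (pow_le_pow_right₀ (by norm_num) hW) (by positivity)
    have h2 : (1 : ℝ) * 2 ^ W ≤ 2 ^ (C₂ * (y + 1)) * 2 ^ W :=
      mul_le_mul_of_nonneg_right (one_le_pow₀ (by norm_num)) (by positivity)
    have h3 : (2 : ℝ) ^ x₀ = 4 * 2 ^ (C₂ * (y + 1)) := by rw [hx₀, pow_add]; ring
    rw [h3]
    have h4 : 0 < (2 : ℝ) ^ (C₂ * (y + 1)) * 2 ^ W := by positivity
    have h5 := mul_le_mul_of_nonneg_right h0 hnat0.le
    have h6 := mul_le_mul_of_nonneg_right h2 hnat0.le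
    have h7 := mul_pos h4 hnat0
    nlinarith
  obtain ⟨ρ, hρ⟩ : ∃ ρ : F.Ω → ℝ, ρ = fun ω =>
      |eval (bt F ω) (P (ptr F J ω)) - al (ptr F J ω)| := ⟨_, rfl⟩
  have hρ0 : ∀ ω, 0 ≤ ρ ω := fun ω => by rw [hρ]; exact abs_nonneg _
  have habg : ∀ ω, B₁ ω → ∀ (β x : ℝ), |eval (bt F ω) (dir (v (ptr F J ω)) (H (slam F w ω) i)) -
      β| ≤ x → |al (ptr F J ω) - β| ≤ ρ ω + 2 ^ (C₂ * (y + 1)) * 2 ^ Y * nat + x := by
    intro ω hω β x h1
    have h2 := hagr ω (k1 ω hω) _ (hL.self (k1 ω hω) (Nat.le_succ i))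
    have h3 : ρ ω = |al (ptr F J ω) - eval (bt F ω) (P (ptr F J ω))| := by
      rw [hρ]; exact abs_sub_comm _ _
    have h4 := abs_sub_le (al (ptr F J ω)) (eval (bt F ω) (P (ptr F J ω))) β
    have h5 := abs_sub_le (eval (bt F ω) (P (ptr F J ω)))
      (eval (bt F ω) (dir (v (ptr F J ω)) (H (slam F w ω) i))) β
    linarith
  have hnear : ∀ ω k, |((F.X J ω k : ℤ) : ℝ) / 2 ^ J - F.x ω k| ≤ 1 / 2 ^ J := fun ω k =>
    Pool.PB.Trl.x_near F J ω k
  have hPdeg : ∀ p, (P p).totalDegree ≤ D := fun p => by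
    rw [hPd]; exact dir_deg _ (hL.degG p i)
  have hPdep : ∀ p, DepC c i (P p) := fun p => by
    rw [hPd]; exact dir_dep _ (hL.depG p i)
  obtain ⟨B₂, l1, l2, l3⟩ := hR B₁ (fun ω h => hB' ω (k1 ω h)) (by linarith)
    (fun p => P p - C (al p)) (fun s => dir (v' s) (H s i) - C (be s)) (fun ω => A₀ + ρ ω)
    (fun ω => bho J J (ptr F J ω))
    (fun p => (totalDegree_sub _ _).trans (max_le (hPdeg p) (by
      rw [totalDegree_C]; exact Nat.zero_le _)))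
    (fun s => (totalDegree_sub _ _).trans (max_le (dir_deg _ (hL.degH s i)) (by
      rw [totalDegree_C]; exact Nat.zero_le _)))
    (fun p b b' hn hb => by
      rw [map_sub, map_sub, eval_C, eval_C, hPdep p b b' hn hb])
    (fun s b b' hn hb => by
      rw [map_sub, map_sub, eval_C, eval_C, dir_dep (v' s) (hL.depH s i) b b' hn hb])
    (fun ω _ => by linarith [hρ0 ω]) (fun ω _ => ⟨rfl, fun j hj => by
      refine (hnear ω (c j)).trans (inv_mono (hYc j hj))⟩)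
    (fun ω _ => by
      have e1 : eval (bho J J (ptr F J ω)) (P (ptr F J ω) - C (al (ptr F J ω))) = 0 := by
        rw [map_sub, eval_C, hal, sub_self]
      rw [e1, abs_zero]
      linarith [hρ0 ω])
    (fun ω hω b hb => by
      have h1 := hagr ω (k1 ω hω) b hb
      have h2 := habg ω hω _ _ (hbeta ω hω)
      rw [map_sub, map_sub, eval_C, eval_C, ← hv ω (k1 ω hω)]
      have e1 : eval b (P (ptr F J ω)) - al (ptr F J ω) -
          (eval b (dir (v (ptr F J ω)) (H (slam F w ω) i)) - be (slam F w ω)) =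
          (eval b (P (ptr F J ω)) - eval b (dir (v (ptr F J ω)) (H (slam F w ω) i))) -
            (al (ptr F J ω) - be (slam F w ω)) := by ring
      rw [e1]
      have h3 := abs_sub (eval b (P (ptr F J ω)) -
        eval b (dir (v (ptr F J ω)) (H (slam F w ω) i))) (al (ptr F J ω) - be (slam F w ω))
      have h4 := hsumg V₀ (hYV.trans hVV)
      rw [← hA₀] at h4
      linarith)
  -- the value at the sample is near the value at the rounded point
  have hρA : ∀ ω, B₂ ω → ρ ω ≤ A := by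
    intro ω hω
    have hω' := k1 ω (l1 ω hω)
    have hself := hL.self hω' (Nat.le_succ i)
    have h2 : ∀ j < i, |(bho J J (ptr F J ω) (some (c j)) -
        eval (bho J J (ptr F J ω)) (G (ptr F J ω) j)) -
        (bt F ω (some (c j)) - eval (bt F ω) (G (ptr F J ω) j))| ≤ 2 ^ 0 / 2 ^ (g j + σ) := by
      intro j hj
      have h3 := (hcell (i + 1) (x := bt F ω) (v := σ) (e := e) (J := J) (g := g) (a := a)
        (G := G (ptr F J ω)) hc (hL.degG _) (hL.depG _) (fun j hj => hL.pos ω hω' j hj)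
        (fun j hj b hb => hL.lip ω hω' j hj b hb) (fun j hj => by
          have h1 := hJ j hj
          have h2 := hc45 (i + 1) (by omega)
          omega) j (by omega) (bho J J (ptr F J ω)) rfl (fun j _ => hnear ω (c j))).2 (by omega)
      have h4 := hnear ω (c j)
      have h5 : (1 : ℝ) / 2 ^ J ≤ 1 / 4 / 2 ^ (g j + σ) := by
        have h6 := hJ j (by omega)
        have h7 : (2 : ℝ) ^ (g j + σ + 2) ≤ 2 ^ J := pow_le_pow_right₀ (by norm_num) (by omega)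
        rw [div_div, div_le_div_iff₀ (by positivity) (by positivity)]
        rw [pow_add] at h7
        linarith
      have e1 : (bho J J (ptr F J ω) (some (c j)) -
          eval (bho J J (ptr F J ω)) (G (ptr F J ω) j)) -
          (bt F ω (some (c j)) - eval (bt F ω) (G (ptr F J ω) j)) =
          (((F.X J ω (c j) : ℤ) : ℝ) / 2 ^ J - F.x ω (c j)) -
            (eval (bho J J (ptr F J ω)) (G (ptr F J ω) j) -
              eval (bt F ω) (G (ptr F J ω) j)) := by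
        have e2 : bho J J (ptr F J ω) (some (c j)) = ((F.X J ω (c j) : ℤ) : ℝ) / 2 ^ J := rfl
        have e3 : bt F ω (some (c j)) = F.x ω (c j) := rfl
        rw [e2, e3]
        ring
      rw [e1, pow_zero]
      have h6 := abs_sub (((F.X J ω (c j) : ℤ) : ℝ) / 2 ^ J - F.x ω (c j))
        (eval (bho J J (ptr F J ω)) (G (ptr F J ω) j) - eval (bt F ω) (G (ptr F J ω) j))
      have h7 : (1 : ℝ) / 4 / 2 ^ (g j + σ) + 1 / 4 / 2 ^ (g j + σ) ≤ 1 / 2 ^ (g j + σ) := by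
        have h8 : (0 : ℝ) < 1 / 2 ^ (g j + σ) := by positivity
        have h9 : (1 : ℝ) / 4 / 2 ^ (g j + σ) = 1 / 2 ^ (g j + σ) / 4 := by ring
        rw [h9]
        linarith
      linarith
    have h3 := hscl (c := c) (i := i) (G := G (ptr F J ω))
      (Q := P (ptr F J ω) - C (al (ptr F J ω))) (g := g) (a := a) (n := 0) (v := σ)
      (M := 2 ^ h * (A₀ + ρ ω)) (x := bt F ω) (b := bho J J (ptr F J ω)) hi hci (hL.degG _)
      (hL.depG _) (fun b b' hn hb => by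
        rw [map_sub, map_sub, eval_C, eval_C, hPdep _ b b' hn hb])
      ((totalDegree_sub _ _).trans (max_le (hPdeg _) (by
        rw [totalDegree_C]; exact Nat.zero_le _)))
      (mul_nonneg (by positivity) (by linarith [hρ0 ω])) (fun b hb => l3 ω hω b hb)
      (fun j hj => hL.pos ω hω' j (by omega)) (Nat.zero_le _) (by
        show |F.t ω - F.t ω| ≤ _
        rw [sub_self, abs_zero]
        positivity) h2
    have e1 : eval (bho J J (ptr F J ω)) (P (ptr F J ω) - C (al (ptr F J ω))) = 0 := by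
      rw [map_sub, eval_C, hal, sub_self]
    have e2 : |eval (bho J J (ptr F J ω)) (P (ptr F J ω) - C (al (ptr F J ω))) -
        eval (bt F ω) (P (ptr F J ω) - C (al (ptr F J ω)))| = ρ ω := by
      rw [e1, zero_sub, abs_neg, map_sub, eval_C, hρ]
    rw [e2] at h3
    -- the fraction
    obtain ⟨z, hz⟩ : ∃ z : ℝ, z = 2 ^ (c₃ + 0) / 2 ^ σ * 2 ^ h := ⟨_, rfl⟩
    have hz0 : 0 < z := by rw [hz]; positivity
    have hz1 : z ≤ 1 / 2 := by
      rw [hz, div_mul_eq_mul_div, ← pow_add, div_le_div_iff₀ (by positivity) (by norm_num), one_mul,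
        ← pow_succ]
      exact pow_le_pow_right₀ (by norm_num) (by omega)
    have hz2 : 2 * (z * A₀) ≤ A := by
      have e3 : 2 * (z * A₀) = 2 ^ (c₃ + h + 1 + V₀) / 2 ^ σ * (2 ^ x₀ * nat) := by
        rw [hz, hA₀, add_zero, pow_add 2 (c₃ + h + 1) V₀, pow_succ, pow_add 2 c₃ h]
        ring
      have e4 : A = 2 ^ V * (2 ^ x₀ * nat) := by rw [hA]; ring
      rw [e3, e4]
      refine mul_le_mul_of_nonneg_right ?_ (by positivity)
      rw [div_le_iff₀ (by positivity), ← pow_add]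
      exact pow_le_pow_right₀ (by norm_num) (by omega)
    have h4 : ρ ω ≤ z * (A₀ + ρ ω) := by
      rw [hz, mul_assoc]
      exact h3
    have h5 := mul_le_mul_of_nonneg_right hz1 (hρ0 ω)
    have h6 : z * (A₀ + ρ ω) = z * A₀ + z * ρ ω := by ring
    linarith
  -- the rounding
  obtain ⟨ε, hε⟩ : ∃ ε : ℝ, ε = 8 * A := ⟨_, rfl⟩
  have hε0 : 0 < ε := by rw [hε]; linarith
  have htwo : ∀ ω, B₂ ω → rnd ε 0 (al (ptr F J ω)) = rnd ε 0 (be' (slam F w' ω)) ∨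
      rnd ε (1 / 2) (al (ptr F J ω)) = rnd ε (1 / 2) (be' (slam F w' ω)) := by
    intro ω hω
    refine rnd_two hε0 ?_
    have h1 := habg ω (l1 ω hω) _ _ (hbeta' ω (l1 ω hω))
    have h2 := hρA ω hω
    have h4 := hsumg V hYV
    rw [← hA] at h4
    have h5 : 0 < 2 ^ (C₂ * (y + 1)) * 2 ^ Y * nat := by positivity
    rw [hε]
    linarith
  have hcov := Pool.PZ.Zrt.Pe_cover F.isLaw htwo
  obtain ⟨s, B₃, m1, m2, m3⟩ : ∃ (s : ℝ) (B₃ : F.Ω → Prop), Sub B₃ B₂ ∧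
      Pe F.p B₂ / 2 ≤ Pe F.p B₃ ∧ ∀ ω, B₃ ω → rnd ε s (al (ptr F J ω)) =
        rnd ε s (be' (slam F w' ω)) := by
    rcases le_total (Pe F.p fun ω => B₂ ω ∧ rnd ε 0 (al (ptr F J ω)) =
        rnd ε 0 (be' (slam F w' ω))) (Pe F.p fun ω => B₂ ω ∧ rnd ε (1 / 2) (al (ptr F J ω)) =
        rnd ε (1 / 2) (be' (slam F w' ω))) with h1 | h1
    · exact ⟨1 / 2, fun ω => B₂ ω ∧ rnd ε (1 / 2) (al (ptr F J ω)) =
        rnd ε (1 / 2) (be' (slam F w' ω)), fun ω h => h.1, by linarith, fun ω h => h.2⟩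
    · exact ⟨0, fun ω => B₂ ω ∧ rnd ε 0 (al (ptr F J ω)) = rnd ε 0 (be' (slam F w' ω)),
        fun ω h => h.1, by linarith, fun ω h => h.2⟩
  refine ⟨B₃, fun p => rnd ε s (al p), fun s' => rnd ε s (be' s'),
    fun ω h => k1 ω (l1 ω (m1 ω h)), ?_, m3, fun ω hω => ?_⟩
  · have : (2 : ℝ) ^ 4 = 2 * 2 * 2 * 2 := by norm_num
    rw [this]
    have h1 : Pe F.p B' / (2 * 2 * 2 * 2) = Pe F.p B' / 2 / 2 / 2 / 2 := by
      field_simp
    rw [h1]
    linarith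
  · have h1 := hρA ω (m1 ω hω)
    have h2 := rnd_near hε0 s (al (ptr F J ω))
    have h3 := abs_sub_le (eval (bt F ω) (P (ptr F J ω))) (al (ptr F J ω))
      (rnd ε s (al (ptr F J ω)))
    have h4 : |al (ptr F J ω) - rnd ε s (al (ptr F J ω))| ≤ ε := by
      rw [abs_sub_comm]; exact h2
    have h5 : ρ ω = |eval (bt F ω) (P (ptr F J ω)) - al (ptr F J ω)| := by rw [hρ]
    have h6 : |eval (bt F ω) (P (ptr F J ω)) - rnd ε s (al (ptr F J ω))| ≤ 16 * A := by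
      linarith [hε.le]
    have h7 : 16 * A = 2 ^ (x₀ + 4) * 2 ^ V / 2 ^ g i := by
      rw [hA, hnat, pow_add]
      ring
    rw [h7, hPd] at h6
    refine h6.trans (div_le_div_of_nonneg_right (mul_le_mul_of_nonneg_right
      (pow_le_pow_right₀ (by norm_num) ?_) (by positivity)) (by positivity))
    rw [hx₀]
    have e5 : (c₅ + c₃ + C₂ + 8) * (y + 1) = (c₅ + c₃ + 8) * (y + 1) + C₂ * (y + 1) := by ring
    have e6 : 8 * 1 ≤ (c₅ + c₃ + 8) * (y + 1) := Nat.mul_le_mul (by omega) (by omega)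
    omega

end Pool.SHR
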