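import Pool.Agent.H87.GEN.Pnt
import Pool.Agent.H39.GEN.MicW

/-!
# `MicW` at the rows

It is enough to treat the rows with slopes (`Row`).
-/

set_option autoImplicit false

namespace Pool.STR

open MeasureTheory Set Filter Topology Pool.LEV
open scoped ENNReal

/-- `MicW` from the absence of cells at the rows. -/
theorem micW_of_micP {ι : Type*} [Countable ι] {P : ℝ → ℝ → ℝ} (hP : Law P)
    {L : ι → ℝ → ℝ → ℝ} (hL : ∀ i, Law (L i)) {Z : Set ℝ} (hZ : volume Z = 0) {ρ : ℝ → ℝ}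
    (hM : MicP P L Z ρ) : MicW P ρ := by
  filter_upwards [ae_row hP hL hZ (ρ := ρ), hM] with Q k1 k2 h0 h1 hw hd hc hdr hlt
  obtain ⟨n, hn⟩ := exists_nat_one_div_lt (sub_pos.2 hlt)
  exact wfu_of_micQ hP (k2 _ _ _ _ (k1 h0 h1 hw hd hc hdr (1 / ((n : ℝ) + 1)) (by positivity)
    (by linarith)))

/-- **`MicW` at the rows**: it is enough to treat the rows with slopes. -/
theorem micW_of_row {ι : Type*} [Countable ι] {P : ℝ → ℝ → ℝ} (hP : Law P)
    {L : ι → ℝ → ℝ → ℝ} (hL : ∀ i, Law (L i)) {Z : Set ℝ} (hZ : volume Z = 0) {ρ : ℝ → ℝ}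
    (hM : ∀ᵐ Q : ℝ, ∀ (h a sN : ℝ) (s : ι → ℝ), Row P L Z ρ h Q a sN s → WfU P Q) :
    MicW P ρ := by
  filter_upwards [ae_row hP hL hZ (ρ := ρ), hM] with Q k1 k2 h0 h1 hw hd hc hdr hlt
  obtain ⟨n, hn⟩ := exists_nat_one_div_lt (sub_pos.2 hlt)
  exact k2 _ _ _ _ (k1 h0 h1 hw hd hc hdr (1 / ((n : ℝ) + 1)) (by positivity) (by linarith))

end Pool.STR
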