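import Pool.Agent.H87.GEN.Vld

/-!
# The variation of the closed derivative over a shorter window

`NVG`: the derivative of the label of `c i` of the window `w` in a direction which is closed at `w`
is almost constant along the line in the windows `w' ≥ w`. `NVC`: the same in a class, real numbers
in units of `J`.
-/

set_option autoImplicit false

namespace Pool.SHR

open Finset Real MvPolynomial
open Pool.Agent.H49.Ent Pool.Agent.H32.Dense Pool.STK Pool.KA Pool.KSAT Pool.K2S Pool.PB Pool.S6C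
open Pool.GEN Pool.CHT
open Pool.Z3 (Nod)

variable {m J : ℕ}

/-- **The variation over the window `w'`** of the derivative of the label of the window `w` of `c i`
in a direction closed at `w`. -/
def NVG (F : Fam m J) (c : ℕ → Fin m) (l i a w w' : ℕ) (g : ℕ → ℕ) (Y y V : ℕ) (κ : ℝ)
    (B₀ : F.Ω → Prop) (G : PtT F → ℕ → MvPolynomial (Option (Fin m)) ℝ)
    (H : LnT F → ℕ → MvPolynomial (Option (Fin m)) ℝ) : Prop :=
  ∀ B' : F.Ω → Prop, Sub B' B₀ → κ * Pe F.p B₀ ≤ Pe F.p B' →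
    ∀ (v : PtT F → Fin m → ℝ) (v' : LnT F → Fin m → ℝ),
    (∀ ω, B' ω → v (ptr F J ω) = v' (slam F w ω)) →
    (∀ ω, B' ω → v (ptr F J ω) (c l) = 1 ∧ ∀ j < l, v (ptr F J ω) (c j) = 0) →
    (∀ ω, B' ω → ∀ j < i, l < j → ShrY F c a Y g G v y j ω ∧
      |eval (bt F ω) (dir (v (ptr F J ω)) (G (ptr F J ω) j)) - v (ptr F J ω) (c j)| ≤
        2 ^ y * 2 ^ Y / 2 ^ g j) →
    ∃ B'' : F.Ω → Prop, Sub B'' B' ∧ Pe F.p B' / 2 ≤ Pe F.p B'' ∧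
      ∀ ω ω', B'' ω → B'' ω' → slam F w' ω = slam F w' ω' →
        |eval (bt F ω) (dir (v (ptr F J ω)) (H (slam F w ω) i)) -
          eval (bt F ω') (dir (v (ptr F J ω)) (H (slam F w ω) i))| ≤ 2 ^ V / 2 ^ g i

/-- Larger errors, larger shares. -/
theorem NVG.mono {F : Fam m J} {c : ℕ → Fin m} {l i a w w' : ℕ} {g : ℕ → ℕ} {Y Y' y y' V V' : ℕ}
    {κ κ' : ℝ} {B₀ : F.Ω → Prop} {G : PtT F → ℕ → MvPolynomial (Option (Fin m)) ℝ}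
    {H : LnT F → ℕ → MvPolynomial (Option (Fin m)) ℝ}
    (h : NVG F c l i a w w' g Y y V κ B₀ G H) (hY : Y' ≤ Y) (hy : y' ≤ y) (hV : V ≤ V')
    (hκ : κ ≤ κ') : NVG F c l i a w w' g Y' y' V' κ' B₀ G H := by
  intro B' hB hP v v' hv hv1 hx
  obtain ⟨B'', k1, k2, k3⟩ := h B' hB ((mul_le_mul_of_nonneg_right hκ
    (Pe_nonneg F.isLaw B₀)).trans hP) v v' hv hv1 (fun ω hω j hj hlj =>
      ⟨(hx ω hω j hj hlj).1.mono hY hy, (hx ω hω j hj hlj).2.trans (by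
        refine div_le_div_of_nonneg_right (mul_le_mul (pow_le_pow_right₀ (by norm_num) hy)
          (pow_le_pow_right₀ (by norm_num) hY) (by positivity) (by positivity)) (by positivity))⟩)
  exact ⟨B'', k1, k2, fun ω ω' h1 h2 h3 => (k3 ω ω' h1 h2 h3).trans
    (div_le_div_of_nonneg_right (pow_le_pow_right₀ (by norm_num) hV) (by positivity))⟩

/-- **The variation over the window `w'`** in a class. -/
def NVC (S : PCl m) (c : ℕ → Fin m) (r l i : ℕ) (β : ℕ → ℝ → ℝ → ℝ) (e E ϱ a₀ w w' Li Lo : ℝ) :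
    Prop :=
  ∀ D : ℕ, ∃ (Dr : ℕ) (δ : ℝ), 0 < δ ∧ ∀ d : ℕ → ℝ, (∀ j ≤ r, 0 < d j ∧ d j ≤ δ) →
    ∀ ψ₀ : ℝ, 0 < ψ₀ → ∃ ψ : ℝ, 0 < ψ ∧ ∀ κ₁ : ℝ, 0 < κ₁ → Bas S (fun J F A =>
      ∀ (B₀ : F.Ω → Prop) (G : PtT F → ℕ → MvPolynomial (Option (Fin m)) ℝ)
        (H : LnT F → ℕ → MvPolynomial (Option (Fin m)) ℝ), Sub B₀ A →
        κ₁ * Pe F.p A ≤ Pe F.p B₀ →
        Nod F c r D Dr ⌊a₀ * J⌋₊ ⌊w * J⌋₊ ⌊e * J⌋₊ ⌊(E + ϱ) * J⌋₊
          (fun j => ⌊(β j a₀ w - d j) * J⌋₊) ⌊δ * J⌋₊ ⌊(1 - ϱ) * J⌋₊ ⌊(1 - (E + ϱ)) * J⌋₊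
          (Real.exp (-(ψ₀ * J))) B₀ G H →
        NVG F c l i ⌊a₀ * J⌋₊ ⌊w * J⌋₊ ⌊w' * J⌋₊ (fun j => ⌊(β j a₀ w - d j) * J⌋₊)
          ⌊(β l a₀ w + Li) * J⌋₊ ⌊δ * J⌋₊ ⌊(β l a₀ w + Lo) * J⌋₊ (Real.exp (-(ψ * J))) B₀ G H)

end Pool.SHR
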