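import Pool.Agent.H87.GEN.Cbr

/-!
# The slopes at the samples, from node to node

`dir_box`: the derivative, in any direction, of a polynomial which is small on a natural box, in
terms of the velocities of the heights. `own_cmp`: the derivatives at the sample of two near labels.
`own_win`, `own_rad`: from the slopes at one node to the slopes at another node.
-/

set_option autoImplicit false

namespace Pool.SHR

open Finset Real MvPolynomial
open Pool.Agent.H49.Ent Pool.Agent.H32.Dense Pool.STK Pool.KA Pool.KSAT Pool.K2S Pool.PB Pool.S6C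
open Pool.GEN Pool.CHT Pool.ISO
open Pool.FLF (Fam.sub)

variable {m J : ℕ}

/-- The derivative of a polynomial along the direction. -/
theorem hasDeriv_mvp (v : Fin m → ℝ) (b : Option (Fin m) → ℝ)
    (P : MvPolynomial (Option (Fin m)) ℝ) :
    HasDerivAt (fun s => eval (mvp v s b) P) (eval b (dir v P)) 0 := by
  have h := (MvPolynomial.aeval (lnv v b) P).hasDerivAt 0
  rw [der_lnv, mvp_zero] at h
  have e : (fun s => eval (mvp v s b) P) = fun s => (MvPolynomial.aeval (lnv v b) P).eval s := by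
    funext s
    rw [eval_lnv]
  rw [e]
  exact h

/-- Difference quotients are bounded by the derivative. -/
theorem eventually_le {f : ℝ → ℝ} {f' Λ : ℝ} (hf : HasDerivAt f f' 0) (h : |f'| < Λ) :
    ∀ᶠ s in nhdsWithin (0 : ℝ) {0}ᶜ, |f s - f 0| ≤ Λ * |s| := by
  have h4 : Filter.Tendsto (slope f 0) (nhdsWithin 0 {0}ᶜ) (nhds f') :=
    hasDerivAt_iff_tendsto_slope.1 hf
  have h5 := h4.abs
  have h6 := h5.eventually (ge_mem_nhds h)
  filter_upwards [self_mem_nhdsWithin, h6] with s hs1 hs2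
  have hs0 : s ≠ 0 := hs1
  have e1 : f s - f 0 = slope f 0 s * s := by
    rw [slope_def_field, sub_zero, div_mul_cancel₀ _ hs0]
  rw [e1, abs_mul]
  exact mul_le_mul_of_nonneg_right hs2 (abs_nonneg _)

/-- **The derivative in any direction** of a polynomial which is small on a natural box. -/
theorem dir_box (D r : ℕ) : ∃ C : ℕ, ∀ {m : ℕ} {c : ℕ → Fin m} {i a : ℕ} {g : ℕ → ℕ}
    {G : ℕ → MvPolynomial (Option (Fin m)) ℝ} {Q : MvPolynomial (Option (Fin m)) ℝ}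
    {v : Fin m → ℝ} {b : Option (Fin m) → ℝ} {t M Λ : ℝ}, i < r → Set.InjOn c (Set.Iio i) →
    (∀ l, (G l).totalDegree ≤ D) → (∀ l, DepC c l (G l)) → DepC c i Q → Q.totalDegree ≤ D →
    0 ≤ M → (∀ b, NBx c G g a t i b → |eval b Q| ≤ M) → b none = t →
    (∀ j < i, |b (some (c j)) - eval b (G j)| ≤ 1 / 2 ^ g j) →
    (∀ j < i, |v (c j) - eval b (dir v (G j))| * 2 ^ g j ≤ Λ) → 0 ≤ Λ →
    |eval b (dir v Q)| ≤ 2 ^ C * M * Λ := by
  obtain ⟨c₀, hdbl⟩ := nbx_dbl r (fun _ => D)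
  obtain ⟨D', hD'⟩ : ∃ D', D' = ∑ i ∈ range r, D * dga (fun _ => D) i := ⟨_, rfl⟩
  obtain ⟨C, hC, hlip⟩ := nbx_lip D'
  obtain ⟨c₁, hc₁⟩ := pow_unbounded_of_one_lt C (one_lt_two (α := ℝ))
  refine ⟨c₁ + c₀, ?_⟩
  intro m c i a g G Q v b t M Λ hi hc hdeg hdep hQ hQd hM0 hM hb0 hb hΛ hΛ0
  have hDi : D * dga (fun _ => D) i ≤ D' := by
    rw [hD']
    exact Finset.single_le_sum (f := fun i => D * dga (fun _ => D) i) (fun _ _ => Nat.zero_le _)
      (mem_range.2 hi)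
  refine le_of_forall_pos_le_add fun ε hε => ?_
  -- a larger number
  obtain ⟨Λ', hΛ', hΛ'2⟩ : ∃ Λ', Λ < Λ' ∧ 2 ^ (c₁ + c₀) * M * Λ' ≤ 2 ^ (c₁ + c₀) * M * Λ + ε := by
    obtain ⟨X, hX⟩ : ∃ X : ℝ, X = 2 ^ (c₁ + c₀) * M + 1 := ⟨_, rfl⟩
    have hX0 : 0 < X := by rw [hX]; positivity
    refine ⟨Λ + ε / X, by
      have : 0 < ε / X := div_pos hε hX0
      linarith, ?_⟩
    have h1 : 2 ^ (c₁ + c₀) * M * (ε / X) ≤ ε := by
      calc 2 ^ (c₁ + c₀) * M * (ε / X) ≤ X * (ε / X) :=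
            mul_le_mul_of_nonneg_right (by rw [hX]; linarith) (by positivity)
        _ = ε := by field_simp
    calc 2 ^ (c₁ + c₀) * M * (Λ + ε / X) = 2 ^ (c₁ + c₀) * M * Λ +
          2 ^ (c₁ + c₀) * M * (ε / X) := by ring
      _ ≤ _ := by linarith
  have hΛ'0 : 0 < Λ' := lt_of_le_of_lt hΛ0 hΛ'
  -- the heights
  have hheight : ∀ j < i, ∀ᶠ s in nhdsWithin (0 : ℝ) {0}ᶜ,
      |(mvp v s b (some (c j)) - eval (mvp v s b) (G j)) - (b (some (c j)) - eval b (G j))| ≤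
        Λ' * |s| / 2 ^ g j := by
    intro j hj
    have h1 : HasDerivAt (fun s => mvp v s b (some (c j)) - eval (mvp v s b) (G j))
        (v (c j) - eval b (dir v (G j))) 0 := by
      refine HasDerivAt.sub ?_ (hasDeriv_mvp v b (G j))
      have h2 : HasDerivAt (fun s : ℝ => b (some (c j)) + s * v (c j)) (1 * v (c j)) 0 :=
        ((hasDerivAt_id (0 : ℝ)).mul_const _).const_add _
      rw [one_mul] at h2
      exact h2
    have h3 : |v (c j) - eval b (dir v (G j))| < Λ' / 2 ^ g j := by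
      rw [lt_div_iff₀ (by positivity)]
      exact lt_of_le_of_lt (hΛ j hj) hΛ'
    have h4 := eventually_le h1 h3
    simp only [mvp_zero] at h4
    filter_upwards [h4] with s hs
    calc _ ≤ Λ' / 2 ^ g j * |s| := hs
      _ = _ := by ring
  have hall : ∀ᶠ s in nhdsWithin (0 : ℝ) {0}ᶜ, ∀ j < i,
      |(mvp v s b (some (c j)) - eval (mvp v s b) (G j)) - (b (some (c j)) - eval b (G j))| ≤
        Λ' * |s| / 2 ^ g j := by
    have : ∀ᶠ s in nhdsWithin (0 : ℝ) {0}ᶜ, ∀ j ∈ Set.Iio i,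
        |(mvp v s b (some (c j)) - eval (mvp v s b) (G j)) - (b (some (c j)) - eval b (G j))| ≤
          Λ' * |s| / 2 ^ g j :=
      (Set.finite_Iio i).eventually_all.2 fun j hj => hheight j hj
    filter_upwards [this] with s hs j hj
    exact hs j hj
  have hsmall : ∀ᶠ s in nhdsWithin (0 : ℝ) {0}ᶜ, Λ' * |s| ≤ 1 := by
    have h1 : Set.Ioo (-(1 / Λ')) (1 / Λ') ∈ nhds (0 : ℝ) :=
      Ioo_mem_nhds (by rw [neg_lt_zero]; positivity) (by positivity)
    filter_upwards [mem_nhdsWithin_of_mem_nhds h1] with s hs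
    have h2 : |s| ≤ 1 / Λ' := abs_le.2 ⟨hs.1.le, hs.2.le⟩
    calc Λ' * |s| ≤ Λ' * (1 / Λ') := mul_le_mul_of_nonneg_left h2 hΛ'0.le
      _ = 1 := by field_simp
  have hbound : ∀ᶠ s in nhdsWithin (0 : ℝ) {0}ᶜ,
      |slope (fun s => eval (mvp v s b) Q) 0 s| ≤ 2 ^ (c₁ + c₀) * M * Λ' := by
    filter_upwards [self_mem_nhdsWithin, hall, hsmall] with s hs0 hs1 hs2
    have hs0' : s ≠ 0 := hs0
    have hsa : 0 < |s| := abs_pos.2 hs0'
    have h1 := hlip (K := fun _ => D) (G := G) (Q := Q) (g := g) (a := a) (D₀ := D) (t := t)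
      (M := 2 ^ c₀ * M) (lam := Λ' * |s|) (b := b) (b' := mvp v s b) hc hdeg hdep hQ hQd hDi
      (by positivity) hs2 (fun b hb1 hb2 => hdbl hi hc hdeg hdep hQ hQd hM0 hM b hb1 hb2) hb0 hb
      (by
        rw [mvp_none, hb0, sub_self, abs_zero]
        positivity) hs1
    rw [slope_def_field, sub_zero, mvp_zero, abs_div, div_le_iff₀ hsa]
    refine h1.trans ?_
    have h2 : C * (2 ^ c₀ * M) ≤ 2 ^ c₁ * (2 ^ c₀ * M) :=
      mul_le_mul_of_nonneg_right hc₁.le (by positivity)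
    calc C * (2 ^ c₀ * M) * (Λ' * |s|) ≤ 2 ^ c₁ * (2 ^ c₀ * M) * (Λ' * |s|) :=
          mul_le_mul_of_nonneg_right h2 (by positivity)
      _ = _ := by rw [pow_add]; ring
  have h4 : Filter.Tendsto (slope (fun s => eval (mvp v s b) Q) 0) (nhdsWithin 0 {0}ᶜ)
      (nhds (eval b (dir v Q))) := hasDerivAt_iff_tendsto_slope.1 (hasDeriv_mvp v b Q)
  exact (le_of_tendsto h4.abs hbound).trans hΛ'2

/-- The derivative vanishes, if the direction does not move the coordinates of the polynomial. -/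
theorem dir_zero {c : ℕ → Fin m} {j : ℕ} {v : Fin m → ℝ} (hv : ∀ k < j, v (c k) = 0)
    {P : MvPolynomial (Option (Fin m)) ℝ} (hP : DepC c j P) (b : Option (Fin m) → ℝ) :
    eval b (dir v P) = 0 := by
  have h1 := hasDeriv_mvp v b P
  have e : (fun s => eval (mvp v s b) P) = fun _ => eval b P := by
    funext s
    exact dep_mvp hv hP s b
  rw [e] at h1
  exact h1.unique (hasDerivAt_const _ _)

/-- **The slopes of two near labels at the samples**: one event for all the directions. -/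
theorem own_two (D r : ℕ) (hD : 1 ≤ D) : ∃ C : ℕ, ∀ {m J : ℕ} {F : Fam m J} {c : ℕ → Fin m}
    {l n a w e e' h : ℕ} {g g' : ℕ → ℕ} {κ κ' : ℝ} {B₀ B' : F.Ω → Prop}
    {G G' : PtT F → ℕ → MvPolynomial (Option (Fin m)) ℝ}
    {H H' : LnT F → ℕ → MvPolynomial (Option (Fin m)) ℝ}, n ≤ r →
    Set.InjOn c (Set.Iio n) → RelvF F c n a w g D h κ B₀ G → Sub B' B₀ →
    κ' * Pe F.p B₀ ≤ Pe F.p B' → κ * 2 ^ (r + 1) ≤ κ' →
    ChOK F c n (fun _ => D) a w e g B' G H → ChOK F c n (fun _ => D) a w e' g' B' G' H' →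
    ∃ B : F.Ω → Prop, Sub B B' ∧ Pe F.p B' / 2 ^ r ≤ Pe F.p B ∧ ∀ ω, B ω → ∀ v : Fin m → ℝ,
      v (c l) = 1 → (∀ j < l, v (c j) = 0) → ∀ i < n, l < i → ∀ Λ : ℝ, 2 ^ g l ≤ Λ →
      (∀ j, l < j → j < i → |eval (bt F ω) (dir v (G (ptr F J ω) j)) - v (c j)| * 2 ^ g j ≤ Λ) →
        |eval (bt F ω) (dir v (G (ptr F J ω) i)) - eval (bt F ω) (dir v (G' (ptr F J ω) i))| ≤
          2 ^ (C * (h + 1)) / 2 ^ g' i * Λ := by
  obtain ⟨C₁, hnear⟩ := lab_near D r hD
  obtain ⟨C₂, hbox⟩ := dir_box D r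
  refine ⟨C₁ + C₂, ?_⟩
  intro m J F c l n a w e e' h g g' κ κ' B₀ B' G G' H H' hn hc hR hB hP hκ hL hL'
  obtain ⟨B, k1, k2, k3⟩ := hnear hn hc hR hL.depG hB hP hκ hL'
  refine ⟨B, k1, k2, fun ω hω v hvl hv0 i hi hli Λ hΛ hj => ?_⟩
  have hω' := k1 ω hω
  have hΛ0 : 0 ≤ Λ := le_trans (by positivity) hΛ
  have h1 := hbox (c := c) (i := i) (a := a) (g := g) (G := G (ptr F J ω))
    (Q := G (ptr F J ω) i - G' (ptr F J ω) i) (v := v) (b := bt F ω) (t := F.t ω)
    (M := 2 ^ (C₁ * (h + 1)) / 2 ^ g' i) (Λ := Λ) (lt_of_lt_of_le hi hn)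
    (hc.mono (Set.Iio_subset_Iio hi.le)) (hL.degG _) (hL.depG _)
    (fun b b' hn hb => by
      rw [map_sub, map_sub, hL.depG _ i b b' hn hb, hL'.depG _ i b b' hn hb])
    ((totalDegree_sub _ _).trans (max_le (hL.degG _ i) (hL'.degG _ i))) (by positivity)
    (fun b hb => by rw [map_sub]; exact k3 ω hω i hi b hb) rfl
    (fun j hj => hL.pos ω hω' j (hj.trans hi)) (fun j hji => by
      rcases lt_trichotomy j l with h2 | h2 | h2
      · rw [hv0 j h2, dir_zero (fun k hk => hv0 k (hk.trans h2)) (hL.depG _ j), sub_zero,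
          abs_zero, zero_mul]
        exact hΛ0
      · subst h2
        rw [hvl, dir_zero hv0 (hL.depG _ j), sub_zero, abs_one, one_mul]
        exact hΛ
      · rw [abs_sub_comm]
        exact hj j h2 hji) hΛ0
  rw [dir_sub, map_sub] at h1
  refine h1.trans ?_
  have h2 : (2 : ℝ) ^ C₂ * (2 ^ (C₁ * (h + 1)) / 2 ^ g' i) ≤
      2 ^ ((C₁ + C₂) * (h + 1)) / 2 ^ g' i := by
    rw [← mul_div_assoc, ← pow_add]
    refine div_le_div_of_nonneg_right (pow_le_pow_right₀ (by norm_num) ?_) (by positivity)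
    nlinarith
  exact mul_le_mul_of_nonneg_right h2 hΛ0

end Pool.SHR
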