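import Pool.Agent.H87.GEN.ShrY

/-!
# The shear along a path of windows

Charts `G 0, …, G K` of the same radius, with increasing windows. If the derivatives of the labels of
the first chart in the direction `v` at the samples are `v`, up to errors which are natural for all
the charts, the same is true for the last chart (`path_fam`), and the labels of the last chart move
by the shear (`path_shr`).
-/

set_option autoImplicit false

namespace Pool.SHR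

open Finset Real MvPolynomial
open Pool.Agent.H49.Ent Pool.Agent.H32.Dense Pool.STK Pool.KA Pool.KSAT Pool.K2S Pool.PB Pool.S6C
open Pool.GEN Pool.CHT
open Pool.ISO (cwn chOK_win cwn_slam)
open Pool.FLF (Fam.sub)

/-- **The errors along the path** at one sample. -/
theorem path_num {K l n c q κ x : ℕ} {g y : ℕ → ℕ → ℕ} {s : ℕ → ℕ → ℝ} {vc : ℕ → ℝ}
    (hK : K + 1 ≤ 2 ^ κ)
    (hbase : ∀ i, l < i → i < n → ∀ k ≤ K, |s 0 i - vc i| ≤ 2 ^ x * 2 ^ y k i / 2 ^ g k i)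
    (hy : ∀ k ≤ K, ∀ j i, l ≤ j → j ≤ i → i < n → y k j ≤ y k i)
    (hyl : ∀ k ≤ K, g k l ≤ y k l)
    (hstep : ∀ k < K, ∀ i, l < i → i < n → ∀ Λ : ℝ, 2 ^ g (k + 1) l ≤ Λ →
      (∀ j, l < j → j < i → |s (k + 1) j - vc j| * 2 ^ g (k + 1) j ≤ Λ) →
        |s (k + 1) i - s k i| ≤ 2 ^ c / 2 ^ g k i * Λ)
    (hnum : ∀ k < K, ∀ k', k + 1 ≤ k' → k' ≤ K → ∀ i, l < i → i < n →
      y (k + 1) (i - 1) + g k' i ≤ y k' i + g k i + q) :
    ∀ i, l < i → i < n → ∀ k ≤ K, ∀ k', k ≤ k' → k' ≤ K →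
      |s k i - vc i| ≤ (k + 1) * (2 ^ (x + (i - l) * (c + q + κ)) * 2 ^ y k' i / 2 ^ g k' i) := by
  intro i
  induction i using Nat.strong_induction_on with
  | _ i ih =>
    intro hli hin k
    induction k with
    | zero =>
      intro _ k' _ hk'
      rw [Nat.cast_zero, zero_add, one_mul]
      refine (hbase i hli hin k' hk').trans (div_le_div_of_nonneg_right
        (mul_le_mul_of_nonneg_right (pow_le_pow_right₀ (by norm_num) (by omega)) (by positivity))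
        (by positivity))
    | succ k ihk =>
      intro hk k' hkk' hk'
      have h1 := ihk (by omega) k' (by omega) hk'
      obtain ⟨X, hX⟩ : ∃ X, X = x + (i - 1 - l) * (c + q + κ) := ⟨_, rfl⟩
      have hXi : x + (i - l) * (c + q + κ) = X + (c + q + κ) := by
        rw [hX]
        have e1 : i - l = (i - 1 - l) + 1 := by omega
        rw [e1]
        ring
      obtain ⟨Λ, hΛ⟩ : ∃ Λ : ℝ, Λ = 2 ^ (X + κ + y (k + 1) (i - 1)) := ⟨_, rfl⟩
      have h2 := hstep k (by omega) i hli hin Λ (by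
        rw [hΛ]
        refine pow_le_pow_right₀ (by norm_num) ?_
        have := hyl (k + 1) hk
        have := hy (k + 1) hk l (i - 1) le_rfl (by omega) (by omega)
        omega) (fun j hlj hji => by
        have h3 := ih j hji hlj (by omega) (k + 1) hk (k + 1) le_rfl hk
        have h4 : ((k + 1 : ℕ) : ℝ) + 1 ≤ 2 ^ κ := by
          have : (((K + 1 : ℕ)) : ℝ) ≤ ((2 ^ κ : ℕ) : ℝ) := by exact_mod_cast hK
          push_cast at this ⊢
          have h5 : ((k : ℝ) + 1) ≤ K := by exact_mod_cast hk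
          linarith
        have h5 : (2 : ℝ) ^ (x + (j - l) * (c + q + κ)) ≤ 2 ^ X := by
          refine pow_le_pow_right₀ (by norm_num) ?_
          rw [hX]
          have : (j - l) * (c + q + κ) ≤ (i - 1 - l) * (c + q + κ) :=
            Nat.mul_le_mul_right _ (by omega)
          omega
        have h6 : (2 : ℝ) ^ y (k + 1) j ≤ 2 ^ y (k + 1) (i - 1) :=
          pow_le_pow_right₀ (by norm_num) (hy (k + 1) hk j (i - 1) hlj.le (by omega) (by omega))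
        calc |s (k + 1) j - vc j| * 2 ^ g (k + 1) j
            ≤ (((k + 1 : ℕ) : ℝ) + 1) * (2 ^ (x + (j - l) * (c + q + κ)) * 2 ^ y (k + 1) j /
              2 ^ g (k + 1) j) * 2 ^ g (k + 1) j := mul_le_mul_of_nonneg_right h3 (by positivity)
          _ = (((k + 1 : ℕ) : ℝ) + 1) * (2 ^ (x + (j - l) * (c + q + κ)) * 2 ^ y (k + 1) j) := by
              field_simp
          _ ≤ 2 ^ κ * (2 ^ X * 2 ^ y (k + 1) (i - 1)) := by
              refine mul_le_mul h4 (mul_le_mul h5 h6 (by positivity) (by positivity))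
                (by positivity) (by positivity)
          _ = Λ := by rw [hΛ, pow_add, pow_add]; ring)
      have h3 : (2 : ℝ) ^ c / 2 ^ g k i * Λ ≤
          2 ^ (X + (c + q + κ)) * 2 ^ y k' i / 2 ^ g k' i := by
        have h4 := hnum k (by omega) k' hkk' hk' i hli hin
        rw [hΛ, div_mul_eq_mul_div, div_le_div_iff₀ (by positivity) (by positivity), ← pow_add,
          ← pow_add, ← pow_add, ← pow_add]
        exact pow_le_pow_right₀ (by norm_num) (by omega)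
      rw [hXi] at h1 ⊢
      have h4 := abs_sub_le (s (k + 1) i) (s k i) (vc i)
      push_cast
      have h5 : ((k : ℝ) + 1 + 1) * (2 ^ (X + (c + q + κ)) * 2 ^ y k' i / 2 ^ g k' i) =
          ((k : ℝ) + 1) * (2 ^ (X + (c + q + κ)) * 2 ^ y k' i / 2 ^ g k' i) +
          2 ^ (X + (c + q + κ)) * 2 ^ y k' i / 2 ^ g k' i := by ring
      rw [h5]
      linarith

/-- **The derivatives along the path**, on one event for all the directions. -/
theorem path_fam (D r : ℕ) (hD : 1 ≤ D) : ∃ C : ℕ, ∀ {m J : ℕ} {F : Fam m J} {c : ℕ → Fin m}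
    {l n a h K : ℕ} {w e : ℕ → ℕ} {g : ℕ → ℕ → ℕ} {κ₀ κ₁ : ℝ} {B₀ B' : F.Ω → Prop}
    {G : ℕ → PtT F → ℕ → MvPolynomial (Option (Fin m)) ℝ}
    {H : ℕ → LnT F → ℕ → MvPolynomial (Option (Fin m)) ℝ}, n ≤ r →
    Set.InjOn c (Set.Iio n) →
    (∀ k < K, RelvF F c n a (w (k + 1)) (g (k + 1)) D h κ₀ B₀ (G (k + 1))) → Sub B' B₀ →
    κ₁ * Pe F.p B₀ ≤ Pe F.p B' → κ₀ * 2 ^ (r + 1 + r * K) ≤ κ₁ → 0 ≤ κ₀ →
    (∀ k ≤ K, ChOK F c n (fun _ => D) a (w k) (e k) (g k) B' (G k) (H k)) →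
    (∀ k < K, w k ≤ w (k + 1)) → (∀ k ≤ K, w k ≤ J) →
    ∃ B'' : F.Ω → Prop, Sub B'' B' ∧ Pe F.p B' / 2 ^ (r * K) ≤ Pe F.p B'' ∧ ∀ ω, B'' ω →
      ∀ (v : Fin m → ℝ) (x q κ : ℕ) (y : ℕ → ℕ → ℕ), K + 1 ≤ 2 ^ κ →
      v (c l) = 1 → (∀ j < l, v (c j) = 0) →
      (∀ k ≤ K, ∀ j i, l ≤ j → j ≤ i → i < n → y k j ≤ y k i) → (∀ k ≤ K, g k l ≤ y k l) →
      (∀ k < K, ∀ k', k + 1 ≤ k' → k' ≤ K → ∀ i, l < i → i < n →
        y (k + 1) (i - 1) + g k' i ≤ y k' i + g k i + q) →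
      (∀ i, l < i → i < n → ∀ k ≤ K,
        |eval (bt F ω) (dir v (G 0 (ptr F J ω) i)) - v (c i)| ≤ 2 ^ x * 2 ^ y k i / 2 ^ g k i) →
      ∀ i, l < i → i < n → |eval (bt F ω) (dir v (G K (ptr F J ω) i)) - v (c i)| ≤
        2 ^ (x + n * (C * (h + 1) + q + κ) + κ) * 2 ^ y K i / 2 ^ g K i := by
  obtain ⟨C, hown⟩ := own_two D r hD
  refine ⟨C, ?_⟩
  intro m J F c l n a h K w e g κ₀ κ₁ B₀ B' G H hn hc hR hB hP hκ hκ0 hL hw hwJ
  have key : ∀ K' ≤ K, ∃ B : F.Ω → Prop, Sub B B' ∧ Pe F.p B' / 2 ^ (r * K') ≤ Pe F.p B ∧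
      ∀ ω, B ω → ∀ k < K', ∀ v : Fin m → ℝ,
      v (c l) = 1 → (∀ j < l, v (c j) = 0) → ∀ i < n, l < i → ∀ Λ : ℝ, 2 ^ g (k + 1) l ≤ Λ →
      (∀ j, l < j → j < i → |eval (bt F ω) (dir v (G (k + 1) (ptr F J ω) j)) - v (c j)| *
        2 ^ g (k + 1) j ≤ Λ) →
        |eval (bt F ω) (dir v (G (k + 1) (ptr F J ω) i)) -
          eval (bt F ω) (dir v (G k (ptr F J ω) i))| ≤ 2 ^ (C * (h + 1)) / 2 ^ g k i * Λ := by
    intro K'
    induction K' with
    | zero => exact fun _ => ⟨B', fun _ h => h, by simp, fun ω _ k hk => by omega⟩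
    | succ K' ih =>
      intro hK'
      obtain ⟨B, k1, k2, k3⟩ := ih (by omega)
      have hPB : κ₁ / 2 ^ (r * K') * Pe F.p B₀ ≤ Pe F.p B := pe_div hP k2
      have hrK : r + 1 + r * K' ≤ r + 1 + r * K := by
        have := Nat.mul_le_mul_left r (show K' ≤ K by omega)
        omega
      have hκ2 : κ₀ * 2 ^ (r + 1) ≤ κ₁ / 2 ^ (r * K') := by
        rw [le_div_iff₀ (by positivity), mul_assoc, ← pow_add]
        exact (mul_le_mul_of_nonneg_left (pow_le_pow_right₀ (by norm_num) hrK) hκ0).trans hκ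
      obtain ⟨B2, l1, l2, l3⟩ := hown (l := l) (G' := G K')
        (H' := cwn (w K') (w (K' + 1)) (H K'))
        hn hc (hR K' (by omega)) (fun ω h => hB ω (k1 ω h)) hPB hκ2 ((hL (K' + 1) hK').sub k1)
        ((chOK_win (hL K' (by omega)) (hw K' (by omega)) (hwJ (K' + 1) hK')).sub k1)
      refine ⟨B2, fun ω h => k1 ω (l1 ω h), ?_, fun ω hω k hk v hv1 hv0 i hi hli Λ hΛ hj => ?_⟩
      · refine le_trans (le_of_eq ?_) ((div_le_div_of_nonneg_right k2 (by positivity)).trans l2)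
        rw [div_div, ← pow_add]
        congr 2
      · rcases Nat.lt_or_ge k K' with h1 | h1
        · exact k3 ω (l1 ω hω) k h1 v hv1 hv0 i hi hli Λ hΛ hj
        · have h2 : k = K' := by omega
          subst h2
          exact l3 ω hω v hv1 hv0 i hi hli Λ hΛ hj
  obtain ⟨B, k1, k2, k3⟩ := key K le_rfl
  refine ⟨B, k1, k2, fun ω hω v x q κ y hK hv1 hv0 hy hyl hnum hbase i hli hin => ?_⟩
  have h1 := path_num (K := K) (l := l) (n := n) (c := C * (h + 1)) (q := q) (κ := κ) (x := x)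
    (g := g) (y := y) (s := fun k i => eval (bt F ω) (dir v (G k (ptr F J ω) i)))
    (vc := fun i => v (c i)) hK hbase hy hyl (fun k hk i hli hin Λ hΛ hj =>
      k3 ω hω k hk v hv1 hv0 i hin hli Λ hΛ hj) hnum i hli hin K le_rfl K le_rfl le_rfl
  refine h1.trans ?_
  have h2 : ((K : ℝ) + 1) ≤ 2 ^ κ := by
    have : (((K + 1 : ℕ)) : ℝ) ≤ ((2 ^ κ : ℕ) : ℝ) := by exact_mod_cast hK
    push_cast at this
    exact this
  have h3 : (i - l) * (C * (h + 1) + q + κ) ≤ n * (C * (h + 1) + q + κ) :=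
    Nat.mul_le_mul_right _ (by omega)
  calc ((K : ℝ) + 1) * (2 ^ (x + (i - l) * (C * (h + 1) + q + κ)) * 2 ^ y K i / 2 ^ g K i)
      ≤ 2 ^ κ * (2 ^ (x + n * (C * (h + 1) + q + κ)) * 2 ^ y K i / 2 ^ g K i) := by
        refine mul_le_mul h2 (div_le_div_of_nonneg_right (mul_le_mul_of_nonneg_right
          (pow_le_pow_right₀ (by norm_num) (by omega)) (by positivity)) (by positivity))
          (by positivity) (by positivity)
    _ = _ := by rw [pow_add 2 _ κ]; ring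

/-- **From a smaller radius to a larger one**: the derivatives of the labels of the chart of radius
`a`, from the derivatives of the labels of the chart of radius `a + d`, of the same window. -/
theorem base_fam (m D n : ℕ) (hD : 1 ≤ D) : ∃ (C : ℕ) (C₁ : ℝ), 1 ≤ C₁ ∧ ∀ {J : ℕ} {F : Fam m J}
    {c : ℕ → Fin m} {l a w e e₀ h u d : ℕ} {g₀ g : ℕ → ℕ} {κ κ' θ : ℝ}
    {B₀ B' : F.Ω → Prop} {G₀ G : PtT F → ℕ → MvPolynomial (Option (Fin m)) ℝ}
    {H₀ H : LnT F → ℕ → MvPolynomial (Option (Fin m)) ℝ},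
    Set.InjOn c (Set.Iio n) → RelvF F c n (a + d) w g₀ D h κ B₀ G₀ →
    Sub B' B₀ → κ' * Pe F.p B₀ ≤ Pe F.p B' → κ * 2 ^ C ≤ κ' → 0 ≤ κ → ∀ (hB : 0 < Pe F.p B'),
    ChOK F c n (fun _ => D) (a + d) w e₀ g₀ B' G₀ H₀ → ChOK F c n (fun _ => D) a w e g B' G H →
    w ≤ a → w ≤ J → n * u + 1 ≤ d → (∀ i < n, e + g i + d + C ≤ J) → 0 ≤ θ →
    (Fam.sub F B' hB).Tm θ → C₁ * (θ + 1) ≤ ((J : ℝ) - w) * Real.log 2 →
    Real.exp (C₁ * (θ + 1)) ≤ 2 ^ u →
    ∃ B'' : F.Ω → Prop, Sub B'' B' ∧ Pe F.p B' / 2 ^ C ≤ Pe F.p B'' ∧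
      ∀ ω, B'' ω → ∀ (v : Fin m → ℝ) (x Y : ℕ), g₀ l ≤ Y → v (c l) = 1 →
      (∀ j < l, v (c j) = 0) →
      (∀ i, l < i → i < n → |eval (bt F ω) (dir v (G₀ (ptr F J ω) i)) - v (c i)| ≤
        2 ^ x * 2 ^ Y / 2 ^ g₀ i) →
      ∀ i, l < i → i < n → |eval (bt F ω) (dir v (G (ptr F J ω) i)) - v (c i)| ≤
        2 ^ (x + C * (h + 1) + n * u + 1) * 2 ^ Y / 2 ^ min (g₀ i) (g i + d) := by
  obtain ⟨C₁, c₀, hC₁, hsl⟩ := ch_slope' m n (fun _ => D) fun _ => hD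
  obtain ⟨C₂, hown⟩ := own_two D n hD
  refine ⟨C₂ + c₀ + n + 4, C₁, hC₁, ?_⟩
  intro J F c l a w e e₀ h u d g₀ g κ κ' θ B₀ B' G₀ G H₀ H hc hR hB' hP hκ hκ0 hpos hL₀ hL hwa hwJ
    hu hJ hθ hTm hN hexp
  have hκd : κ * 2 ^ (n + 1) ≤ κ' / 2 ^ 1 := by
    rw [le_div_iff₀ (by positivity), mul_assoc, ← pow_add]
    exact (mul_le_mul_of_nonneg_left (pow_le_pow_right₀ (by norm_num) (by omega)) hκ0).trans hκ
  obtain ⟨B₁, k1, k2, k3, -⟩ := hsl J F c a w e d u g B' G H θ hpos hc hwa hwJ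
    (fun i hi => by have := hJ i hi; omega) hu hθ hTm hN hexp hL
  rw [← pow_one (2 : ℝ)] at k2
  obtain ⟨B₂, l1, l2, l3⟩ := hown (l := l) le_rfl hc hR (fun ω h => hB' ω (k1 ω h)) (pe_div hP k2)
    hκd (hL₀.sub k1) k3
  refine ⟨B₂, fun ω h => k1 ω (l1 ω h), ?_, fun ω hω v x Y hY hv1 hv0 hx i hli hin => ?_⟩
  · have h1 : Pe F.p B' / 2 ^ (1 + n) ≤ Pe F.p B₂ := by
      refine le_trans (le_of_eq ?_) ((div_le_div_of_nonneg_right k2 (by positivity)).trans l2)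
      rw [div_div, ← pow_add]
    refine le_trans (div_le_div_of_nonneg_left (Pe_nonneg F.isLaw _) (by positivity)
      (pow_le_pow_right₀ (by norm_num) ?_)) h1
    omega
  · have h1 := l3 ω hω v hv1 hv0 i hin hli (2 ^ (x + Y)) (pow_le_pow_right₀ (by norm_num)
      (by omega)) fun j hlj hji => by
        have h2 := hx j hlj (hji.trans hin)
        calc |eval (bt F ω) (dir v (G₀ (ptr F J ω) j)) - v (c j)| * 2 ^ g₀ j
            ≤ 2 ^ x * 2 ^ Y / 2 ^ g₀ j * 2 ^ g₀ j :=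
              mul_le_mul_of_nonneg_right h2 (by positivity)
          _ = 2 ^ (x + Y) := by rw [pow_add]; field_simp
    rw [dir_Gno] at h1
    have h2 := hx i hli hin
    obtain ⟨μ, hμ⟩ : ∃ μ, μ = min (g₀ i) (g i + d) := ⟨_, rfl⟩
    have hμ1 : μ ≤ g₀ i := by rw [hμ]; exact min_le_left _ _
    have hμ2 : μ ≤ g i + d := by rw [hμ]; exact min_le_right _ _
    have hiu : (i + 1) * u ≤ n * u := Nat.mul_le_mul_right u (by omega)
    rw [← hμ]
    have h3 : (2 : ℝ) ^ (C₂ * (h + 1)) / 2 ^ (g i + d - (i + 1) * u) * 2 ^ (x + Y) ≤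
        2 ^ (x + (C₂ + c₀ + n + 4) * (h + 1) + n * u) * 2 ^ Y / 2 ^ μ := by
      rw [div_mul_eq_mul_div, div_le_div_iff₀ (by positivity) (by positivity), ← pow_add,
        ← pow_add, ← pow_add, ← pow_add]
      refine pow_le_pow_right₀ (by norm_num) ?_
      have : C₂ * (h + 1) ≤ (C₂ + c₀ + n + 4) * (h + 1) := Nat.mul_le_mul_right _ (by omega)
      omega
    have h4 : (2 : ℝ) ^ x * 2 ^ Y / 2 ^ g₀ i ≤
        2 ^ (x + (C₂ + c₀ + n + 4) * (h + 1) + n * u) * 2 ^ Y / 2 ^ μ := by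
      rw [div_le_div_iff₀ (by positivity) (by positivity), ← pow_add, ← pow_add, ← pow_add,
        ← pow_add]
      exact pow_le_pow_right₀ (by norm_num) (by omega)
    have h5 : (2 : ℝ) ^ (x + (C₂ + c₀ + n + 4) * (h + 1) + n * u + 1) * 2 ^ Y / 2 ^ μ =
        2 ^ (x + (C₂ + c₀ + n + 4) * (h + 1) + n * u) * 2 ^ Y / 2 ^ μ +
        2 ^ (x + (C₂ + c₀ + n + 4) * (h + 1) + n * u) * 2 ^ Y / 2 ^ μ := by
      rw [pow_succ]; ring
    rw [h5]
    have h6 := abs_sub_le (eval (bt F ω) (dir v (G (ptr F J ω) i)))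
      (eval (bt F ω) (dir v (G₀ (ptr F J ω) i))) (v (c i))
    rw [abs_sub_comm] at h1
    linarith

end Pool.SHR
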