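import Pool.Agent.H67.GEN.Tri

/-!
# The assembly at one row (one class)

All numbers belong to one class. `Row`: the row `Q` is a point of differentiability of everything,
with the radius `a`, and it is not full. Everything (the slopes, the tolerances, the sizes) may
depend on the row: no parameters, no uniformity.

* `MicQ P Q`: no affine cells with a positive slope in `q` at small scales, with a tolerance
  which depends on the row; it gives `WfU P Q` (`wfu_of_micQ`).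
* `MicP`: `MicQ` at almost all rows which are not full. `StaP`: almost no row which is not full
  is free from the window.
* `fullP`, `rowsP`: `JmpN`, `MicP`, `StaP` give the conclusions of `fullU`, `rowsU`.
-/

set_option autoImplicit false

namespace Pool.STR

open MeasureTheory Set Filter Topology Pool.LEV
open scoped ENNReal

/-- **A row which is not full**: the row `Q`, its radius `a`, the slopes `sN`, `s` of the diagonal
thresholds at `a`. -/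
structure Row {ι : Type*} (P : ℝ → ℝ → ℝ) (L : ι → ℝ → ℝ → ℝ) (Z : Set ℝ) (ρ : ℝ → ℝ)
    (h Q a sN : ℝ) (s : ι → ℝ) : Prop where
  Q0 : 0 < Q
  Q1 : Q < 1
  lv : a = Lv P (Q, 0)
  dg : HasDerivAt (fun Q => Lv P (Q, 0)) sN⁻¹ Q
  pos : 0 < a
  lt : a < 1
  nz : a ∉ Z
  val : P a a = Q
  der : HasDerivAt (fun a => P a a) sN a
  ge : 1 ≤ sN
  derV : ∀ i, HasDerivAt (fun a => L i a a) (s i) a
  geV : ∀ i, L i a a < 1 → 1 ≤ s i
  dr : DifferentiableAt ℝ ρ Q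
  h0 : 0 < h
  rt : deriv ρ Q < 1 - h

/-- **Almost every row** which is not full and not in the singular part of the diagonal threshold
is a good point. -/
theorem ae_row {ι : Type*} [Countable ι] {P : ℝ → ℝ → ℝ} (hP : Law P) {L : ι → ℝ → ℝ → ℝ}
    (hL : ∀ i, Law (L i)) {Z : Set ℝ} (hZ : volume Z = 0) {ρ : ℝ → ℝ} :
    ∀ᵐ Q : ℝ, 0 < Q → Q < 1 → 0 < Lv P (Q, 0) →
      DifferentiableAt ℝ (fun Q => Lv P (Q, 0)) Q → 0 < deriv (fun Q => Lv P (Q, 0)) Q →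
      DifferentiableAt ℝ ρ Q → ∀ h : ℝ, 0 < h → deriv ρ Q < 1 - h →
      Row P L Z ρ h Q (Lv P (Q, 0)) (deriv (fun Q => Lv P (Q, 0)) Q)⁻¹
        (fun i => deriv (fun a => L i a a) (Lv P (Q, 0))) := by
  have hfm : Monotone fun Q => Lv P (Q, 0) := fun x y hxy => Lv_mono hP ⟨hxy, le_rfl⟩
  have hfl : LipschitzWith 1 fun Q => Lv P (Q, 0) := by
    refine LipschitzWith.of_dist_le_mul fun x y => ?_
    refine ((Lv_lip hP).dist_le_mul _ _).trans ?_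
    rw [Prod.dist_eq]
    simp
  have hbad : volume (Z ∪ {a | ¬ ∀ i, 0 < a → a < 1 → DifferentiableAt ℝ (fun a => L i a a) a})
      = 0 := by
    refine measure_union_null hZ ?_
    have := ae_all_iff.2 fun i => diag_ae (hL i)
    rwa [ae_iff] at this
  filter_upwards [null_pull hfm hbad] with Q hQ h0 h1 ha hd hc hdr h hh hrt
  obtain ⟨ha1, hval, hder⟩ := diag_deriv hP h0 h1 ha hd hc
  have hnz := hQ hd hc
  rw [mem_union, not_or, mem_ofPred_eq, not_not] at hnz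
  have hcl : deriv (fun Q => Lv P (Q, 0)) Q ≤ 1 := by
    have := norm_deriv_le_of_lipschitz (x₀ := Q) hfl
    rw [NNReal.coe_one] at this
    exact (le_abs_self _).trans this
  exact ⟨h0, h1, rfl, by rw [inv_inv]; exact hd.hasDerivAt, ha, ha1, hnz.1, hval, hder,
    (one_le_inv₀ hc).2 hcl, fun i => (hnz.2 i ha ha1).hasDerivAt,
    fun i hl => diag_slope (hL i) ha ha1 (hnz.2 i ha ha1).hasDerivAt hl, hdr, hh, hrt⟩

/-- **(M) at one row**: the tolerance may depend on the row. -/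
def MicQ (P : ℝ → ℝ → ℝ) (Q : ℝ) : Prop :=
  ∀ β : ℝ, 0 < β → ∃ ε : ℝ, 0 < ε ∧ ∀ δ : ℝ, 0 < δ → ∃ r₁ : ℝ, 0 < r₁ ∧
    ∀ r : ℝ, 0 < r → r < r₁ → ∀ (p : ℝ × ℝ) (X al be : ℝ), |p.1 - Q| ≤ r → δ * r ≤ X →
      X ≤ p.2 → p.2 + X ≤ r → 0 ≤ al → β ≤ be → al + be ≤ 1 → ¬ Affn (Lv P) ε p X al be

/-- Without cells the row is free from the window, uniformly and at every small scale. -/
theorem wfu_of_micQ {P : ℝ → ℝ → ℝ} (hP : Law P) {Q : ℝ} (hM : MicQ P Q) : WfU P Q := by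
  intro ε hε
  obtain ⟨ε₁, hε₁, h1⟩ := hM (ε / 2) (half_pos hε)
  obtain ⟨δ, hδ, h2⟩ := blow hε hε₁
  obtain ⟨r₁, hr₁, h3⟩ := h1 (δ / 2) (half_pos hδ)
  refine ⟨r₁ / 2, half_pos hr₁, fun r hr0 hr Q' hQ' => ?_⟩
  by_contra hc
  push Not at hc
  obtain ⟨p, X, al, be, e1, e2, e3, e4, e5, e6, e7, e8⟩ :=
    h2 (Lv P) (Lv_lip hP) (Lv_mono hP) Q' r hr0 hc.le
  refine h3 (2 * r) (by linarith) (by linarith) p X al be ?_ (by linarith) e3 (by linarith)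
    e5 e6 e7 e8
  have := abs_sub_le p.1 Q' Q
  linarith

/-- **The micro input, at almost all rows which are not full.** -/
def MicP {ι : Type*} (P : ℝ → ℝ → ℝ) (L : ι → ℝ → ℝ → ℝ) (Z : Set ℝ) (ρ : ℝ → ℝ) : Prop :=
  ∀ᵐ Q : ℝ, ∀ (h a sN : ℝ) (s : ι → ℝ), Row P L Z ρ h Q a sN s → MicQ P Q

/-- **The static input, at almost all rows which are not full.** -/
def StaP {ι : Type*} (P : ℝ → ℝ → ℝ) (L : ι → ℝ → ℝ → ℝ) (Z : Set ℝ) (ρ : ℝ → ℝ) : Prop :=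
  ∀ᵐ Q : ℝ, ∀ (h a sN : ℝ) (s : ι → ℝ), Row P L Z ρ h Q a sN s → ¬ WfU P Q

/-- The triangle of a row. -/
theorem Row.tri {ι : Type*} {P : ℝ → ℝ → ℝ} {L : ι → ℝ → ℝ → ℝ} {Z : Set ℝ} {ρ : ℝ → ℝ}
    {h Q a sN : ℝ} {s : ι → ℝ} (H : Row P L Z ρ h Q a sN s) (hP : Law P) (hw : WfU P Q) :
    PtU P L Z Q a sN s := by
  refine ⟨H.pos, H.lt, H.nz, H.val, H.der, H.ge, H.derV, H.geV, fun ε hε => ?_⟩
  obtain ⟨r₁, hr₁, H'⟩ := STR.tri hP H.Q0 H.Q1 H.pos H.lt H.val (zero_le_one.trans H.ge) H.der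
    hw hε
  refine ⟨r₁, hr₁, fun r hr hr' a' w' k1 k2 k3 => ?_⟩
  have := H' r hr hr' a' w' k1 k2 k3
  rwa [H.val] at this

/-- **Almost all rows of macroscopic windows are full.** -/
theorem fullP {ι : Type*} [Countable ι] {P : ℝ → ℝ → ℝ} (hP : Law P) {L : ι → ℝ → ℝ → ℝ}
    (hL : ∀ i, Law (L i)) {Z : Set ℝ} (hZ : volume Z = 0) {ρ : ℝ → ℝ} (hJ : JmpN P ρ)
    (hM : MicP P L Z ρ) (hS : StaP P L Z ρ) :
    ∀ᵐ Q : ℝ, 0 < Q → Q < 1 → 0 < Lv P (Q, 0) → DifferentiableAt ℝ ρ Q → 1 ≤ deriv ρ Q := by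
  have hn : ∀ n : ℕ, (0 : ℝ) < 1 / ((n : ℝ) + 1) := fun n => by positivity
  have hg : ∀ᵐ Q : ℝ, DifferentiableAt ℝ (fun Q => Lv P (Q, 0)) Q := by
    have : LipschitzWith 1 (fun Q => Lv P (Q, 0)) := by
      refine LipschitzWith.of_dist_le_mul fun x y => ?_
      refine ((Lv_lip hP).dist_le_mul _ _).trans ?_
      rw [Prod.dist_eq]
      simp
    exact this.ae_differentiableAt_real
  have hgm : Monotone (fun Q => Lv P (Q, 0)) := fun x y hxy => Lv_mono hP ⟨hxy, le_rfl⟩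
  filter_upwards [ae_row hP hL hZ (ρ := ρ), hg, ae_all_iff.2 fun n => hJ _ (hn n), hM, hS]
    with Q k1 k2 k3 k4 k5 h0 h1 hw hd
  by_contra hcon
  push Not at hcon
  obtain ⟨n, hn'⟩ := exists_nat_one_div_lt (sub_pos.2 hcon)
  have h2 : deriv ρ Q < 1 - 1 / ((n : ℝ) + 1) := by linarith
  have hg0 : 0 ≤ deriv (fun Q => Lv P (Q, 0)) Q := hgm.deriv_nonneg
  rcases eq_or_lt_of_le hg0 with h3 | h3
  · exact absurd (k3 n h0 h1 hw k2 h3.symm hd) (not_le.2 h2)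
  · have h4 := k1 h0 h1 hw k2 h3 hd _ (hn n) h2
    exact k5 _ _ _ _ h4 (wfu_of_micQ hP (k4 _ _ _ _ h4))

/-- **The assembly**, at the rows of one class. -/
theorem rowsP {ι : Type*} [Countable ι] {P : ℝ → ℝ → ℝ} (hP : Law P) {L : ι → ℝ → ℝ → ℝ}
    (hL : ∀ i, Law (L i)) {Z : Set ℝ} (hZ : volume Z = 0) {ρ : ℝ → ℝ} {w : ℝ} (hw : 0 < w)
    (hw1 : w ≤ 1) (hG0 : 0 ≤ P w w) (hG : P w w ≤ 1) (hr : MonotoneOn ρ (Icc (P w w) 1))
    (hJ : JmpN P ρ) (hM : MicP P L Z ρ) (hS : StaP P L Z ρ) : 1 - P w w ≤ ρ 1 - ρ (P w w) := by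
  refine cost hr hG ?_
  filter_upwards [fullP hP hL hZ hJ hM hS] with Q hQ h1 h2 hd
  have h0 : 0 < Q := hG0.trans_lt h1
  refine hQ h0 h2 ?_ hd
  rw [Lv_eq le_rfl zero_le_one h0.le h2.le]
  refine lt_of_lt_of_le hw (le_csInf ⟨1, one_mem zero_le_one⟩ ?_)
  rintro a ⟨a1, a2, a3⟩
  by_contra hc
  push Not at hc
  rcases a3 with a3 | a3
  · rw [sub_zero] at a3
    have := hP.mono a1 le_rfl hc.le hc.le le_rfl hw1
    linarith
  · linarith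

/-- The forms with uniform tolerances are special cases. -/
theorem staP_of_staU {ι : Type*} {P : ℝ → ℝ → ℝ} {L : ι → ℝ → ℝ → ℝ} {Z : Set ℝ} {ρ : ℝ → ℝ}
    (hS : StaU P ρ) : StaP P L Z ρ := by
  have hn : ∀ n : ℕ, (0 : ℝ) < 1 / ((n : ℝ) + 1) := fun n => by positivity
  filter_upwards [ae_all_iff.2 fun n => hS _ (hn n)] with Q hQ h a sN s H hw
  obtain ⟨n, hn'⟩ := exists_nat_one_div_lt H.h0
  have h2 := hQ n H.Q0 H.Q1 (H.lv ▸ H.pos) H.dg.differentiableAt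
    (by rw [H.dg.deriv]; exact inv_pos.2 (zero_lt_one.trans_le H.ge)) hw H.dr
  have h3 := H.rt
  linarith

/-- The form of `MicB` is a special case. -/
theorem micP_of_micB {ι : Type*} {P : ℝ → ℝ → ℝ} {L : ι → ℝ → ℝ → ℝ} {Z : Set ℝ} {ρ : ℝ → ℝ}
    (hM : MicB P ρ) : MicP P L Z ρ := by
  have hn : ∀ n : ℕ, (0 : ℝ) < 1 / ((n : ℝ) + 1) := fun n => by positivity
  choose ε hε hM' using fun n m : ℕ => hM _ _ (hn n) (hn m)
  have hM'' : ∀ n m l : ℕ, ∀ᵐ Q : ℝ, 0 < Q → Q < 1 → 0 < Lv P (Q, 0) →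
      DifferentiableAt ℝ (fun Q => Lv P (Q, 0)) Q → 0 < deriv (fun Q => Lv P (Q, 0)) Q →
      DifferentiableAt ℝ ρ Q → deriv ρ Q < 1 - 1 / ((n : ℝ) + 1) →
      ∃ r₁ : ℝ, 0 < r₁ ∧ ∀ r : ℝ, 0 < r → r < r₁ → ∀ (p : ℝ × ℝ) (X al be : ℝ),
        |p.1 - Q| ≤ r → 1 / ((l : ℝ) + 1) * r ≤ X → X ≤ p.2 → p.2 + X ≤ r → 0 ≤ al →
        1 / ((m : ℝ) + 1) ≤ be → al + be ≤ 1 → ¬ Affn (Lv P) (ε n m) p X al be :=
    fun n m l => hM' n m _ (hn l)
  filter_upwards [ae_all_iff.2 fun n => ae_all_iff.2 fun m => ae_all_iff.2 (hM'' n m)]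
    with Q hQ h a sN s H β hβ
  obtain ⟨n, hn'⟩ := exists_nat_one_div_lt H.h0
  obtain ⟨m, hm⟩ := exists_nat_one_div_lt hβ
  refine ⟨ε n m, hε n m, fun δ hδ => ?_⟩
  obtain ⟨l, hl⟩ := exists_nat_one_div_lt hδ
  have h3 := H.rt
  obtain ⟨r₁, hr₁, h4⟩ := hQ n m l H.Q0 H.Q1 (H.lv ▸ H.pos) H.dg.differentiableAt
    (by rw [H.dg.deriv]; exact inv_pos.2 (zero_lt_one.trans_le H.ge)) H.dr (by linarith)
  refine ⟨r₁, hr₁, fun r hr hr' p X al be e1 e2 e3 e4 e5 e6 e7 => ?_⟩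
  exact h4 r hr hr' p X al be e1
    (le_trans (mul_le_mul_of_nonneg_right hl.le hr.le) e2) e3 e4 e5 (hm.le.trans e6) e7

end Pool.STR
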