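import Pool.Agent.H39.GEN.MicW

/-!
# The assembly with the micro input in its weakest form

See `Pool.Agent.H39.GEN.MicW`: `MicW`, `fullW`, `rowsW`.
-/
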