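import Pool.Agent.H87.GEN.Row1

/-!
# The static theorem at flat rows, class level

`Pk.flat`: at almost every row which is not full, if the diagonals of the order of the row have the
slope one, then the row is not free from the window. `sta_two`: `Sta 2`.
-/

set_option autoImplicit false

namespace Pool.PKG

open MeasureTheory Set Filter Topology
open Pool.Agent.H49.Ent Pool.Agent.H32.Dense Pool.STK Pool.KA Pool.KSAT Pool.K2S Pool.PB
open Pool.GEN Pool.S6C Pool.STAT Pool.CHT Pool.GRW Pool.ONE Pool.STA Pool.STR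
open Pool.LBT (LSys ThrOf)
open Pool.LBN (cof)
open Pool.ALL (RateOf)
open Pool.TOP (T1c T2c TopS)

variable {n : ℕ} {hn : 2 ≤ n} {S : PCl n} {P : ℝ → ℝ → ℝ} {r : ℝ → ℝ}
  {P' : ℕ → List (Fin n) × Fin n → ℝ → ℝ → ℝ} {Λ : Finset (Fin n) → Fin n → ℝ → ℝ → ℝ}

/-- **Flat rows** are not free from the window. -/
theorem Pk.flat (H : Pk hn S P r P' Λ) (hTop : TopS n) (hF : FZX (n - 1))
    {Att : ℕ → Set (ℝ × ℝ)} (hA : ∀ j, STR.AttN (Att j))
    (hLab : ∀ (o : Od n) (g α Q c : ℝ) (σ : ℕ → ℝ) (W : Set ℝ), Fac hn S P r P' o g α Q c →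
      LabIn S (ee hn o) (n - 1) (LL hn P P' o) σ g W (Att o.2))
    {Z : Set ℝ} (hZ : Zb P r P' Λ ⊆ Z) {h Q a sN : ℝ} {s : Od n × ℕ → ℝ}
    (hR : Row P (LA hn P P') Z r h Q a sN s)
    (hflat : ∀ o : Od n, a ∈ Gs P r P' Λ o → STR.Dns (Gs P r P' Λ o) a → ∀ i, 1 ≤ i →
      i ≤ n - 1 → s (o, i) = 1) :
    ¬ WfU P Q := by
  obtain ⟨o, ho, hD⟩ := H.row_ex hR hZ
  obtain ⟨α, Q', c, F⟩ := H.fac hTop hF ho
  have hctx := H.ctx o
  have hn1 : n - 1 + 1 = n := by omega
  have hval : LL hn P P' o (n - 1 + 1) a a = Q := by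
    rw [LL_lst]
    exact hR.val
  have hG := gmeG_flat hctx (H.exIn hF o) (hLab o a α Q' c (fun i => s (o, i)) (Gs P r P' Λ o) F)
    hR.pos (fun i _ => row_der hR o i) (fun i hi => by
      rcases Nat.eq_zero_or_pos i with h0 | h0
      · rw [h0]
        exact row_zero hR o
      · exact hflat o ho hD i h0 hi) (fun i => row_ge hR F i) (fun i _ => F.lt i) hval hR.dr hR.h0
    (by have := hR.rt; linarith)
  have hGme := STR.gme_of_good hR.pos (fun i _ => hctx.law i)
    (fun i _ => zero_le_one.trans (row_ge hR F i)) hD (hA o.2) hG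
  have hRow : Row (LL hn P P' o (n - 1 + 1)) (LL hn P P' o) Z r h Q a sN (fun i => s (o, i)) := by
    rw [LL_lst]
    exact hR.re fun i => (o, i)
  have := hRow.not_wfu hctx.law hGme
  rwa [LL_lst] at this

end Pool.PKG
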