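import Pool.Agent.H87.GEN.Clo
import Pool.Agent.H67.GEN.Tri
import Pool.Agent.H1.GEN.Lmt

/-!
# The static input for limit numbers (rows 310, 362)

* `Slp`: the maximal backward slope of the diagonals (row 375); `slp_of`: it exists at every point
  where the diagonals are differentiable, and it is a bound for all near radii; `Slp.clo`.
* `CellX`: cells with a margin, bounded real slopes with a property `Rel`, and a maximal slope;
  `cellX_lev`: they are closed.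
* `staU_lim`: from the local input for the numbers of classes to `StaU` for limit numbers.
-/

set_option autoImplicit false

namespace Pool.CLO

open MeasureTheory Set Filter Topology Pool.LEV Pool.STR
open scoped NNReal

/-- **The maximal backward slope** of the diagonals at the radius `a`, on windows at least `b`, up
to the error `e`. -/
def Slp (L : ℕ → ℝ → ℝ → ℝ) (n : ℕ) (Sm a b e : ℝ) : Prop :=
  ∀ i ≤ n, ∀ v, 0 ≤ v → v + b ≤ a → L i a a - L i (a - v) (a - v) ≤ Sm * v + e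

/-- Closedness of the maximal slope. -/
theorem Slp.clo {L L' : ℕ → ℝ → ℝ → ℝ} {n : ℕ} {Sm a b e δ τ : ℝ} (h : Slp L n Sm a b e)
    (hL : ∀ i ≤ n, LevC δ (L i) (L' i)) (hδ : 0 ≤ δ) (hb : 0 ≤ b) (haδ : a + δ ≤ 1)
    (hup : ∀ i ≤ n, L i (a + δ) (a + δ) ≤ L i a a + τ) :
    Slp L' n Sm a (b + δ) (e + τ + Sm * δ) := by
  intro i hi v hv hva
  have e1 := (hL i hi a a (by linarith) le_rfl haδ).1
  have e2 := (hL i hi (a - v) (a - v) (by linarith) le_rfl (by linarith)).2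
  have e3 := h i hi (v + δ) (by linarith) (by linarith)
  have e4 := hup i hi
  have e5 : a - (v + δ) = a - v - δ := by ring
  rw [e5] at e3
  have e6 : Sm * (v + δ) = Sm * v + Sm * δ := by ring
  linarith

/-- One diagonal. -/
theorem slp_one {f : ℝ → ℝ} {σ a : ℝ} (hd : HasDerivAt f σ a)
    (h01 : ∀ x, 0 ≤ x → x ≤ 1 → 0 ≤ f x ∧ f x ≤ 1) (ha0 : 0 < a) (ha1 : a < 1) :
    ∃ S₀ : ℝ, ∀ Sm : ℝ, S₀ ≤ Sm → ∀ ε : ℝ, 0 < ε → ∃ r₁ : ℝ, 0 < r₁ ∧ ∀ r : ℝ, 0 < r → r < r₁ →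
      ∀ a' : ℝ, |a' - a| ≤ r → ∀ v, 0 ≤ v → v ≤ a' → f a' - f (a' - v) ≤ Sm * v + ε * r := by
  have key : ∀ η : ℝ, 0 < η → ∃ ρ : ℝ, 0 < ρ ∧ ∀ x, |x - a| ≤ ρ →
      |f x - f a - (x - a) * σ| ≤ η * |x - a| := by
    intro η hη
    obtain ⟨ρ, hρ, h1⟩ := Metric.eventually_nhds_iff.1 (hd.isLittleO.def hη)
    refine ⟨ρ / 2, half_pos hρ, fun x hx => ?_⟩
    have h2 := h1 (y := x) (by rw [Real.dist_eq]; linarith)
    rwa [Real.norm_eq_abs, Real.norm_eq_abs, smul_eq_mul] at h2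
  obtain ⟨ρ₁, hρ₁, k1⟩ := key 1 one_pos
  refine ⟨max (|σ| + 3) (2 / ρ₁), fun Sm hSm ε hε => ?_⟩
  have s1 : |σ| + 3 ≤ Sm := (le_max_left _ _).trans hSm
  have s2 : 2 / ρ₁ ≤ Sm := (le_max_right _ _).trans hSm
  obtain ⟨η, hη⟩ : ∃ η : ℝ, η = min 1 (ε / 4) := ⟨_, rfl⟩
  have hη0 : 0 < η := by rw [hη]; exact lt_min one_pos (by linarith)
  have hη1 : η ≤ 1 := by rw [hη]; exact min_le_left _ _
  have hη4 : η ≤ ε / 4 := by rw [hη]; exact min_le_right _ _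
  obtain ⟨ρ, hρ, k2⟩ := key η hη0
  have hm : 0 < min (min (ρ₁ / 4) (ρ / 4)) (min (a / 2) ((1 - a) / 2)) :=
    lt_min (lt_min (by linarith) (by linarith)) (lt_min (by linarith) (by linarith))
  refine ⟨_, hm, fun r hr hrm a' ha' v hv0 hva => ?_⟩
  have b1 : r < ρ₁ / 4 := lt_of_lt_of_le hrm ((min_le_left _ _).trans (min_le_left _ _))
  have b2 : r < ρ / 4 := lt_of_lt_of_le hrm ((min_le_left _ _).trans (min_le_right _ _))
  have b3 : r < a / 2 := lt_of_lt_of_le hrm ((min_le_right _ _).trans (min_le_left _ _))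
  have b4 : r < (1 - a) / 2 := lt_of_lt_of_le hrm ((min_le_right _ _).trans (min_le_right _ _))
  obtain ⟨a1, a2⟩ := abs_le.1 ha'
  have hσv : v * σ ≤ |σ| * v := by
    rw [mul_comm]
    exact mul_le_mul_of_nonneg_right (le_abs_self σ) hv0
  have hε' : 0 < ε * r := mul_pos hε hr
  have s3 : (|σ| + 3) * v ≤ Sm * v := mul_le_mul_of_nonneg_right s1 hv0
  have s4 : (|σ| + 3) * v = |σ| * v + 3 * v := by ring
  rcases le_or_gt v (ρ / 2) with c1 | c1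
  · have d1 : |a' - v - a| ≤ r + v := by rw [abs_le]; constructor <;> linarith
    have e1 := abs_le.1 (k2 a' (by linarith))
    have e2 := abs_le.1 (k2 (a' - v) (by linarith))
    have e3 : η * |a' - a| ≤ η * r := mul_le_mul_of_nonneg_left ha' hη0.le
    have e4 : η * |a' - v - a| ≤ η * (r + v) := mul_le_mul_of_nonneg_left d1 hη0.le
    have e5 : η * (r + v) = η * r + η * v := by ring
    have e6 : η * v ≤ 1 * v := mul_le_mul_of_nonneg_right hη1 hv0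
    have e7 : η * r ≤ ε / 4 * r := mul_le_mul_of_nonneg_right hη4 hr.le
    have e8 : (a' - a) * σ - (a' - v - a) * σ = v * σ := by ring
    linarith [e1.1, e1.2, e2.1, e2.2]
  rcases le_or_gt v (ρ₁ / 2) with c2 | c2
  · have d1 : |a' - v - a| ≤ r + v := by rw [abs_le]; constructor <;> linarith
    have e1 := abs_le.1 (k1 a' (by linarith))
    have e2 := abs_le.1 (k1 (a' - v) (by linarith))
    have e8 : (a' - a) * σ - (a' - v - a) * σ = v * σ := by ring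
    linarith [e1.1, e1.2, e2.1, e2.2]
  · have e1 := (h01 a' (by linarith) (by linarith)).2
    have e2 := (h01 (a' - v) (by linarith) (by linarith)).1
    have e3 : 1 ≤ 2 / ρ₁ * v := by
      rw [div_mul_eq_mul_div, le_div_iff₀ hρ₁]
      linarith
    have e4 : 2 / ρ₁ * v ≤ Sm * v := mul_le_mul_of_nonneg_right s2 hv0
    linarith

/-- **The maximal slope exists**: one natural number for all near radii, before the error. -/
theorem slp_of {L : ℕ → ℝ → ℝ → ℝ} {n : ℕ} {σ : ℕ → ℝ} {a : ℝ}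
    (hd : ∀ i ≤ n, HasDerivAt (fun x => L i x x) (σ i) a)
    (h01 : ∀ i ≤ n, ∀ x, 0 ≤ x → x ≤ 1 → 0 ≤ L i x x ∧ L i x x ≤ 1) (ha0 : 0 < a)
    (ha1 : a < 1) : ∃ Sm : ℕ, ∀ ε : ℝ, 0 < ε → ∃ r₁ : ℝ, 0 < r₁ ∧ ∀ r : ℝ, 0 < r → r < r₁ →
      ∀ a' : ℝ, |a' - a| ≤ r → Slp L n Sm a' 0 (ε * r) := by
  have h1 : ∀ i : Fin (n + 1), ∃ S₀ : ℝ, ∀ Sm : ℝ, S₀ ≤ Sm → ∀ ε : ℝ, 0 < ε → ∃ r₁ : ℝ,
      0 < r₁ ∧ ∀ r : ℝ, 0 < r → r < r₁ → ∀ a' : ℝ, |a' - a| ≤ r → ∀ v, 0 ≤ v → v ≤ a' →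
        L i a' a' - L i (a' - v) (a' - v) ≤ Sm * v + ε * r := fun i =>
    slp_one (f := fun x => L i x x) (hd i (by omega)) (h01 i (by omega)) ha0 ha1
  choose S₀ hS₀ using h1
  obtain ⟨Sm, hSm⟩ := exists_nat_ge (∑ i : Fin (n + 1), |S₀ i|)
  refine ⟨Sm, fun ε hε => ?_⟩
  have h2 : ∀ i : Fin (n + 1), S₀ i ≤ (Sm : ℝ) := fun i =>
    (le_abs_self _).trans ((Finset.single_le_sum (f := fun i => |S₀ i|)
      (fun i _ => abs_nonneg _) (Finset.mem_univ i)).trans hSm)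
  choose r₁ hr₁ hr using fun i => hS₀ i Sm (h2 i) ε hε
  refine ⟨Finset.univ.inf' Finset.univ_nonempty r₁, ?_, ?_⟩
  · rw [Finset.lt_inf'_iff]
    exact fun i _ => hr₁ i
  · intro r h3 h4 a' ha' i hi v hv hva
    rw [Finset.lt_inf'_iff] at h4
    exact hr ⟨i, by omega⟩ r h3 (h4 ⟨i, by omega⟩ (Finset.mem_univ _)) a' ha' v hv (by linarith)

/-- The parameters of a cell. -/
structure CPar where
  /-- the top coordinate -/
  n : ℕ
  /-- the static coordinates -/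
  S : Finset ℕ
  /-- the number of the gaps -/
  R : ℕ
  /-- the windows -/
  k : ℕ → ℝ
  /-- the gap -/
  γ : ℝ
  /-- the maximal slope -/
  Sm : ℝ
  /-- the bound of the slopes -/
  s : ℝ
  /-- the property of the slopes -/
  Rel : (ℕ → ℝ) → Prop

/-- **The cell** with parameters `c`, margin `μ`, floor `b * r` of the windows. -/
def CellX (c : CPar) (μ b : ℝ) (L : ℕ → ℝ → ℝ → ℝ) (a r ε : ℝ) : Prop :=
  ∃ σ : ℕ → ℝ, c.Rel σ ∧ (∀ i ≤ c.n, |σ i| ≤ c.s) ∧ CellM L c.n c.S σ c.R c.k c.γ μ a r ε ∧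
    Slp L c.n c.Sm a (b * r) (ε * r) ∧ a + (c.γ + μ) * r ≤ 1

/-- **Cells are closed.** -/
theorem cellX_lev (c : CPar) {μ μ' : ℝ} {L : ℕ → ℝ → ℝ → ℝ} (hS : ∀ i ∈ c.S, i ≤ c.n)
    (hγ : 0 ≤ c.γ) (hμ' : 0 ≤ μ') (hμ : μ' < μ) (hk : ∀ j ≤ c.R, 0 ≤ c.k j ∧ c.k j ≤ c.k 0) :
    ∀ ε : ℝ, 0 < ε → ∃ ε' : ℝ, 0 < ε' ∧ ∀ w₁ : ℝ, 0 < w₁ → ∃ r₁ : ℝ, 0 < r₁ ∧
      ∀ r : ℝ, 0 < r → r < r₁ → ∃ δ : ℝ, 0 < δ ∧ ∀ L' : ℕ → ℝ → ℝ → ℝ,
        (∀ i ≤ c.n, LevC δ (L i) (L' i)) → ∀ a, w₁ ≤ a → CellX c μ 0 L a r ε' →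
        CellX c μ' 1 L' a r ε := by
  intro ε hε
  obtain ⟨s, hs⟩ : ∃ s : ℝ, s = max c.s 0 := ⟨_, rfl⟩
  have hs0 : 0 ≤ s := by rw [hs]; exact le_max_right _ _
  have hsc : c.s ≤ s := by rw [hs]; exact le_max_left _ _
  refine ⟨ε / 4, by positivity, fun w₁ hw₁ => ?_⟩
  have hk0 := (hk 0 (Nat.zero_le _)).1
  have hkμ : 0 < c.k 0 + μ := by linarith
  refine ⟨w₁ / (c.k 0 + μ), by positivity, fun r hr hrr => ?_⟩
  obtain ⟨δ, hδ⟩ : ∃ δ : ℝ, δ = min (min ((μ - μ') * r) r)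
    (ε * r / (4 * (s + |c.Sm| + 1))) := ⟨_, rfl⟩
  have hS0 := abs_nonneg c.Sm
  have hδ0 : 0 < δ := by
    rw [hδ]
    exact lt_min (lt_min (mul_pos (by linarith) hr) hr) (by positivity)
  have hδ1 : δ ≤ (μ - μ') * r := by rw [hδ]; exact (min_le_left _ _).trans (min_le_left _ _)
  have hδr : δ ≤ r := by rw [hδ]; exact (min_le_left _ _).trans (min_le_right _ _)
  have hδ2 : (s + |c.Sm| + 1) * δ ≤ ε * r / 4 := by
    have e1 : δ ≤ ε * r / (4 * (s + |c.Sm| + 1)) := by rw [hδ]; exact min_le_right _ _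
    rw [le_div_iff₀ (by positivity)] at e1
    linarith
  have hsδ : s * δ ≤ (s + |c.Sm| + 1) * δ := mul_le_mul_of_nonneg_right (by linarith) hδ0.le
  have hSδ : s * δ + |c.Sm| * δ ≤ (s + |c.Sm| + 1) * δ := by linarith
  have hSm : c.Sm * δ ≤ |c.Sm| * δ := mul_le_mul_of_nonneg_right (le_abs_self _) hδ0.le
  have e2 : (μ - μ') * r = μ * r - μ' * r := by ring
  rw [e2] at hδ1
  refine ⟨δ, hδ0, fun L' hL a ha => ?_⟩
  rintro ⟨σ, q1, q2, q3, q4, q5⟩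
  have hlo : (c.k 0 + μ) * r ≤ a := by
    rw [lt_div_iff₀ hkμ] at hrr
    linarith
  have g1 : (c.γ + μ) * r = c.γ * r + μ * r := by ring
  have g2 : (c.γ + μ') * r = c.γ * r + μ' * r := by ring
  have g3 : 0 ≤ c.γ * r := mul_nonneg hγ hr.le
  have g4 : 0 ≤ μ' * r := mul_nonneg hμ' hr.le
  have g5 : 0 ≤ (c.k 0 + μ) * r := mul_nonneg hkμ.le hr.le
  refine ⟨σ, q1, q2, q3.clo hL hS hδ0.le hr.le hγ hμ' (by linarith) hk
    (fun i hi => (q2 i hi).trans hsc) hlo q5 (by linarith), ?_, by linarith⟩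
  have hup : ∀ i ≤ c.n, L i (a + δ) (a + δ) ≤ L i a a + (s * δ + ε / 4 * r) := by
    intro i hi
    have e3 : |L i (a + δ) (a + δ) - L i a a - σ i * (a + δ - a)| ≤ ε / 4 * r := by
      rcases eq_or_lt_of_le hi with hin | hin
      · exact q3.stat i (Or.inr hin) _ _ (by linarith) le_rfl (by linarith)
      · by_cases hiS : i ∈ c.S
        · exact q3.stat i (Or.inl hiS) _ _ (by linarith) le_rfl (by linarith)
        · exact q3.diag i hin hiS _ (by linarith) (by linarith)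
    have e4 : σ i * (a + δ - a) = σ i * δ := by ring
    have e5 : σ i * δ ≤ s * δ :=
      mul_le_mul_of_nonneg_right ((le_abs_self _).trans ((q2 i hi).trans hsc)) hδ0.le
    rw [e4] at e3
    linarith [(abs_le.1 e3).2]
  have h5 := q4.clo hL hδ0.le (by rw [zero_mul]) (by linarith) hup
  intro i hi v hv hva
  have h6 := h5 i hi v hv (by linarith)
  have hεr : 0 < ε * r := mul_pos hε hr
  linarith

variable {ι κ : Type*} {A : ℝ → (ι → ℝ → ℝ → ℝ) → (κ → ℝ → ℝ) → Prop} {P : ι → ℝ → ℝ → ℝ}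
  {r : κ → ℝ → ℝ}

/-- **The local static input** for the numbers of classes: `A e P' r'` means that `P'`, `r'` are
the numbers of a class with slack `e`; `Cell p P' a r ε` is the cell, the rows of the block of
size `K p * r` around `Q` are not full. -/
def StaA {π : Type*} (A : ℝ → (ι → ℝ → ℝ → ℝ) → (κ → ℝ → ℝ) → Prop) (j₀ : ι) (k₀ : κ)
    (Cell : π → (ι → ℝ → ℝ → ℝ) → ℝ → ℝ → ℝ → Prop) (K : π → ℝ) : Prop :=
  ∀ (h : ℝ) (p : π), 0 < h → ∃ ε : ℝ, 0 < ε ∧ ∀ w₁ : ℝ, 0 < w₁ → ∃ r₁ : ℝ, 0 < r₁ ∧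
    ∀ x : ℝ, 0 < x → x < r₁ → ∃ e : ℝ, 0 < e ∧ ∀ P' r', A e P' r' → ∀ Q a : ℝ, K p * x ≤ Q →
      Q + K p * x ≤ 1 → w₁ ≤ a → |Lv (P' j₀) (Q, 0) - a| ≤ 2 * x → Cell p P' a x ε →
      ¬ NonF (r' k₀) h ε Q (K p * x)

/-- **The static input for limit numbers.** -/
theorem staU_lim {τ π : Type*} [Countable τ] [Countable π] {j₀ : ι} {k₀ : κ} {l : τ → ι}
    (hN : ∀ j, Law (P j)) (hlim : IsLim A P r) {Z : Set ℝ} (hZ : volume Z = 0)
    {CellL : π → ℝ → ℝ → ℝ → Prop} {Cell : π → (ι → ℝ → ℝ → ℝ) → ℝ → ℝ → ℝ → Prop}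
    {K : π → ℝ} (hK : ∀ p, 0 < K p)
    (hC : ∀ Q a sN s, 0 < Q → Q < 1 → PtU (P j₀) (fun i => P (l i)) Z Q a sN s →
      ∃ p : π, ∀ ε r₁ : ℝ, 0 < ε → 0 < r₁ → ∃ x a' : ℝ, 0 < x ∧ x < r₁ ∧ |a' - a| ≤ x ∧
        CellL p a' x ε)
    (hcl : ∀ (p : π) (ε : ℝ), 0 < ε → ∃ ε' : ℝ, 0 < ε' ∧ ∀ w₁ : ℝ, 0 < w₁ → ∃ r₁ : ℝ, 0 < r₁ ∧
      ∀ x : ℝ, 0 < x → x < r₁ → ∃ δ : ℝ, 0 < δ ∧ ∃ I : Finset ι, ∀ P' : ι → ℝ → ℝ → ℝ,
        (∀ j ∈ I, LevC δ (P j) (P' j)) → ∀ a, w₁ ≤ a → CellL p a x ε' → Cell p P' a x ε)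
    (hS : StaA A j₀ k₀ Cell K) : StaU (P j₀) (r k₀) := by
  classical
  refine staU_of_cell (hN j₀) (fun i => hN (l i)) hZ hC ?_
  intro h p hh
  obtain ⟨ε, hε, h1⟩ := hS h p hh
  obtain ⟨ε', hε', h2⟩ := hcl p ε hε
  refine ⟨ε', hε', Filter.Eventually.of_forall ?_⟩
  intro Q hQ0 hQ1 ha hd hrt
  have hw : 0 < Lv (P j₀) (Q, 0) / 2 := half_pos ha
  obtain ⟨r₂, hr₂, h3⟩ := h1 _ hw
  obtain ⟨r₃, hr₃, h4⟩ := nonF_of hd hrt one_pos (half_pos hε)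
  obtain ⟨r₅, hr₅, h5⟩ := h2 _ hw
  have hKp := hK p
  obtain ⟨r₄, hr₄⟩ : ∃ r₄, r₄ = min (min r₂ (r₃ / K p)) (min (min r₅ (min Q (1 - Q) / K p))
    (Lv (P j₀) (Q, 0) / 2)) := ⟨_, rfl⟩
  have hr₄0 : 0 < r₄ := by
    rw [hr₄]
    exact lt_min (lt_min hr₂ (div_pos hr₃ hKp)) (lt_min (lt_min hr₅
      (div_pos (lt_min hQ0 (by linarith)) hKp)) hw)
  have k1 : r₄ ≤ r₂ := by rw [hr₄]; exact (min_le_left _ _).trans (min_le_left _ _)
  have k2 : r₄ ≤ r₃ / K p := by rw [hr₄]; exact (min_le_left _ _).trans (min_le_right _ _)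
  have k3 : r₄ ≤ r₅ := by
    rw [hr₄]
    exact (min_le_right _ _).trans ((min_le_left _ _).trans (min_le_left _ _))
  have k4 : r₄ ≤ min Q (1 - Q) / K p := by
    rw [hr₄]
    exact (min_le_right _ _).trans ((min_le_left _ _).trans (min_le_right _ _))
  have k5 : r₄ ≤ Lv (P j₀) (Q, 0) / 2 := by
    rw [hr₄]
    exact (min_le_right _ _).trans (min_le_right _ _)
  refine ⟨r₄, hr₄0, fun x a' hx hxx ha' hcell => ?_⟩
  have j2 : K p * x < r₃ := by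
    have := hxx.trans_le k2
    rw [lt_div_iff₀ hKp] at this
    linarith
  have j4 : K p * x < min Q (1 - Q) := by
    have := hxx.trans_le k4
    rw [lt_div_iff₀ hKp] at this
    linarith
  have j5 := j4.trans_le (min_le_left _ _)
  have j6 := j4.trans_le (min_le_right _ _)
  have hKx : 0 < K p * x := mul_pos hKp hx
  obtain ⟨e, he, h6⟩ := h3 x hx (hxx.trans_le k1)
  obtain ⟨δ₁, hδ₁, I, h7⟩ := h5 x hx (hxx.trans_le k3)
  obtain ⟨η, hη⟩ : ∃ η, η = min δ₁ (min x (ε * (K p * x) / 8)) := ⟨_, rfl⟩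
  have e3 : 0 < ε * (K p * x) := mul_pos hε hKx
  have hη0 : 0 < η := by
    rw [hη]
    exact lt_min hδ₁ (lt_min hx (by positivity))
  have n1 : η ≤ δ₁ := by rw [hη]; exact min_le_left _ _
  have n2 : η ≤ x := by rw [hη]; exact (min_le_right _ _).trans (min_le_left _ _)
  have n3 : η ≤ ε * (K p * x) / 8 := by rw [hη]; exact (min_le_right _ _).trans (min_le_right _ _)
  obtain ⟨P', r', hA, hP, hr⟩ := hlim η e hη0 he (insert j₀ I) {k₀}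
  obtain ⟨a1, a2⟩ := abs_le.1 ha'
  have haw : Lv (P j₀) (Q, 0) / 2 ≤ a' := by linarith
  -- the shift may be enlarged
  have hlev : ∀ j ∈ I, LevC δ₁ (P j) (P' j) := by
    intro j hj a w w0 wa a3
    have c1 := (hP j (Finset.mem_insert_of_mem hj)).2 a w (by linarith) wa (by linarith)
    constructor
    · exact c1.1.trans ((hN j).mono (by linarith) (by linarith) (by linarith) (by linarith)
        (by linarith) (by linarith))
    · exact ((hN j).mono (by linarith) (by linarith) (by linarith) (by linarith)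
        (by linarith) (by linarith)).trans c1.2
  refine h6 P' r' hA Q a' j5.le (by linarith) haw ?_ (h7 P' hlev a' haw hcell) ?_
  · have c1 := abs_le.1 ((hP j₀ (Finset.mem_insert_self _ _)).1 (Q, 0))
    rw [abs_le]
    constructor <;> linarith [c1.1, c1.2]
  · refine (h4 (K p * x) hKx j2 Q (K p * x) (by rw [sub_self, abs_zero]; exact hKx.le)
      (by linarith) le_rfl).clo (δ := η) (fun y hy => ?_) (by linarith)
    obtain ⟨x1, x2⟩ := abs_le.1 hy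
    exact hr k₀ (Finset.mem_singleton_self _) y ⟨by linarith, by linarith⟩

/-- **The hypothesis `hcl` for cells with a margin**: `c p` are the parameters, `lab p i` is the
index of the threshold of the coordinate `i`. -/
theorem cellX_hcl {π : Type*} (c : π → CPar) (lab : π → ℕ → ι) {μ μ' : π → ℝ}
    (hS : ∀ p, ∀ i ∈ (c p).S, i ≤ (c p).n) (hγ : ∀ p, 0 ≤ (c p).γ) (hμ' : ∀ p, 0 ≤ μ' p)
    (hμ : ∀ p, μ' p < μ p) (hk : ∀ p, ∀ j ≤ (c p).R, 0 ≤ (c p).k j ∧ (c p).k j ≤ (c p).k 0) :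
    ∀ (p : π) (ε : ℝ), 0 < ε → ∃ ε' : ℝ, 0 < ε' ∧ ∀ w₁ : ℝ, 0 < w₁ → ∃ r₁ : ℝ, 0 < r₁ ∧
      ∀ x : ℝ, 0 < x → x < r₁ → ∃ δ : ℝ, 0 < δ ∧ ∃ I : Finset ι, ∀ P' : ι → ℝ → ℝ → ℝ,
        (∀ j ∈ I, LevC δ (P j) (P' j)) → ∀ a, w₁ ≤ a →
          CellX (c p) (μ p) 0 (fun i => P (lab p i)) a x ε' →
          CellX (c p) (μ' p) 1 (fun i => P' (lab p i)) a x ε := by
  classical
  intro p ε hε
  obtain ⟨ε', hε', h1⟩ := cellX_lev (c p) (L := fun i => P (lab p i)) (hS p) (hγ p) (hμ' p)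
    (hμ p) (hk p) ε hε
  refine ⟨ε', hε', fun w₁ hw₁ => ?_⟩
  obtain ⟨r₁, hr₁, h2⟩ := h1 w₁ hw₁
  refine ⟨r₁, hr₁, fun x hx hxr => ?_⟩
  obtain ⟨δ, hδ, h3⟩ := h2 x hx hxr
  refine ⟨δ, hδ, (Finset.range ((c p).n + 1)).image (lab p), fun P' hP' a ha hc =>
    h3 (fun i => P' (lab p i)) (fun i hi => hP' _ (Finset.mem_image_of_mem _
      (Finset.mem_range.2 (by omega)))) a ha hc⟩

/-- **The local static input for one class**, with its own numbers `P` (target) and `ρ`. -/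
def Sta1 {π : Type*} (P : ℝ → ℝ → ℝ) (ρ : ℝ → ℝ) (Cell : π → ℝ → ℝ → ℝ → Prop) (K : π → ℝ) :
    Prop :=
  ∀ (h : ℝ) (p : π), 0 < h → ∃ ε : ℝ, 0 < ε ∧ ∀ w₁ : ℝ, 0 < w₁ → ∃ r₁ : ℝ, 0 < r₁ ∧
    ∀ x : ℝ, 0 < x → x < r₁ → ∀ Q a : ℝ, K p * x ≤ Q → Q + K p * x ≤ 1 → w₁ ≤ a →
      |Lv P (Q, 0) - a| ≤ x → Cell p a x ε → ¬ NonF ρ h ε Q (K p * x)

/-- **The static input, one class.** -/
theorem staU_one {τ π : Type*} [Countable τ] [Countable π] {P : ℝ → ℝ → ℝ} {ρ : ℝ → ℝ}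
    {L : τ → ℝ → ℝ → ℝ} (hP : Law P) (hL : ∀ i, Law (L i)) {Z : Set ℝ} (hZ : volume Z = 0)
    {Cell : π → ℝ → ℝ → ℝ → Prop} {K : π → ℝ} (hK : ∀ p, 0 < K p)
    (hC : ∀ Q a sN s, 0 < Q → Q < 1 → PtU P L Z Q a sN s →
      ∃ p : π, ∀ ε r₁ : ℝ, 0 < ε → 0 < r₁ → ∃ x a' : ℝ, 0 < x ∧ x < r₁ ∧ |a' - a| ≤ x ∧
        Cell p a' x ε)
    (hS : Sta1 P ρ Cell K) : StaU P ρ := by
  refine staU_of_cell hP hL hZ hC ?_
  intro h p hh
  obtain ⟨ε, hε, h1⟩ := hS h p hh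
  refine ⟨ε, hε, Filter.Eventually.of_forall ?_⟩
  intro Q hQ0 hQ1 ha hd hrt
  have hw : 0 < Lv P (Q, 0) / 2 := half_pos ha
  obtain ⟨r₂, hr₂, h3⟩ := h1 _ hw
  obtain ⟨r₃, hr₃, h4⟩ := nonF_of hd hrt one_pos hε
  have hKp := hK p
  obtain ⟨r₄, hr₄⟩ : ∃ r₄, r₄ = min (min r₂ (r₃ / K p)) (min (min Q (1 - Q) / K p)
    (Lv P (Q, 0) / 2)) := ⟨_, rfl⟩
  have hr₄0 : 0 < r₄ := by
    rw [hr₄]
    exact lt_min (lt_min hr₂ (div_pos hr₃ hKp)) (lt_min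
      (div_pos (lt_min hQ0 (by linarith)) hKp) hw)
  have k1 : r₄ ≤ r₂ := by rw [hr₄]; exact (min_le_left _ _).trans (min_le_left _ _)
  have k2 : r₄ ≤ r₃ / K p := by rw [hr₄]; exact (min_le_left _ _).trans (min_le_right _ _)
  have k4 : r₄ ≤ min Q (1 - Q) / K p := by
    rw [hr₄]
    exact (min_le_right _ _).trans (min_le_left _ _)
  have k5 : r₄ ≤ Lv P (Q, 0) / 2 := by
    rw [hr₄]
    exact (min_le_right _ _).trans (min_le_right _ _)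
  refine ⟨r₄, hr₄0, fun x a' hx hxx ha' hcell => ?_⟩
  have j2 : K p * x < r₃ := by
    have := hxx.trans_le k2
    rw [lt_div_iff₀ hKp] at this
    linarith
  have j4 : K p * x < min Q (1 - Q) := by
    have := hxx.trans_le k4
    rw [lt_div_iff₀ hKp] at this
    linarith
  have j5 := j4.trans_le (min_le_left _ _)
  have j6 := j4.trans_le (min_le_right _ _)
  have hKx : 0 < K p * x := mul_pos hKp hx
  obtain ⟨a1, a2⟩ := abs_le.1 ha'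
  refine h3 x hx (hxx.trans_le k1) Q a' j5.le (by linarith) (by linarith)
    (by rw [abs_sub_comm]; exact ha') hcell ?_
  exact h4 (K p * x) hKx j2 Q (K p * x) (by rw [sub_self, abs_zero]; exact hKx.le)
    (by linarith) le_rfl

end Pool.CLO
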