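import Pool.Agent.H87.GEN.Stg

/-!
# The next window, in a class

`pre_of_pst`: from a node with a direction which is closed at the next window to the node of the next
window, with the shear.
-/

set_option autoImplicit false

namespace Pool.SHR

open Finset Real MvPolynomial
open Pool.Agent.H49.Ent Pool.Agent.H32.Dense Pool.STK Pool.KA Pool.KSAT Pool.K2S Pool.PB Pool.S6C
open Pool.GEN Pool.CHT Pool.ISO
open Pool.FLF (Fam.sub)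
open Pool.LEV (Law)
open Pool.Z3 (share_ex Nod NodQ NodS bas_all)

variable {m J : ℕ}

/-- **The mesh of windows** of a path in a class. -/
def MeshQ (S : PCl m) (c : ℕ → Fin m) (r : ℕ) (β : ℕ → ℝ → ℝ → ℝ) (e E ϱ a w w' : ℝ) : Prop :=
  ∀ μ : ℝ, 0 < μ → ∃ (K : ℕ) (om : ℕ → ℝ), 1 ≤ K ∧ om 0 = w ∧ om K = w' ∧
    (∀ k < K, om k ≤ om (k + 1) ∧ om (k + 1) - om k ≤ μ) ∧
    ∀ k ≤ K, NodQ S c r β e E ϱ a (om k)

/-- The size of the mesh. -/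
theorem mesh_size (S₁ s : ℕ) (Tv : ℕ → ℝ) {Kg θ : ℝ} (hKg : 0 < Kg) (hθ : 0 < θ) :
    ∃ μ τ : ℝ, 0 < μ ∧ 0 ≤ τ ∧ (∀ i ≤ s, (|Tv i| + 4 * (s + 1) * Kg) * μ ≤ τ) ∧
      (S₁ + 1) * ((s + 2) * τ) ≤ θ / 16 := by
  obtain ⟨τ, hτ⟩ : ∃ τ : ℝ, τ = θ / (16 * ((S₁ + 1) * (s + 2))) := ⟨_, rfl⟩
  have hτ0 : 0 < τ := by rw [hτ]; positivity
  obtain ⟨M, hM⟩ : ∃ M : ℝ, M = ∑ i ∈ range (s + 1), |Tv i| := ⟨_, rfl⟩
  have hM0 : 0 ≤ M := by rw [hM]; exact Finset.sum_nonneg fun _ _ => abs_nonneg _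
  have hMi : ∀ i ≤ s, |Tv i| ≤ M := fun i hi => by
    rw [hM]
    exact Finset.single_le_sum (f := fun i => |Tv i|) (fun _ _ => abs_nonneg _)
      (mem_range.2 (by omega))
  obtain ⟨Z, hZ⟩ : ∃ Z : ℝ, Z = M + 4 * (s + 1) * Kg + 1 := ⟨_, rfl⟩
  have hZ0 : 0 < Z := by rw [hZ]; positivity
  refine ⟨τ / Z, τ, by positivity, hτ0.le, fun i hi => ?_, ?_⟩
  · have h1 : |Tv i| + 4 * (s + 1) * Kg ≤ Z := by
      rw [hZ]
      linarith [hMi i hi]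
    calc (|Tv i| + 4 * (s + 1) * Kg) * (τ / Z) ≤ Z * (τ / Z) :=
          mul_le_mul_of_nonneg_right h1 (by positivity)
      _ = τ := by field_simp
  · rw [hτ]
    refine le_of_eq ?_
    field_simp

/-- The nodes of a mesh, with one degree for the last node. -/
theorem mesh_deg {S : PCl m} {c : ℕ → Fin m} {r K D' : ℕ} {β : ℕ → ℝ → ℝ → ℝ} {e E ϱ a : ℝ}
    {om : ℕ → ℝ} (hD' : 1 ≤ D') (hN : ∀ (Dr : ℕ) (η σ : ℝ), 0 < η → 0 < σ → σ ≤ ϱ →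
      ∃ (K₁ : ℝ) (d : ℕ → ℝ) (ψ : ℝ), 0 < K₁ ∧ 0 < ψ ∧ (∀ l ≤ r, 0 < d l ∧ d l ≤ σ ∧ d l < a) ∧
        Bas S (fun J F A => ∃ B : F.Ω → Prop, Sub B A ∧ Pe F.p A ≤ K₁ * Pe F.p B ∧
          NodS c r D' Dr (fun l => β l a (om K)) d a (om K) e (E + σ) η ϱ (E + ϱ) ψ J F B))
    (h : ∀ k ≤ K, NodQ S c r β e E ϱ a (om k)) : ∀ k ≤ K,
    ∃ D : ℕ, 1 ≤ D ∧ (k = K → D = D') ∧ ∀ (Dr : ℕ) (η σ : ℝ), 0 < η → 0 < σ → σ ≤ ϱ →
      ∃ (K₁ : ℝ) (d : ℕ → ℝ) (ψ : ℝ), 0 < K₁ ∧ 0 < ψ ∧ (∀ l ≤ r, 0 < d l ∧ d l ≤ σ ∧ d l < a) ∧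
        Bas S (fun J F A => ∃ B : F.Ω → Prop, Sub B A ∧ Pe F.p A ≤ K₁ * Pe F.p B ∧
          NodS c r D Dr (fun l => β l a (om k)) d a (om k) e (E + σ) η ϱ (E + ϱ) ψ J F B) := by
  intro k hk
  by_cases h1 : k = K
  · subst h1
    exact ⟨D', hD', fun _ => rfl, hN⟩
  · obtain ⟨D, h2, h3⟩ := h k hk
    exact ⟨D, h2, fun h4 => absurd h4 h1, h3⟩

/-- **The node of the next window.** -/
theorem pre_of_pstD {S : PCl m} {c : ℕ → Fin m} {r l s D' : ℕ} {β : ℕ → ℝ → ℝ → ℝ}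
    {e E ϱ a w w' Λ Kg Ψ₀ : ℝ} {Bv Tv : ℕ → ℝ} (hc : Set.InjOn c (Set.Iio (r + 1)))
    (hls : l ≤ s) (hsr : s ≤ r) (hw0 : 0 < w) (ha1 : a ≤ 1)
    (hLow : ∀ i ≤ r, ∀ a w, 0 ≤ w → w ≤ a → a ≤ 1 → a ≤ β i a w)
    (hΛ : 0 ≤ β l a w + Λ) (V : Vld β l s w Kg (β l a w + Λ) a w' Ψ₀ Bv Tv)
    (hmesh : MeshQ S c r β e E ϱ a w w') (hN : NodD S c r D' β e E ϱ a w')
    (h : PstQ S c r l s β e E ϱ a w w' Λ) :
    PreD S c r l s D' β e E ϱ a w' (4 * ((s : ℝ) - l) * Ψ₀) := by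
  classical
  obtain ⟨D₀, hD₀, h⟩ := h
  obtain ⟨hD', hN⟩ := hN
  obtain ⟨S₁, hwin⟩ := win_fam m D' s hD'
  intro Dr η σ θ hη hσ hσϱ hθ
  obtain ⟨μ, τ, hμ, hτ, hμτ, hτθ⟩ := mesh_size S₁ s Tv V.K0 hθ
  obtain ⟨K, om, hK, om0, omK, hom, hnod⟩ := hmesh μ hμ
  subst om0
  subst omK
  have hdeg := mesh_deg (om := om) (K := K) hD' hN hnod
  choose! Dk hDk1 hDkK hDk using hdeg
  obtain ⟨Dm, hDm⟩ : ∃ Dm, Dm = D₀ + D' + ∑ k ∈ range (K + 1), Dk k := ⟨_, rfl⟩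
  have hDkm : ∀ k ≤ K, Dk k ≤ Dm := fun k hk => by
    have h1 : Dk k ≤ ∑ k ∈ range (K + 1), Dk k :=
      Finset.single_le_sum (f := fun k => Dk k) (fun _ _ => Nat.zero_le _)
        (mem_range.2 (Nat.lt_succ_of_le hk))
    omega
  obtain ⟨C, hwin⟩ := hwin Dm (by omega)
  obtain ⟨σ₀, hσ₀, hwin⟩ := hwin (P := β) (l := l) (K := K) (η := θ) (μ := μ) (τ := τ) (om := om)
    (fun i hi => hLow i (by omega)) hls V hw0 ha1 hΛ hθ rfl rfl hτ hom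
    (fun i _ hi => hμτ i hi) hτθ
  -- the parameters
  obtain ⟨η', hη'⟩ : ∃ η', η' = min η σ₀ := ⟨_, rfl⟩
  obtain ⟨σ', hσ'⟩ : ∃ σ', σ' = min σ σ₀ := ⟨_, rfl⟩
  have hη'0 : 0 < η' := by rw [hη']; exact lt_min hη hσ₀
  have hσ'0 : 0 < σ' := by rw [hσ']; exact lt_min hσ hσ₀
  have hη'1 : η' ≤ η := by rw [hη']; exact min_le_left _ _
  have hη'2 : η' ≤ σ₀ := by rw [hη']; exact min_le_right _ _
  have hσ'1 : σ' ≤ σ := by rw [hσ']; exact min_le_left _ _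
  have hσ'2 : σ' ≤ σ₀ := by rw [hσ']; exact min_le_right _ _
  obtain ⟨K₀, d₀, ψ₀, hK₀, hψ₀, hd₀, hB₀⟩ := h (max Dr Dm) η' σ' σ₀ hη'0 hσ'0 (hσ'1.trans hσϱ) hσ₀
  have hpar := fun k hk => hDk k hk (max Dr Dm) η' σ' hη'0 hσ'0 (hσ'1.trans hσϱ)
  choose! K₁ d ψ hK₁ hψ hd hBk using hpar
  obtain ⟨ψm, hψm, hψle⟩ := fin_pos (K + 1) (f := fun k => min (ψ₀ / 2) (ψ k / 2)) fun k hk =>
    lt_min (by linarith) (by have := hψ k (by omega); linarith)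
  have hψ0m : ψm ≤ ψ₀ / 2 := (hψle 0 (by omega)).trans (min_le_left _ _)
  have hψkm : ∀ k ≤ K, ψm ≤ ψ k / 2 := fun k hk =>
    (hψle k (Nat.lt_succ_of_le hk)).trans (min_le_right _ _)
  -- the common event
  obtain ⟨Kc, hKc, hBc⟩ := bas_all (S := S)
    (Φ := fun k J F B => (k = 0 → PstS c r l s D₀ (max Dr Dm) (fun j => β j a (om 0)) d₀ a (om 0)
        (om K) e E η' ϱ σ₀ Λ ψ₀ J F B) ∧
      (1 ≤ k → k ≤ K → NodS c r (Dk k) (max Dr Dm) (fun l => β l a (om k)) (d k) a (om k) e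
        (E + σ') η' ϱ (E + ϱ) (ψ k) J F B))
    (Φ' := fun k J F B => (k = 0 → PstS c r l s D₀ (max Dr Dm) (fun j => β j a (om 0)) d₀ a
        (om 0) (om K) e E η' ϱ σ₀ Λ (ψ₀ / 2) J F B) ∧
      (1 ≤ k → k ≤ K → NodS c r (Dk k) (max Dr Dm) (fun l => β l a (om k)) (d k) a (om k) e
        (E + σ') η' ϱ (E + ϱ) (ψ k / 2) J F B))
    (fun k κ hκ => by
      by_cases hk : k ≤ K
      · obtain ⟨J₁, hJ₁⟩ := share_ex (ψ := ψ₀ - ψ₀ / 2) (by linarith) hκ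
        obtain ⟨J₂, hJ₂⟩ := share_ex (ψ := ψ k - ψ k / 2) (by have := hψ k hk; linarith) hκ
        refine ⟨max J₁ J₂, fun J hJ F B B' h1 h2 h3 => ⟨fun h4 => ?_, fun h4 h5 => ?_⟩⟩
        · exact (h1.1 h4).sub h2 h3 (hJ₁ J ((le_max_left _ _).trans hJ))
        · exact (h1.2 h4 h5).sub h2 h3 (hJ₂ J ((le_max_right _ _).trans hJ))
      · obtain ⟨J₁, hJ₁⟩ := share_ex (ψ := ψ₀ - ψ₀ / 2) (by linarith) hκ
        exact ⟨J₁, fun J hJ F B B' h1 h2 h3 => ⟨fun h4 => (h1.1 h4).sub h2 h3 (hJ₁ J hJ),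
          fun _ h5 => absurd h5 hk⟩⟩) (K + 1) (fun k hk => by
      by_cases h1 : k = 0
      · refine ⟨K₀, hK₀, hB₀.mono 0 ?_⟩
        rintro J - F A ⟨B, k1, k2, k3⟩
        exact ⟨B, k1, k2, fun _ => k3, fun h2 => by omega⟩
      · refine ⟨K₁ k, hK₁ k (by omega), (hBk k (by omega)).mono 0 ?_⟩
        rintro J - F A ⟨B, k1, k2, k3⟩
        exact ⟨B, k1, k2, fun h2 => absurd h2 h1, fun _ _ => k3⟩)
  obtain ⟨J₀, hwin⟩ := hwin 1 ψm one_pos hψm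
  obtain ⟨J₁, hJ₁⟩ := share_ex (ψ := ψ K / 4) (κ := 1 / 2 ^ (C * (K + 1)))
    (by have := hψ K le_rfl; linarith) (by positivity)
  refine ⟨Kc * 2 ^ (C * (K + 1)), d K, ψ K / 4, by positivity,
    by have := hψ K le_rfl; linarith, fun j hj => ⟨(hd K le_rfl j hj).1,
      (hd K le_rfl j hj).2.1.trans hσ'1⟩, hBc.mono (max J₀ J₁) ?_⟩
  rintro J hJ F A ⟨B, k1, k2, hall⟩
  simp only [ge_iff_le, max_le_iff] at hJ
  have hJr : (0 : ℝ) ≤ J := Nat.cast_nonneg J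
  obtain ⟨G₀, H₀, v, v', n0, s0⟩ := (hall 0 (by omega)).1 rfl
  have hnk : ∀ k, 1 ≤ k → k ≤ K → NodS c r (Dk k) (max Dr Dm) (fun l => β l a (om k)) (d k) a
      (om k) e (E + σ') η' ϱ (E + ϱ) (ψ k / 2) J F B := fun k h1 h2 => (hall k (by omega)).2 h1 h2
  choose! G H hG using hnk
  have hfl : ∀ x y : ℝ, x ≤ y → ⌊x * (J : ℝ)⌋₊ ≤ ⌊y * (J : ℝ)⌋₊ := fun x y hxy =>
    Nat.floor_le_floor (mul_le_mul_of_nonneg_right hxy hJr)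
  have hex : ∀ x y : ℝ, x ≤ y → Real.exp (-(y * J)) ≤ Real.exp (-(x * J)) := fun x y hxy =>
    Real.exp_le_exp.2 (by
      have := mul_le_mul_of_nonneg_right hxy hJr
      linarith)
  -- the charts
  obtain ⟨Gs, hGs⟩ : ∃ Gs : ℕ → PtT F → ℕ → MvPolynomial (Option (Fin m)) ℝ,
    Gs = fun k => if k = 0 then G₀ else G k := ⟨_, rfl⟩
  obtain ⟨Hs, hHs⟩ : ∃ Hs : ℕ → LnT F → ℕ → MvPolynomial (Option (Fin m)) ℝ,
    Hs = fun k => if k = 0 then H₀ else H k := ⟨_, rfl⟩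
  obtain ⟨ds, hds⟩ : ∃ ds : ℕ → ℕ → ℝ, ds = fun k => if k = 0 then d₀ else d k := ⟨_, rfl⟩
  have Gs0 : Gs 0 = G₀ := by rw [hGs]; exact if_pos rfl
  have Hs0 : Hs 0 = H₀ := by rw [hHs]; exact if_pos rfl
  have ds0 : ds 0 = d₀ := by rw [hds]; exact if_pos rfl
  have Gsk : ∀ k, 1 ≤ k → Gs k = G k := fun k hk => by rw [hGs]; exact if_neg (by omega)
  have Hsk : ∀ k, 1 ≤ k → Hs k = H k := fun k hk => by rw [hHs]; exact if_neg (by omega)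
  have dsk : ∀ k, 1 ≤ k → ds k = d k := fun k hk => by rw [hds]; exact if_neg (by omega)
  have hN2 : ∀ k ≤ K, Nod F c r Dm Dm ⌊a * J⌋₊ ⌊om k * J⌋₊ ⌊e * J⌋₊ (max ⌊(E + ϱ) * (J : ℝ)⌋₊
      ⌊(E + σ') * (J : ℝ)⌋₊) (fun j => ⌊(β j a (om k) - ds k j) * J⌋₊) ⌊σ₀ * J⌋₊
      ⌊(1 - ϱ) * J⌋₊ ⌊(1 - (E + ϱ)) * J⌋₊ (Real.exp (-(ψm * J))) B (Gs k) (Hs k) := by
    intro k hk
    rcases Nat.eq_zero_or_pos k with h1 | h1
    · subst h1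
      rw [Gs0, Hs0, ds0]
      exact ⟨n0.lst.mono le_rfl (fun _ => by omega) le_rfl le_rfl,
        n0.top.mono le_rfl (fun _ => by omega) le_rfl (le_max_left _ _),
        n0.rlY.mono (le_max_right _ _) (hfl _ _ hη'2) (hex _ _ hψ0m)⟩
    · have h2 := hG k h1 hk
      rw [Gsk k h1, Hsk k h1, dsk k h1]
      exact ⟨h2.lst.mono le_rfl (fun _ => hDkm k hk) le_rfl le_rfl,
        h2.top.mono le_rfl (fun _ => hDkm k hk) le_rfl (le_max_right _ _),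
        h2.rlY.mono (le_max_right _ _) (hfl _ _ hη'2) (hex _ _ (hψkm k hk))⟩
  have hdK : Dk K = D' := hDkK K le_rfl rfl
  have hGK := hG K hK le_rfl
  obtain ⟨B'', l1, l2, l3⟩ := hwin J hJ.1 (F := F) (c := c) (d := ds) (x := ⌊σ₀ * (J : ℝ)⌋₊)
    (e := fun _ => max ⌊(E + ϱ) * (J : ℝ)⌋₊ ⌊(E + σ') * (J : ℝ)⌋₊) (w₁ := om K) (B₀ := B)
    (B' := B) (G := Gs) (H := Hs) (v := v) (v' := v')
    (hc.mono (Set.Iio_subset_Iio (by omega))) le_rfl (fun k hk i hi => by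
      rcases Nat.eq_zero_or_pos k with h1 | h1
      · subst h1
        rw [ds0]
        exact ⟨(hd₀ i (by omega)).1.le, (hd₀ i (by omega)).2.trans hσ'2⟩
      · rw [dsk k h1]
        exact ⟨(hd k hk i (by omega)).1.le, (hd k hk i (by omega)).2.1.trans hσ'2⟩)
    (Nat.floor_le (by positivity))
    (fun k hk => relvF_low (hN2 k hk).rlF (by omega) hc (hN2 k hk).top.depG) (fun _ h => h)
    (by rw [one_mul]) (fun k hk => (hN2 k hk).top.mono (by omega) (fun _ => le_rfl) le_rfl le_rfl)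
    (fun y i => by
      rw [Gsk K hK]
      exact (hGK.top.degG y i).trans hdK.le) (fun y i => by
      rw [Hsk K hK]
      exact (hGK.top.degH y i).trans hdK.le) s0.cls s0.nrm (fun ω hω i hli hi => by
      rw [Gs0, ds0]
      exact s0.own ω hω i hli (by omega))
  rw [Gsk K hK, dsk K hK] at l3
  rw [hdK] at hGK
  refine ⟨B'', fun ω h => k1 ω (l1 ω h), ?_, G K, H K, v, v', ?_, ⟨fun ω h => s0.cls ω (l1 ω h),
    fun ω h => s0.nrm ω (l1 ω h), fun ω hω j hlj hjs => (l3 ω hω j hlj (by omega)).2⟩,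
    fun ω hω j hlj hjs => (l3 ω hω j hlj (by omega)).1⟩
  · rw [div_le_iff₀ (by positivity)] at l2
    calc Pe F.p A ≤ Kc * Pe F.p B := k2
      _ ≤ Kc * (Pe F.p B'' * 2 ^ (C * (K + 1))) := mul_le_mul_of_nonneg_left l2 hKc.le
      _ = _ := by ring
  · refine Nod.sub (κ := Real.exp (-(ψ K / 2 * J))) (κ₁ := 1 / 2 ^ (C * (K + 1))) ⟨hGK.lst,
      hGK.top.mono le_rfl (fun _ => le_rfl) le_rfl (hfl _ _ (by linarith)),
      hGK.rlY.mono (le_max_left _ _) (hfl _ _ hη'1) le_rfl⟩ l1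
      (by rw [one_div, inv_mul_eq_div]; exact l2) (Real.exp_pos _).le ?_
    have h1 := hJ₁ J hJ.2
    have h2 : Real.exp (-(ψ K / 2 * J)) = Real.exp (-(ψ K / 4 * J)) * Real.exp (-(ψ K / 4 * J)) := by
      rw [← Real.exp_add]
      congr 1
      ring
    rw [h2]
    exact mul_le_mul_of_nonneg_left h1 (Real.exp_pos _).le

/-- The node of the next window. -/
theorem pre_of_pst {S : PCl m} {c : ℕ → Fin m} {r l s : ℕ} {β : ℕ → ℝ → ℝ → ℝ}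
    {e E ϱ a w w' Λ Kg Ψ₀ : ℝ} {Bv Tv : ℕ → ℝ} (hc : Set.InjOn c (Set.Iio (r + 1)))
    (hls : l ≤ s) (hsr : s ≤ r) (hw0 : 0 < w) (ha1 : a ≤ 1)
    (hLow : ∀ i ≤ r, ∀ a w, 0 ≤ w → w ≤ a → a ≤ 1 → a ≤ β i a w)
    (hΛ : 0 ≤ β l a w + Λ) (V : Vld β l s w Kg (β l a w + Λ) a w' Ψ₀ Bv Tv)
    (hmesh : MeshQ S c r β e E ϱ a w w') (hN : NodQ S c r β e E ϱ a w')
    (h : PstQ S c r l s β e E ϱ a w w' Λ) :
    PreQ S c r l s β e E ϱ a w' (4 * ((s : ℝ) - l) * Ψ₀) := by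
  obtain ⟨D', hD', hN⟩ := hN
  exact ⟨D', hD', pre_of_pstD hc hls hsr hw0 ha1 hLow hΛ V hmesh ⟨hD', hN⟩ h⟩

end Pool.SHR
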