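import Pool.Agent.H87.GEN.Vld

/-!
# The shear at a node

`rad_fam`: the derivatives at the samples, from a smaller radius to a larger one. `win_fam`: the
derivatives at the samples and the shear, from a window to a finer window. Both are in real numbers,
in units of `J`.
-/

set_option autoImplicit false

namespace Pool.SHR

open Finset Real MvPolynomial
open Pool.Agent.H49.Ent Pool.Agent.H32.Dense Pool.STK Pool.KA Pool.KSAT Pool.K2S Pool.PB Pool.S6C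
open Pool.GEN Pool.CHT
open Pool.FLF (Fam.sub)
open Pool.LEV (Law)
open Pool.Z3 (share_ex)

/-- Integer parts of four numbers. -/
theorem fl_four {x y z t s : ℝ} {q : ℕ} (hx : 0 ≤ x) (hy : 0 ≤ y) (h : x + y ≤ z + t + s)
    (hq : s ≤ q) : ⌊x⌋₊ + ⌊y⌋₊ ≤ ⌊z⌋₊ + ⌊t⌋₊ + (q + 1) := by
  have h1 := Nat.floor_le hx
  have h2 := Nat.floor_le hy
  have h3 := Nat.lt_floor_add_one z
  have h4 := Nat.lt_floor_add_one t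
  have h5 : ((⌊x⌋₊ + ⌊y⌋₊ : ℕ) : ℝ) < ((⌊z⌋₊ + ⌊t⌋₊ + q + 2 : ℕ) : ℝ) := by
    push_cast
    linarith
  have h6 : ⌊x⌋₊ + ⌊y⌋₊ < ⌊z⌋₊ + ⌊t⌋₊ + q + 2 := by exact_mod_cast h5
  omega

/-- **From a smaller radius to a larger one**, in real numbers. -/
theorem rad_fam (m D r : ℕ) (hD : 1 ≤ D) : ∃ C : ℕ, ∀ {P : ℕ → ℝ → ℝ → ℝ} {l : ℕ}
    {a₀ w₀ a A E η : ℝ}, (∀ i ≤ r, Law (P i)) →
    (∀ i ≤ r, ∀ a w, 0 ≤ w → w ≤ a → a ≤ 1 → a ≤ P i a w) → l ≤ r → 0 < w₀ → w₀ ≤ a → a < a₀ →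
    a₀ < 1 → 0 ≤ E → (∀ i ≤ r, P i a₀ w₀ + E < 1) → P l a₀ w₀ ≤ A → 0 < η →
    ∃ σ₀ : ℝ, 0 < σ₀ ∧ ∀ κ₁ ψ : ℝ, 0 < κ₁ → 0 < ψ → ∃ J₀ : ℕ, ∀ J : ℕ, J₀ ≤ J →
    ∀ {F : Fam m J} {c : ℕ → Fin m} {d₀ d : ℕ → ℝ} {e₀ e x : ℕ}
      {B₀ B' : F.Ω → Prop} {G₀ G : PtT F → ℕ → MvPolynomial (Option (Fin m)) ℝ}
      {H₀ H : LnT F → ℕ → MvPolynomial (Option (Fin m)) ℝ}, Set.InjOn c (Set.Iio (r + 1)) →
      (∀ i ≤ r, 0 ≤ d₀ i ∧ d₀ i ≤ σ₀) → (∀ i ≤ r, 0 ≤ d i ∧ d i ≤ σ₀) →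
      (e : ℝ) ≤ E * J → (x : ℝ) ≤ σ₀ * J →
      RelvF F c (r + 1) ⌊a₀ * J⌋₊ ⌊w₀ * J⌋₊ (fun i => ⌊(P i a₀ w₀ - d₀ i) * J⌋₊) D ⌊σ₀ * J⌋₊
        (Real.exp (-(ψ * J))) B₀ G₀ → Sub B' B₀ → κ₁ * Pe F.p B₀ ≤ Pe F.p B' →
      ∀ (hB : 0 < Pe F.p B'),
      ChOK F c (r + 1) (fun _ => D) ⌊a₀ * J⌋₊ ⌊w₀ * J⌋₊ e₀ (fun i => ⌊(P i a₀ w₀ - d₀ i) * J⌋₊)
        B' G₀ H₀ →
      ChOK F c (r + 1) (fun _ => D) ⌊a * J⌋₊ ⌊w₀ * J⌋₊ e (fun i => ⌊(P i a w₀ - d i) * J⌋₊)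
        B' G H → (Fam.sub F B' hB).Tm (σ₀ * J) →
      ∃ B'' : F.Ω → Prop, Sub B'' B' ∧ Pe F.p B' / 2 ^ C ≤ Pe F.p B'' ∧
        ∀ ω, B'' ω → ∀ v : Fin m → ℝ, v (c l) = 1 → (∀ j < l, v (c j) = 0) →
        (∀ i, l < i → i < r + 1 → |eval (bt F ω) (dir v (G₀ (ptr F J ω) i)) - v (c i)| ≤
          2 ^ x * 2 ^ ⌊A * J⌋₊ / 2 ^ ⌊(P i a₀ w₀ - d₀ i) * J⌋₊) →
        ∀ i, l < i → i < r + 1 → |eval (bt F ω) (dir v (G (ptr F J ω) i)) - v (c i)| ≤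
          2 ^ ⌊η * J⌋₊ * 2 ^ ⌊(A - (a₀ - a)) * J⌋₊ / 2 ^ ⌊(P i a w₀ - d i) * J⌋₊ := by
  obtain ⟨C, C₁, hC₁, hbase⟩ := base_fam m D (r + 1) hD
  refine ⟨C, ?_⟩
  intro P l a₀ w₀ a A E η hLaw hLow hlr hw₀ hwa haa ha₀ hE hPE hA hη
  have hC0 : (0 : ℝ) ≤ C := Nat.cast_nonneg C
  have hr0 : (0 : ℝ) ≤ r := Nat.cast_nonneg r
  obtain ⟨Z, hZ⟩ : ∃ Z : ℝ, Z = C + (r + 1) * (2 * C₁) + 3 := ⟨_, rfl⟩
  have hZ0 : 0 < Z := by rw [hZ]; positivity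
  obtain ⟨σ₀, hσ₀⟩ : ∃ σ₀ : ℝ, σ₀ = min (min (η / (4 * Z)) ((a₀ - a) / (8 * (r + 1) * C₁)))
    (min ((1 - w₀) / (4 * C₁)) w₀) := ⟨_, rfl⟩
  have hs0 : 0 < σ₀ := by
    rw [hσ₀]
    exact lt_min (lt_min (by positivity) (div_pos (by linarith) (by positivity)))
      (lt_min (div_pos (by linarith) (by positivity)) hw₀)
  have hs1 : Z * σ₀ ≤ η / 4 := by
    have h1 : σ₀ ≤ η / (4 * Z) := by rw [hσ₀]; exact (min_le_left _ _).trans (min_le_left _ _)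
    rw [le_div_iff₀ (by positivity)] at h1
    linarith
  have hs2 : σ₀ * (8 * (r + 1) * C₁) ≤ a₀ - a := by
    have h1 : σ₀ ≤ (a₀ - a) / (8 * (r + 1) * C₁) := by
      rw [hσ₀]; exact (min_le_left _ _).trans (min_le_right _ _)
    rwa [le_div_iff₀ (by positivity)] at h1
  have hs3 : σ₀ * (4 * C₁) ≤ 1 - w₀ := by
    have h1 : σ₀ ≤ (1 - w₀) / (4 * C₁) := by
      rw [hσ₀]; exact (min_le_right _ _).trans (min_le_left _ _)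
    rwa [le_div_iff₀ (by positivity)] at h1
  have hs4 : σ₀ ≤ w₀ := by rw [hσ₀]; exact (min_le_right _ _).trans (min_le_right _ _)
  refine ⟨σ₀, hs0, fun κ₁ ψ hκ₁ hψ => ?_⟩
  obtain ⟨δ₁, hδ₁, hδ⟩ := fin_pos (r + 1) (f := fun i => 1 - (P i a₀ w₀ + E))
    fun i hi => by
      have := hPE i (by omega)
      linarith
  obtain ⟨J₁, hJ₁⟩ := share_ex (ψ := ψ) (κ := κ₁ / 2 ^ C) hψ (by positivity)
  obtain ⟨J₂, hJ₂⟩ := exists_nat_gt ((C + 2) / δ₁)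
  obtain ⟨J₃, hJ₃⟩ := exists_nat_gt (((r + 1) * (2 * C₁ + 1) + 2) / ((a₀ - a) / 2))
  obtain ⟨J₄, hJ₄⟩ := exists_nat_gt (4 * C₁ / (1 - w₀))
  obtain ⟨J₅, hJ₅⟩ := exists_nat_gt ((C + (r + 1) * (2 * C₁ + 1) + 8) / (η / 2))
  refine ⟨max (max J₁ J₂) (max J₃ (max J₄ J₅)), ?_⟩
  intro J hJ F c d₀ d e₀ e x B₀ B' G₀ G H₀ H hc hd₀ hd he hx hR₀ hB' hP hB hL₀ hL hTm
  simp only [max_le_iff] at hJ
  obtain ⟨⟨j1, j2⟩, j3, j4, j5⟩ := hJ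
  have hJr : (0 : ℝ) ≤ J := Nat.cast_nonneg J
  have hj2 : C + 2 < δ₁ * J := by
    have h3 := hJ₂.trans_le (show (J₂ : ℝ) ≤ J by exact_mod_cast j2)
    rw [div_lt_iff₀ hδ₁] at h3
    linarith
  have hj3 : (r + 1) * (2 * C₁ + 1) + 2 < (a₀ - a) / 2 * J := by
    have h3 := hJ₃.trans_le (show (J₃ : ℝ) ≤ J by exact_mod_cast j3)
    rw [div_lt_iff₀ (by linarith)] at h3
    linarith
  have hj4 : 4 * C₁ < (1 - w₀) * J := by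
    have h3 := hJ₄.trans_le (show (J₄ : ℝ) ≤ J by exact_mod_cast j4)
    rw [div_lt_iff₀ (by linarith)] at h3
    linarith
  have hj5 : C + (r + 1) * (2 * C₁ + 1) + 8 < η / 2 * J := by
    have h3 := hJ₅.trans_le (show (J₅ : ℝ) ≤ J by exact_mod_cast j5)
    rw [div_lt_iff₀ (by linarith)] at h3
    linarith
  -- the natural numbers
  have hfa : ⌊a * (J : ℝ)⌋₊ ≤ ⌊a₀ * (J : ℝ)⌋₊ :=
    Nat.floor_le_floor (mul_le_mul_of_nonneg_right haa.le hJr)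
  obtain ⟨dd, hdd⟩ : ∃ dd, dd = ⌊a₀ * (J : ℝ)⌋₊ - ⌊a * (J : ℝ)⌋₊ := ⟨_, rfl⟩
  have hadd : ⌊a * (J : ℝ)⌋₊ + dd = ⌊a₀ * (J : ℝ)⌋₊ := by omega
  have ha0 : 0 < a := by linarith
  have f1 : ((⌊a * (J : ℝ)⌋₊ : ℕ) : ℝ) ≤ a * J := Nat.floor_le (by positivity)
  have f2 := Nat.lt_floor_add_one (a * (J : ℝ))
  have f3 : ((⌊a₀ * (J : ℝ)⌋₊ : ℕ) : ℝ) ≤ a₀ * J :=
    Nat.floor_le (mul_nonneg (by linarith) hJr)
  have f4 := Nat.lt_floor_add_one (a₀ * (J : ℝ))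
  have hddr : ((⌊a * (J : ℝ)⌋₊ : ℕ) : ℝ) + dd = (⌊a₀ * (J : ℝ)⌋₊ : ℕ) := by exact_mod_cast hadd
  obtain ⟨u, hu⟩ : ∃ u, u = ⌈C₁ * (σ₀ * J + 1) / Real.log 2⌉₊ := ⟨_, rfl⟩
  have hl2 : (1 : ℝ) / 2 ≤ Real.log 2 := by
    have := Real.log_two_gt_d9
    linarith
  have hl20 : (0 : ℝ) < Real.log 2 := by linarith
  have hu0 : 0 ≤ C₁ * (σ₀ * J + 1) := by positivity
  have hu1 : (u : ℝ) ≤ 2 * C₁ * (σ₀ * J + 1) + 1 := by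
    have h1 := (Nat.ceil_lt_add_one (a := C₁ * (σ₀ * J + 1) / Real.log 2) (by positivity)).le
    rw [← hu] at h1
    have h2 : C₁ * (σ₀ * J + 1) / Real.log 2 ≤ 2 * C₁ * (σ₀ * J + 1) := by
      rw [div_le_iff₀ hl20]
      nlinarith
    linarith
  have hPs : ∀ i ≤ r, P i a w₀ + (a₀ - a) ≤ P i a₀ w₀ := fun i hi => by
    have h1 := (hLaw i hi).slope a w₀ (a₀ - a) hw₀.le hwa (by linarith) (by linarith)
    rw [add_sub_cancel] at h1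
    have h2 := hPE i hi
    rcases min_choice 1 (P i a w₀ + (a₀ - a)) with h3 | h3
    · rw [h3] at h1
      linarith
    · rwa [h3] at h1
  have hPp : ∀ i ≤ r, a ≤ P i a w₀ := fun i hi => hLow i hi a w₀ hw₀.le hwa (by linarith)
  have hsl' : ∀ i ≤ r, 0 ≤ (P i a w₀ - d i) * (J : ℝ) := fun i hi => by
    have h1 := hPp i hi
    have h2 := (hd i hi).2
    exact mul_nonneg (by linarith) hJr
  have hA0 : 0 ≤ A := by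
    have h7 := hLow l hlr a₀ w₀ hw₀.le (by linarith) ha₀.le
    linarith
  obtain ⟨B'', k1, k2, k3⟩ := hbase (J := J) (F := F) (c := c) (l := l) (a := ⌊a * (J : ℝ)⌋₊)
    (h := ⌊σ₀ * (J : ℝ)⌋₊) (u := u) (d := dd) (w := ⌊w₀ * (J : ℝ)⌋₊) (e := e) (e₀ := e₀)
    (g₀ := fun i => ⌊(P i a₀ w₀ - d₀ i) * (J : ℝ)⌋₊)
    (g := fun i => ⌊(P i a w₀ - d i) * (J : ℝ)⌋₊) (κ := Real.exp (-(ψ * J))) (κ' := κ₁)
    (θ := σ₀ * J) (B₀ := B₀) (B' := B') (G₀ := G₀) (H₀ := H₀) (G := G) (H := H) hc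
    (by rw [hadd]; exact hR₀) hB' hP (by
      have := hJ₁ J j1
      rwa [le_div_iff₀ (by positivity)] at this) (Real.exp_pos _).le hB
    (by rw [hadd]; exact hL₀) hL
    (Nat.floor_le_floor (mul_le_mul_of_nonneg_right hwa hJr)) (by
      refine Nat.floor_le_of_le ?_
      have h1 : w₀ ≤ 1 := by linarith
      have := mul_le_mul_of_nonneg_right h1 hJr
      linarith) (by
      have h1 : (((r + 1) * u + 1 : ℕ) : ℝ) ≤ dd := by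
        push_cast
        have h2 : ((r : ℝ) + 1) * u ≤ (r + 1) * (2 * C₁ * (σ₀ * J + 1) + 1) :=
          mul_le_mul_of_nonneg_left hu1 (by positivity)
        have h3 : (r + 1) * (2 * C₁ * (σ₀ * J + 1) + 1) =
            σ₀ * (8 * (r + 1) * C₁) / 4 * J + (r + 1) * (2 * C₁ + 1) := by ring
        have h4 := mul_le_mul_of_nonneg_right hs2 hJr
        linarith
      exact_mod_cast h1) (fun i hi => by
      have h1 : ((e + ⌊(P i a w₀ - d i) * (J : ℝ)⌋₊ + dd + C : ℕ) : ℝ) ≤ J := by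
        push_cast
        have h2 := Nat.floor_le (hsl' i (by omega))
        have h3 := (hd i (by omega)).1
        have h4 := hPs i (by omega)
        have h5 := hδ i hi
        have h6 := mul_le_mul_of_nonneg_right h5 hJr
        have h7 := mul_le_mul_of_nonneg_right h4 hJr
        have h8 : 0 ≤ d i * (J : ℝ) := mul_nonneg h3 hJr
        linarith
      exact_mod_cast h1) (by positivity) hTm (by
      have h1 : ((⌊w₀ * (J : ℝ)⌋₊ : ℕ) : ℝ) ≤ w₀ * J := Nat.floor_le (by positivity)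
      have h2 := mul_le_mul_of_nonneg_right hs3 hJr
      have h3 : (1 - w₀) * (J : ℝ) * (1 / 2) ≤ (J - (⌊w₀ * (J : ℝ)⌋₊ : ℕ)) * Real.log 2 := by
        refine mul_le_mul (by linarith) hl2 (by norm_num) ?_
        have : 0 ≤ (1 - w₀) * (J : ℝ) := mul_nonneg (by linarith) hJr
        linarith
      linarith) (by
      rw [← Real.rpow_natCast, Real.rpow_def_of_pos two_pos]
      refine Real.exp_le_exp.2 ?_
      have h1 : C₁ * (σ₀ * J + 1) / Real.log 2 ≤ u := by rw [hu]; exact Nat.le_ceil _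
      rw [div_le_iff₀ hl20] at h1
      linarith)
  refine ⟨B'', k1, k2, fun ω hω v v1 v0 hvx i hli hi => ?_⟩
  obtain ⟨X, hX⟩ : ∃ X, X = x + C * (⌊σ₀ * (J : ℝ)⌋₊ + 1) + (r + 1) * u + 1 := ⟨_, rfl⟩
  have h1 := k3 ω hω v x ⌊A * (J : ℝ)⌋₊ (by
    show ⌊(P l a₀ w₀ - d₀ l) * (J : ℝ)⌋₊ ≤ _
    refine Nat.floor_le_floor (mul_le_mul_of_nonneg_right ?_ hJr)
    have := (hd₀ l hlr).1
    linarith) v1 v0 hvx i hli hi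
  rw [← hX] at h1
  refine h1.trans ?_
  -- the exponents
  have hXr : (X : ℝ) + σ₀ * J + 5 ≤ η * J - 1 := by
    rw [hX]
    push_cast
    have h2 : ((⌊σ₀ * (J : ℝ)⌋₊ : ℕ) : ℝ) ≤ σ₀ * J := Nat.floor_le (by positivity)
    have h3 : (C : ℝ) * ((⌊σ₀ * (J : ℝ)⌋₊ : ℕ) + 1) ≤ C * (σ₀ * J + 1) :=
      mul_le_mul_of_nonneg_left (by linarith) hC0
    have h4 : ((r : ℝ) + 1) * u ≤ (r + 1) * (2 * C₁ * (σ₀ * J + 1) + 1) :=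
      mul_le_mul_of_nonneg_left hu1 (by positivity)
    have h5 := mul_le_mul_of_nonneg_right hs1 hJr
    have h6 : Z * σ₀ * J = C * (σ₀ * J) + (r + 1) * (2 * C₁ * (σ₀ * J)) + 3 * (σ₀ * J) := by
      rw [hZ]; ring
    have h7 : (r + 1) * (2 * C₁ * (σ₀ * J + 1) + 1) = (r + 1) * (2 * C₁ * (σ₀ * J)) +
      (r + 1) * (2 * C₁ + 1) := by ring
    have h8 : 0 ≤ σ₀ * (J : ℝ) := by positivity
    have h9 : 0 ≤ η * (J : ℝ) := by positivity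
    linarith
  have hfe := Nat.lt_floor_add_one (η * (J : ℝ))
  have hg1 := Nat.floor_le (hsl' i (by omega))
  have hAf : ((⌊A * (J : ℝ)⌋₊ : ℕ) : ℝ) ≤ A * J := Nat.floor_le (mul_nonneg hA0 hJr)
  have hA2 := Nat.lt_floor_add_one ((A - (a₀ - a)) * (J : ℝ))
  have hg0 := Nat.lt_floor_add_one ((P i a₀ w₀ - d₀ i) * (J : ℝ))
  have hd1 := (hd i (by omega)).1
  have hd2 := (hd₀ i (by omega)).2
  have hps := hPs i (by omega)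
  have e1 : (P i a w₀ + (a₀ - a)) * (J : ℝ) ≤ P i a₀ w₀ * J :=
    mul_le_mul_of_nonneg_right hps hJr
  have e2 : d₀ i * (J : ℝ) ≤ σ₀ * J := mul_le_mul_of_nonneg_right hd2 hJr
  have e3 : 0 ≤ d i * (J : ℝ) := mul_nonneg hd1 hJr
  rw [div_le_div_iff₀ (by positivity) (by positivity), ← pow_add, ← pow_add, ← pow_add, ← pow_add]
  refine pow_le_pow_right₀ (by norm_num) ?_
  rcases min_choice ⌊(P i a₀ w₀ - d₀ i) * (J : ℝ)⌋₊ (⌊(P i a w₀ - d i) * (J : ℝ)⌋₊ + dd)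
    with h2 | h2
  · rw [h2]
    have h3 : ((X + ⌊A * (J : ℝ)⌋₊ + ⌊(P i a w₀ - d i) * (J : ℝ)⌋₊ : ℕ) : ℝ) <
        ((⌊η * (J : ℝ)⌋₊ + ⌊(A - (a₀ - a)) * (J : ℝ)⌋₊ + ⌊(P i a₀ w₀ - d₀ i) * (J : ℝ)⌋₊ + 1 : ℕ) :
          ℝ) := by
      push_cast
      linarith
    have h4 : X + ⌊A * (J : ℝ)⌋₊ + ⌊(P i a w₀ - d i) * (J : ℝ)⌋₊ < ⌊η * (J : ℝ)⌋₊ +
      ⌊(A - (a₀ - a)) * (J : ℝ)⌋₊ + ⌊(P i a₀ w₀ - d₀ i) * (J : ℝ)⌋₊ + 1 := by exact_mod_cast h3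
    omega
  · rw [h2]
    have h3 : ((X + ⌊A * (J : ℝ)⌋₊ + ⌊(P i a w₀ - d i) * (J : ℝ)⌋₊ : ℕ) : ℝ) <
        ((⌊η * (J : ℝ)⌋₊ + ⌊(A - (a₀ - a)) * (J : ℝ)⌋₊ +
          (⌊(P i a w₀ - d i) * (J : ℝ)⌋₊ + dd) + 1 : ℕ) : ℝ) := by
      push_cast
      have h5 : 0 ≤ σ₀ * (J : ℝ) := by positivity
      linarith
    have h4 : X + ⌊A * (J : ℝ)⌋₊ + ⌊(P i a w₀ - d i) * (J : ℝ)⌋₊ < ⌊η * (J : ℝ)⌋₊ +
      ⌊(A - (a₀ - a)) * (J : ℝ)⌋₊ + (⌊(P i a w₀ - d i) * (J : ℝ)⌋₊ + dd) + 1 := by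
      exact_mod_cast h3
    omega

end Pool.SHR
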