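import Pool.Agent.H87.GEN.Stp

/-!
# The node of a request, in a class

`tgt_cls`: from the node `(a₀, w₀)` with a direction which is closed at `w₁` to a node `(a, w)`,
`w₁ ≤ w ≤ a < a₀`, with the shear of small steps. The data of the node do not depend on the node
`(a₀, w₀)`.
-/

set_option autoImplicit false

namespace Pool.SHR

open Finset Real MvPolynomial
open Pool.Agent.H49.Ent Pool.Agent.H32.Dense Pool.STK Pool.KA Pool.KSAT Pool.K2S Pool.PB Pool.S6C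
open Pool.GEN Pool.CHT Pool.ISO
open Pool.FLF (Fam.sub)
open Pool.LEV (Law)
open Pool.Z3 (share_ex Nod NodQ NodS bas_all)

variable {m J : ℕ}

/-- The node with the direction `v`, on an event. -/
def BsV (c : ℕ → Fin m) (r l s D Dr : ℕ) (β d : ℕ → ℝ) (a w w' e E η ϱ θ Λ ψ : ℝ) (J : ℕ)
    (F : Fam m J) (B : F.Ω → Prop) (v : PtT F → Fin m → ℝ) (v' : LnT F → Fin m → ℝ) : Prop :=
  ∃ (G : PtT F → ℕ → MvPolynomial (Option (Fin m)) ℝ)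
    (H : LnT F → ℕ → MvPolynomial (Option (Fin m)) ℝ),
    Nod F c r D Dr ⌊a * J⌋₊ ⌊w * J⌋₊ ⌊e * J⌋₊ ⌊(E + ϱ) * J⌋₊ (fun j => ⌊(β j - d j) * J⌋₊)
      ⌊η * J⌋₊ ⌊(1 - ϱ) * J⌋₊ ⌊(1 - (E + ϱ)) * J⌋₊ (Real.exp (-(ψ * J))) B G H ∧
    Sl F c l s ⌊w' * J⌋₊ ⌊(β l + Λ) * J⌋₊ ⌊θ * J⌋₊ (fun j => ⌊(β j - d j) * J⌋₊) G v v' B

/-- The node of the request, with the shear on a smaller event. -/
def OutV (c : ℕ → Fin m) (r l D Dr : ℕ) (β d : ℕ → ℝ) (a w e E σ η ϱ lam ψ : ℝ) (J : ℕ)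
    (F : Fam m J) (B₀ : F.Ω → Prop) (v : PtT F → Fin m → ℝ) (B : F.Ω → Prop) : Prop :=
  ∃ (T : PtT F → ℕ → MvPolynomial (Option (Fin m)) ℝ)
    (TH : LnT F → ℕ → MvPolynomial (Option (Fin m)) ℝ),
    Nod F c r D Dr ⌊a * J⌋₊ ⌊w * J⌋₊ ⌊e * J⌋₊ ⌊(E + σ) * J⌋₊ (fun j => ⌊(β j - d j) * J⌋₊)
      ⌊η * J⌋₊ ⌊(1 - ϱ) * J⌋₊ ⌊(1 - (E + ϱ)) * J⌋₊ (Real.exp (-(ψ * J))) B₀ T TH ∧
    ∀ ω, B ω → ∀ i, l < i → i < r + 1 →
      ShrY F c ⌊a * J⌋₊ ⌊(β l + lam) * J⌋₊ (fun j => ⌊(β j - d j) * J⌋₊) T v ⌊η * J⌋₊ i ω ∧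
      |eval (bt F ω) (dir (v (ptr F J ω)) (T (ptr F J ω) i)) - v (ptr F J ω) (c i)| ≤
        2 ^ ⌊η * J⌋₊ * 2 ^ ⌊(β l + lam) * J⌋₊ / 2 ^ ⌊(β i - d i) * J⌋₊

theorem OutV.sub {c : ℕ → Fin m} {r l D Dr : ℕ} {β d : ℕ → ℝ} {a w e E σ η ϱ lam ψ : ℝ} {J : ℕ}
    {F : Fam m J} {B₀ : F.Ω → Prop} {v : PtT F → Fin m → ℝ} {B B' : F.Ω → Prop}
    (h : OutV c r l D Dr β d a w e E σ η ϱ lam ψ J F B₀ v B) (hB : Sub B' B) :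
    OutV c r l D Dr β d a w e E σ η ϱ lam ψ J F B₀ v B' := by
  obtain ⟨T, TH, h1, h2⟩ := h
  exact ⟨T, TH, h1, fun ω hω => h2 ω (hB ω hω)⟩

/-- **The node of a request.** -/
theorem tgt_cls {S : PCl m} {c : ℕ → Fin m} {r l : ℕ} {β : ℕ → ℝ → ℝ → ℝ}
    {e E ϱ a₀ w₀ w₁ Λ a w lam Kg Ψ₀ e' E' ϱ' : ℝ} {Bv Tv : ℕ → ℝ} {Dt Db : ℕ}
    (hc : Set.InjOn c (Set.Iio (r + 1))) (hl : l ≤ r) (hw0 : 0 < w₀) (hw01 : w₀ ≤ w₁)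
    (hw1 : w₁ ≤ w) (haa : a < a₀) (ha1 : a₀ < 1) (hLaw : ∀ i ≤ r, Law (β i))
    (hLow : ∀ i ≤ r, ∀ a w, 0 ≤ w → w ≤ a → a ≤ 1 → a ≤ β i a w) (hE : 0 ≤ E) (hϱ : 0 < ϱ)
    (hnum : ∀ i ≤ r, β i a₀ w₀ + (E + ϱ) < 1) (hΛ : 0 ≤ Λ)
    (V : Vld β l r w₀ Kg (β l a₀ w₀ + Λ - (a₀ - a)) a w Ψ₀ Bv Tv)
    (hlam : 4 * ((r : ℝ) - l) * Ψ₀ ≤ lam) (hmesh : MeshQ S c r β e E ϱ a w₀ w) (hDt : 1 ≤ Dt)
    (hDb : 1 ≤ Db)
    (hN : ∀ (Dr : ℕ) (η σ : ℝ), 0 < η → 0 < σ → σ ≤ ϱ' →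
      ∃ (K₁ : ℝ) (d : ℕ → ℝ) (ψ : ℝ), 0 < K₁ ∧ 0 < ψ ∧ (∀ l ≤ r, 0 < d l ∧ d l ≤ σ ∧ d l < a) ∧
        Bas S (fun J F A => ∃ B : F.Ω → Prop, Sub B A ∧ Pe F.p A ≤ K₁ * Pe F.p B ∧
          NodS c r Dt Dr (fun l => β l a w) d a w e' (E' + σ) η ϱ' (E' + ϱ') ψ J F B))
    (Dr : ℕ) {η σ : ℝ} (hη : 0 < η) (hσ : 0 < σ) (hσϱ : σ ≤ ϱ') :
    ∃ (d : ℕ → ℝ) (ψ : ℝ), 0 < ψ ∧ (∀ j ≤ r, 0 < d j ∧ d j ≤ σ) ∧
    ∃ (D₀ : ℕ) (τ₀ : ℝ) (Φ Φ' : Stat m), 0 < τ₀ ∧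
      (∀ κ : ℝ, 0 < κ → ∃ J₀ : ℕ, ∀ J : ℕ, J₀ ≤ J → ∀ (F : Fam m J) (B B' : F.Ω → Prop),
        Φ J F B → Sub B' B → κ * Pe F.p B ≤ Pe F.p B' → Φ' J F B') ∧
      (∃ K : ℝ, 0 < K ∧ Bas S (fun J F A => ∃ B : F.Ω → Prop, Sub B A ∧
        Pe F.p A ≤ K * Pe F.p B ∧ Φ J F B)) ∧
      ∀ (Drb : ℕ) (ηb θb ψb : ℝ) (d₀ : ℕ → ℝ), D₀ ≤ Drb → ηb ≤ τ₀ → 0 < θb → θb ≤ τ₀ → 0 < ψb →
        (∀ j ≤ r, 0 ≤ d₀ j ∧ d₀ j ≤ τ₀) → ∀ κ₁ : ℝ, 0 < κ₁ → ∃ κ₂ : ℝ, 0 < κ₂ ∧ ∃ J₀ : ℕ,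
        ∀ J : ℕ, J₀ ≤ J → ∀ (F : Fam m J) (B₀ : F.Ω → Prop) (v : PtT F → Fin m → ℝ)
          (v' : LnT F → Fin m → ℝ), Φ' J F B₀ →
          BsV c r l r Db Drb (fun j => β j a₀ w₀) d₀ a₀ w₀ w₁ e E ηb ϱ θb Λ ψb J F B₀ v v' →
          ∀ B' : F.Ω → Prop, Sub B' B₀ → κ₁ * Pe F.p B₀ ≤ Pe F.p B' → 0 < Pe F.p B' →
          (∀ h : 0 < Pe F.p B', (Fam.sub F B' h).Tm (τ₀ * J)) →
          ∃ B'' : F.Ω → Prop, Sub B'' B' ∧ κ₂ * Pe F.p B' ≤ Pe F.p B'' ∧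
            OutV c r l Dt Dr (fun j => β j a w) d a w e' E' σ η ϱ' lam ψ J F B₀ v B'' := by
  classical
  obtain ⟨S₁, hwin⟩ := win_fam m Dt r hDt
  obtain ⟨μ, τ, hμ, hτ, hμτ, hτθ⟩ := mesh_size S₁ r Tv V.K0 hη
  obtain ⟨K, om, hK, om0, omK, hom, hnod⟩ := hmesh μ hμ
  subst om0
  subst omK
  choose! Dk hDk1 hDk using hnod
  obtain ⟨Dm, hDm⟩ : ∃ Dm, Dm = Db + Dt + ∑ k ∈ range (K + 1), Dk k := ⟨_, rfl⟩
  have hDkm : ∀ k ≤ K, Dk k ≤ Dm := fun k hk => by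
    have h1 : Dk k ≤ ∑ k ∈ range (K + 1), Dk k :=
      Finset.single_le_sum (f := fun k => Dk k) (fun _ _ => Nat.zero_le _)
        (mem_range.2 (Nat.lt_succ_of_le hk))
    omega
  have hVa := V.wa
  have hVw := V.w0
  have hsl : ∀ i ≤ r, β i a (om 0) + (a₀ - a) ≤ β i a₀ (om 0) := fun i hi => by
    have h1 := (hLaw i hi).slope a (om 0) (a₀ - a) hw0.le (by linarith) (by linarith) (by linarith)
    rw [add_sub_cancel] at h1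
    have h2 := hnum i hi
    rcases min_choice 1 (β i a (om 0) + (a₀ - a)) with h3 | h3
    · rw [h3] at h1
      linarith
    · rwa [h3] at h1
  have hβ0 : 0 ≤ β l a₀ (om 0) + Λ - (a₀ - a) := by
    have h1 := hLow l hl a (om 0) hw0.le (by linarith) (by linarith)
    have h2 := hsl l hl
    linarith
  obtain ⟨Cw, hwin⟩ := hwin Dm (by omega)
  obtain ⟨σ₁, hσ₁, hwin⟩ := hwin (P := β) (l := l) (K := K) (η := η) (μ := μ) (τ := τ) (om := om)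
    hLow hl V hw0 (by linarith) hβ0 hη rfl rfl hτ hom (fun i _ hi => hμτ i hi) hτθ
  obtain ⟨Cr, hrad⟩ := rad_fam m Dm r (by omega)
  obtain ⟨σ₂, hσ₂, hrad⟩ := hrad (P := β) (l := l) (a₀ := a₀) (w₀ := om 0) (a := a)
    (A := β l a₀ (om 0) + Λ) (E := E + ϱ) (η := σ₁) hLaw hLow hl hw0 (by linarith) haa ha1
    (by linarith) hnum (by linarith) hσ₁
  -- the parameters
  obtain ⟨τ₀, hτ₀⟩ : ∃ τ₀, τ₀ = min σ₁ σ₂ := ⟨_, rfl⟩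
  have hτ₀0 : 0 < τ₀ := by rw [hτ₀]; exact lt_min hσ₁ hσ₂
  have hτ1 : τ₀ ≤ σ₁ := by rw [hτ₀]; exact min_le_left _ _
  have hτ2 : τ₀ ≤ σ₂ := by rw [hτ₀]; exact min_le_right _ _
  obtain ⟨η', hη'⟩ : ∃ η', η' = min η τ₀ := ⟨_, rfl⟩
  obtain ⟨σ', hσ'⟩ : ∃ σ', σ' = min (min σ ϱ) τ₀ := ⟨_, rfl⟩
  have hη'0 : 0 < η' := by rw [hη']; exact lt_min hη hτ₀0
  have hσ'0 : 0 < σ' := by rw [hσ']; exact lt_min (lt_min hσ hϱ) hτ₀0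
  have hη'1 : η' ≤ η := by rw [hη']; exact min_le_left _ _
  have hη'2 : η' ≤ τ₀ := by rw [hη']; exact min_le_right _ _
  have hσ'1 : σ' ≤ σ := by rw [hσ']; exact (min_le_left _ _).trans (min_le_left _ _)
  have hσ'2 : σ' ≤ ϱ := by rw [hσ']; exact (min_le_left _ _).trans (min_le_right _ _)
  have hσ'3 : σ' ≤ τ₀ := by rw [hσ']; exact min_le_right _ _
  obtain ⟨KT, dT, ψT, hKT, hψT, hdT, hBT⟩ := hN (max Dr Dm) η' σ' hη'0 hσ'0 (hσ'1.trans hσϱ)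
  have hpar := fun k hk => hDk k hk (max Dr Dm) η' σ' hη'0 hσ'0 hσ'2
  choose! K₁ d ψ hK₁ hψ hd hBk using hpar
  -- the charts
  obtain ⟨Φk, hΦk⟩ : ∃ Φk : ℝ → ℕ → Stat m, Φk = fun x k J F B =>
      (k < K → NodS c r (Dk k) (max Dr Dm) (fun l => β l a (om k)) (d k) a (om k) e
        (E + σ') η' ϱ (E + ϱ) (ψ k * x) J F B) ∧
      (k = K → NodS c r Dt (max Dr Dm) (fun l => β l a (om K)) dT a (om K) e'
        (E' + σ') η' ϱ' (E' + ϱ') (ψT * x) J F B) := ⟨_, rfl⟩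
  have hstab : ∀ x y : ℝ, y < x → ∀ k ≤ K, ∀ κ : ℝ, 0 < κ → ∃ J₀ : ℕ, ∀ J : ℕ, J₀ ≤ J →
      ∀ (F : Fam m J) (B B' : F.Ω → Prop), Φk x k J F B → Sub B' B →
      κ * Pe F.p B ≤ Pe F.p B' → Φk y k J F B' := by
    intro x y hxy k hk κ hκ
    obtain ⟨J₁, hJ₁⟩ := share_ex (ψ := ψT * x - ψT * y) (by nlinarith) hκ
    obtain ⟨J₂, hJ₂⟩ := share_ex (ψ := ψ k * x - ψ k * y) (by have := hψ k hk; nlinarith) hκ
    refine ⟨max J₁ J₂, fun J hJ F B B' h1 h2 h3 => ?_⟩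
    rw [hΦk] at h1 ⊢
    exact ⟨fun h4 => (h1.1 h4).sub h2 h3 (hJ₂ J ((le_max_right _ _).trans hJ)),
      fun h4 => (h1.2 h4).sub h2 h3 (hJ₁ J ((le_max_left _ _).trans hJ))⟩
  obtain ⟨Kc, hKc, hBc⟩ := bas_all (S := S)
    (Φ := fun k J F B => k ≤ K ∧ Φk 1 k J F B) (Φ' := fun k J F B => Φk (1 / 2) k J F B)
    (fun k κ hκ => by
      by_cases hk : k ≤ K
      · obtain ⟨J₁, hJ₁⟩ := hstab 1 (1 / 2) (by norm_num) k hk κ hκ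
        exact ⟨J₁, fun J hJ F B B' h1 h2 h3 => hJ₁ J hJ F B B' h1.2 h2 h3⟩
      · exact ⟨0, fun J _ F B B' h1 => absurd h1.1 hk⟩) (K + 1) (fun k hk => by
      rcases Nat.lt_or_ge k K with h1 | h1
      · refine ⟨K₁ k, hK₁ k (by omega), (hBk k (by omega)).mono 0 ?_⟩
        rintro J - F A ⟨B, k1, k2, k3⟩
        refine ⟨B, k1, k2, by omega, ?_⟩
        rw [hΦk]
        exact ⟨fun _ => by rw [mul_one]; exact k3, fun h2 => by omega⟩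
      · refine ⟨KT, hKT, hBT.mono 0 ?_⟩
        rintro J - F A ⟨B, k1, k2, k3⟩
        refine ⟨B, k1, k2, by omega, ?_⟩
        rw [hΦk]
        exact ⟨fun h2 => by omega, fun _ => by rw [mul_one]; exact k3⟩)
  refine ⟨dT, ψT / 4, by positivity, fun j hj => ⟨(hdT j hj).1, (hdT j hj).2.1.trans hσ'1⟩, Dm,
    τ₀, fun J F B => ∀ k < K + 1, Φk (1 / 2) k J F B, fun J F B => ∀ k < K + 1, Φk (1 / 4) k J F B,
    hτ₀0, fun κ hκ => ?_, ⟨Kc, hKc, hBc⟩, ?_⟩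
  · have h1 : ∀ k ≤ K, ∃ J₀ : ℕ, ∀ J : ℕ, J₀ ≤ J →
      ∀ (F : Fam m J) (B B' : F.Ω → Prop), Φk (1 / 2) k J F B → Sub B' B →
      κ * Pe F.p B ≤ Pe F.p B' → Φk (1 / 4) k J F B' := fun k hk =>
        hstab (1 / 2) (1 / 4) (by norm_num) k hk κ hκ
    choose! J₁ hJ₁ using h1
    refine ⟨∑ k ∈ range (K + 1), J₁ k, fun J hJ F B B' h1 h2 h3 k hk => ?_⟩
    refine hJ₁ k (by omega) J (le_trans ?_ hJ) F B B' (h1 k hk) h2 h3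
    exact Finset.single_le_sum (f := fun k => J₁ k) (fun _ _ => Nat.zero_le _) (mem_range.2 hk)
  intro Drb ηb θb ψb d₀ hDrb hηb hθb0 hθb hψb hd₀ κ₁ hκ₁
  obtain ⟨ψm, hψm, hψle⟩ := fin_pos (K + 1) (f := fun k => min (min ψb (ψT * (1 / 4)))
    (ψ k * (1 / 4))) fun k hk => lt_min (lt_min hψb (by positivity)) (by
      have := hψ k (by omega)
      positivity)
  have hψ0m : ψm ≤ ψb := (hψle 0 (by omega)).trans ((min_le_left _ _).trans (min_le_left _ _))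
  have hψTm : ψm ≤ ψT * (1 / 4) :=
    (hψle 0 (by omega)).trans ((min_le_left _ _).trans (min_le_right _ _))
  have hψkm : ∀ k ≤ K, ψm ≤ ψ k * (1 / 4) := fun k hk =>
    (hψle k (Nat.lt_succ_of_le hk)).trans (min_le_right _ _)
  obtain ⟨J₁, hrad⟩ := hrad κ₁ ψm hκ₁ hψm
  obtain ⟨J₂, hwin⟩ := hwin (κ₁ / 2 ^ Cr) ψm (by positivity) hψm
  refine ⟨1 / 2 ^ (Cr + Cw * (K + 1)), by positivity, max J₁ J₂, ?_⟩
  intro J hJ F B₀ v v' hch hbs B' hB' hP hpos hTm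
  obtain ⟨G₀, H₀, n0, s0⟩ := hbs
  have hJr : (0 : ℝ) ≤ J := Nat.cast_nonneg J
  have hfl : ∀ x y : ℝ, x ≤ y → ⌊x * (J : ℝ)⌋₊ ≤ ⌊y * (J : ℝ)⌋₊ := fun x y hxy =>
    Nat.floor_le_floor (mul_le_mul_of_nonneg_right hxy hJr)
  have hex : ∀ x y : ℝ, x ≤ y → Real.exp (-(y * J)) ≤ Real.exp (-(x * J)) := fun x y hxy =>
    Real.exp_le_exp.2 (by
      have := mul_le_mul_of_nonneg_right hxy hJr
      linarith)
  have hnk : ∀ k < K, NodS c r (Dk k) (max Dr Dm) (fun l => β l a (om k)) (d k) a (om k) e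
        (E + σ') η' ϱ (E + ϱ) (ψ k * (1 / 4)) J F B₀ := fun k hk => by
    have h1 := hch k (by omega)
    rw [hΦk] at h1
    exact h1.1 hk
  obtain ⟨T, TH, hT⟩ : NodS c r Dt (max Dr Dm) (fun l => β l a (om K)) dT a (om K) e'
        (E' + σ') η' ϱ' (E' + ϱ') (ψT * (1 / 4)) J F B₀ := by
    have h1 := hch K (by omega)
    rw [hΦk] at h1
    exact h1.2 rfl
  choose! G H hG using hnk
  -- the charts
  obtain ⟨Gs, hGs⟩ : ∃ Gs : ℕ → PtT F → ℕ → MvPolynomial (Option (Fin m)) ℝ,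
    Gs = fun k => if k < K then G k else T := ⟨_, rfl⟩
  obtain ⟨Hs, hHs⟩ : ∃ Hs : ℕ → LnT F → ℕ → MvPolynomial (Option (Fin m)) ℝ,
    Hs = fun k => if k < K then H k else TH := ⟨_, rfl⟩
  obtain ⟨ds, hds⟩ : ∃ ds : ℕ → ℕ → ℝ, ds = fun k => if k < K then d k else dT := ⟨_, rfl⟩
  obtain ⟨Es, hEs⟩ : ∃ Es : ℕ → ℕ, Es = fun k => if k < K then ⌊(E + σ') * (J : ℝ)⌋₊ else
    ⌊(E' + σ') * (J : ℝ)⌋₊ := ⟨_, rfl⟩
  have Gsk : ∀ k < K, Gs k = G k := fun k hk => by rw [hGs]; exact if_pos hk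
  have Hsk : ∀ k < K, Hs k = H k := fun k hk => by rw [hHs]; exact if_pos hk
  have dsk : ∀ k < K, ds k = d k := fun k hk => by rw [hds]; exact if_pos hk
  have Esk : ∀ k < K, Es k = ⌊(E + σ') * (J : ℝ)⌋₊ := fun k hk => by rw [hEs]; exact if_pos hk
  have GsT : Gs K = T := by rw [hGs]; exact if_neg (lt_irrefl K)
  have HsT : Hs K = TH := by rw [hHs]; exact if_neg (lt_irrefl K)
  have dsT : ds K = dT := by rw [hds]; exact if_neg (lt_irrefl K)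
  have EsT : Es K = ⌊(E' + σ') * (J : ℝ)⌋₊ := by rw [hEs]; exact if_neg (lt_irrefl K)
  have hds : ∀ k ≤ K, ∀ i ≤ r, 0 ≤ ds k i ∧ ds k i ≤ τ₀ := fun k hk i hi => by
    rcases Nat.lt_or_ge k K with h1 | h1
    · rw [dsk k h1]
      exact ⟨(hd k hk i hi).1.le, (hd k hk i hi).2.1.trans hσ'3⟩
    · have h2 : k = K := by omega
      subst h2
      rw [dsT]
      exact ⟨(hdT i hi).1.le, (hdT i hi).2.1.trans hσ'3⟩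
  have hRl : ∀ z : ℝ, τ₀ ≤ z → ∀ k ≤ K, RelvF F c (r + 1) ⌊a * J⌋₊ ⌊om k * J⌋₊
      (fun j => ⌊(β j a (om k) - ds k j) * J⌋₊) Dm ⌊z * J⌋₊ (Real.exp (-(ψm * J))) B₀ (Gs k) := by
    intro z hz k hk
    rcases Nat.lt_or_ge k K with h1 | h1
    · rw [dsk k h1, Gsk k h1]
      exact ((hG k h1).rlY.mono (le_max_right _ _) (hfl _ _ (hη'2.trans hz))
        (hex _ _ (hψkm k hk))).relvF
    · have h2 : k = K := by omega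
      subst h2
      rw [dsT, GsT]
      exact (hT.rlY.mono (le_max_right _ _) (hfl _ _ (hη'2.trans hz)) (hex _ _ hψTm)).relvF
  have hCh : ∀ k ≤ K, ChOK F c (r + 1) (fun _ => Dm) ⌊a * J⌋₊ ⌊om k * J⌋₊ (Es k)
      (fun j => ⌊(β j a (om k) - ds k j) * J⌋₊) B₀ (Gs k) (Hs k) := by
    intro k hk
    rcases Nat.lt_or_ge k K with h1 | h1
    · rw [dsk k h1, Gsk k h1, Hsk k h1, Esk k h1]
      exact (hG k h1).top.mono le_rfl (fun _ => hDkm k hk) le_rfl le_rfl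
    · have h2 : k = K := by omega
      subst h2
      rw [dsT, GsT, HsT, EsT]
      exact hT.top.mono le_rfl (fun _ => by omega) le_rfl le_rfl
  -- the radius
  obtain ⟨B₁, k1, k2, k3⟩ := hrad J ((le_max_left _ _).trans hJ) (F := F) (c := c) (d₀ := d₀)
    (d := ds 0) (e₀ := ⌊(E + ϱ) * (J : ℝ)⌋₊) (e := Es 0) (x := ⌊θb * (J : ℝ)⌋₊) (B₀ := B₀)
    (B' := B') (G₀ := G₀) (G := Gs 0) (H₀ := H₀) (H := Hs 0) hc
    (fun i hi => ⟨(hd₀ i hi).1, (hd₀ i hi).2.trans hτ2⟩)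
    (fun i hi => ⟨(hds 0 (Nat.zero_le _) i hi).1, (hds 0 (Nat.zero_le _) i hi).2.trans hτ2⟩) (by
      rw [Esk 0 (by omega)]
      refine (Nat.floor_le (mul_nonneg (by linarith) hJr)).trans ?_
      exact mul_le_mul_of_nonneg_right (by linarith) hJr)
    ((Nat.floor_le (by positivity)).trans (mul_le_mul_of_nonneg_right (hθb.trans hτ2) hJr))
    ((n0.rlY.mono hDrb (hfl _ _ (hηb.trans hτ2)) (hex _ _ hψ0m)).relvF) hB' hP hpos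
    ((n0.top.mono le_rfl (fun _ => by omega) le_rfl le_rfl).sub hB')
    ((hCh 0 (Nat.zero_le _)).sub hB')
    (Pool.KA.AP5.Tm_mono (hTm hpos) (mul_le_mul_of_nonneg_right hτ2 hJr))
  have hs1 : ∀ ω, B₁ ω → ∀ i, l < i → i < r + 1 →
      |eval (bt F ω) (dir (v (ptr F J ω)) (Gs 0 (ptr F J ω) i)) - v (ptr F J ω) (c i)| ≤
        2 ^ ⌊σ₁ * (J : ℝ)⌋₊ * 2 ^ ⌊(β l a₀ (om 0) + Λ - (a₀ - a)) * (J : ℝ)⌋₊ /
          2 ^ ⌊(β i a (om 0) - ds 0 i) * (J : ℝ)⌋₊ := fun ω hω =>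
    k3 ω hω (v (ptr F J ω)) (s0.nrm ω (hB' ω (k1 ω hω))).1 (s0.nrm ω (hB' ω (k1 ω hω))).2
      (fun i hli hi => s0.own ω (hB' ω (k1 ω hω)) i hli (by omega))
  -- the windows
  obtain ⟨B₂, l1, l2, l3⟩ := hwin J ((le_max_right _ _).trans hJ) (F := F) (c := c) (d := ds)
    (x := ⌊σ₁ * (J : ℝ)⌋₊) (e := Es) (w₁ := w₁) (B₀ := B₀) (B' := B₁) (G := Gs) (H := Hs) (v := v)
    (v' := v') hc hw1 (fun k hk i hi => ⟨(hds k hk i hi).1, (hds k hk i hi).2.trans hτ1⟩)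
    (Nat.floor_le (by positivity)) (hRl σ₁ hτ1)
    (fun ω h => hB' ω (k1 ω h)) (pe_div hP k2) (fun k hk => (hCh k hk).sub fun ω h => hB' ω (k1 ω h))
    (fun y i => by rw [GsT]; exact hT.top.degG y i) (fun y i => by
      rw [HsT]; exact hT.top.degH y i) (fun ω h => s0.cls ω (hB' ω (k1 ω h)))
    (fun ω h => s0.nrm ω (hB' ω (k1 ω h))) hs1
  rw [GsT, dsT] at l3
  refine ⟨B₂, fun ω h => k1 ω (l1 ω h), ?_, T, TH, ⟨hT.lst, hT.top.mono le_rfl (fun _ => le_rfl)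
    le_rfl (hfl _ _ (by linarith)), hT.rlY.mono (le_max_left _ _) (hfl _ _ hη'1) ?_⟩,
    fun ω hω i hli hi => ⟨(l3 ω hω i hli hi).1.mono (hfl _ _ (by linarith)) le_rfl, ?_⟩⟩
  · have h2 := pe_div (pe_div (κ := 1) (B₀ := B') (B' := B') (by rw [one_mul]) k2) l2
    refine le_trans (le_of_eq ?_) h2
    rw [div_div, ← pow_add]
  · exact (by
      have e1 : ψT * (1 / 4) = ψT / 4 := by ring
      rw [e1])
  · exact (l3 ω hω i hli hi).2.trans (div_le_div_of_nonneg_right (mul_le_mul_of_nonneg_left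
      (pow_le_pow_right₀ (by norm_num) (hfl _ _ (by linarith))) (by positivity)) (by positivity))

end Pool.SHR
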